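import Pool.Agent.CGS.Deg
import Pool.Agent.CGS.Irr

/-!
# The degree of an irreducible representation divides the order of the group
-/

set_option autoImplicit false

namespace Pool.Agent.CGSR

open Matrix Pool.Agent.CGS

private theorem isIntegral_trace {d : ℕ} (A : Matrix (Fin d) (Fin d) ℂ) {m : ℕ} (hm : 0 < m)
    (hA : A ^ m = 1) : IsIntegral ℤ A.trace := by
  rw [Matrix.trace_eq_sum_roots_charpoly]
  refine IsIntegral.multiset_sum fun μ hμ => ?_
  have h0 : A.charpoly.IsRoot μ := (Polynomial.mem_roots'.1 hμ).2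
  have h1 : μ ∈ spectrum ℂ A := by
    rwa [Matrix.mem_spectrum_iff_isRoot_charpoly]
  have h2 : μ ^ m ∈ spectrum ℂ (A ^ m) := spectrum.pow_mem_pow A m h1
  have h3 : μ ^ m = 1 := by
    rw [hA] at h2
    have hne : Nontrivial (Matrix (Fin d) (Fin d) ℂ) := by
      by_contra hcon
      rw [not_nontrivial_iff_subsingleton] at hcon
      rw [spectrum.of_subsingleton] at h2
      exact h2
    rw [spectrum.one_eq] at h2
    exact h2
  exact IsIntegral.of_pow hm (by rw [h3]; exact isIntegral_one)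

private theorem avg {G : Type} [Group G] [Fintype G] {d : ℕ} {ρ : Rep G d} (h : IsIrr ρ)
    (A : Matrix (Fin d) (Fin d) ℂ) :
    ∑ g, mat ρ g * A * mat ρ g⁻¹ = ((Fintype.card G : ℂ) * A.trace / d) • 1 := by
  have h1 : ∀ s, (∑ g, mat ρ g * A * mat ρ g⁻¹) * mat ρ s =
      mat ρ s * ∑ g, mat ρ g * A * mat ρ g⁻¹ := by
    intro s
    rw [Finset.sum_mul, Finset.mul_sum]
    refine (Fintype.sum_equiv (Equiv.mulLeft s) _ _ fun g => ?_).symm
    rw [Equiv.coe_mulLeft, _root_.mul_inv_rev, mat_mul, mat_mul]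
    have h2 := mat_inv_mul ρ s
    simp only [mul_assoc, h2, mul_one]
  obtain ⟨c, hc⟩ := schur h _ h1
  have hd : (d : ℂ) ≠ 0 := by exact_mod_cast h.pos.ne'
  have h2 := congrArg Matrix.trace hc
  rw [Matrix.trace_sum, Matrix.trace_smul, Matrix.trace_one, Fintype.card_fin, smul_eq_mul] at h2
  have h3 : ∀ g : G, (mat ρ g * A * mat ρ g⁻¹).trace = A.trace := by
    intro g
    rw [Matrix.trace_mul_comm, ← mul_assoc, mat_inv_mul, one_mul]
  rw [Finset.sum_congr rfl fun g _ => h3 g, Finset.sum_const, Finset.card_univ,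
    nsmul_eq_mul] at h2
  rw [hc, h2, mul_div_assoc, div_self hd, mul_one]

private theorem sum_chi {G : Type} [Group G] [Fintype G] {d : ℕ} {ρ : Rep G d} (h : IsIrr ρ) :
    ∑ g, (mat ρ g⁻¹).trace • mat ρ g = ((Fintype.card G : ℂ) / d) • 1 := by
  ext i j
  have h1 : ∀ a : Fin d, ∑ g, mat ρ g i j * mat ρ g⁻¹ a a =
      if i = j ∧ i = a then (Fintype.card G : ℂ) / d else 0 := by
    intro a
    have h2 := congrFun (congrFun (avg h (Matrix.single j a 1)) i) a
    rw [Matrix.sum_apply] at h2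
    have h3 : ∀ g : G, (mat ρ g * Matrix.single j a (1 : ℂ) * mat ρ g⁻¹) i a =
        mat ρ g i j * mat ρ g⁻¹ a a := by
      intro g
      rw [Matrix.mul_apply, Finset.sum_eq_single a]
      · rw [Matrix.mul_single_apply_same, mul_one]
      · intro b _ hb
        rw [Matrix.mul_single_apply_of_ne _ _ _ _ _ hb, zero_mul]
      · intro ha
        exact absurd (Finset.mem_univ a) ha
    rw [Finset.sum_congr rfl fun g _ => h3 g] at h2
    rw [h2, Matrix.smul_apply, Matrix.one_apply, smul_eq_mul]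
    by_cases hja : j = a
    · subst hja
      rw [Matrix.trace_single_eq_same, mul_one]
      by_cases hij : i = j
      · rw [if_pos hij, if_pos ⟨hij, hij⟩, mul_one]
      · rw [if_neg hij, if_neg fun h => hij h.1, mul_zero]
    · rw [Matrix.trace_single_eq_of_ne _ _ _ hja, mul_zero, zero_div, zero_mul, if_neg]
      rintro ⟨h5, h6⟩
      exact hja (h5.symm.trans h6)
  rw [Matrix.sum_apply, Matrix.smul_apply, Matrix.one_apply, smul_eq_mul]
  have h2 : ∀ g : G, ((mat ρ g⁻¹).trace • mat ρ g) i j = ∑ a, mat ρ g i j * mat ρ g⁻¹ a a := by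
    intro g
    rw [Matrix.smul_apply, smul_eq_mul, Matrix.trace, Finset.sum_mul]
    refine Finset.sum_congr rfl fun a _ => ?_
    rw [Matrix.diag_apply, mul_comm]
  rw [Finset.sum_congr rfl fun g _ => h2 g, Finset.sum_comm,
    Finset.sum_congr rfl fun a _ => h1 a]
  by_cases hij : i = j
  · rw [if_pos hij, mul_one, Finset.sum_eq_single i]
    · rw [if_pos ⟨hij, rfl⟩]
    · intro b _ hb
      rw [if_neg fun h => hb h.2.symm]
    · intro ha
      exact absurd (Finset.mem_univ i) ha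
  · rw [if_neg hij, mul_zero]
    refine Finset.sum_eq_zero fun a _ => ?_
    rw [if_neg fun h => hij h.1]

theorem deg_dvd {G : Type} [Group G] [Finite G] {d : ℕ} {ρ : Rep G d} (h : IsIrr ρ) :
    d ∣ Nat.card G := by
  have hfin : Fintype G := Fintype.ofFinite G
  have hd := h.pos
  have hint : ∀ s, IsIntegral ℤ (mat ρ s).trace := fun s => by
    refine isIntegral_trace (mat ρ s) (m := Fintype.card G) Fintype.card_pos ?_
    rw [← mat_pow, pow_card_eq_one, mat_one]
  let f : G →* Matrix (Fin d) (Fin d) ℂ :=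
    { toFun := mat ρ
      map_one' := mat_one ρ
      map_mul' := mat_mul ρ }
  let F : MonoidAlgebra (integralClosure ℤ ℂ) G →ₐ[integralClosure ℤ ℂ]
      Matrix (Fin d) (Fin d) ℂ := MonoidAlgebra.lift (integralClosure ℤ ℂ) _ G f
  let z : MonoidAlgebra (integralClosure ℤ ℂ) G :=
    ∑ g : G, MonoidAlgebra.single g ⟨(mat ρ g⁻¹).trace, hint g⁻¹⟩
  have hz : IsIntegral (integralClosure ℤ ℂ) z := IsIntegral.of_finite _ z
  have hFz : F z = algebraMap ℂ (Matrix (Fin d) (Fin d) ℂ) ((Fintype.card G : ℂ) / d) := by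
    rw [map_sum, Algebra.algebraMap_eq_smul_one, ← sum_chi h]
    refine Finset.sum_congr rfl fun g _ => ?_
    rw [MonoidAlgebra.lift_single]
    rfl
  have h1 := hz.map F
  rw [hFz] at h1
  have hne : Nonempty (Fin d) := ⟨⟨0, hd⟩⟩
  have h2 : IsIntegral (integralClosure ℤ ℂ) ((Fintype.card G : ℂ) / d) :=
    (isIntegral_algebraMap_iff (algebraMap ℂ (Matrix (Fin d) (Fin d) ℂ)).injective).1 h1
  have h3 : IsIntegral ℤ ((Fintype.card G : ℂ) / d) := isIntegral_trans _ h2
  have h4 : ((Fintype.card G : ℂ) / d) = algebraMap ℚ ℂ ((Fintype.card G : ℚ) / d) := by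
    rw [map_div₀, map_natCast, map_natCast]
  rw [h4, isIntegral_algebraMap_iff (algebraMap ℚ ℂ).injective,
    IsIntegrallyClosed.isIntegral_iff] at h3
  obtain ⟨y, hy⟩ := h3
  rw [Nat.card_eq_fintype_card]
  have hd' : (d : ℚ) ≠ 0 := by exact_mod_cast hd.ne'
  have h5 : (Fintype.card G : ℚ) = ((d * y : ℤ) : ℚ) := by
    rw [eq_intCast] at hy
    push_cast
    rw [hy]
    field_simp
  have h6 : (Fintype.card G : ℤ) = d * y := by exact_mod_cast h5
  exact_mod_cast (Dvd.intro y h6.symm : (d : ℤ) ∣ Fintype.card G)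

end Pool.Agent.CGSR
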