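import Mathlib

/-!
# A group of odd order with an action of a group which maps onto `S_3`

`V` is a finite commutative group of odd order prime to 3, `t` an automorphism with `t ^ 3 = 1`,
`s` an automorphism of order a power of 2 with `s t s⁻¹ = t⁻¹`. Then
`|V| ≡ |{v | t v = v}| (mod 4)`. The same for an automorphism `t` of odd prime order.
-/

set_option autoImplicit false

namespace Pool.Agent.CGSR

/-- a permutation of 2-power order whose square has no fixed point -/
private theorem Vsq_perm {X : Type*} [Finite X] (σ : Equiv.Perm X) {k : ℕ} (hk : σ ^ 2 ^ k = 1)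
    (h : ∀ x, σ (σ x) ≠ x) : 4 ∣ Nat.card X := by
  classical
  have := Fintype.ofFinite X
  have h1 : σ.support = Finset.univ := by
    rw [Finset.eq_univ_iff_forall]
    intro x
    rw [Equiv.Perm.mem_support]
    intro hx
    exact h x (by rw [hx, hx])
  rw [Nat.card_eq_fintype_card, ← Finset.card_univ, ← h1, ← Equiv.Perm.sum_cycleType]
  refine Multiset.dvd_sum fun n hn => ?_
  have h2 : n ∣ 2 ^ k :=
    (Equiv.Perm.dvd_of_mem_cycleType hn).trans (orderOf_dvd_of_pow_eq_one hk)
  obtain ⟨j, -, rfl⟩ := (Nat.dvd_prime_pow Nat.prime_two).1 h2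
  have h3 := Equiv.Perm.two_le_of_mem_cycleType hn
  rcases j with _ | _ | j
  · norm_num at h3
  · exfalso
    rw [Equiv.Perm.cycleType_def, Multiset.mem_map] at hn
    obtain ⟨c, hc, hc2⟩ := hn
    have hc' : c ∈ σ.cycleFactorsFinset := hc
    rw [Equiv.Perm.mem_cycleFactorsFinset_iff] at hc'
    obtain ⟨hcyc, hcs⟩ := hc'
    have hcard : c.support.card = 2 := by simpa using hc2
    obtain ⟨x, y, hxy, rfl⟩ := Equiv.Perm.card_support_eq_two.1 hcard
    have hx : x ∈ (Equiv.swap x y).support := by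
      rw [Equiv.Perm.support_swap hxy]
      simp
    have hy : y ∈ (Equiv.swap x y).support := by
      rw [Equiv.Perm.support_swap hxy]
      simp
    have e1 := hcs x hx
    have e2 := hcs y hy
    rw [Equiv.swap_apply_left] at e1
    rw [Equiv.swap_apply_right] at e2
    exact h x (by rw [← e1, ← e2])
  · exact ⟨2 ^ j, by ring⟩

private theorem Vsq_inj {V : Type*} [CommGroup V] [Finite V] (h2 : Odd (Nat.card V)) {v : V}
    (hv : v * v = 1) : v = 1 := by
  have h3 : orderOf v ∣ 2 := orderOf_dvd_of_pow_eq_one (by rw [pow_two, hv])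
  have h4 : orderOf v ∣ Nat.card V := orderOf_dvd_natCard v
  have h5 : orderOf v ∣ 1 := by
    have := Nat.dvd_gcd h3 h4
    rwa [Nat.Coprime.gcd_eq_one (Nat.coprime_two_left.2 h2)] at this
  exact orderOf_eq_one_iff.1 (Nat.dvd_one.1 h5)

private theorem Vsq_sqrt {V : Type*} [CommGroup V] [Finite V] (h2 : Odd (Nat.card V)) (v : V) :
    ∃ r : V, r * r = v := by
  have h3 : Function.Injective fun v : V => v * v := by
    intro a b hab
    have h4 : a / b * (a / b) = 1 := by
      rw [div_mul_div_comm]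
      exact div_eq_one.2 hab
    exact div_eq_one.1 (Vsq_inj h2 h4)
  exact (Finite.surjective_of_injective h3) v

/-- the eigenspaces of `s` for the eigenvalues `1`, `-1` -/
private def Vsq_p {V : Type*} [CommGroup V] (s : V →* V) : Subgroup V where
  carrier := {v | s v = v}
  mul_mem' {a b} ha hb := by
    change s (a * b) = a * b
    rw [map_mul, show s a = a from ha, show s b = b from hb]
  one_mem' := map_one s
  inv_mem' {a} ha := by
    change s a⁻¹ = a⁻¹
    rw [map_inv, show s a = a from ha]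

private def Vsq_m {V : Type*} [CommGroup V] (s : V →* V) : Subgroup V where
  carrier := {v | s v = v⁻¹}
  mul_mem' {a b} ha hb := by
    change s (a * b) = (a * b)⁻¹
    rw [map_mul, show s a = a⁻¹ from ha, show s b = b⁻¹ from hb, mul_inv]
  one_mem' := by
    change s 1 = 1⁻¹
    rw [map_one, inv_one]
  inv_mem' {a} ha := by
    change s a⁻¹ = a⁻¹⁻¹
    rw [map_inv, show s a = a⁻¹ from ha]

/-- `|{v | s (s v) = v}| = |V⁺| |V⁻|` -/
private theorem Vsq_two {V : Type*} [CommGroup V] [Finite V] (h2 : Odd (Nat.card V))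
    (s : V →* V) :
    Nat.card {v : V // s (s v) = v} = Nat.card (Vsq_p s) * Nat.card (Vsq_m s) := by
  rw [← Nat.card_prod]
  refine (Nat.card_congr (Equiv.ofBijective
    (fun x : Vsq_p s × Vsq_m s => (⟨(x.1 : V) * (x.2 : V), ?_⟩ : {v : V // s (s v) = v})) ?_)).symm
  · have h3 : s (x.1 : V) = x.1 := x.1.2
    have h4 : s (x.2 : V) = (x.2 : V)⁻¹ := x.2.2
    simp only [map_mul, map_inv, h3, h4, inv_inv]
  · constructor
    · rintro ⟨a, b⟩ ⟨a', b'⟩ hab
      have h3 : (a : V) * b = a' * b' := congrArg Subtype.val hab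
      have ha : s (a : V) = a := a.2
      have ha' : s (a' : V) = a' := a'.2
      have hb : s (b : V) = (b : V)⁻¹ := b.2
      have hb' : s (b' : V) = (b' : V)⁻¹ := b'.2
      have h4 : (a : V) / a' = b' / b := by
        rw [div_eq_div_iff_mul_eq_mul, h3, mul_comm]
      have h5 : (a : V) / a' = 1 := by
        refine Vsq_inj h2 ?_
        have h6 : s ((a : V) / a') = a / a' := by rw [map_div, ha, ha']
        have h7 : s ((a : V) / a') = ((a : V) / a')⁻¹ := by
          rw [h4, map_div, hb, hb', inv_div_inv, inv_div]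
        rw [h6] at h7
        nth_rewrite 1 [h7]
        exact inv_mul_cancel _
      have h6 : (a : V) = a' := div_eq_one.1 h5
      have h7 : (b : V) = b' := by
        rw [h6] at h3
        exact mul_left_cancel h3
      rw [Prod.mk.injEq]
      exact ⟨Subtype.ext h6, Subtype.ext h7⟩
    · rintro ⟨w, hw⟩
      obtain ⟨r, rfl⟩ := Vsq_sqrt h2 w
      have hr : s (s r) = r := by
        have h3 : s (s r) / r * (s (s r) / r) = 1 := by
          rw [div_mul_div_comm, ← map_mul, ← map_mul, hw, div_self']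
        exact div_eq_one.1 (Vsq_inj h2 h3)
      refine ⟨⟨⟨r * s r, ?_⟩, ⟨r / s r, ?_⟩⟩, ?_⟩
      · change s (r * s r) = r * s r
        rw [map_mul, hr, mul_comm]
      · change s (r / s r) = (r / s r)⁻¹
        rw [map_div, hr, inv_div]
      · apply Subtype.ext
        change r * s r * (r / s r) = r * r
        rw [mul_div_assoc', mul_comm (r * s r) r, ← mul_assoc, mul_div_cancel_right]

/-- an automorphism `t` without fixed points, inverted by an automorphism `s` of 2-power order -/
private theorem Vsq_one {V : Type*} [CommGroup V] [Finite V] (h2 : Odd (Nat.card V))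
    (s t : MulAut V) (hst : s * t * s⁻¹ = t⁻¹) {k : ℕ} (hs : s ^ 2 ^ k = 1)
    (e3 : ∀ v, t v = t⁻¹ v → v = 1) : Nat.card V ≡ 1 [MOD 4] := by
  classical
  have e1 : ∀ v, s (t v) = t⁻¹ (s v) := by
    intro v
    have h3 : (s * t * s⁻¹) (s v) = t⁻¹ (s v) := by rw [hst]
    rw [← h3]
    simp
  have e2 : ∀ v, s (t⁻¹ v) = t (s v) := by
    intro v
    have h3 := e1 (t⁻¹ v)
    have h4 : t (t⁻¹ v) = v := by simp
    rw [h4] at h3
    rw [h3]
    simp
  have hsp : ∀ v, (s : MulAut V).toMonoidHom v = s v := fun v => rfl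
  -- the two maps
  let δ : V →* V := (t : MulAut V).toMonoidHom / (t⁻¹ : MulAut V).toMonoidHom
  have hδ : ∀ v, δ v = t v / t⁻¹ v := fun v => rfl
  have hδi : Function.Injective δ := by
    rw [injective_iff_map_eq_one]
    intro v hv
    rw [hδ] at hv
    exact e3 v (div_eq_one.1 hv)
  have hc1 : Nat.card (Vsq_p s.toMonoidHom) ≤ Nat.card (Vsq_m s.toMonoidHom) := by
    refine Nat.card_le_card_of_injective
      (fun a : Vsq_p s.toMonoidHom => (⟨δ a, ?_⟩ : Vsq_m s.toMonoidHom)) ?_
    · have ha : s (a : V) = a := a.2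
      change s (δ a) = (δ a)⁻¹
      rw [hδ, map_div, e1, e2, ha, inv_div]
    · intro a b hab
      exact Subtype.ext (hδi (congrArg Subtype.val hab))
  have hc2 : Nat.card (Vsq_m s.toMonoidHom) ≤ Nat.card (Vsq_p s.toMonoidHom) := by
    refine Nat.card_le_card_of_injective
      (fun a : Vsq_m s.toMonoidHom => (⟨δ a, ?_⟩ : Vsq_p s.toMonoidHom)) ?_
    · have ha : s (a : V) = (a : V)⁻¹ := a.2
      change s (δ a) = δ a
      rw [hδ, map_div, e1, e2, ha, map_inv, map_inv, inv_div_inv]
    · intro a b hab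
      exact Subtype.ext (hδi (congrArg Subtype.val hab))
  have h3 : Nat.card {v : V // s (s v) = v} ≡ 1 [MOD 4] := by
    have h4 := Vsq_two h2 s.toMonoidHom
    rw [le_antisymm hc2 hc1] at h4
    have h5 : Nat.card {v : V // s (s v) = v} = _ := h4
    rw [h5]
    have h6 : Odd (Nat.card (Vsq_p s.toMonoidHom)) :=
      Odd.of_dvd_nat h2 (Subgroup.card_subgroup_dvd_card _)
    obtain ⟨m, hm⟩ := h6
    rw [hm]
    refine (Nat.modEq_iff_dvd' (by nlinarith)).2 ⟨m * m + m, ?_⟩ |>.symm
    have : (2 * m + 1) * (2 * m + 1) = 4 * (m * m + m) + 1 := by ring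
    omega
  have h4 : 4 ∣ Nat.card {v : V // ¬ s (s v) = v} := by
    have hstab : ∀ v, ¬ s (s v) = v ↔ ¬ s (s (s v)) = s v := fun v =>
      not_congr (s.injective.eq_iff).symm
    refine Vsq_perm ((s : V ≃* V).toEquiv.subtypeEquiv hstab) (k := k) ?_ ?_
    · ext1 x
      apply Subtype.ext
      have h5 : ∀ (n : ℕ) (y : {v : V // ¬ s (s v) = v}),
          (((((s : V ≃* V).toEquiv.subtypeEquiv hstab : Equiv.Perm {v : V // ¬ s (s v) = v}) ^ n)
            y : {v : V // ¬ s (s v) = v}) : V) = (s ^ n) (y : V) := by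
        intro n
        induction n with
        | zero => exact fun _ => rfl
        | succ n ih =>
          intro y
          rw [pow_succ, pow_succ, Equiv.Perm.mul_apply, ih]
          rfl
      rw [h5, hs]
      rfl
    · intro x hx
      exact x.2 (congrArg Subtype.val hx)
  have h5 : Nat.card V = Nat.card {v : V // s (s v) = v} +
      Nat.card {v : V // ¬ s (s v) = v} := by
    rw [← Nat.card_sum]
    exact (Nat.card_congr (Equiv.sumCompl fun v => s (s v) = v)).symm
  rw [h5]
  obtain ⟨c, hc⟩ := h4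
  rw [hc]
  unfold Nat.ModEq at h3 ⊢
  omega

/-- restriction of an automorphism to a stable subgroup -/
private noncomputable def Vsq_res {V : Type*} [CommGroup V] [Finite V] (W : Subgroup V)
    (s : MulAut V) (h : ∀ w ∈ W, s w ∈ W) : MulAut W :=
  MulEquiv.ofBijective
    (((s : V ≃* V).toMonoidHom.comp W.subtype).codRestrict W fun w => h w w.2)
    ((Finite.injective_iff_bijective).1 fun _ _ hab =>
      Subtype.ext (s.injective (congrArg Subtype.val hab)))

private theorem Vsq_res_apply {V : Type*} [CommGroup V] [Finite V] (W : Subgroup V)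
    (s : MulAut V) (h : ∀ w ∈ W, s w ∈ W) (w : W) : ((Vsq_res W s h w : W) : V) = s w := rfl

private theorem Vsq_res_pow {V : Type*} [CommGroup V] [Finite V] (W : Subgroup V)
    (s : MulAut V) (h : ∀ w ∈ W, s w ∈ W) (n : ℕ) (w : W) :
    (((Vsq_res W s h) ^ n) w : V) = (s ^ n) (w : V) := by
  induction n generalizing w with
  | zero => rfl
  | succ n ih =>
    rw [pow_succ, pow_succ, MulAut.mul_apply, ih]
    rfl

/-- the image of `t - 1` has order `1` modulo 4 -/
theorem vsq_range_gen {V : Type*} [CommGroup V] [Finite V] (s t : MulAut V) {q : ℕ}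
    (hq : q.Prime) (hq2 : q ≠ 2) (ht : t ^ q = 1) (hst : s * t * s⁻¹ = t⁻¹) {k : ℕ}
    (hs : s ^ 2 ^ k = 1) (h2 : Odd (Nat.card V)) (h3 : ¬ q ∣ Nat.card V) :
    ∃ w : ℕ, Nat.card V = Nat.card {v // t v = v} * w ∧ w ≡ 1 [MOD 4] := by
  have e1 : ∀ v, s (t v) = t⁻¹ (s v) := by
    intro v
    have h3 : (s * t * s⁻¹) (s v) = t⁻¹ (s v) := by rw [hst]
    rw [← h3]
    simp
  let f : V →* V := (t : V ≃* V).toMonoidHom / MonoidHom.id V
  have hf : ∀ v, f v = t v / v := fun v => rfl
  have hker : Nat.card f.ker = Nat.card {v // t v = v} := by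
    refine Nat.card_congr (Equiv.subtypeEquivRight fun v => ?_)
    rw [MonoidHom.mem_ker, hf, div_eq_one]
  have hcard : Nat.card V = Nat.card {v // t v = v} * Nat.card f.range := by
    rw [Subgroup.card_eq_card_quotient_mul_card_subgroup f.ker, hker,
      Nat.card_congr (QuotientGroup.quotientKerEquivRange f).toEquiv, mul_comm]
  refine ⟨Nat.card f.range, hcard, ?_⟩
  have ht' : ∀ w ∈ f.range, t w ∈ f.range := by
    rintro w ⟨v, rfl⟩
    exact ⟨t v, by rw [hf, hf, map_div]⟩
  have hs' : ∀ w ∈ f.range, s w ∈ f.range := by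
    rintro w ⟨v, rfl⟩
    refine ⟨(t⁻¹ (s v))⁻¹, ?_⟩
    have h4 : t (t⁻¹ (s v)) = s v := by simp
    rw [hf, hf, map_inv, h4, map_div, e1, inv_div_inv]
  have hfix : ∀ w ∈ f.range, t w = w → w = 1 := by
    rintro w ⟨v, hv⟩ h4
    have h5 : ∀ n : ℕ, (t ^ n) v = w ^ n * v := by
      intro n
      induction n with
      | zero => rw [pow_zero, pow_zero, one_mul, MulAut.one_apply]
      | succ n ih =>
        have h6 : t v = w * v := by
          rw [← hv, hf, div_mul_cancel]
        rw [pow_succ', MulAut.mul_apply, ih, map_mul, map_pow, h4, h6, pow_succ, mul_assoc]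
    have h6 : w ^ q = 1 := by
      have h7 := h5 q
      rw [ht, MulAut.one_apply] at h7
      exact (mul_eq_right.1 h7.symm)
    have h7 : orderOf w ∣ q := orderOf_dvd_of_pow_eq_one h6
    rcases (Nat.dvd_prime hq).1 h7 with h8 | h8
    · exact orderOf_eq_one_iff.1 h8
    · exfalso
      apply h3
      rw [← h8]
      exact orderOf_dvd_natCard w
  refine Vsq_one (Odd.of_dvd_nat h2 (Subgroup.card_subgroup_dvd_card _)) (Vsq_res _ s hs')
    (Vsq_res _ t ht') (k := k) ?_ ?_ ?_
  · rw [mul_inv_eq_iff_eq_mul, eq_inv_mul_iff_mul_eq]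
    ext1 w
    apply Subtype.ext
    change t (s (t w)) = s w
    rw [e1]
    simp
  · ext1 w
    apply Subtype.ext
    rw [Vsq_res_pow, hs]
    rfl
  · intro w hw'
    apply Subtype.ext
    refine hfix w w.2 ?_
    have h4 : t (t w) = w := by
      have h5 : Vsq_res _ t ht' (Vsq_res _ t ht' w) = w := by
        rw [hw', MulAut.apply_inv_self]
      exact congrArg Subtype.val h5
    obtain ⟨j, hj⟩ := hq.odd_of_ne_two hq2
    have h5 : ∀ i : ℕ, (t ^ (2 * i)) (w : V) = w := by
      intro i
      induction i with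
      | zero => rfl
      | succ i ih =>
        rw [show 2 * (i + 1) = 2 * i + 1 + 1 by ring, pow_succ, pow_succ, MulAut.mul_apply,
          MulAut.mul_apply, h4, ih]
    have h6 : (t ^ q) (w : V) = t w := by
      rw [hj, pow_succ', MulAut.mul_apply, h5]
    rw [ht, MulAut.one_apply] at h6
    exact h6.symm

theorem vsq_gen {V : Type*} [CommGroup V] [Finite V] (s t : MulAut V) {q : ℕ}
    (hq : q.Prime) (hq2 : q ≠ 2) (ht : t ^ q = 1) (hst : s * t * s⁻¹ = t⁻¹) {k : ℕ}
    (hs : s ^ 2 ^ k = 1) (h2 : Odd (Nat.card V)) (h3 : ¬ q ∣ Nat.card V) :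
    Nat.card V ≡ Nat.card {v // t v = v} [MOD 4] := by
  obtain ⟨w, hw, h4⟩ := vsq_range_gen s t hq hq2 ht hst hs h2 h3
  rw [hw]
  simpa using h4.mul_left (Nat.card {v // t v = v})

theorem vsq {V : Type*} [CommGroup V] [Finite V] (s t : MulAut V) (ht : t ^ 3 = 1)
    (hst : s * t * s⁻¹ = t⁻¹) {k : ℕ} (hs : s ^ 2 ^ k = 1) (h2 : Odd (Nat.card V))
    (h3 : ¬ 3 ∣ Nat.card V) : Nat.card V ≡ Nat.card {v // t v = v} [MOD 4] :=
  vsq_gen s t Nat.prime_three (by norm_num) ht hst hs h2 h3

/-- the fixed points of an automorphism of odd prime order, if `|V|` is even and the number of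
fixed points is odd -/
theorem four_dvd_card {V : Type*} [CommGroup V] [Finite V] (t : MulAut V) {q : ℕ}
    (hq : q.Prime) (ht : t ^ q = 1) (h : Odd (Nat.card {v // t v = v}))
    (hV : 2 ∣ Nat.card V) : 4 ∣ Nat.card V := by
  classical
  have : Fact q.Prime := ⟨hq⟩
  have : Fact (Nat.Prime 2) := ⟨Nat.prime_two⟩
  let U : Subgroup V := (powMonoidHom 2 : V →* V).ker
  have hU : ∀ v, v ∈ U ↔ v ^ 2 = 1 := fun v => MonoidHom.mem_ker
  have := Fintype.ofFinite U
  let F : Subgroup V :=
    { carrier := {v | t v = v}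
      mul_mem' := fun {a b} ha hb => by
        change t (a * b) = a * b
        rw [map_mul, show t a = a from ha, show t b = b from hb]
      one_mem' := map_one t
      inv_mem' := fun {a} ha => by
        change t a⁻¹ = a⁻¹
        rw [map_inv, show t a = a from ha] }
  have hF : Odd (Nat.card F) := h
  have htU : ∀ u : U, t (u : V) ∈ U := by
    intro u
    rw [hU, ← map_pow, (hU _).1 u.2, map_one]
  let g : Function.End U := fun u => ⟨t u, htU u⟩
  have hg : ∀ n : ℕ, ∀ u : U, (((g ^ n) u : U) : V) = (t ^ n) (u : V) := by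
    intro n
    induction n with
    | zero => exact fun _ => rfl
    | succ n ih =>
      intro u
      rw [pow_succ, pow_succ, MulAut.mul_apply]
      exact ih (g u)
  have hgq : g ^ q ^ 1 = 1 := by
    funext u
    apply Subtype.ext
    rw [pow_one, hg, ht]
    rfl
  have h1 := Equiv.Perm.card_fixedPoints_modEq hgq
  have h2 : Fintype.card g.fixedPoints = 1 := by
    rw [Fintype.card_eq_one_iff]
    refine ⟨⟨1, Subtype.ext (map_one t)⟩, ?_⟩
    rintro ⟨u, hu⟩
    apply Subtype.ext
    apply Subtype.ext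
    change (u : V) = 1
    have h3 : t (u : V) = u := congrArg Subtype.val hu
    have h4 : (⟨(u : V), h3⟩ : F) = 1 := by
      have h5 : orderOf (⟨(u : V), h3⟩ : F) ∣ 2 := orderOf_dvd_of_pow_eq_one
        (Subtype.ext ((hU _).1 u.2))
      have h6 : orderOf (⟨(u : V), h3⟩ : F) ∣ Nat.card F := orderOf_dvd_natCard _
      have h7 := Nat.dvd_gcd h5 h6
      rw [Nat.Coprime.gcd_eq_one (Nat.coprime_two_left.2 hF)] at h7
      exact orderOf_eq_one_iff.1 (Nat.dvd_one.1 h7)
    exact congrArg Subtype.val h4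
  rw [h2, ← Nat.card_eq_fintype_card] at h1
  have hp : IsPGroup 2 U := fun u => ⟨1, Subtype.ext (by
    rw [pow_one]
    exact (hU _).1 u.2)⟩
  obtain ⟨k, hk⟩ := IsPGroup.iff_card.1 hp
  have h3 : Nat.card U ∣ Nat.card V := Subgroup.card_subgroup_dvd_card U
  refine Dvd.dvd.trans ?_ h3
  rw [hk]
  have hqo := hq.two_le
  rcases k with _ | _ | k
  · exfalso
    obtain ⟨x, hx⟩ := exists_prime_orderOf_dvd_card' (G := V) 2 hV
    have h4 : x ∈ U := by
      rw [hU, ← hx, pow_orderOf_eq_one]
    have h5 : (⟨x, h4⟩ : U) = 1 := by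
      have h6 : Nat.card U = 1 := by rw [hk, pow_zero]
      have := (Nat.card_eq_one_iff_unique.1 h6).1
      exact Subsingleton.elim _ _
    have h6 : x = 1 := congrArg Subtype.val h5
    rw [h6, orderOf_one] at hx
    omega
  · exfalso
    rw [hk, zero_add, pow_one] at h1
    have h4 : 1 ≡ 2 [MOD q] := h1.symm
    have h5 := (Nat.modEq_iff_dvd' (by norm_num)).1 h4
    exact hq.one_lt.ne' (Nat.dvd_one.1 h5)
  · exact ⟨2 ^ k, by ring⟩

end Pool.Agent.CGSR
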