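import Pool.Agent.CGSR.Four
import Pool.Agent.CGSR.DegDvd
import Pool.Agent.CGSR.Vsq
import Pool.Agent.CGS.VM3
import Pool.Agent.CGS.VA3

/-!
# The number of classes of degree three of the 2-residual of a soluble group

`N_three_res`: let `G` be soluble, `3` divides `|G|`, `9` does not divide `|G|`, `3` does not divide
`|G : G'|`, and let `A` be the 2-residual of `G`. Then the number of classes of degree three of `A`
is odd or divisible by four.
-/

set_option autoImplicit false

namespace Pool.Agent.CGSR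

open Matrix Pool.Agent.CGS
open scoped commutatorElement

private theorem AGlue_irr {G : Type} [Group G] (ρ : Rep G 1) : IsIrr ρ := by
  refine ⟨Nat.one_pos, ?_⟩
  rw [eq_top_iff]
  intro A _
  have h : A = A 0 0 • mat ρ 1 := by
    rw [mat_one]
    ext i j
    rw [Subsingleton.elim i 0, Subsingleton.elim j 0]
    simp
  rw [h]
  exact Submodule.smul_mem _ _ (Submodule.subset_span ⟨1, rfl⟩)

private theorem AGlue_entry {G : Type} [Group G] (ρ : Rep G 1) (g : G) :
    mat ρ g 0 0 = ((Matrix.GeneralLinearGroup.det (ρ g) : ℂˣ) : ℂ) := by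
  rw [Matrix.GeneralLinearGroup.val_det_apply, Matrix.det_fin_one]
  rfl

private theorem AGlue_det_sim {G : Type} [Group G] {ρ σ : Rep G 1} (h : Sim ρ σ) :
    Matrix.GeneralLinearGroup.det.comp ρ = Matrix.GeneralLinearGroup.det.comp σ := by
  obtain ⟨P, hP⟩ := h
  refine MonoidHom.ext fun g => Units.ext ?_
  have h1 := congrArg Matrix.det (hP g)
  rw [Matrix.det_mul, Matrix.det_mul, mul_comm] at h1
  exact mul_right_cancel₀ ((Matrix.isUnit_iff_isUnit_det _).1 P.isUnit).ne_zero h1

private theorem AGlue_sim_det {G : Type} [Group G] {ρ σ : Rep G 1}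
    (h : Matrix.GeneralLinearGroup.det.comp ρ = Matrix.GeneralLinearGroup.det.comp σ) :
    ρ = σ := by
  refine rep_ext fun g => ?_
  ext i j
  rw [Subsingleton.elim i 0, Subsingleton.elim j 0, AGlue_entry, AGlue_entry]
  exact congrArg Units.val (DFunLike.congr_fun h g)

/-- the linear character of a class of degree one -/
private noncomputable def AGlue_F (G : Type) [Group G] : Cls G 1 → (G →* ℂˣ) :=
  Quotient.lift (s := irrSetoid G 1) (fun ρ => Matrix.GeneralLinearGroup.det.comp ρ.1)
    (fun _ _ h => AGlue_det_sim h)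

private theorem AGlue_F_mk {G : Type} [Group G] (ρ : Rep G 1) (h : IsIrr ρ) :
    AGlue_F G (mk ρ h) = Matrix.GeneralLinearGroup.det.comp ρ := rfl

private theorem AGlue_bij (G : Type) [Group G] : Function.Bijective (AGlue_F G) := by
  refine ⟨fun c => ?_, fun χ => ?_⟩
  · refine cls_ind (q := fun c => ∀ ⦃c' : Cls G 1⦄, AGlue_F G c = AGlue_F G c' → c = c')
      (fun ρ hρ c' => ?_) c
    refine cls_ind (q := fun c' => AGlue_F G (mk ρ hρ) = AGlue_F G c' → mk ρ hρ = c')
      (fun σ hσ h => ?_) c'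
    rw [AGlue_F_mk, AGlue_F_mk] at h
    rw [mk_eq, AGlue_sim_det h]
    exact Sim.refl _
  · let f : G →* Matrix (Fin 1) (Fin 1) ℂ :=
      ((Matrix.scalar (Fin 1) : ℂ →+* Matrix (Fin 1) (Fin 1) ℂ) :
        ℂ →* Matrix (Fin 1) (Fin 1) ℂ).comp
        ((Units.coeHom ℂ).comp χ)
    refine ⟨mk (ofMat f) (AGlue_irr _), ?_⟩
    rw [AGlue_F_mk]
    refine MonoidHom.ext fun g => Units.ext ?_
    have h1 := AGlue_entry (ofMat f) g
    rw [mat_ofMat] at h1
    change ((Matrix.GeneralLinearGroup.det (ofMat f g) : ℂˣ) : ℂ) = _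
    rw [← h1]
    simp [f]

/-- invariant classes of degree one are invariant linear characters -/
theorem NI_one {B : Type} [Group B] (L : Subgroup B) [L.Normal] :
    NI L 1 = Nat.card {χ : L →* ℂˣ // ∀ (s : B) (x : L), χ (MulAut.conjNormal s x) = χ x} := by
  refine Nat.card_congr (Equiv.subtypeEquiv (Equiv.ofBijective _ (AGlue_bij L)) fun c => ?_)
  refine cls_ind (q := fun c => InvC L c ↔ ∀ (s : B) (x : L),
    (Equiv.ofBijective _ (AGlue_bij L) c) (MulAut.conjNormal s x) =
      (Equiv.ofBijective _ (AGlue_bij L) c) x) (fun τ hτ => ?_) c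
  rw [invC_mk]
  constructor
  · intro h s x
    exact DFunLike.congr_fun (AGlue_det_sim (h s)) x
  · intro h s
    have h1 : cj L s τ = τ := AGlue_sim_det (MonoidHom.ext fun x => h s x)
    rw [h1]
    exact Sim.refl _

/-- a central subgroup of order `q`, where `q ^ 2` does not divide the order -/
private theorem AGlue_central {K : Type} [Group K] [Finite K] {q : ℕ} (hq : q.Prime)
    (hq2 : ¬ q ^ 2 ∣ Nat.card K) (V : Subgroup K) [V.Normal] (hVc : Nat.card V = q)
    (hcen : ∀ g : K, ∀ v ∈ V, g * v * g⁻¹ = v) : q ∣ (commutator K).index := by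
  have : Fact q.Prime := ⟨hq⟩
  have hcop : Nat.Coprime (Nat.card V) V.index := by
    rw [hVc, Nat.Prime.coprime_iff_not_dvd hq]
    intro h1
    apply hq2
    have h2 := V.card_mul_index
    rw [← h2, hVc, pow_two]
    exact Nat.mul_dvd_mul_left q h1
  obtain ⟨L, hL⟩ := Subgroup.exists_right_complement'_of_coprime hcop
  have hLn : L.Normal := by
    refine ⟨fun x hx g => ?_⟩
    obtain ⟨⟨v, l⟩, hvl⟩ := hL.2 g
    have h1 : (v : K) * (l : K) = g := hvl
    have h2 : g * x * g⁻¹ = (l : K) * x * (l : K)⁻¹ := by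
      have h3 : ∀ y : K, (v : K) * y * (v : K)⁻¹ = y := by
        intro y
        have h4 := hcen y (v : K) v.2
        calc (v : K) * y * (v : K)⁻¹ = (y * (v : K) * y⁻¹) * y * (v : K)⁻¹ := by rw [h4]
          _ = y := by group
      calc g * x * g⁻¹ = (v : K) * ((l : K) * x * (l : K)⁻¹) * (v : K)⁻¹ := by
            rw [← h1]; group
        _ = (l : K) * x * (l : K)⁻¹ := h3 _
    rw [h2]
    exact L.mul_mem (L.mul_mem l.2 hx) (L.inv_mem l.2)
  have hLi : L.index = q := by rw [hL.index_eq_card, hVc]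
  have h5 : IsCyclic (K ⧸ L) := isCyclic_of_prime_card (p := q) hLi
  have h6 : commutator K ≤ L := by
    have h7 : IsMulCommutative (K ⧸ L) := inferInstance
    rw [commutator_def, Subgroup.commutator_le]
    intro x _ y _
    rw [← QuotientGroup.eq_one_iff]
    have h8 : ((⁅x, y⁆ : K) : K ⧸ L) = ⁅(x : K ⧸ L), (y : K ⧸ L)⁆ := by
      rw [commutatorElement_def, commutatorElement_def]
      rfl
    rw [h8, commutatorElement_eq_one_iff_mul_comm]
    exact h7.is_comm.comm _ _
  rw [← hLi]
  exact Subgroup.index_dvd_of_le h6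

section act

variable {G : Type} [Group G] {A : Subgroup G} [A.Normal] (L : Subgroup A) [L.Characteristic]

private theorem AGlue_mem (g : G) (x : L) : MulAut.conjNormal g (x : A) ∈ L := by
  have h1 := (inferInstance : L.Characteristic).fixed (MulAut.conjNormal g : A ≃* A)
  have h2 : (x : A) ∈ L.comap (MulAut.conjNormal g : A ≃* A).toMonoidHom := by
    rw [h1]
    exact x.2
  exact h2

/-- conjugation by `g` on `L` -/
private def AGlue_c (g : G) : L →* L :=
  ((MulAut.conjNormal g : A ≃* A).toMonoidHom.comp L.subtype).codRestrict L (AGlue_mem L g)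

private theorem AGlue_c_coe (g : G) (x : L) :
    ((AGlue_c L g x : A) : G) = g * ((x : A) : G) * g⁻¹ := rfl

omit [A.Normal] [L.Characteristic] in
private theorem AGlue_ext {x y : L} (h : ((x : A) : G) = ((y : A) : G)) : x = y :=
  Subtype.ext (Subtype.ext h)

/-- the linear characters of `L` -/
private def AGlue_V {B : Type} [Group B] (L : Subgroup B) : Type := L →* ℂˣ

private noncomputable instance {B : Type} [Group B] (L : Subgroup B) : CommGroup (AGlue_V L) :=
  inferInstanceAs (CommGroup (L →* ℂˣ))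

/-- the action of `G` on the linear characters of `L` -/
private noncomputable def AGlue_act : G →* MulAut (AGlue_V L) where
  toFun g :=
    { toFun := fun v => (MonoidHom.comp v (AGlue_c L g⁻¹) : L →* ℂˣ)
      invFun := fun v => (MonoidHom.comp v (AGlue_c L g) : L →* ℂˣ)
      left_inv := fun (v : L →* ℂˣ) => by
        refine MonoidHom.ext fun x => ?_
        change v (AGlue_c L g⁻¹ (AGlue_c L g x)) = v x
        congr 1
        apply AGlue_ext
        rw [AGlue_c_coe, AGlue_c_coe]
        group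
      right_inv := fun (v : L →* ℂˣ) => by
        refine MonoidHom.ext fun x => ?_
        change v (AGlue_c L g (AGlue_c L g⁻¹ x)) = v x
        congr 1
        apply AGlue_ext
        rw [AGlue_c_coe, AGlue_c_coe]
        group
      map_mul' := fun _ _ => rfl }
  map_one' := by
    refine MulEquiv.ext fun (v : L →* ℂˣ) => MonoidHom.ext fun x => ?_
    change v (AGlue_c L 1⁻¹ x) = v x
    congr 1
    apply AGlue_ext
    rw [AGlue_c_coe]
    group
  map_mul' g h := by
    refine MulEquiv.ext fun (v : L →* ℂˣ) => MonoidHom.ext fun x => ?_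
    change v (AGlue_c L (g * h)⁻¹ x) = v (AGlue_c L h⁻¹ (AGlue_c L g⁻¹ x))
    congr 1
    apply AGlue_ext
    rw [AGlue_c_coe, AGlue_c_coe, AGlue_c_coe]
    group

private theorem AGlue_act_apply (g : G) (v : L →* ℂˣ) (x : L) :
    (show L →* ℂˣ from AGlue_act L g v) x = v (AGlue_c L g⁻¹ x) := rfl

private theorem AGlue_act_mem (l : L) : AGlue_act L ((l : A) : G) = 1 := by
  refine MulEquiv.ext fun (v : L →* ℂˣ) => MonoidHom.ext fun x => ?_
  change v (AGlue_c L ((l : A) : G)⁻¹ x) = v x
  have h1 : AGlue_c L ((l : A) : G)⁻¹ x = l⁻¹ * x * l := by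
    apply AGlue_ext
    rw [AGlue_c_coe, inv_inv]
    rfl
  rw [h1, map_mul, map_mul, map_inv, mul_right_comm, inv_mul_cancel, one_mul]

end act

private theorem AGlue_top {B : Type} [Group B] (L K : Subgroup B) (h3 : L.index = 3)
    (hLK : L ≤ K) {t : B} (ht : t ∉ L) (htK : t ∈ K) : K = ⊤ := by
  have h1 := Subgroup.relIndex_mul_index hLK
  rw [h3] at h1
  have h2 : K.index ∣ 3 := Dvd.intro_left _ h1
  rcases (Nat.dvd_prime Nat.prime_three).1 h2 with h4 | h4
  · exact Subgroup.index_eq_one.1 h4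
  · exfalso
    rw [h4] at h1
    have h5 : L.relIndex K = 1 := by omega
    exact ht (Subgroup.relIndex_eq_one.1 h5 htK)

private theorem AGlue_three {Q : Type} [Group Q] (hQ : Nat.card Q = 3) {t u : Q} (ht : t ≠ 1)
    (hu : u ≠ 1) (hut : u ≠ t) : u * t = 1 := by
  have : Fact (Nat.Prime 3) := ⟨Nat.prime_three⟩
  have h3 : t ^ 3 = 1 := by
    rw [← hQ]
    exact pow_card_eq_one'
  obtain ⟨n, hn⟩ := mem_powers_of_prime_card hQ ht (g' := u)
  have hn' : t ^ (n % 3) = u := by
    rw [← hn]
    change t ^ (n % 3) = t ^ n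
    conv_rhs => rw [← Nat.div_add_mod n 3, pow_add, pow_mul, h3, one_pow, one_mul]
  have h4 : n % 3 < 3 := Nat.mod_lt _ (by norm_num)
  obtain ⟨r, hr⟩ : ∃ r, n % 3 = r := ⟨_, rfl⟩
  rw [hr] at hn' h4
  interval_cases r
  · exact absurd hn'.symm (by rw [pow_zero]; exact hu)
  · exact absurd hn'.symm (by rw [pow_one]; exact hut)
  · rw [← hn', ← pow_succ]
    exact h3

private theorem AGlue_odd {Q : Type} [Group Q] {x y : Q} (h : x * y * x⁻¹ = y⁻¹) {m : ℕ}
    (hm : Odd m) : x ^ m * y * (x ^ m)⁻¹ = y⁻¹ := by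
  have h2 : x ^ 2 * y * (x ^ 2)⁻¹ = y := by
    have e1 : x ^ 2 * y * (x ^ 2)⁻¹ = x * (x * y * x⁻¹) * x⁻¹ := by
      rw [pow_two]
      group
    have e2 : x * y⁻¹ * x⁻¹ = (x * y * x⁻¹)⁻¹ := by group
    rw [e1, h, e2, h, inv_inv]
  have h3 : Commute (x ^ 2) y := by
    rw [Commute, SemiconjBy, ← mul_inv_eq_iff_eq_mul]
    exact h2
  obtain ⟨j, rfl⟩ := hm
  have h4 : Commute ((x ^ 2) ^ j) y := h3.pow_left j
  rw [pow_succ', pow_mul]
  calc x * (x ^ 2) ^ j * y * (x * (x ^ 2) ^ j)⁻¹
      = x * ((x ^ 2) ^ j * y) * ((x ^ 2) ^ j)⁻¹ * x⁻¹ := by group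
    _ = x * (y * (x ^ 2) ^ j) * ((x ^ 2) ^ j)⁻¹ * x⁻¹ := by rw [h4.eq]
    _ = x * y * x⁻¹ := by group
    _ = y⁻¹ := h

/-- an element of `G` which inverts `A / L` -/
private theorem AGlue_exists {G : Type} [Group G] [Finite G] {A : Subgroup G} [A.Normal]
    (L : Subgroup A) [L.Characteristic] (hL : L.index = 3) (h9 : ¬ 9 ∣ Nat.card G)
    (hG : ¬ 3 ∣ (commutator G).index) {t : A} (ht : t ∉ L) :
    ∃ g : G, MulAut.conjNormal g t * t ∈ L := by
  have : Fact (Nat.Prime 3) := ⟨Nat.prime_three⟩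
  by_contra hcon
  push Not at hcon
  apply hG
  let M : Subgroup G := L.map A.subtype
  have hMn : M.Normal := by
    change (L.map A.subtype).Normal
    infer_instance
  let f : A →* G ⧸ M := (QuotientGroup.mk' M).comp A.subtype
  have hf : ∀ a : A, f a = ((a : G) : G ⧸ M) := fun a => rfl
  have hfM : ∀ a : A, (a : G) ∈ M ↔ a ∈ L := by
    intro a
    change (a : G) ∈ L.map A.subtype ↔ _
    rw [Subgroup.mem_map]
    constructor
    · rintro ⟨b, hb, hba⟩
      have h1 : b = a := Subtype.ext hba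
      rwa [h1] at hb
    · exact fun h => ⟨a, h, rfl⟩
  have hker : f.ker = L := by
    ext a
    rw [MonoidHom.mem_ker, hf, QuotientGroup.eq_one_iff, hfM]
  have hcard : Nat.card f.range = 3 := by rw [← Subgroup.index_ker, hker, hL]
  have hft : f t ≠ 1 := by
    intro h
    rw [← MonoidHom.mem_ker, hker] at h
    exact ht h
  have hconj : ∀ g : G, ∀ a : A, (g : G ⧸ M) * f a * (g : G ⧸ M)⁻¹ =
      f (MulAut.conjNormal g a) := fun g a => rfl
  have hfix : ∀ g : G, (g : G ⧸ M) * f t * (g : G ⧸ M)⁻¹ = f t := by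
    intro g
    by_contra hne
    rw [hconj] at hne
    have h1 : (⟨f (MulAut.conjNormal g t), _, rfl⟩ : f.range) * ⟨f t, t, rfl⟩ = 1 := by
      refine AGlue_three hcard ?_ ?_ ?_
      · exact fun h => hft (congrArg Subtype.val h)
      · intro h
        have h2 : f (MulAut.conjNormal g t) = 1 := congrArg Subtype.val h
        rw [← hconj, mul_inv_eq_one, mul_eq_left] at h2
        exact hft h2
      · exact fun h => hne (congrArg Subtype.val h)
    have h2 : f (MulAut.conjNormal g t * t) = 1 := congrArg Subtype.val h1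
    rw [← MonoidHom.mem_ker, hker] at h2
    exact hcon g h2
  have hVn : f.range.Normal := by
    refine ⟨?_⟩
    rintro _ ⟨a, rfl⟩ q
    obtain ⟨g, rfl⟩ := QuotientGroup.mk_surjective q
    exact ⟨MulAut.conjNormal g a, rfl⟩
  have hcd : Nat.card (G ⧸ M) ∣ Nat.card G := Subgroup.card_quotient_dvd_card M
  have hq9 : ¬ 3 ^ 2 ∣ Nat.card (G ⧸ M) := by
    intro h
    have h1 : 9 ∣ Nat.card (G ⧸ M) := h
    exact h9 (h1.trans hcd)
  have hcen : ∀ q : G ⧸ M, ∀ v ∈ f.range, q * v * q⁻¹ = v := ?_
  · have h1 := AGlue_central Nat.prime_three hq9 f.range hcard hcen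
    exact h1.trans (index_commutator_dvd (QuotientGroup.mk' M) (QuotientGroup.mk'_surjective M))
  intro q v hv
  obtain ⟨g, rfl⟩ := QuotientGroup.mk_surjective q
  have hne : (⟨f t, t, rfl⟩ : f.range) ≠ 1 := fun h => hft (congrArg Subtype.val h)
  obtain ⟨n, hn⟩ := mem_powers_of_prime_card hcard hne (g' := ⟨v, hv⟩)
  have hn' : (f t) ^ n = v := congrArg Subtype.val hn
  rw [← hn', ← conj_pow, hfix]

theorem N_three_res {G : Type} [Group G] [Finite G] {A : Subgroup G} {a : ℕ} (hA : IsRes A a)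
    (hs : Group.IsSolvable G) (h3 : 3 ∣ Nat.card G) (h9 : ¬ 9 ∣ Nat.card G)
    (hG : ¬ 3 ∣ (commutator G).index) : N A 3 % 4 ≠ 2 := by
  classical
  have hAn : A.Normal := hA.normal
  have h9' : ¬ 3 ^ 2 ∣ Nat.card G := by norm_num; exact h9
  have h1 : 3 ∣ (commutator A).index := by
    refine dvd_index_res hA Nat.prime_three (by norm_num) hs h3 h9' (Or.inl ?_)
    intro p hp _ hp2
    exact (Nat.prime_dvd_prime_iff_eq hp Nat.prime_two).1 hp2
  obtain ⟨L, hLc, hL3, hL⟩ := exists_char Nat.prime_three h1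
    (fun h => h9' (h.trans (Subgroup.card_subgroup_dvd_card A)))
  have hLn : L.Normal := inferInstance
  obtain ⟨t, ht⟩ : ∃ t : A, t ∉ L := by
    by_contra hcon
    push Not at hcon
    rw [(Subgroup.eq_top_iff' L).2 hcon, Subgroup.index_top] at hL3
    exact absurd hL3 (by norm_num)
  -- the masses
  have hmass := mass_three L hL3 (e := 1) one_pos
  have hres := card_resIrr L hL3 1
  have hall : Nat.card {c : Cls A 1 // Has (ResIrr L) c} = N A 1 := by
    unfold N
    refine Nat.card_congr (Equiv.subtypeUnivEquiv fun c => ?_)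
    by_contra hc
    have := not_resIrr_deg L hL3 c hc
    omega
  have hno : Nat.card {c : Cls A (3 * 1) // ¬ Has (ResIrr L) c} = N A 3 := by
    unfold N
    refine Nat.card_congr (Equiv.subtypeUnivEquiv fun c => ?_)
    refine cls_ind (q := fun c : Cls A 3 => ¬ Has (ResIrr L) c) (fun ρ hρ => ?_) c
    rw [has_mk fun _ _ h1 h2 => ResIrr.of_sim L h1 h2]
    exact fun h => hL (deg_dvd h)
  have hN1 : Odd (N A 1) := by
    rw [N_one]
    exact hA.noIdx2.odd_index_commutator
  rw [hno, hres] at hmass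
  rw [hall] at hres
  by_cases hV : Odd (N L 1)
  · have hcV' : Nat.card (L →* ℂˣ) = N L 1 := by rw [N_one, card_hom]
    have hcV : Nat.card (AGlue_V L) = N L 1 := hcV'
    have hfin : Finite (AGlue_V L) := by
      apply Nat.finite_of_card_ne_zero
      rw [hcV]
      rintro h0
      rw [h0] at hV
      exact absurd hV (by decide)
    obtain ⟨g, hg⟩ := AGlue_exists L hL3 h9 hG ht
    have ht3 : t ^ 3 ∈ L := by
      have h2 := L.pow_index_mem t
      rwa [hL3] at h2
    have e1 : AGlue_act L (t : G) ^ 3 = 1 := by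
      rw [← map_pow]
      exact AGlue_act_mem L ⟨t ^ 3, ht3⟩
    have e2 : AGlue_act L g * AGlue_act L (t : G) * (AGlue_act L g)⁻¹ =
        (AGlue_act L (t : G))⁻¹ := by
      rw [← map_inv, ← map_mul, ← map_mul, eq_inv_iff_mul_eq_one, ← map_mul]
      exact AGlue_act_mem L ⟨_, hg⟩
    obtain ⟨k, m, hm, hkm⟩ := Nat.exists_eq_two_pow_mul_odd (orderOf_pos g).ne'
    have e3 : (AGlue_act L g ^ m) ^ 2 ^ k = 1 := by
      rw [← pow_mul, ← map_pow, mul_comm, ← hkm, pow_orderOf_eq_one, map_one]
    have hodd : Odd (Nat.card (AGlue_V L)) := by rw [hcV]; exact hV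
    have hthree : ¬ 3 ∣ Nat.card (AGlue_V L) := by
      rw [hcV, N_one]
      exact fun h => hL (h.trans (Subgroup.index_dvd_card _))
    have key := vsq _ _ e1 (AGlue_odd e2 hm) e3 hodd hthree
    have hNI : NI L 1 = Nat.card {v // AGlue_act L (t : G) v = v} := by
      rw [NI_one]
      refine Nat.card_congr (Equiv.subtypeEquivRight
        fun (χ : L →* ℂˣ) => ⟨fun h => ?_, fun h => ?_⟩)
      · exact MonoidHom.ext fun x => h t⁻¹ x
      · let K : Subgroup A :=
          { carrier := {s | ∀ x : L, χ (MulAut.conjNormal s x) = χ x}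
            mul_mem' := fun {r s} hr hs' x => by
              rw [map_mul, MulAut.mul_apply, hr, hs']
            one_mem' := fun x => by rw [map_one, MulAut.one_apply]
            inv_mem' := fun {r} hr x => by
              rw [← hr, ← MulAut.mul_apply, ← map_mul, mul_inv_cancel, map_one,
                MulAut.one_apply] }
        have hLK : L ≤ K := by
          intro l hl x
          have h2 : MulAut.conjNormal l x = (⟨l, hl⟩ : L) * x * (⟨l, hl⟩ : L)⁻¹ := rfl
          rw [h2, map_mul, map_mul, map_inv, mul_right_comm, mul_inv_cancel, one_mul]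
        have h' : (show L →* ℂˣ from AGlue_act L (t : G) χ) = χ := h
        have htK : t⁻¹ ∈ K := fun x => DFunLike.congr_fun h' x
        have htop := AGlue_top L K hL3 hLK (fun h2 => ht ((Subgroup.inv_mem_iff L).1 h2)) htK
        intro s x
        have h2 : s ∈ K := by rw [htop]; exact Subgroup.mem_top s
        exact h2 x
    rw [← hNI, hcV] at key
    have key' : N L 1 % 4 = NI L 1 % 4 := key
    omega
  · rw [Nat.not_odd_iff_even] at hV
    obtain ⟨x, hx⟩ := hV
    obtain ⟨y, hy⟩ := hN1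
    omega

end Pool.Agent.CGSR
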