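import Pool.Agent.CGS.KerA
import Pool.Agent.CGS.TwoB

/-!
# Irreducible representations of degree two

A finite group `X` without subgroups of index two with an irreducible representation `ρ` of degree
two has an irreducible self-dual representation of degree three (the symmetric square of `ρ`
divided by the determinant), hence a normal subgroup of index 12, 24 or 60.
-/

set_option autoImplicit false

namespace Pool.Agent.CGSR

open Matrix Pool.Agent.CGS

/-- the action of a matrix on symmetric matrices of size two -/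
def sq (A : Matrix (Fin 2) (Fin 2) ℂ) : Matrix (Fin 3) (Fin 3) ℂ :=
  !![A 0 0 ^ 2, 2 * (A 0 0 * A 0 1), A 0 1 ^ 2;
     A 0 0 * A 1 0, A 0 0 * A 1 1 + A 0 1 * A 1 0, A 0 1 * A 1 1;
     A 1 0 ^ 2, 2 * (A 1 0 * A 1 1), A 1 1 ^ 2]

private theorem sq_mul (A B : Matrix (Fin 2) (Fin 2) ℂ) : sq (A * B) = sq A * sq B := by
  ext i j
  fin_cases i <;> fin_cases j <;>
    simp [sq, Matrix.mul_apply, Fin.sum_univ_succ] <;> ring

private theorem sq_one : sq 1 = 1 := by
  ext i j
  fin_cases i <;> fin_cases j <;> simp [sq]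

/-- the adjoint representation -/
noncomputable def ad {X : Type} [Group X] (ρ : Rep X 2) : Rep X 3 :=
  ofMat
    { toFun := fun g => ((mat ρ g).det)⁻¹ • sq (mat ρ g)
      map_one' := by rw [mat_one, sq_one, det_one, inv_one, one_smul]
      map_mul' := fun g h => by
        rw [mat_mul, sq_mul, det_mul, mul_inv, smul_mul_smul_comm] }

private theorem mat_ad {X : Type} [Group X] (ρ : Rep X 2) (g : X) :
    mat (ad ρ) g = ((mat ρ g).det)⁻¹ • sq (mat ρ g) := rfl

private theorem det_ne {X : Type} [Group X] {d : ℕ} (ρ : Rep X d) (g : X) :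
    (mat ρ g).det ≠ 0 :=
  ((Matrix.isUnit_iff_isUnit_det _).1 (ρ g).isUnit).ne_zero

private theorem selfDual_ad {X : Type} [Group X] (ρ : Rep X 2) : SelfDual (ad ρ) := by
  have hP : (!![(0 : ℂ), 0, 1; 0, -2, 0; 1, 0, 0] : Matrix (Fin 3) (Fin 3) ℂ).det ≠ 0 := by
    rw [Matrix.det_fin_three]
    simp
  refine ⟨Matrix.GeneralLinearGroup.mkOfDetNeZero _ hP, fun g => ?_⟩
  change (mat (ad ρ) g)ᵀ * !![(0 : ℂ), 0, 1; 0, -2, 0; 1, 0, 0] * mat (ad ρ) g =
    !![(0 : ℂ), 0, 1; 0, -2, 0; 1, 0, 0]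
  rw [mat_ad]
  have hd := det_ne ρ g
  generalize mat ρ g = A at hd ⊢
  have h1 : (sq A)ᵀ * !![(0 : ℂ), 0, 1; 0, -2, 0; 1, 0, 0] * sq A =
      (A.det ^ 2) • !![(0 : ℂ), 0, 1; 0, -2, 0; 1, 0, 0] := by
    rw [Matrix.det_fin_two]
    ext i j
    fin_cases i <;> fin_cases j <;>
      simp [sq, Matrix.mul_apply, Fin.sum_univ_succ] <;> ring
  rw [Matrix.transpose_smul, Matrix.smul_mul, Matrix.smul_mul, Matrix.mul_smul, h1, smul_smul,
    smul_smul]
  have h2 : A.det⁻¹ * A.det⁻¹ * A.det ^ 2 = 1 := by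
    field_simp
  rw [h2, one_smul]

/-- the trace zero matrix of a vector -/
private def tz (w : Fin 3 → ℂ) : Matrix (Fin 2) (Fin 2) ℂ := !![w 1, -w 0; w 2, -w 1]

private theorem tz_comm (A : Matrix (Fin 2) (Fin 2) ℂ) (hA : A.det ≠ 0) (w : Fin 3 → ℂ) (c : ℂ)
    (h : ((A.det)⁻¹ • sq A) *ᵥ w = c • w) : A * tz w = c • (tz w * A) := by
  have h1 : sq A *ᵥ w = (A.det * c) • w := by
    rw [← smul_smul, ← h, Matrix.smul_mulVec, smul_smul, mul_inv_cancel₀ hA, one_smul]
  have f0 : (sq A *ᵥ w) 0 = A 0 0 ^ 2 * w 0 + 2 * (A 0 0 * A 0 1) * w 1 + A 0 1 ^ 2 * w 2 := by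
    rw [Matrix.mulVec, dotProduct, Fin.sum_univ_three]
    rfl
  have f1 : (sq A *ᵥ w) 1 = A 0 0 * A 1 0 * w 0 + (A 0 0 * A 1 1 + A 0 1 * A 1 0) * w 1 +
      A 0 1 * A 1 1 * w 2 := by
    rw [Matrix.mulVec, dotProduct, Fin.sum_univ_three]
    rfl
  have f2 : (sq A *ᵥ w) 2 = A 1 0 ^ 2 * w 0 + 2 * (A 1 0 * A 1 1) * w 1 + A 1 1 ^ 2 * w 2 := by
    rw [Matrix.mulVec, dotProduct, Fin.sum_univ_three]
    rfl
  have e0 : A 0 0 ^ 2 * w 0 + 2 * (A 0 0 * A 0 1) * w 1 + A 0 1 ^ 2 * w 2 =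
      A.det * c * w 0 := by
    rw [← f0, h1]
    rfl
  have e1 : A 0 0 * A 1 0 * w 0 + (A 0 0 * A 1 1 + A 0 1 * A 1 0) * w 1 +
      A 0 1 * A 1 1 * w 2 = A.det * c * w 1 := by
    rw [← f1, h1]
    rfl
  have e2 : A 1 0 ^ 2 * w 0 + 2 * (A 1 0 * A 1 1) * w 1 + A 1 1 ^ 2 * w 2 =
      A.det * c * w 2 := by
    rw [← f2, h1]
    rfl
  have hd : A.det = A 0 0 * A 1 1 - A 0 1 * A 1 0 := Matrix.det_fin_two A
  have t00 : tz w 0 0 = w 1 := rfl
  have t01 : tz w 0 1 = -w 0 := rfl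
  have t10 : tz w 1 0 = w 2 := rfl
  have t11 : tz w 1 1 = -w 1 := rfl
  have key : ∀ i j, A.det * (A * tz w) i j = A.det * (c • (tz w * A)) i j := by
    intro i j
    rw [Matrix.smul_apply, Matrix.mul_apply, Matrix.mul_apply, Fin.sum_univ_two,
      Fin.sum_univ_two, smul_eq_mul]
    rw [hd] at e0 e1 e2 ⊢
    fin_cases i <;> fin_cases j <;> simp only [Fin.zero_eta, Fin.mk_one, Fin.isValue, t00, t01,
      t10, t11]
    · linear_combination A 0 0 * e1 - A 1 0 * e0
    · linear_combination A 0 1 * e1 - A 1 1 * e0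
    · linear_combination A 0 0 * e2 - A 1 0 * e1
    · linear_combination A 0 1 * e2 - A 1 1 * e1
  ext i j
  exact mul_left_cancel₀ hA (key i j)

private theorem tz_ne {w : Fin 3 → ℂ} (hw : w ≠ 0) : tz w ≠ 0 := by
  intro h
  apply hw
  have h0 := congrFun (congrFun h 0) 1
  have h1 := congrFun (congrFun h 0) 0
  have h2 := congrFun (congrFun h 1) 0
  simp [tz] at h0 h1 h2
  ext i
  fin_cases i
  · exact h0
  · exact h1
  · exact h2

private theorem no_eigenvector {X : Type} [Group X] [Finite X] (hX : NoIdx2 X) {ρ : Rep X 2}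
    (h : IsIrr ρ) (w : Fin 3 → ℂ) (hw : w ≠ 0)
    (hev : ∀ g : X, ∃ c : ℂ, mat (ad ρ) g *ᵥ w = c • w) : False := by
  have hT := tz_ne hw
  have hc : ∀ g : X, ∃ c : ℂ, mat ρ g * tz w = c • (tz w * mat ρ g) := by
    intro g
    obtain ⟨c, hc⟩ := hev g
    rw [mat_ad] at hc
    exact ⟨c, tz_comm _ (det_ne ρ g) w c hc⟩
  -- the range of `tz w` is stable, so `tz w` is invertible
  have hdet : (tz w).det ≠ 0 := by
    have hst : Stable ρ (LinearMap.range (tz w).mulVecLin) := by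
      rintro g _ ⟨x, rfl⟩
      obtain ⟨c, hc⟩ := hc g
      refine ⟨c • (mat ρ g *ᵥ x), ?_⟩
      rw [Matrix.mulVecLin_apply, Matrix.mulVecLin_apply, Matrix.mulVec_mulVec, hc,
        Matrix.smul_mulVec, Matrix.mulVec_smul, Matrix.mulVec_mulVec]
    rcases ((isIrr_iff ρ).1 h).2 _ hst with h1 | h1
    · exfalso
      apply hT
      have h2 : (tz w).mulVecLin = 0 := LinearMap.range_eq_bot.1 h1
      ext i j
      have h3 := congrArg (fun f : (Fin 2 → ℂ) →ₗ[ℂ] (Fin 2 → ℂ) => f (Pi.single j 1) i) h2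
      simpa using h3
    · have h2 : Function.Surjective (tz w).mulVecLin := LinearMap.range_eq_top.1 h1
      have h3 : Function.Surjective (tz w).mulVec := h2
      rw [Matrix.mulVec_surjective_iff_isUnit, Matrix.isUnit_iff_isUnit_det] at h3
      exact h3.ne_zero
  have hpm : ∀ g : X, mat ρ g * tz w = tz w * mat ρ g ∨ mat ρ g * tz w = -(tz w * mat ρ g) := by
    intro g
    obtain ⟨c, hc⟩ := hc g
    have h1 := congrArg Matrix.det hc
    rw [Matrix.det_mul, Matrix.det_smul, Matrix.det_mul, Fintype.card_fin] at h1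
    have h2 : c ^ 2 = 1 := by
      have h3 : (tz w).det * (mat ρ g).det ≠ 0 := mul_ne_zero hdet (det_ne ρ g)
      refine mul_right_cancel₀ h3 ?_
      rw [← h1]
      ring
    rcases sq_eq_one_iff.1 h2 with h3 | h3
    · left
      rw [hc, h3, one_smul]
    · right
      rw [hc, h3, neg_smul, one_smul]
  let Y : Subgroup X :=
    { carrier := {g | mat ρ g * tz w = tz w * mat ρ g}
      mul_mem' := by
        intro a b ha hb
        change mat ρ (a * b) * tz w = tz w * mat ρ (a * b)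
        have ha' : mat ρ a * tz w = tz w * mat ρ a := ha
        have hb' : mat ρ b * tz w = tz w * mat ρ b := hb
        rw [mat_mul, mul_assoc, hb', ← mul_assoc, ha', mul_assoc]
      one_mem' := by
        change mat ρ 1 * tz w = tz w * mat ρ 1
        rw [mat_one, one_mul, mul_one]
      inv_mem' := by
        intro a ha
        have ha' : mat ρ a * tz w = tz w * mat ρ a := ha
        change mat ρ a⁻¹ * tz w = tz w * mat ρ a⁻¹
        have h1 := mat_inv_mul ρ a
        have h2 := mat_mul_inv ρ a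
        calc mat ρ a⁻¹ * tz w = mat ρ a⁻¹ * (tz w * (mat ρ a * mat ρ a⁻¹)) := by
              rw [h2, mul_one]
          _ = mat ρ a⁻¹ * ((tz w * mat ρ a) * mat ρ a⁻¹) := by rw [mul_assoc (tz w)]
          _ = mat ρ a⁻¹ * ((mat ρ a * tz w) * mat ρ a⁻¹) := by rw [ha']
          _ = (mat ρ a⁻¹ * mat ρ a) * tz w * mat ρ a⁻¹ := by simp only [mul_assoc]
          _ = tz w * mat ρ a⁻¹ := by rw [h1, one_mul] }
  have hY : ∀ g : X, g ∈ Y := by
    by_contra hcon
    push Not at hcon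
    obtain ⟨a, ha⟩ := hcon
    refine hX Y (Subgroup.index_eq_two_iff.2 ⟨a, fun b => ?_⟩)
    have ha' : mat ρ a * tz w = -(tz w * mat ρ a) := (hpm a).resolve_left ha
    by_cases hb : b ∈ Y
    · right
      refine ⟨hb, fun hba => ha ?_⟩
      have h1 := Y.mul_mem (Y.inv_mem hb) hba
      rwa [inv_mul_cancel_left] at h1
    · left
      refine ⟨?_, hb⟩
      have hb' : mat ρ b * tz w = -(tz w * mat ρ b) := (hpm b).resolve_left hb
      change mat ρ (b * a) * tz w = tz w * mat ρ (b * a)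
      rw [mat_mul, mul_assoc, ha', mul_neg, ← mul_assoc, hb', neg_mul, neg_neg, mul_assoc]
  obtain ⟨c, hc'⟩ := schur h (tz w) fun g => (hY g : mat ρ g * tz w = tz w * mat ρ g).symm
  have htr : (tz w).trace = 0 := by
    rw [Matrix.trace_fin_two]
    simp [tz]
  rw [hc', Matrix.trace_smul, Matrix.trace_one, Fintype.card_fin] at htr
  have hc0 : c = 0 := by
    rcases mul_eq_zero.1 (show c * ((2 : ℕ) : ℂ) = 0 from htr) with h1 | h1
    · exact h1
    · norm_num at h1
  exact hT (by rw [hc', hc0, zero_smul])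

theorem isIrr_ad {X : Type} [Group X] [Finite X] (hX : NoIdx2 X) {ρ : Rep X 2} (h : IsIrr ρ) :
    IsIrr (ad ρ) := by
  rw [isIrr_iff]
  refine ⟨by norm_num, fun W hW => ?_⟩
  obtain ⟨W', hW', hc⟩ := exists_stable_compl (toRepr (ad ρ)) W hW
  have hone : ∀ U : Submodule ℂ (Fin 3 → ℂ), Stable (ad ρ) U → Module.finrank ℂ U ≠ 1 := by
    intro U hU h1
    obtain ⟨v, hv0, hv⟩ := finrank_eq_one_iff'.1 h1
    refine no_eigenvector hX h (v : Fin 3 → ℂ) (fun h2 => hv0 (Subtype.ext h2)) fun g => ?_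
    obtain ⟨c, hc⟩ := hv ⟨mat (ad ρ) g *ᵥ (v : Fin 3 → ℂ), hU g v v.2⟩
    exact ⟨c, (congrArg Subtype.val hc).symm⟩
  have h1 := Submodule.finrank_add_eq_of_isCompl hc
  rw [Module.finrank_fin_fun] at h1
  have h2 := hone W hW
  have h3 := hone W' hW'
  have h4 : Module.finrank ℂ W = 0 ∨ Module.finrank ℂ W' = 0 := by omega
  rcases h4 with h5 | h5
  · exact Or.inl (Submodule.finrank_eq_zero.1 h5)
  · right
    have h6 : W' = ⊥ := Submodule.finrank_eq_zero.1 h5
    have h7 := hc.sup_eq_top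
    rwa [h6, sup_bot_eq] at h7

private theorem nontriv {K : Type} [Group K] {ρ : Rep K 3} (h : IsIrr ρ) : Nontrivial K := by
  by_contra hK
  rw [not_nontrivial_iff_subsingleton] at hK
  have h1 : ∀ A ∈ Submodule.span ℂ (Set.range (mat ρ)), A 0 1 = 0 := by
    intro A hA
    induction hA using Submodule.span_induction with
    | mem x hx =>
      obtain ⟨g, rfl⟩ := hx
      rw [Subsingleton.elim g 1, mat_one]
      simp
    | zero => rfl
    | add x y _ _ hx hy => rw [Matrix.add_apply, hx, hy, add_zero]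
    | smul c x _ hx => rw [Matrix.smul_apply, hx, smul_zero]
  have h2 := h1 (Matrix.of fun _ _ => 1) (by rw [h.span]; exact Submodule.mem_top)
  simp at h2

private theorem card_key {K : Type} [Group K] [Finite K] (hK : NoIdx2 K) (c : Cls K 3)
    (hker : kerC c = ⊥) (hsd : Has SelfDual c) :
    Nat.card K = 12 ∨ Nat.card K = 24 ∨ Nat.card K = 60 := by
  revert hker hsd
  refine cls_ind (q := fun c => kerC c = ⊥ → Has SelfDual c →
    Nat.card K = 12 ∨ Nat.card K = 24 ∨ Nat.card K = 60) (fun ρ h hker hsd => ?_) c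
  rw [kerC_mk] at hker
  rw [has_mk (fun _ _ => SelfDual.of_sim)] at hsd
  obtain ⟨P, hP, hPs, hinv, hdet⟩ := orthogonal_of_selfDual hK (by decide : Odd 3) h hsd
  obtain ⟨Ω, i1, i2, ⟨pa⟩⟩ := exists_poleAction h hker P hP hPs hinv hdet
  have := nontriv h
  rcases pole_classification pa with h12 | h24 | ⟨h60, -⟩
  · exact Or.inl h12
  · exact Or.inr (Or.inl h24)
  · exact Or.inr (Or.inr h60)

/-- the kernel of a self-dual class of degree three has index 12, 24 or 60 -/
theorem kernel_index {X : Type} [Group X] [Finite X] (hX : NoIdx2 X) (c : Cls X 3)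
    (hc : Has SelfDual c) :
    (kerC c).index = 12 ∨ (kerC c).index = 24 ∨ (kerC c).index = 60 := by
  obtain ⟨c', hker, hsd⟩ := exists_faithful c
  exact card_key (hX.quotient (kerC c)) c' hker (hsd hc)

/-- a group with an irreducible representation of degree two has a self-dual class of degree
three -/
theorem exists_selfDual {X : Type} [Group X] [Finite X] (hX : NoIdx2 X) (h : N X 2 ≠ 0) :
    ∃ c : Cls X 3, Has SelfDual c := by
  have h1 : Nonempty (Cls X 2) := (Nat.card_ne_zero.1 h).1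
  obtain ⟨c⟩ := h1
  refine cls_ind (q := fun _ => ∃ c : Cls X 3, Has SelfDual c) (fun ρ hρ => ?_) c
  exact ⟨mk (ad ρ) (isIrr_ad hX hρ), ad ρ, isIrr_ad hX hρ, rfl, selfDual_ad ρ⟩

end Pool.Agent.CGSR
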