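import Pool.Agent.CGS.NoIdx

/-!
# Group theory for the theorem on one prime divisor

* `dvd_index_of_solvable`: a finite soluble group `K` without subgroups of index two whose order is
  divisible by the prime `q` exactly once and by no odd prime divisor of `q - 1` has a quotient of
  order `q`.
* `dvd_index_of_normal`: the same if `K` is soluble and has a normal subgroup `M` such that the
  order of `K ⧸ M` is `q` times a power of two.
* `exists_char`: a characteristic subgroup of index `q`.
-/

set_option autoImplicit false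

namespace Pool.Agent.CGSR

open Pool.Agent.CGS
open scoped commutatorElement

theorem index_commutator_dvd {K Q : Type} [Group K] [Group Q] (f : K →* Q)
    (hf : Function.Surjective f) : (commutator Q).index ∣ (commutator K).index := by
  have h1 : (commutator K).map f = commutator Q := by
    rw [commutator_def, Subgroup.map_commutator, Subgroup.map_top_of_surjective f hf,
      commutator_def]
  rw [← h1]
  exact Subgroup.index_map_dvd _ hf

/-- a nontrivial normal subgroup with commuting elements -/
theorem exists_abelian {K : Type} [Group K] (hs : Group.IsSolvable K) (hK : Nontrivial K) :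
    ∃ A : Subgroup K, A.Normal ∧ A ≠ ⊥ ∧ ∀ x ∈ A, ∀ y ∈ A, x * y = y * x := by
  classical
  obtain ⟨n, hn⟩ := hs
  have hex : ∃ m, derivedSeries K m = ⊥ := ⟨n, hn⟩
  have h1 := Nat.find_spec hex
  have h0 : Nat.find hex ≠ 0 := by
    intro h
    rw [h, derivedSeries_zero] at h1
    exact absurd h1 top_ne_bot
  obtain ⟨m, hm⟩ := Nat.exists_eq_succ_of_ne_zero h0
  have h2 : derivedSeries K m ≠ ⊥ := Nat.find_min hex (by omega)
  refine ⟨derivedSeries K m, inferInstance, h2, fun x hx y hy => ?_⟩
  rw [hm, Nat.succ_eq_add_one, derivedSeries_succ] at h1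
  have h3 : ⁅x, y⁆ ∈ (⊥ : Subgroup K) := by
    rw [← h1]
    exact Subgroup.commutator_mem_commutator hx hy
  rw [Subgroup.mem_bot, commutatorElement_eq_one_iff_mul_comm] at h3
  exact h3

theorem card_of_pgroup {K : Type} [Group K] [Finite K] {q : ℕ} (hq : q.Prime)
    (hq2 : ¬ q ^ 2 ∣ Nat.card K) (V : Subgroup K) (hV : V ≠ ⊥) (hp : IsPGroup q V) :
    Nat.card V = q := by
  have : Fact q.Prime := ⟨hq⟩
  obtain ⟨k, hk⟩ := IsPGroup.iff_card.1 hp
  have h1 : k < 2 := by
    by_contra h
    exact hq2 ((pow_dvd_pow q (by omega)).trans (hk ▸ Subgroup.card_subgroup_dvd_card V))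
  have h2 : k ≠ 0 := by
    rintro rfl
    rw [pow_zero] at hk
    exact hV (Subgroup.card_eq_one.1 hk)
  have h3 : k = 1 := by omega
  rw [hk, h3, pow_one]

/-- a normal subgroup of order `q` of a group without subgroups of index two is central if no odd
prime divisor of the order divides `q - 1` -/
theorem central_of_card {K : Type} [Group K] [Finite K] {q : ℕ} (hq : q.Prime) (hK : NoIdx2 K)
    (hpr : ∀ p : ℕ, p.Prime → p ∣ Nat.card K → p ∣ q - 1 → p = 2) (V : Subgroup K) [V.Normal]
    (hV : Nat.card V = q) : ∀ g : K, ∀ v ∈ V, g * v * g⁻¹ = v := by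
  have : Fact q.Prime := ⟨hq⟩
  have hcyc : IsCyclic V := isCyclic_of_prime_card hV
  let φ : K →* MulAut V := MulAut.conjNormal
  have hcard : Nat.card (MulAut V) = q - 1 := by
    rw [IsCyclic.card_mulAut, hV, Nat.totient_prime hq]
  have h1 : Nat.card φ.range ∣ q - 1 := by
    rw [← hcard]
    exact Subgroup.card_subgroup_dvd_card _
  have h2 : Nat.card φ.range ∣ Nat.card K := Subgroup.card_range_dvd φ
  have h3 : NoIdx2 φ.range := hK.of_surjective φ.rangeRestrict φ.rangeRestrict_surjective
  have h4 : ∃ n, Nat.card φ.range = 2 ^ n := by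
    refine ⟨_, Nat.eq_prime_pow_of_unique_prime_dvd (p := 2) Nat.card_pos.ne' ?_⟩
    intro p hp hd
    exact hpr p hp (hd.trans h2) (hd.trans h1)
  obtain ⟨n, hn⟩ := h4
  have h5 : IsPGroup 2 φ.range := IsPGroup.of_card hn
  have h6 : ∀ g : K, φ g = 1 := by
    intro g
    by_contra hne
    have : Nontrivial φ.range :=
      ⟨⟨⟨φ g, g, rfl⟩, 1, fun h7 => hne (congrArg Subtype.val h7)⟩⟩
    obtain ⟨Y, hY⟩ := exists_index_two_of_isPGroup h5
    exact h3 Y hY
  intro g v hv
  have h7 : ((φ g) ⟨v, hv⟩ : V) = ⟨v, hv⟩ := by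
    rw [h6 g]
    rfl
  exact congrArg Subtype.val h7

private theorem dvd_index_aux {q : ℕ} (hq : q.Prime) (n : ℕ) : ∀ (K : Type) [Group K] [Finite K],
    Nat.card K = n → Group.IsSolvable K → NoIdx2 K → q ∣ Nat.card K → ¬ q ^ 2 ∣ Nat.card K →
      (∀ p : ℕ, p.Prime → p ∣ Nat.card K → p ∣ q - 1 → p = 2) → q ∣ (commutator K).index := by
  induction n using Nat.strong_induction_on with
  | _ n ih =>
    intro K _ _ hn hs hK hqK hq2 hpr
    have : Fact q.Prime := ⟨hq⟩
    have hnt : Nontrivial K := by
      rw [← Finite.one_lt_card_iff_nontrivial]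
      exact lt_of_lt_of_le hq.one_lt (Nat.le_of_dvd Nat.card_pos hqK)
    obtain ⟨A, hA, hAb, hcomm⟩ := exists_abelian hs hnt
    by_cases hqA : q ∣ Nat.card A
    · -- the elements of order dividing `q` in `A`
      let V : Subgroup K :=
        { carrier := {x | x ∈ A ∧ x ^ q = 1}
          mul_mem' := by
            rintro x y ⟨hx, hx'⟩ ⟨hy, hy'⟩
            refine ⟨A.mul_mem hx hy, ?_⟩
            have h1 : Commute x y := hcomm x hx y hy
            rw [h1.mul_pow, hx', hy', one_mul]
          one_mem' := ⟨A.one_mem, one_pow q⟩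
          inv_mem' := by
            rintro x ⟨hx, hx'⟩
            refine ⟨A.inv_mem hx, ?_⟩
            rw [inv_pow, hx', inv_one] }
      have hVn : V.Normal := by
        refine ⟨?_⟩
        rintro x ⟨hx, hx'⟩ g
        refine ⟨hA.conj_mem x hx g, ?_⟩
        rw [conj_pow, hx', mul_one, mul_inv_cancel]
      have hVp : IsPGroup q V := by
        rintro ⟨x, hx, hx'⟩
        refine ⟨1, Subtype.ext ?_⟩
        change x ^ q ^ 1 = 1
        rw [pow_one]
        exact hx'
      have hVb : V ≠ ⊥ := by
        obtain ⟨t, ht⟩ := exists_prime_orderOf_dvd_card' (G := A) q hqA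
        intro hbot
        have h1 : (t : K) ∈ V := by
          refine ⟨t.2, ?_⟩
          have h2 : t ^ q = 1 := by rw [← ht, pow_orderOf_eq_one]
          exact congrArg Subtype.val h2
        rw [hbot, Subgroup.mem_bot] at h1
        have h3 : t = 1 := Subtype.ext h1
        rw [h3, orderOf_one] at ht
        exact hq.one_lt.ne ht
      have hVc : Nat.card V = q := card_of_pgroup hq hq2 V hVb hVp
      have hcen := central_of_card hq hK hpr V hVc
      have hcop : Nat.Coprime (Nat.card V) V.index := by
        rw [hVc, Nat.Prime.coprime_iff_not_dvd hq]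
        intro h1
        apply hq2
        have h2 := V.card_mul_index
        rw [← h2, hVc, pow_two]
        exact Nat.mul_dvd_mul_left q h1
      obtain ⟨L, hL⟩ := Subgroup.exists_right_complement'_of_coprime hcop
      have hLn : L.Normal := by
        refine ⟨fun x hx g => ?_⟩
        obtain ⟨⟨v, l⟩, hvl⟩ := hL.2 g
        have h1 : (v : K) * (l : K) = g := hvl
        have h2 : g * x * g⁻¹ = (l : K) * x * (l : K)⁻¹ := by
          have h3 : ∀ y : K, (v : K) * y * (v : K)⁻¹ = y := by
            intro y
            have h4 := hcen y (v : K) v.2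
            calc (v : K) * y * (v : K)⁻¹ = (y * (v : K) * y⁻¹) * y * (v : K)⁻¹ := by rw [h4]
              _ = y := by group
          calc g * x * g⁻¹ = (v : K) * ((l : K) * x * (l : K)⁻¹) * (v : K)⁻¹ := by
                rw [← h1]; group
            _ = (l : K) * x * (l : K)⁻¹ := h3 _
        rw [h2]
        exact L.mul_mem (L.mul_mem l.2 hx) (L.inv_mem l.2)
      have hLi : L.index = q := by rw [hL.index_eq_card, hVc]
      have h5 : IsCyclic (K ⧸ L) := isCyclic_of_prime_card (p := q) hLi
      have h6 : commutator K ≤ L := by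
        have h7 : IsMulCommutative (K ⧸ L) := inferInstance
        rw [commutator_def, Subgroup.commutator_le]
        intro x _ y _
        rw [← QuotientGroup.eq_one_iff]
        have h8 : ((⁅x, y⁆ : K) : K ⧸ L) = ⁅(x : K ⧸ L), (y : K ⧸ L)⁆ := by
          rw [commutatorElement_def, commutatorElement_def]
          rfl
        rw [h8, commutatorElement_eq_one_iff_mul_comm]
        exact h7.is_comm.comm _ _
      rw [← hLi]
      exact Subgroup.index_dvd_of_le h6
    · have hc := Subgroup.card_eq_card_quotient_mul_card_subgroup A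
      have hA1 : 1 < Nat.card A := by
        have h1 : Nat.card A ≠ 1 := fun h => hAb (Subgroup.card_eq_one.1 h)
        have h2 : 0 < Nat.card A := Nat.card_pos
        omega
      have hlt : Nat.card (K ⧸ A) < n := by
        have h1 : 0 < Nat.card (K ⧸ A) := Nat.card_pos
        rw [← hn, hc]
        nlinarith
      have hd : Nat.card (K ⧸ A) ∣ Nat.card K := ⟨_, hc⟩
      have h1 : q ∣ Nat.card (K ⧸ A) := by
        rw [hc] at hqK
        exact (hq.dvd_mul.1 hqK).resolve_right hqA
      have h2 := ih _ hlt (K ⧸ A) rfl inferInstance (hK.quotient A) h1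
        (fun h => hq2 (h.trans hd)) (fun p hp hpd => hpr p hp (hpd.trans hd))
      exact h2.trans (index_commutator_dvd (QuotientGroup.mk' A) (QuotientGroup.mk'_surjective A))

theorem dvd_index_of_solvable {K : Type} [Group K] [Finite K] {q : ℕ} (hq : q.Prime)
    (hs : Group.IsSolvable K) (hK : NoIdx2 K) (hqK : q ∣ Nat.card K) (hq2 : ¬ q ^ 2 ∣ Nat.card K)
    (hpr : ∀ p : ℕ, p.Prime → p ∣ Nat.card K → p ∣ q - 1 → p = 2) : q ∣ (commutator K).index :=
  dvd_index_aux hq _ K rfl hs hK hqK hq2 hpr

theorem dvd_index_of_normal {K : Type} [Group K] [Finite K] {q : ℕ} (hq : q.Prime)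
    (hs : Group.IsSolvable K) (hK : NoIdx2 K) (M : Subgroup K) [M.Normal] {j : ℕ}
    (hM : M.index = 2 ^ j * q) : q ∣ (commutator K).index := by
  refine Dvd.dvd.trans ?_
    (index_commutator_dvd (QuotientGroup.mk' M) (QuotientGroup.mk'_surjective M))
  have hnt : Nontrivial (K ⧸ M) := by
    rw [← Finite.one_lt_card_iff_nontrivial]
    have h1 : Nat.card (K ⧸ M) = 2 ^ j * q := hM
    rw [h1]
    exact lt_of_lt_of_le hq.one_lt (Nat.le_mul_of_pos_left q (Nat.two_pow_pos j))
  have h1 := (hK.quotient M).odd_index_commutator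
  have h2 : (commutator (K ⧸ M)).index ≠ 1 := by
    intro h
    exact (Group.IsSolvable.commutator_lt_top_of_nontrivial (K ⧸ M)).ne
      (Subgroup.index_eq_one.1 h)
  have h3 : (commutator (K ⧸ M)).index ∣ 2 ^ j * q := by
    rw [← hM]
    exact Subgroup.index_dvd_card _
  have h4 : Nat.Coprime (commutator (K ⧸ M)).index (2 ^ j) :=
    Nat.Coprime.pow_right j (Nat.coprime_two_right.2 h1)
  have h5 := h4.dvd_of_dvd_mul_left h3
  rcases (Nat.dvd_prime hq).1 h5 with h6 | h6
  · exact absurd h6 h2
  · rw [h6]

theorem exists_char {B : Type} [Group B] [Finite B] {q : ℕ} (hq : q.Prime)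
    (hqB : q ∣ (commutator B).index) (hq2 : ¬ q ^ 2 ∣ Nat.card B) :
    ∃ L : Subgroup B, L.Characteristic ∧ L.index = q ∧ ¬ q ∣ Nat.card L := by
  have : Fact q.Prime := ⟨hq⟩
  obtain ⟨m, hm⟩ := hqB
  have hdvd : (commutator B).index ∣ Nat.card B := Subgroup.index_dvd_card _
  have hqm : ¬ q ∣ m := by
    intro h
    apply hq2
    refine Dvd.dvd.trans ?_ hdvd
    rw [hm, pow_two]
    exact Nat.mul_dvd_mul_left q h
  let π : B →* Abelianization B := (powMonoidHom m).comp Abelianization.of
  have hcard : Nat.card (Abelianization B) = q * m := hm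
  have hmem : ∀ x : B, x ∈ π.ker ↔ x ^ m ∈ commutator B := by
    intro x
    rw [MonoidHom.mem_ker]
    change (Abelianization.of x) ^ m = 1 ↔ _
    rw [← map_pow]
    exact QuotientGroup.eq_one_iff _
  have hchar : π.ker.Characteristic := by
    rw [Subgroup.characteristic_iff_le_comap]
    intro φ x hx
    rw [Subgroup.mem_comap, hmem]
    rw [hmem] at hx
    have h1 : (commutator B).Characteristic := inferInstance
    have h2 := (Subgroup.characteristic_iff_le_comap.1 h1) φ hx
    rw [Subgroup.mem_comap, map_pow] at h2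
    exact h2
  have hrp : IsPGroup q π.range := by
    rintro ⟨_, x, rfl⟩
    refine ⟨1, Subtype.ext ?_⟩
    change ((Abelianization.of x) ^ m) ^ q ^ 1 = 1
    rw [pow_one, ← pow_mul, mul_comm, ← hcard]
    exact pow_card_eq_one'
  have hrne : π.range ≠ ⊥ := by
    obtain ⟨t, ht⟩ := exists_prime_orderOf_dvd_card' (G := Abelianization B) q
      (by rw [hcard]; exact ⟨m, rfl⟩)
    obtain ⟨b, rfl⟩ := QuotientGroup.mk_surjective t
    intro hbot
    have h1 : π b ∈ π.range := ⟨b, rfl⟩
    rw [hbot, Subgroup.mem_bot] at h1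
    change (Abelianization.of b) ^ m = 1 at h1
    have h2 : orderOf (Abelianization.of b) ∣ m := orderOf_dvd_of_pow_eq_one h1
    have h3 : orderOf (Abelianization.of b) = q := ht
    rw [h3] at h2
    exact hqm h2
  have hrc : Nat.card π.range = q := by
    refine card_of_pgroup hq ?_ π.range hrne hrp
    rw [hcard, pow_two]
    intro h
    exact hqm (Nat.dvd_of_mul_dvd_mul_left hq.pos h)
  have hidx : π.ker.index = q := by rw [Subgroup.index_ker, hrc]
  refine ⟨π.ker, hchar, hidx, fun h => hq2 ?_⟩
  have h1 := π.ker.card_mul_index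
  rw [hidx] at h1
  rw [← h1, pow_two]
  exact Nat.mul_dvd_mul_right h q

end Pool.Agent.CGSR
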