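import Pool.Agent.CGSR.NqC
import Pool.Agent.CGSR.GT

/-!
# The numbers of classes of degree `q` and of degree one, a normal subgroup acting by scalars
-/

set_option autoImplicit false

namespace Pool.Agent.CGSR

open Matrix Pool.Agent.CGS

private theorem NqD_sim_twist {G : Type} [Group G] {d : ℕ} (χ : G →* ℂˣ) {ρ σ : Rep G d}
    (h : Sim ρ σ) : Sim (twist χ ρ) (twist χ σ) := by
  obtain ⟨P, hP⟩ := h
  refine ⟨P, fun g => ?_⟩
  rw [mat_twist, mat_twist, mul_smul_comm, smul_mul_assoc, hP g]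

private theorem NqD_isIrr_twist {G : Type} [Group G] {d : ℕ} (χ : G →* ℂˣ) {ρ : Rep G d}
    (h : IsIrr ρ) : IsIrr (twist χ ρ) := by
  refine ⟨h.pos, ?_⟩
  rw [eq_top_iff, ← h.span, Submodule.span_le]
  rintro _ ⟨g, rfl⟩
  have e1 : mat ρ g = ((χ g)⁻¹ : ℂˣ) • mat (twist χ ρ) g := by
    rw [mat_twist, Units.smul_def, smul_smul, ← Units.val_mul, inv_mul_cancel, Units.val_one,
      one_smul]
  rw [e1, Units.smul_def]
  exact Submodule.smul_mem _ _ (Submodule.subset_span ⟨g, rfl⟩)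

/-- the twist of a class -/
private def NqD_twC {G : Type} [Group G] {d : ℕ} (χ : G →* ℂˣ) : Cls G d → Cls G d :=
  clsMap (twist χ) (fun _ h => NqD_isIrr_twist χ h) (fun _ _ h => NqD_sim_twist χ h)

private theorem NqD_twC_mk {G : Type} [Group G] {d : ℕ} (χ : G →* ℂˣ) (ρ : Rep G d) (h : IsIrr ρ) :
    NqD_twC χ (mk ρ h) = mk (twist χ ρ) (NqD_isIrr_twist χ h) := rfl

private theorem NqD_twC_inv {G : Type} [Group G] {d : ℕ} (χ ψ : G →* ℂˣ)
    (hχ : ∀ g, χ g * ψ g = 1) (c : Cls G d) : NqD_twC χ (NqD_twC ψ c) = c := by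
  refine cls_ind (q := fun c => NqD_twC χ (NqD_twC ψ c) = c) (fun ρ h => ?_) c
  rw [NqD_twC_mk, NqD_twC_mk, mk_eq]
  have h1 : twist χ (twist ψ ρ) = ρ := by
    refine rep_ext fun g => ?_
    rw [mat_twist, mat_twist, smul_smul, ← Units.val_mul, hχ, Units.val_one, one_smul]
  rw [h1]
  exact Sim.refl ρ

private theorem NqD_twC_injective {G : Type} [Group G] {d : ℕ} (χ : G →* ℂˣ) :
    Function.Injective (NqD_twC (d := d) χ) := by
  intro c c' h
  have h0 : ∀ g, χ⁻¹ g * χ g = 1 := fun g => inv_mul_cancel (χ g)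
  rw [← NqD_twC_inv χ⁻¹ χ h0 c, ← NqD_twC_inv χ⁻¹ χ h0 c', h]

private theorem NqD_detH_sim {G : Type} [Group G] {d : ℕ} {ρ σ : Rep G d} (h : Sim ρ σ) :
    Matrix.GeneralLinearGroup.det.comp ρ = Matrix.GeneralLinearGroup.det.comp σ := by
  refine MonoidHom.ext fun g => Units.ext ?_
  exact det_sim h g

/-- the determinant of a class -/
private noncomputable def NqD_detC {G : Type} [Group G] {d : ℕ} (c : Cls G d) : G →* ℂˣ :=
  Quotient.lift (s := irrSetoid G d) (fun ρ => Matrix.GeneralLinearGroup.det.comp ρ.1)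
    (fun _ _ h => NqD_detH_sim h) c

private theorem NqD_detC_mk {G : Type} [Group G] {d : ℕ} (ρ : Rep G d) (h : IsIrr ρ) (g : G) :
    ((NqD_detC (mk ρ h) g : ℂˣ) : ℂ) = (mat ρ g).det := rfl

private theorem NqD_detC_twC {G : Type} [Group G] {d : ℕ} (χ : G →* ℂˣ) (c : Cls G d) (g : G) :
    NqD_detC (NqD_twC χ c) g = χ g ^ d * NqD_detC c g := by
  refine cls_ind (q := fun c => NqD_detC (NqD_twC χ c) g = χ g ^ d * NqD_detC c g) (fun ρ h => ?_) c
  refine Units.ext ?_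
  rw [NqD_twC_mk, NqD_detC_mk, mat_twist, Matrix.det_smul, Fintype.card_fin, Units.val_mul,
    NqD_detC_mk, Units.val_pow_eq_pow_val]

private theorem NqD_detC_ker {G : Type} [Group G] {d : ℕ} (c : Cls G d) :
    ∀ g ∈ kerC c, NqD_detC c g = 1 := by
  refine cls_ind (q := fun c => ∀ g ∈ kerC c, NqD_detC c g = 1) (fun ρ h g hg => ?_) c
  rw [kerC_mk, mem_ker_iff] at hg
  refine Units.ext ?_
  rw [NqD_detC_mk, hg, Matrix.det_one, Units.val_one]

/-- the inflation of a class -/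
private def NqD_infl {G : Type} [Group G] (M : Subgroup G) [M.Normal] {d : ℕ} :
    Cls (G ⧸ M) d → Cls G d :=
  clsMap (pull (QuotientGroup.mk' M))
    (fun _ h => (isIrr_pull (QuotientGroup.mk'_surjective M)).2 h) (fun _ _ h => sim_pull _ h)

private theorem NqD_infl_mk {G : Type} [Group G] (M : Subgroup G) [M.Normal] {d : ℕ}
    (ρ : Rep (G ⧸ M) d) (h : IsIrr ρ) : NqD_infl M (mk ρ h) = mk (pull (QuotientGroup.mk' M) ρ)
      ((isIrr_pull (QuotientGroup.mk'_surjective M)).2 h) := rfl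

private theorem NqD_infl_injective {G : Type} [Group G] (M : Subgroup G) [M.Normal] {d : ℕ} :
    Function.Injective (NqD_infl (d := d) M) := by
  intro c c'
  refine cls_ind (q := fun c => NqD_infl M c = NqD_infl M c' → c = c') (fun ρ hρ => ?_) c
  refine cls_ind (q := fun c' => NqD_infl M (mk ρ hρ) = NqD_infl M c' → mk ρ hρ = c')
    (fun σ hσ => ?_) c'
  intro h
  rw [NqD_infl_mk, NqD_infl_mk, mk_eq] at h
  obtain ⟨P, hP⟩ := h
  refine mk_eq.2 ⟨P, fun g => ?_⟩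
  obtain ⟨y, rfl⟩ := QuotientGroup.mk'_surjective M g
  exact hP y

private theorem NqD_exists_infl {G : Type} [Group G] (M : Subgroup G) [M.Normal] {d : ℕ}
    (c : Cls G d) (hc : M ≤ kerC c) : ∃ c', NqD_infl M c' = c := by
  revert hc
  refine cls_ind (q := fun c => M ≤ kerC c → ∃ c', NqD_infl M c' = c) (fun σ hσ hM => ?_) c
  rw [kerC_mk] at hM
  obtain ⟨τ, hτ⟩ : ∃ τ : Rep (G ⧸ M) d, pull (QuotientGroup.mk' M) τ = σ :=
    ⟨QuotientGroup.lift M σ fun x hx => MonoidHom.mem_ker.1 (hM hx),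
      MonoidHom.ext fun x => rfl⟩
  have h1 : IsIrr τ := by
    rw [← isIrr_pull (QuotientGroup.mk'_surjective M), hτ]
    exact hσ
  refine ⟨mk τ h1, ?_⟩
  rw [NqD_infl_mk, mk_eq, hτ]
  exact Sim.refl σ

private theorem NqD_det_infl {G : Type} [Group G] (M : Subgroup G) [M.Normal] {d : ℕ}
    (c : Cls (G ⧸ M) d) (g : G) : NqD_detC (NqD_infl M c) g = NqD_detC c (g : G ⧸ M) := by
  refine cls_ind (q := fun c => NqD_detC (NqD_infl M c) g = NqD_detC c (g : G ⧸ M))
    (fun ρ hρ => ?_) c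
  refine Units.ext ?_
  rw [NqD_infl_mk, NqD_detC_mk, NqD_detC_mk, mat_pull]
  rfl

/-- proportional numbers of classes -/
theorem N_q_mul {X : Type} [Group X] [Finite X] {q : ℕ} (hq : q.Prime)
    (h3 : ¬ q ∣ (commutator X).index) (N₀ : Subgroup X) [N₀.Normal] (hN : ¬ q ∣ Nat.card N₀)
    (hsc : ∀ ρ : Rep X q, IsIrr ρ → ∃ l : N₀ →* ℂˣ, ∀ n : N₀, mat ρ (n : X) =
      ((l n : ℂˣ) : ℂ) • (1 : Matrix (Fin q) (Fin q) ℂ)) :
    N (X ⧸ N₀) 1 * N X q = N X 1 * N (X ⧸ N₀) q := by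
  have hcard : Nat.card (X →* ℂˣ) = (commutator X).index := card_hom X
  have hfin : Finite (X →* ℂˣ) := Nat.finite_of_card_ne_zero (by
    rw [hcard]
    exact Subgroup.index_ne_zero_of_finite)
  have hcop : (Nat.card (X →* ℂˣ)).Coprime q := by
    rw [hcard, Nat.coprime_comm]
    exact (Nat.Prime.coprime_iff_not_dvd hq).2 h3
  have hcard' : Nat.card ((X ⧸ N₀) →* ℂˣ) = (commutator (X ⧸ N₀)).index := card_hom (X ⧸ N₀)
  have hfin' : Finite ((X ⧸ N₀) →* ℂˣ) := Nat.finite_of_card_ne_zero (by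
    rw [hcard']
    exact Subgroup.index_ne_zero_of_finite)
  have hcop' : (Nat.card ((X ⧸ N₀) →* ℂˣ)).Coprime q := by
    rw [hcard', Nat.coprime_comm]
    refine (Nat.Prime.coprime_iff_not_dvd hq).2 fun h => h3 (h.trans ?_)
    exact index_commutator_dvd (QuotientGroup.mk' N₀) (QuotientGroup.mk'_surjective N₀)
  obtain ⟨ψ, hψ, hψ'⟩ : ∃ ψ : ((X ⧸ N₀) →* ℂˣ) → ((X ⧸ N₀) →* ℂˣ), Function.Injective ψ ∧
      ∀ χ ν : (X ⧸ N₀) →* ℂˣ, (∀ g, χ g = ν g ^ q) → ψ χ = ν := by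
    refine ⟨(powCoprime hcop').symm, (powCoprime hcop').symm.injective, fun χ ν h => ?_⟩
    rw [Equiv.symm_apply_eq]
    exact MonoidHom.ext fun g => h g
  let F : (X →* ℂˣ) × Cls (X ⧸ N₀) q → ((X ⧸ N₀) →* ℂˣ) × Cls X q :=
    fun p => (ψ (NqD_detC p.2), NqD_twC p.1 (NqD_infl N₀ p.2))
  have hF : Function.Bijective F := by
    constructor
    · rintro ⟨χ, c⟩ ⟨χ', c'⟩ h
      have h1 : NqD_detC c = NqD_detC c' := hψ (congrArg Prod.fst h)
      have h2 : NqD_twC χ (NqD_infl N₀ c) = NqD_twC χ' (NqD_infl N₀ c') :=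
        congrArg Prod.snd h
      have h4 : ∀ g, χ g ^ q = χ' g ^ q := by
        intro g
        have h5 := congrArg (fun c => NqD_detC c g) h2
        simp only [NqD_detC_twC, NqD_det_infl, h1] at h5
        exact (mul_left_injective _) h5
      have h5 : χ = χ' := (powCoprime hcop).injective (MonoidHom.ext fun g => h4 g)
      subst h5
      have h6 := NqD_infl_injective N₀ (NqD_twC_injective χ h2)
      rw [h6]
    · rintro ⟨ν, c⟩
      refine cls_ind (q := fun c => ∃ p, F p = (ν, c)) (fun ρ hρ => ?_) c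
      obtain ⟨l, hl⟩ := hsc ρ hρ
      obtain ⟨μ, hμ⟩ : ∃ μ : X →* ℂˣ, ∀ g, μ g ^ q = NqD_detC (mk ρ hρ) g := by
        obtain ⟨μ, hμ⟩ := (powCoprime hcop).surjective (NqD_detC (mk ρ hρ))
        exact ⟨μ, fun g => DFunLike.congr_fun hμ g⟩
      have hμn : ∀ n : N₀, μ (n : X) = l n := by
        intro n
        have h2 : NqD_detC (mk ρ hρ) (n : X) = l n ^ q := by
          refine Units.ext ?_
          rw [NqD_detC_mk, hl n, Matrix.det_smul, Matrix.det_one, Fintype.card_fin, mul_one,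
            Units.val_pow_eq_pow_val]
        have h4 : (μ (n : X) / l n) ^ q = 1 := by
          rw [div_pow, hμ, h2, div_self']
        have h5 : (μ (n : X) / l n) ^ Nat.card N₀ = 1 := by
          have e1 : ∀ m : ℕ, μ ((n : N₀) : X) ^ m = μ ((n ^ m : N₀) : X) := by
            intro m
            rw [Subgroup.coe_pow, map_pow]
          rw [div_pow, ← map_pow l, e1, pow_card_eq_one', map_one, Subgroup.coe_one, map_one,
            div_self']
        have h6 : (q.Coprime (Nat.card N₀)) := (Nat.Prime.coprime_iff_not_dvd hq).2 hN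
        have h7 : μ (n : X) / l n = 1 := by
          rw [← orderOf_eq_one_iff]
          exact Nat.eq_one_of_dvd_coprimes h6 (orderOf_dvd_of_pow_eq_one h4)
            (orderOf_dvd_of_pow_eq_one h5)
        exact div_eq_one.1 h7
      obtain ⟨κ, hκ⟩ : ∃ κ : X →* ℂˣ, ∀ g, κ g = μ g / ν (g : X ⧸ N₀) :=
        ⟨μ / ν.comp (QuotientGroup.mk' N₀), fun g => rfl⟩
      have hν1 : ∀ n : N₀, ν (((n : X) : X ⧸ N₀)) = 1 := by
        intro n
        rw [(QuotientGroup.eq_one_iff (n : X)).2 n.2, map_one]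
      have h0 : ∀ g, κ g * κ⁻¹ g = 1 := fun g => mul_inv_cancel (κ g)
      have h0' : ∀ g, κ⁻¹ g * κ g = 1 := fun g => inv_mul_cancel (κ g)
      have hker2 : N₀ ≤ kerC (NqD_twC κ⁻¹ (mk ρ hρ)) := by
        intro n hn
        have h1 := hκ n
        rw [hν1 ⟨n, hn⟩, div_one, hμn ⟨n, hn⟩] at h1
        rw [NqD_twC_mk, kerC_mk, mem_ker_iff, mat_twist, hl ⟨n, hn⟩, smul_smul,
          ← Units.val_mul, ← h1, h0', Units.val_one, one_smul]
      obtain ⟨c', hc'⟩ := NqD_exists_infl N₀ _ hker2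
      refine ⟨(κ, c'), ?_⟩
      have hdet : ∀ g, NqD_detC c' g = ν g ^ q := by
        intro g
        obtain ⟨g, rfl⟩ := QuotientGroup.mk'_surjective N₀ g
        have h1 := NqD_det_infl N₀ c' g
        rw [hc', NqD_detC_twC, ← hμ] at h1
        have h2 : κ⁻¹ g = (κ g)⁻¹ := rfl
        rw [QuotientGroup.mk'_apply, ← h1, h2, hκ, inv_div, div_pow, div_mul_cancel]
      change (ψ (NqD_detC c'), NqD_twC κ (NqD_infl N₀ c')) = _
      rw [hψ' _ ν hdet, hc', NqD_twC_inv κ κ⁻¹ h0]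
  have h2 := Nat.card_congr (Equiv.ofBijective F hF)
  rw [Nat.card_prod, Nat.card_prod, hcard, hcard', ← N_one, ← N_one] at h2
  exact h2.symm

end Pool.Agent.CGSR
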