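import Pool.Agent.CGSR.Ad
import Pool.Agent.CGS.VM3
import Pool.Agent.CGS.Sol3
import Pool.Agent.CGS.KerB

/-!
# The parity of the number of classes of degree three

Let `X` be a finite group without subgroups of index two, of order prime to 5.  If `X` has an
irreducible representation of degree two or an odd number of classes of degree three then it has a
normal subgroup of index three.  If moreover `9` does not divide the order of `X` and `X` has an
irreducible representation of degree two then the number of classes of degree three is odd.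
-/

set_option autoImplicit false

namespace Pool.Agent.CGSR

open Matrix Pool.Agent.CGS
open scoped commutatorElement

theorem commutator_le_of_prime {X : Type} [Group X] {p : ℕ} (hp : p.Prime) (R : Subgroup X)
    [R.Normal] (hR : R.index = p) : commutator X ≤ R := by
  have : Fact p.Prime := ⟨hp⟩
  have h5 : IsCyclic (X ⧸ R) := isCyclic_of_prime_card (p := p) hR
  have h7 : IsMulCommutative (X ⧸ R) := inferInstance
  rw [commutator_def, Subgroup.commutator_le]
  intro x _ y _
  rw [← QuotientGroup.eq_one_iff]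
  have h8 : ((⁅x, y⁆ : X) : X ⧸ R) = ⁅(x : X ⧸ R), (y : X ⧸ R)⁆ := by
    rw [commutatorElement_def, commutatorElement_def]
    rfl
  rw [h8, commutatorElement_eq_one_iff_mul_comm]
  exact h7.is_comm.comm _ _

/-- a normal subgroup of index three between `M` and `X` -/
theorem exists_index_three {X : Type} [Group X] [Finite X] (hX : NoIdx2 X) (M : Subgroup X)
    [M.Normal] (h : M.index = 12 ∨ M.index = 24) :
    ∃ R : Subgroup X, R.Normal ∧ M ≤ R ∧ R.index = 3 ∧ ∃ k, k ≠ 0 ∧ M.relIndex R = 2 ^ k := by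
  have hk : ∃ k, k ≠ 0 ∧ M.index = 3 * 2 ^ k := by
    rcases h with h | h
    · exact ⟨2, by norm_num, by rw [h]; norm_num⟩
    · exact ⟨3, by norm_num, by rw [h]; norm_num⟩
  obtain ⟨k, hk0, hk⟩ := hk
  obtain ⟨R, hR, -, hR3⟩ := exists_of_noIdx2 (hX.quotient M) (k := k) hk
  have hQ : (R.comap (QuotientGroup.mk' M)).index = 3 := by
    rw [Subgroup.index_comap_of_surjective R (QuotientGroup.mk'_surjective M), hR3]
  have hle : M ≤ R.comap (QuotientGroup.mk' M) := by
    intro x hx
    rw [Subgroup.mem_comap, QuotientGroup.mk'_apply, (QuotientGroup.eq_one_iff x).2 hx]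
    exact one_mem R
  refine ⟨R.comap (QuotientGroup.mk' M), hR.comap _, hle, hQ, k, hk0, ?_⟩
  have h1 := Subgroup.relIndex_mul_index hle
  rw [hQ, hk, mul_comm] at h1
  exact Nat.eq_of_mul_eq_mul_left (by norm_num) h1

theorem three_dvd_of_kernel {X : Type} [Group X] [Finite X] (hX : NoIdx2 X) (M : Subgroup X)
    [M.Normal] (h : M.index = 12 ∨ M.index = 24) : 3 ∣ (commutator X).index := by
  obtain ⟨R, hR, -, hR3, -⟩ := exists_index_three hX M h
  rw [← hR3]
  exact Subgroup.index_dvd_of_le (commutator_le_of_prime Nat.prime_three R hR3)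

theorem kernel_index_five {X : Type} [Group X] [Finite X] (hX : NoIdx2 X)
    (h5 : ¬ 5 ∣ Nat.card X) (c : Cls X 3) (hc : Has SelfDual c) :
    (kerC c).index = 12 ∨ (kerC c).index = 24 := by
  rcases kernel_index hX c hc with h | h | h
  · exact Or.inl h
  · exact Or.inr h
  · exfalso
    apply h5
    refine Dvd.dvd.trans ?_ (Subgroup.index_dvd_card (kerC c))
    rw [h]
    norm_num

theorem N_two_of_three {X : Type} [Group X] [Finite X] (hX : NoIdx2 X)
    (h3 : ¬ 3 ∣ Nat.card X) : N X 2 = 0 := by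
  by_contra h
  obtain ⟨c, hc⟩ := exists_selfDual hX h
  apply h3
  refine Dvd.dvd.trans ?_ (Subgroup.index_dvd_card (kerC c))
  rcases kernel_index hX c hc with h | h | h
  · rw [h]; norm_num
  · rw [h]; norm_num
  · rw [h]; norm_num

theorem three_dvd_of_N_two {X : Type} [Group X] [Finite X] (hX : NoIdx2 X)
    (h5 : ¬ 5 ∣ Nat.card X) (h : N X 2 ≠ 0) : 3 ∣ (commutator X).index := by
  obtain ⟨c, hc⟩ := exists_selfDual hX h
  exact three_dvd_of_kernel hX (kerC c) (kernel_index_five hX h5 c hc)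

theorem three_dvd_of_N_three {X : Type} [Group X] [Finite X] (hX : NoIdx2 X)
    (h : Odd (N X 3)) : 3 ∣ (commutator X).index := by
  obtain ⟨M, hM, hi⟩ := exists_kernel hX h
  exact three_dvd_of_kernel hX M hi

theorem eq_of_index_three {X : Type} [Group X] [Finite X] (h9 : ¬ 9 ∣ Nat.card X)
    (R L : Subgroup X) [R.Normal] [L.Normal] (hR : R.index = 3) (hL : L.index = 3) : R = L := by
  have h1 : (R ⊔ L).index ∣ 3 := by
    rw [← hR]
    exact Subgroup.index_dvd_of_le le_sup_left
  rcases (Nat.dvd_prime Nat.prime_three).1 h1 with h2 | h2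
  · exfalso
    apply h9
    have h3 : (R ⊓ L).relIndex L * L.index = (R ⊓ L).index :=
      Subgroup.relIndex_mul_index inf_le_right
    have h4 : R.relIndex (R ⊔ L) = R.relIndex L := by
      rw [sup_comm]
      exact Subgroup.relIndex_sup_right L R
    have h5 : R.relIndex (R ⊔ L) = 3 := by
      have h6 := Subgroup.relIndex_mul_index (le_sup_left : R ≤ R ⊔ L)
      rw [h2, mul_one, hR] at h6
      exact h6
    rw [Subgroup.inf_relIndex_right, ← h4, h5, hL] at h3
    refine Dvd.dvd.trans ?_ (Subgroup.index_dvd_card (R ⊓ L))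
    rw [← h3]
  · have key : ∀ Z : Subgroup X, Z ≤ R ⊔ L → Z.index = 3 → Z = R ⊔ L := by
      intro Z hZ hZ3
      have h3 := Subgroup.relIndex_mul_index hZ
      rw [h2, hZ3] at h3
      have h4 : Z.relIndex (R ⊔ L) = 1 := by omega
      exact le_antisymm hZ (Subgroup.relIndex_eq_one.1 h4)
    rw [key R le_sup_left hR]
    exact (key L le_sup_right hL).symm

private theorem not_irr_res {K : Type} [Group K] [Finite K] (L M : Subgroup K) [M.Normal]
    (ρ : Rep K 3) (hM : M ≤ ρ.ker) {k : ℕ} (hk : M.relIndex L = 2 ^ k) :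
    ¬ IsIrr (res L ρ) := by
  intro hirr
  let r : L →* ((Fin 3 → ℂ) →ₗ[ℂ] (Fin 3 → ℂ)) := (toRepr ρ).comp L.subtype
  have hker : M.subgroupOf L ≤ r.ker := by
    intro x hx
    rw [MonoidHom.mem_ker]
    have h1 : (x : K) ∈ ρ.ker := hM hx
    rw [mem_ker_iff] at h1
    refine LinearMap.ext fun v => ?_
    change mat ρ (x : K) *ᵥ v = v
    rw [h1, Matrix.one_mulVec]
  let r' : Representation ℂ (L ⧸ M.subgroupOf L) (Fin 3 → ℂ) :=
    QuotientGroup.lift (M.subgroupOf L) r hker
  have hp : IsPGroup 2 (L ⧸ M.subgroupOf L) := IsPGroup.of_card (n := k) hk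
  obtain ⟨v, hv0, hv⟩ := exists_eigenvector hp r'
    (by rw [Module.finrank_fin_fun]; decide)
  have hv' : ∀ x : L, ∃ c : ℂ, mat ρ (x : K) *ᵥ v = c • v := by
    intro x
    obtain ⟨c, hc⟩ := hv (x : L ⧸ M.subgroupOf L)
    exact ⟨c, hc⟩
  have hst : Stable (res L ρ) (Submodule.span ℂ {v}) := by
    intro g w hw
    rw [Submodule.mem_span_singleton] at hw ⊢
    obtain ⟨a, rfl⟩ := hw
    obtain ⟨c, hc⟩ := hv' g
    refine ⟨a * c, ?_⟩
    rw [mat_res, Matrix.mulVec_smul, hc, smul_smul]
  rcases ((isIrr_iff (res L ρ)).1 hirr).2 _ hst with h | h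
  · rw [Submodule.span_singleton_eq_bot] at h
    exact hv0 h
  · have h1 := finrank_span_singleton (K := ℂ) hv0
    rw [h, finrank_top, Module.finrank_fin_fun] at h1
    omega

private theorem card_split {α : Type} [Finite α] (p : α → Prop) :
    Nat.card α = Nat.card {c : α // p c} + Nat.card {c : α // ¬ p c} := by
  classical
  rw [← Nat.card_sum]
  exact Nat.card_congr (Equiv.sumCompl p).symm

private theorem even_of_no_fixed {K : Type} [Group K] [Finite K] (L : Subgroup K)
    (hno : ∀ c : Cls K 3, Has SelfDual c → ¬ Has (ResIrr L) c) :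
    Even (Nat.card {c : Cls K 3 // Has (ResIrr L) c}) := by
  classical
  have hfin := finite_cls K 3
  have hfin' := Fintype.ofFinite {c : Cls K 3 // Has (ResIrr L) c}
  let D : Cls K 3 → Cls K 3 :=
    clsMap dual (fun _ h => isIrr_dual h) (fun _ _ h => sim_dual h)
  have hmk : ∀ (ρ : Rep K 3) (h : IsIrr ρ), D (mk ρ h) = mk (dual ρ) (isIrr_dual h) :=
    fun ρ h => rfl
  have hD : ∀ c, D (D c) = c := by
    refine cls_ind fun ρ h => ?_
    rw [hmk, hmk, mk_eq, dual_dual]
    exact Sim.refl ρ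
  have hfix : ∀ c, D c = c → Has SelfDual c := by
    refine cls_ind fun ρ h => ?_
    rw [hmk, mk_eq, has_mk (fun _ _ => SelfDual.of_sim), ← dual_sim_iff]
    exact Sim.symm
  have hres : ∀ c, Has (ResIrr L) c → Has (ResIrr L) (D c) := by
    refine cls_ind fun ρ h => ?_
    rw [hmk, has_mk fun _ _ h1 h2 => ResIrr.of_sim L h1 h2,
      has_mk fun _ _ h1 h2 => ResIrr.of_sim L h1 h2]
    intro h1
    exact isIrr_dual (ρ := res L ρ) h1
  let D' : {c : Cls K 3 // Has (ResIrr L) c} → {c : Cls K 3 // Has (ResIrr L) c} :=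
    fun c => ⟨D c.1, hres c.1 c.2⟩
  have h1 : D'^[2 ^ 1] = id := by
    funext c
    exact Subtype.ext (hD c.1)
  have h2 := Equiv.Perm.card_fixedPoints_modEq (f := D') (p := 2) (n := 1) h1
  have h3 : IsEmpty (Function.fixedPoints D') := by
    refine ⟨fun x => ?_⟩
    have h4 : D' x.1 = x.1 := x.2
    exact hno x.1.1 (hfix x.1.1 (congrArg Subtype.val h4)) x.1.2
  rw [Fintype.card_eq_zero_iff.2 h3] at h2
  rw [Nat.card_eq_fintype_card]
  exact even_iff_two_dvd.2 ((Nat.modEq_zero_iff_dvd).1 h2)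

theorem odd_N_three_of_kernels {K : Type} [Group K] [Finite K] (hK : NoIdx2 K)
    (h9 : ¬ 9 ∣ Nat.card K)
    (hker : ∀ c : Cls K 3, Has SelfDual c → (kerC c).index = 12 ∨ (kerC c).index = 24)
    (h2 : N K 2 ≠ 0) : Odd (N K 3) := by
  classical
  obtain ⟨c0, hc0⟩ := exists_selfDual hK h2
  obtain ⟨L, hL, hML, hL3, k, hk0, hk⟩ :=
    exists_index_three hK (kerC c0) (hker c0 hc0)
  have hY : ∃ Y : Subgroup L, Y.index = 2 := by
    have hp : IsPGroup 2 (L ⧸ (kerC c0).subgroupOf L) := IsPGroup.of_card (n := k) hk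
    have hnt : Nontrivial (L ⧸ (kerC c0).subgroupOf L) := by
      rw [← Finite.one_lt_card_iff_nontrivial]
      have h1 : Nat.card (L ⧸ (kerC c0).subgroupOf L) = 2 ^ k := hk
      rw [h1]
      exact Nat.one_lt_two_pow hk0
    obtain ⟨Y, hY⟩ := exists_index_two_of_isPGroup hp
    refine ⟨Y.comap (QuotientGroup.mk' _), ?_⟩
    rw [Subgroup.index_comap_of_surjective Y (QuotientGroup.mk'_surjective _), hY]
  obtain ⟨Y, hY⟩ := hY
  have hfin1 : Finite (Cls K 1) := finite_cls K 1
  have hfin3 : Finite (Cls K 3) := finite_cls K 3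
  have hmass := mass_three L hL3 (e := 1) one_pos
  have hall : Nat.card {c : Cls K 1 // Has (ResIrr L) c} = N K 1 := by
    unfold N
    refine Nat.card_congr (Equiv.subtypeUnivEquiv fun c => ?_)
    by_contra hc
    have := not_resIrr_deg L hL3 c hc
    omega
  have hN1 : Odd (N K 1) := by
    rw [N_one]
    exact hK.odd_index_commutator
  have hNL : Even (N L 1) := even_N_of_index_two Y hY odd_one
  have hsplit := card_split (fun c : Cls K 3 => Has (ResIrr L) c)
  have hA : Even (Nat.card {c : Cls K 3 // Has (ResIrr L) c}) := by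
    refine even_of_no_fixed L fun c hc hres => ?_
    obtain ⟨R, hR, hMR, hR3, j, -, hj⟩ :=
      exists_index_three hK (kerC c) (hker c hc)
    have hRL : R = L := eq_of_index_three h9 R L hR3 hL3
    subst hRL
    revert hc hres hMR hj
    refine cls_ind (q := fun c => Has SelfDual c → kerC c ≤ R →
      (kerC c).relIndex R = 2 ^ j → Has (ResIrr R) c → False) (fun ρ hρ _ hMR hj hres => ?_) c
    rw [has_mk fun _ _ h1 h2 => ResIrr.of_sim R h1 h2] at hres
    rw [kerC_mk] at hj
    exact not_irr_res R ρ.ker ρ le_rfl hj hres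
  have hmass' : 3 * N L 1 = N K 1 + 9 * Nat.card {c : Cls K 3 // ¬ Has (ResIrr L) c} := by
    rw [← hall]
    exact hmass
  have hNK : N K 3 = Nat.card {c : Cls K 3 // Has (ResIrr L) c} +
      Nat.card {c : Cls K 3 // ¬ Has (ResIrr L) c} := hsplit
  rw [hNK]
  obtain ⟨x, hx⟩ := hNL
  obtain ⟨y, hy⟩ := hN1
  obtain ⟨z, hz⟩ := hA
  rw [hx, hy] at hmass'
  rw [hz, Nat.odd_iff]
  omega

theorem odd_N_three_of_N_two {K : Type} [Group K] [Finite K] (hK : NoIdx2 K)
    (h9 : ¬ 9 ∣ Nat.card K) (h5 : ¬ 5 ∣ Nat.card K) (h2 : N K 2 ≠ 0) : Odd (N K 3) :=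
  odd_N_three_of_kernels hK h9 (fun c hc => kernel_index_five hK h5 c hc) h2

end Pool.Agent.CGSR
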