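import Pool.Agent.CGSR.WtQ
import Pool.Agent.CGSR.Par

/-!
# The number of classes of degree `q` of a group with a normal subgroup of index `q` and order
prime to `q`

`q |M : M'| = |X : X'| + q ^ 2 N_q(X)`.
-/

set_option autoImplicit false

namespace Pool.Agent.CGSR

open Matrix Pool.Agent.CGS
open scoped commutatorElement

/-- a representation all of whose matrices commute has degree one -/
private theorem deg_one {X : Type} [Group X] {d : ℕ} {ρ : Rep X d} (h : IsIrr ρ)
    (hc : ∀ g g' : X, mat ρ g * mat ρ g' = mat ρ g' * mat ρ g) : d = 1 := by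
  have h1 : ∀ g : X, ∃ c : ℂ, mat ρ g = c • 1 := fun g => schur h _ fun s => hc g s
  have h2 : Submodule.span ℂ (Set.range (mat ρ)) ≤
      Submodule.span ℂ {(1 : Matrix (Fin d) (Fin d) ℂ)} := by
    rw [Submodule.span_le]
    rintro _ ⟨g, rfl⟩
    obtain ⟨c, hc'⟩ := h1 g
    rw [hc']
    exact Submodule.smul_mem _ _ (Submodule.subset_span rfl)
  rw [h.span] at h2
  have h3 := Submodule.finrank_mono h2
  rw [finrank_top, Module.finrank_matrix, Fintype.card_fin, Module.finrank_self, mul_one] at h3
  have h4 : Module.finrank ℂ (Submodule.span ℂ {(1 : Matrix (Fin d) (Fin d) ℂ)}) ≤ 1 := by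
    have h5 := finrank_span_le_card (R := ℂ) ({(1 : Matrix (Fin d) (Fin d) ℂ)} : Set _)
    simpa using h5
  have h5 := h.pos
  have h6 : d * d ≤ 1 := h3.trans h4
  nlinarith

/-- the degrees of a group with a commutative normal subgroup of prime index -/
theorem deg_cases {X : Type} [Group X] [Finite X] (M : Subgroup X) [M.Normal] {q : ℕ}
    (hq : q.Prime) (hM : M.index = q) (hMc : ∀ a ∈ M, ∀ b ∈ M, a * b = b * a) {d : ℕ}
    {ρ : Rep X d} (h : IsIrr ρ) : d = 1 ∨ d = q := by
  obtain ⟨v, hv0, hv⟩ := eigen_comm M hMc ρ h.pos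
  obtain ⟨l, hl⟩ := exists_weight M ρ hv0 hv
  have hdvd : (fixW M l).index ∣ q := by
    rw [← hM]
    exact Subgroup.index_dvd_of_le (le_fixW M l)
  rcases (Nat.dvd_prime hq).1 hdvd with h1 | h1
  · -- the subgroup acts by scalars
    left
    have hfix : fixW M l = ⊤ := Subgroup.index_eq_one.1 h1
    have hs := scalar_of_fixed M h hv0 hl hfix
    obtain ⟨t, ht⟩ : ∃ t, t ∉ M := by
      by_contra hcon
      push Not at hcon
      have h2 : M = ⊤ := (Subgroup.eq_top_iff' M).2 hcon
      rw [h2, Subgroup.index_top] at hM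
      exact hq.one_lt.ne hM
    -- the centralizer of the matrix of `t`
    have hcent : ∀ t g : X, t ∉ M → mat ρ g * mat ρ t = mat ρ t * mat ρ g := by
      intro t g ht
      let K : Subgroup X :=
        { carrier := {g | mat ρ g * mat ρ t = mat ρ t * mat ρ g}
          mul_mem' := by
            intro a b ha hb
            have ha' : mat ρ a * mat ρ t = mat ρ t * mat ρ a := ha
            have hb' : mat ρ b * mat ρ t = mat ρ t * mat ρ b := hb
            change mat ρ (a * b) * mat ρ t = mat ρ t * mat ρ (a * b)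
            rw [mat_mul, mul_assoc, hb', ← mul_assoc, ha', mul_assoc]
          one_mem' := by
            change mat ρ 1 * mat ρ t = mat ρ t * mat ρ 1
            rw [mat_one, one_mul, mul_one]
          inv_mem' := by
            intro a ha
            have ha' : mat ρ a * mat ρ t = mat ρ t * mat ρ a := ha
            change mat ρ a⁻¹ * mat ρ t = mat ρ t * mat ρ a⁻¹
            have e1 := mat_inv_mul ρ a
            have e2 := mat_mul_inv ρ a
            calc mat ρ a⁻¹ * mat ρ t = mat ρ a⁻¹ * (mat ρ t * (mat ρ a * mat ρ a⁻¹)) := by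
                  rw [e2, mul_one]
              _ = mat ρ a⁻¹ * ((mat ρ t * mat ρ a) * mat ρ a⁻¹) := by rw [mul_assoc (mat ρ t)]
              _ = mat ρ a⁻¹ * ((mat ρ a * mat ρ t) * mat ρ a⁻¹) := by rw [ha']
              _ = (mat ρ a⁻¹ * mat ρ a) * mat ρ t * mat ρ a⁻¹ := by simp only [mul_assoc]
              _ = mat ρ t * mat ρ a⁻¹ := by rw [e1, one_mul] }
      have hMK : M ≤ K := by
        intro m hm
        change mat ρ m * mat ρ t = mat ρ t * mat ρ m
        rw [hs ⟨m, hm⟩, smul_mul_assoc, mul_smul_comm, one_mul, mul_one]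
      have htK : t ∈ K := rfl
      have h2 : K.index ∣ q := by
        rw [← hM]
        exact Subgroup.index_dvd_of_le hMK
      have h3 : K.index = 1 := by
        rcases (Nat.dvd_prime hq).1 h2 with h4 | h4
        · exact h4
        · exfalso
          have h5 := Subgroup.relIndex_mul_index hMK
          rw [h4, hM] at h5
          have h6 : M.relIndex K = 1 := Nat.eq_of_mul_eq_mul_right hq.pos (by rw [h5, one_mul])
          exact ht (Subgroup.relIndex_eq_one.1 h6 htK)
      have h4 : g ∈ K := by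
        rw [Subgroup.index_eq_one.1 h3]
        exact Subgroup.mem_top g
      exact h4
    refine deg_one h fun g g' => ?_
    by_cases hg' : g' ∈ M
    · rw [hs ⟨g', hg'⟩, smul_mul_assoc, mul_smul_comm, one_mul, mul_one]
    · exact hcent g' g hg'
  · right
    refine le_antisymm ?_ ?_
    · -- the translates of `v` by representatives span
      let w : X ⧸ M → (Fin d → ℂ) := fun x => mat ρ x.out *ᵥ v
      have hst : Stable ρ (Submodule.span ℂ (Set.range w)) := by
        intro g u hu
        induction hu using Submodule.span_induction with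
        | mem y hy =>
          obtain ⟨x, rfl⟩ := hy
          have h2 : ((g * x.out : X) : X ⧸ M).out⁻¹ * (g * x.out) ∈ M := by
            rw [← QuotientGroup.eq, QuotientGroup.out_eq']
          have h3 : mat ρ g *ᵥ w x = l ⟨_, h2⟩ • w ((g * x.out : X) : X ⧸ M) := by
            have h4 := hl ⟨_, h2⟩
            change mat ρ g *ᵥ (mat ρ x.out *ᵥ v) = _ • (mat ρ _ *ᵥ v)
            rw [← Matrix.mulVec_smul, ← h4, mulVec_mat, mulVec_mat, mul_inv_cancel_left]
          rw [h3]
          exact Submodule.smul_mem _ _ (Submodule.subset_span ⟨_, rfl⟩)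
        | zero =>
          rw [Matrix.mulVec_zero]
          exact Submodule.zero_mem _
        | add x y _ _ hx hy =>
          rw [Matrix.mulVec_add]
          exact Submodule.add_mem _ hx hy
        | smul c x _ hx =>
          rw [Matrix.mulVec_smul]
          exact Submodule.smul_mem _ c hx
      have htop : Submodule.span ℂ (Set.range w) = ⊤ := by
        rcases ((isIrr_iff ρ).1 h).2 _ hst with h2 | h2
        · exfalso
          have h3 : w ((1 : X) : X ⧸ M) ∈ Submodule.span ℂ (Set.range w) :=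
            Submodule.subset_span ⟨_, rfl⟩
          rw [h2, Submodule.mem_bot] at h3
          apply hv0
          have h4 := congrArg (fun u => mat ρ (((1 : X) : X ⧸ M).out)⁻¹ *ᵥ u) h3
          simp only [Matrix.mulVec_zero, w] at h4
          rwa [mulVec_mat, inv_mul_cancel, mat_one, Matrix.one_mulVec] at h4
        · exact h2
      have hfin : Fintype (X ⧸ M) := Fintype.ofFinite _
      have h2 := finrank_range_le_card (R := ℂ) w
      rw [Set.finrank, htop, finrank_top, Module.finrank_fin_fun] at h2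
      have h3 : Fintype.card (X ⧸ M) = q := by
        rw [← Nat.card_eq_fintype_card]
        exact hM
      rwa [h3] at h2
    · rw [← h1]
      exact index_fixW_le M ρ hv0 hl

private theorem mem_ker_of_comm {X : Type} [Group X] {d : ℕ} (ρ : Rep X d) {a b : X}
    (h : mat ρ a * mat ρ b = mat ρ b * mat ρ a) : ⁅a, b⁆ ∈ ρ.ker := by
  rw [mem_ker_iff, commutatorElement_def, mat_mul, mat_mul, mat_mul, h, mul_assoc (mat ρ b),
    mat_mul_inv, mul_one, mat_mul_inv]

/-- a normal subgroup of order prime to `q` acts by commuting matrices in degree `q` -/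
private theorem comm_of_prime {X : Type} [Group X] [Finite X] (M : Subgroup X) [M.Normal] {q : ℕ}
    (hq : q.Prime) (hqM : ¬ q ∣ Nat.card M) {ρ : Rep X q} (h : IsIrr ρ) {a b : X} (ha : a ∈ M)
    (hb : b ∈ M) : mat ρ a * mat ρ b = mat ρ b * mat ρ a := by
  obtain ⟨v, hv0, hv⟩ := eigen_prime M hq hqM h
  obtain ⟨E, hE⟩ : ∃ E : Set (Fin q → ℂ), E = {w | ∀ n : M, ∃ c : ℂ, mat ρ (n : X) *ᵥ w = c • w} :=
    ⟨_, rfl⟩
  have hst : Stable ρ (Submodule.span ℂ E) := by
    intro g u hu
    induction hu using Submodule.span_induction with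
    | mem y hy =>
      refine Submodule.subset_span ?_
      rw [hE] at hy ⊢
      intro n
      have h1 : g⁻¹ * (n : X) * g ∈ M := by
        have := ‹M.Normal›.conj_mem (n : X) n.2 g⁻¹
        simpa using this
      obtain ⟨c, hc⟩ := hy ⟨_, h1⟩
      refine ⟨c, ?_⟩
      rw [← Matrix.mulVec_smul, ← hc, mulVec_mat, mulVec_mat]
      congr 2
      group
    | zero =>
      rw [Matrix.mulVec_zero]
      exact Submodule.zero_mem _
    | add x y _ _ hx hy =>
      rw [Matrix.mulVec_add]
      exact Submodule.add_mem _ hx hy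
    | smul c x _ hx =>
      rw [Matrix.mulVec_smul]
      exact Submodule.smul_mem _ c hx
  have htop : Submodule.span ℂ E = ⊤ := by
    rcases ((isIrr_iff ρ).1 h).2 _ hst with h2 | h2
    · exfalso
      have h3 : v ∈ Submodule.span ℂ E := Submodule.subset_span (by rw [hE]; exact hv)
      rw [h2, Submodule.mem_bot] at h3
      exact hv0 h3
    · exact h2
  apply Matrix.toLin'.injective
  refine LinearMap.ext fun w => ?_
  rw [Matrix.toLin'_apply, Matrix.toLin'_apply]
  have hw : w ∈ Submodule.span ℂ E := by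
    rw [htop]
    exact Submodule.mem_top
  induction hw using Submodule.span_induction with
  | mem y hy =>
    rw [hE] at hy
    obtain ⟨c, hc⟩ := hy ⟨a, ha⟩
    obtain ⟨c', hc'⟩ := hy ⟨b, hb⟩
    have hc2 : mat ρ a *ᵥ y = c • y := hc
    have hc3 : mat ρ b *ᵥ y = c' • y := hc'
    rw [← Matrix.mulVec_mulVec, ← Matrix.mulVec_mulVec, hc2, hc3, Matrix.mulVec_smul,
      Matrix.mulVec_smul, hc2, hc3, smul_comm]
  | zero => rw [Matrix.mulVec_zero, Matrix.mulVec_zero]
  | add x y _ _ hx hy => rw [Matrix.mulVec_add, Matrix.mulVec_add, hx, hy]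
  | smul c x _ hx => rw [Matrix.mulVec_smul, Matrix.mulVec_smul, hx]

private theorem N_quotient {X : Type} [Group X] (D : Subgroup X) [D.Normal] {d : ℕ}
    (h : ∀ (ρ : Rep X d), IsIrr ρ → D ≤ ρ.ker) : N (X ⧸ D) d = N X d := by
  obtain ⟨e, he, -, -, hex⟩ := exists_infl D d
  refine Nat.card_congr (Equiv.ofBijective e ⟨he, fun c => hex c ?_⟩)
  refine cls_ind (q := fun c => D ≤ kerC c) (fun ρ hρ => ?_) c
  rw [kerC_mk]
  exact h ρ hρ

theorem mass_q {X : Type} [Group X] [Finite X] {q : ℕ} (hq : q.Prime) (M : Subgroup X)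
    [M.Normal] (hM : M.index = q) (hqM : ¬ q ∣ Nat.card M) :
    q * (commutator M).index = (commutator X).index + q ^ 2 * N X q := by
  have hDM : ⁅M, M⁆ ≤ M := Subgroup.commutator_le_right M M
  have h1 : (⁅M, M⁆ : Subgroup X).relIndex M = (commutator M).index := by
    rw [← Subgroup.map_subtype_commutator, Subgroup.relIndex, Subgroup.subgroupOf,
      Subgroup.comap_map_eq_self_of_injective M.subtype_injective]
  have hcard : Nat.card (X ⧸ ⁅M, M⁆) = q * (commutator M).index := by
    have h2 := Subgroup.relIndex_mul_index hDM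
    rw [h1, hM, mul_comm] at h2
    exact h2.symm
  have hN1 : N (X ⧸ ⁅M, M⁆) 1 = (commutator X).index := by
    rw [N_quotient ⁅M, M⁆, N_one]
    intro ρ _
    rw [Subgroup.commutator_le]
    intro a _ b _
    refine mem_ker_of_comm ρ ?_
    ext i j
    rw [Matrix.mul_apply, Matrix.mul_apply, Fin.sum_univ_one, Fin.sum_univ_one,
      Subsingleton.elim i 0, Subsingleton.elim j 0, mul_comm]
  have hNq : N (X ⧸ ⁅M, M⁆) q = N X q := by
    refine N_quotient ⁅M, M⁆ fun ρ h => ?_
    rw [Subgroup.commutator_le]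
    intro a ha b hb
    exact mem_ker_of_comm ρ (comm_of_prime M hq hqM h ha hb)
  -- the image of `M`
  have hMi : (M.map (QuotientGroup.mk' ⁅M, M⁆)).index = q := by
    rw [Subgroup.index_map, QuotientGroup.ker_mk', sup_eq_left.2 hDM, hM,
      MonoidHom.range_eq_top.2 (QuotientGroup.mk'_surjective _), Subgroup.index_top, mul_one]
  have hMn : (M.map (QuotientGroup.mk' ⁅M, M⁆)).Normal :=
    ‹M.Normal›.map _ (QuotientGroup.mk'_surjective _)
  have hMc : ∀ a ∈ M.map (QuotientGroup.mk' ⁅M, M⁆), ∀ b ∈ M.map (QuotientGroup.mk' ⁅M, M⁆),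
      a * b = b * a := by
    rintro _ ⟨x, hx, rfl⟩ _ ⟨y, hy, rfl⟩
    have h2 : QuotientGroup.mk' ⁅M, M⁆ ⁅x, y⁆ = 1 :=
      (QuotientGroup.eq_one_iff _).2 (Subgroup.commutator_mem_commutator hx hy)
    rw [map_commutatorElement, commutatorElement_eq_one_iff_mul_comm] at h2
    exact h2
  have hzero : ∀ d, d ≠ 1 → d ≠ q → N (X ⧸ ⁅M, M⁆) d = 0 := by
    intro d h2 h3
    have h4 : IsEmpty (Cls (X ⧸ ⁅M, M⁆) d) := by
      refine ⟨fun c => ?_⟩
      refine cls_ind (q := fun _ => False) (fun ρ hρ => ?_) c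
      rcases deg_cases _ hq hMi hMc hρ with h5 | h5
      · exact h2 h5
      · exact h3 h5
    exact Nat.card_of_isEmpty
  have hsum := sum_sq (X ⧸ ⁅M, M⁆)
  have hq1 : (1 : ℕ) ≠ q := hq.one_lt.ne
  have hle : q ≤ Nat.card (X ⧸ ⁅M, M⁆) := by
    rw [hcard]
    exact Nat.le_mul_of_pos_right q (Nat.pos_of_ne_zero Subgroup.index_ne_zero_of_finite)
  have hsub : ({1, q} : Finset ℕ) ⊆ Finset.range (Nat.card (X ⧸ ⁅M, M⁆) + 1) := by
    intro d hd
    rw [Finset.mem_insert, Finset.mem_singleton] at hd
    rw [Finset.mem_range]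
    have h2 := hq.one_lt
    rcases hd with h3 | h3 <;> omega
  rw [← Finset.sum_subset hsub (fun d _ hd => by
    rw [Finset.mem_insert, Finset.mem_singleton, not_or] at hd
    rw [hzero d hd.1 hd.2, mul_zero]), Finset.sum_pair hq1, one_pow, one_mul, hN1, hNq, hcard]
    at hsum
  exact hsum.symm

end Pool.Agent.CGSR
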