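import Pool.Agent.CGSR.Four
import Pool.Agent.CGSR.Vsq

/-!
# The abelian quotient of a characteristic subgroup of prime index of the 2-residual

`G` is a finite group, `A` its 2-residual, `M` a characteristic subgroup of `A` of odd prime index
`q`, `q` does not divide `|M|` and `|G : G'|`. Then `|A : A'| = q u`, and `|M : M'|` is divisible by
four or congruent to `u` modulo four (`index_mod`).
-/

set_option autoImplicit false

namespace Pool.Agent.CGSR

open Pool.Agent.CGS
open scoped commutatorElement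

/-- a central subgroup of order `q`, where `q ^ 2` does not divide the order -/
theorem dvd_index_of_central {K : Type} [Group K] [Finite K] {q : ℕ} (hq : q.Prime)
    (hq2 : ¬ q ^ 2 ∣ Nat.card K) (V : Subgroup K) [V.Normal] (hVc : Nat.card V = q)
    (hcen : ∀ g : K, ∀ v ∈ V, g * v * g⁻¹ = v) : q ∣ (commutator K).index := by
  have : Fact q.Prime := ⟨hq⟩
  have hcop : Nat.Coprime (Nat.card V) V.index := by
    rw [hVc, Nat.Prime.coprime_iff_not_dvd hq]
    intro h1
    apply hq2
    have h2 := V.card_mul_index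
    rw [← h2, hVc, pow_two]
    exact Nat.mul_dvd_mul_left q h1
  obtain ⟨L, hL⟩ := Subgroup.exists_right_complement'_of_coprime hcop
  have hLn : L.Normal := by
    refine ⟨fun x hx g => ?_⟩
    obtain ⟨⟨v, l⟩, hvl⟩ := hL.2 g
    have h1 : (v : K) * (l : K) = g := hvl
    have h2 : g * x * g⁻¹ = (l : K) * x * (l : K)⁻¹ := by
      have h3 : ∀ y : K, (v : K) * y * (v : K)⁻¹ = y := by
        intro y
        have h4 := hcen y (v : K) v.2
        calc (v : K) * y * (v : K)⁻¹ = (y * (v : K) * y⁻¹) * y * (v : K)⁻¹ := by rw [h4]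
          _ = y := by group
      calc g * x * g⁻¹ = (v : K) * ((l : K) * x * (l : K)⁻¹) * (v : K)⁻¹ := by
            rw [← h1]; group
        _ = (l : K) * x * (l : K)⁻¹ := h3 _
    rw [h2]
    exact L.mul_mem (L.mul_mem l.2 hx) (L.inv_mem l.2)
  have hLi : L.index = q := by rw [hL.index_eq_card, hVc]
  have h5 : IsCyclic (K ⧸ L) := isCyclic_of_prime_card (p := q) hLi
  have h6 : commutator K ≤ L := by
    have h7 : IsMulCommutative (K ⧸ L) := inferInstance
    rw [commutator_def, Subgroup.commutator_le]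
    intro x _ y _
    rw [← QuotientGroup.eq_one_iff]
    have h8 : ((⁅x, y⁆ : K) : K ⧸ L) = ⁅(x : K ⧸ L), (y : K ⧸ L)⁆ := by
      rw [commutatorElement_def, commutatorElement_def]
      rfl
    rw [h8, commutatorElement_eq_one_iff_mul_comm]
    exact h7.is_comm.comm _ _
  rw [← hLi]
  exact Subgroup.index_dvd_of_le h6

/-- an involution of a group of prime order is the inversion -/
private theorem VGen_inv {Q : Type} [Group Q] {q : ℕ} (hq : q.Prime) (hQ : Nat.card Q = q)
    (y : Q →* Q) (hy : ∀ x, y (y x) = x) {z : Q} (hz : y z ≠ z) (x : Q) : y x * x = 1 := by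
  have : Fact q.Prime := ⟨hq⟩
  have hcyc : IsCyclic Q := isCyclic_of_prime_card hQ
  have hcomm : ∀ a b : Q, a * b = b * a := fun a b =>
    (inferInstance : IsMulCommutative Q).is_comm.comm a b
  by_contra hw
  have h1 : y (y x * x) = y x * x := by rw [map_mul, hy, hcomm]
  obtain ⟨n, hn⟩ := mem_powers_of_prime_card hQ hw (g' := z)
  apply hz
  rw [← show (y x * x) ^ n = z from hn, map_pow, h1]

private theorem VGen_odd {Q : Type} [Group Q] {x y : Q} (h : x * y * x⁻¹ = y⁻¹) {m : ℕ}
    (hm : Odd m) : x ^ m * y * (x ^ m)⁻¹ = y⁻¹ := by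
  have h2 : x ^ 2 * y * (x ^ 2)⁻¹ = y := by
    have e1 : x ^ 2 * y * (x ^ 2)⁻¹ = x * (x * y * x⁻¹) * x⁻¹ := by
      rw [pow_two]
      group
    have e2 : x * y⁻¹ * x⁻¹ = (x * y * x⁻¹)⁻¹ := by group
    rw [e1, h, e2, h, inv_inv]
  have h3 : Commute (x ^ 2) y := by
    rw [Commute, SemiconjBy, ← mul_inv_eq_iff_eq_mul]
    exact h2
  obtain ⟨j, rfl⟩ := hm
  have h4 : Commute ((x ^ 2) ^ j) y := h3.pow_left j
  rw [pow_succ', pow_mul]
  calc x * (x ^ 2) ^ j * y * (x * (x ^ 2) ^ j)⁻¹
      = x * ((x ^ 2) ^ j * y) * ((x ^ 2) ^ j)⁻¹ * x⁻¹ := by group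
    _ = x * (y * (x ^ 2) ^ j) * ((x ^ 2) ^ j)⁻¹ * x⁻¹ := by rw [h4.eq]
    _ = x * y * x⁻¹ := by group
    _ = y⁻¹ := h

/-- an element of `G` which inverts `A / M` -/
private theorem VGen_exists {G : Type} [Group G] [Finite G] {A : Subgroup G} [A.Normal] {a : ℕ}
    (hA : A.index = 2 ^ a) (L : Subgroup A) [L.Characteristic] {q : ℕ} (hq : q.Prime)
    (hL : L.index = q) (hq2 : q ≠ 2)
    (hG : ¬ q ∣ (commutator G).index) {t : A} (ht : t ∉ L) :
    ∃ g : G, MulAut.conjNormal g t * t ∈ L := by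
  classical
  have : Fact q.Prime := ⟨hq⟩
  let M : Subgroup G := L.map A.subtype
  have hMn : M.Normal := by
    change (L.map A.subtype).Normal
    infer_instance
  let f : A →* G ⧸ M := (QuotientGroup.mk' M).comp A.subtype
  have hf : ∀ a : A, f a = ((a : G) : G ⧸ M) := fun a => rfl
  have hfM : ∀ a : A, (a : G) ∈ M ↔ a ∈ L := by
    intro a
    change (a : G) ∈ L.map A.subtype ↔ _
    rw [Subgroup.mem_map]
    constructor
    · rintro ⟨b, hb, hba⟩
      have h1 : b = a := Subtype.ext hba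
      rwa [h1] at hb
    · exact fun h => ⟨a, h, rfl⟩
  have hker : f.ker = L := by
    ext a
    rw [MonoidHom.mem_ker, hf, QuotientGroup.eq_one_iff, hfM]
  have hcard : Nat.card f.range = q := by rw [← Subgroup.index_ker, hker, hL]
  have hft : f t ≠ 1 := by
    intro h
    rw [← MonoidHom.mem_ker, hker] at h
    exact ht h
  have hconj : ∀ g : G, ∀ a : A, (g : G ⧸ M) * f a * (g : G ⧸ M)⁻¹ =
      f (MulAut.conjNormal g a) := fun g a => rfl
  have hVn : f.range.Normal := by
    refine ⟨?_⟩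
    rintro _ ⟨a, rfl⟩ r
    obtain ⟨g, rfl⟩ := QuotientGroup.mk_surjective r
    exact ⟨MulAut.conjNormal g a, rfl⟩
  have hcyc : IsCyclic f.range := isCyclic_of_prime_card hcard
  let κ : G ⧸ M →* MulAut f.range := MulAut.conjNormal
  have hκ : ∀ (r : G ⧸ M) (v : f.range), ((κ r v : f.range) : G ⧸ M) = r * v * r⁻¹ :=
    fun r v => rfl
  have hκA : ∀ b : A, κ (f b) = 1 := by
    intro b
    ext v
    rw [hκ, MulAut.one_apply]
    have h1 : (⟨f b, b, rfl⟩ : f.range) * v = v * ⟨f b, b, rfl⟩ :=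
      (inferInstance : IsMulCommutative f.range).is_comm.comm _ _
    have h2 : f b * (v : G ⧸ M) = v * f b := congrArg Subtype.val h1
    rw [h2, mul_inv_cancel_right]
  -- a nontrivial element
  have hne : ∃ g : G, κ (g : G ⧸ M) ≠ 1 := by
    by_contra hcon
    push Not at hcon
    apply hG
    have hq9 : ¬ q ^ 2 ∣ Nat.card (G ⧸ M) := by
      have h1 : M.index = q * 2 ^ a := by
        change (L.map A.subtype).index = _
        rw [Subgroup.index_map_subtype, hL, hA]
      have h2 : Nat.card (G ⧸ M) = q * 2 ^ a := h1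
      rw [h2, pow_two]
      intro h3
      have h4 : q ∣ 2 ^ a := Nat.dvd_of_mul_dvd_mul_left hq.pos h3
      exact hq2 ((Nat.prime_dvd_prime_iff_eq hq Nat.prime_two).1 (hq.dvd_of_dvd_pow h4))
    have hcen : ∀ r : G ⧸ M, ∀ v ∈ f.range, r * v * r⁻¹ = v := by
      intro r v hv
      obtain ⟨g, rfl⟩ := QuotientGroup.mk_surjective r
      have h1 : ((κ (g : G ⧸ M) ⟨v, hv⟩ : f.range) : G ⧸ M) = v := by
        rw [hcon g, MulAut.one_apply]
      exact h1
    exact (dvd_index_of_central hq hq9 f.range hcard hcen).trans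
      (index_commutator_dvd (QuotientGroup.mk' M) (QuotientGroup.mk'_surjective M))
  obtain ⟨g, hg⟩ := hne
  have hpow : κ (g : G ⧸ M) ^ 2 ^ a = 1 := by
    have h1 : g ^ 2 ^ a ∈ A := by
      rw [← hA]
      exact A.pow_index_mem g
    rw [← map_pow]
    exact hκA ⟨_, h1⟩
  -- the last nontrivial power
  obtain ⟨j, hj1, hj2⟩ : ∃ j, κ (g : G ⧸ M) ^ 2 ^ j ≠ 1 ∧ κ (g : G ⧸ M) ^ 2 ^ (j + 1) = 1 := by
    have hex : ∃ j, κ (g : G ⧸ M) ^ 2 ^ j = 1 := ⟨a, hpow⟩
    have h0 : Nat.find hex ≠ 0 := by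
      intro h0
      have h1 := Nat.find_spec hex
      rw [h0, pow_zero, pow_one] at h1
      exact hg h1
    obtain ⟨j, hj⟩ := Nat.exists_eq_succ_of_ne_zero h0
    refine ⟨j, Nat.find_min hex (by omega), ?_⟩
    have h1 := Nat.find_spec hex
    rwa [hj] at h1
  have hyy : ∀ x, (κ (g : G ⧸ M) ^ 2 ^ j) ((κ (g : G ⧸ M) ^ 2 ^ j) x) = x := by
    intro x
    rw [← MulAut.mul_apply, ← pow_add, ← two_mul, ← pow_succ', hj2, MulAut.one_apply]
  have hz : ∃ z, (κ (g : G ⧸ M) ^ 2 ^ j) z ≠ z := by
    by_contra hcon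
    push Not at hcon
    exact hj1 (MulEquiv.ext hcon)
  obtain ⟨z, hz⟩ := hz
  have key := VGen_inv hq hcard (κ (g : G ⧸ M) ^ 2 ^ j : MulAut f.range).toMonoidHom hyy hz
    ⟨f t, t, rfl⟩
  refine ⟨g ^ 2 ^ j, ?_⟩
  have h1 : f (MulAut.conjNormal (g ^ 2 ^ j) t * t) = 1 := by
    have h2 := congrArg Subtype.val key
    have h3 : (((κ (g : G ⧸ M) ^ 2 ^ j) (⟨f t, t, rfl⟩ : f.range) : f.range) : G ⧸ M) =
        f (MulAut.conjNormal (g ^ 2 ^ j) t) := by
      rw [← map_pow]
      rfl
    rw [map_mul, ← h3]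
    exact h2
  rwa [← MonoidHom.mem_ker, hker] at h1

section act

variable {G : Type} [Group G] {A : Subgroup G} [A.Normal] (L : Subgroup A) [L.Characteristic]

private theorem VGen_mem (g : G) (x : A) (hx : x ∈ L) : MulAut.conjNormal g x ∈ L := by
  have h1 := (inferInstance : L.Characteristic).fixed (MulAut.conjNormal g : A ≃* A)
  have h2 : x ∈ L.comap (MulAut.conjNormal g : A ≃* A).toMonoidHom := by
    rw [h1]
    exact hx
  exact h2

omit [A.Normal] [L.Characteristic] in
private theorem VGen_ext {x y : L} (h : ((x : A) : G) = ((y : A) : G)) : x = y :=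
  Subtype.ext (Subtype.ext h)

/-- conjugation on `L` -/
private def VGen_c : G →* MulAut L where
  toFun g :=
    { toFun := fun x => ⟨MulAut.conjNormal g (x : A), VGen_mem L g x x.2⟩
      invFun := fun x => ⟨MulAut.conjNormal g⁻¹ (x : A), VGen_mem L g⁻¹ x x.2⟩
      left_inv := fun x => by
        apply Subtype.ext
        change MulAut.conjNormal g⁻¹ (MulAut.conjNormal g (x : A)) = x
        rw [← MulAut.mul_apply, ← map_mul, inv_mul_cancel, map_one, MulAut.one_apply]
      right_inv := fun x => by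
        apply Subtype.ext
        change MulAut.conjNormal g (MulAut.conjNormal g⁻¹ (x : A)) = x
        rw [← MulAut.mul_apply, ← map_mul, mul_inv_cancel, map_one, MulAut.one_apply]
      map_mul' := fun x y => by
        apply Subtype.ext
        change MulAut.conjNormal g ((x * y : L) : A) = _
        rw [Subgroup.coe_mul, map_mul]
        rfl }
  map_one' := by
    refine MulEquiv.ext fun x => Subtype.ext ?_
    change MulAut.conjNormal 1 (x : A) = x
    rw [map_one, MulAut.one_apply]
  map_mul' g h := by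
    refine MulEquiv.ext fun x => Subtype.ext ?_
    change MulAut.conjNormal (g * h) (x : A) = MulAut.conjNormal g (MulAut.conjNormal h (x : A))
    rw [map_mul, MulAut.mul_apply]

private theorem VGen_c_coe (g : G) (x : L) :
    ((VGen_c L g x : L) : A) = MulAut.conjNormal g (x : A) := rfl

private theorem VGen_c_mem (l x : L) : VGen_c L ((l : A) : G) x = l * x * l⁻¹ := rfl

/-- the action on the abelian quotient -/
private def VGen_a : G →* MulAut (Abelianization L) where
  toFun g := (VGen_c L g : L ≃* L).abelianizationCongr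
  map_one' := by
    rw [map_one]
    exact abelianizationCongr_refl
  map_mul' g h := by
    rw [map_mul]
    exact (abelianizationCongr_trans (VGen_c L h : L ≃* L) (VGen_c L g : L ≃* L)).symm

private theorem VGen_a_of (g : G) (x : L) :
    VGen_a L g (Abelianization.of x) = Abelianization.of (VGen_c L g x) := rfl

private theorem VGen_a_mem (l : L) : VGen_a L ((l : A) : G) = 1 := by
  refine MulEquiv.ext fun v => ?_
  obtain ⟨x, rfl⟩ := QuotientGroup.mk_surjective v
  change VGen_a L _ (Abelianization.of x) = Abelianization.of x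
  rw [VGen_a_of, VGen_c_mem, map_mul, map_mul, map_inv, mul_right_comm, mul_inv_cancel, one_mul]

/-- `v ↦ (t v) / v` -/
private def VGen_f (t : G) : Abelianization L →* Abelianization L :=
  (VGen_a L t : Abelianization L ≃* Abelianization L).toMonoidHom / MonoidHom.id _

private theorem VGen_f_apply (t : G) (v : Abelianization L) :
    VGen_f L t v = VGen_a L t v / v := rfl

/-- the commutator subgroup of `A` -/
private theorem VGen_comm {q : ℕ} (hq : q.Prime) (hL : L.index = q) {t : A} (ht : t ∉ L) :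
    commutator A = (((VGen_f L (t : G)).range).comap Abelianization.of).map L.subtype := by
  have : Fact q.Prime := ⟨hq⟩
  obtain ⟨D, hD⟩ : ∃ D, D = (((VGen_f L (t : G)).range).comap Abelianization.of).map L.subtype :=
    ⟨_, rfl⟩
  have hmem : ∀ x : L, (x : A) ∈ D ↔ Abelianization.of x ∈ (VGen_f L (t : G)).range := by
    intro x
    rw [hD, Subgroup.mem_map]
    constructor
    · rintro ⟨y, hy, hyx⟩
      have h1 : y = x := Subtype.ext hyx
      rwa [h1] at hy
    · exact fun h => ⟨x, h, rfl⟩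
  have hDL : D ≤ L := by
    rw [hD]
    rintro _ ⟨y, -, rfl⟩
    exact y.2
  rw [← hD]
  -- `A / L` is commutative
  have hcycA : IsCyclic (A ⧸ L) := isCyclic_of_prime_card (p := q) hL
  have hAL : ∀ a : A, a * t * a⁻¹ * t⁻¹ ∈ L := by
    intro a
    rw [← QuotientGroup.eq_one_iff]
    have h1 : (a : A ⧸ L) * (t : A ⧸ L) = t * a :=
      (inferInstance : IsMulCommutative (A ⧸ L)).is_comm.comm _ _
    have h2 : ((a * t * a⁻¹ * t⁻¹ : A) : A ⧸ L) = a * t * (a : A ⧸ L)⁻¹ * (t : A ⧸ L)⁻¹ := rfl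
    rw [h2, h1, mul_inv_cancel_right, mul_inv_cancel]
  -- the action of an element of `A` commutes with the one of `t`
  have hcm : ∀ (a : A) (v : Abelianization L),
      VGen_a L (a : G) (VGen_a L (t : G) v) = VGen_a L (t : G) (VGen_a L (a : G) v) := by
    intro a v
    have h1 := VGen_a_mem L ⟨_, hAL a⟩
    have h2 : (((⟨a * t * a⁻¹ * t⁻¹, hAL a⟩ : L) : A) : G) =
        (a : G) * t * (a : G)⁻¹ * (t : G)⁻¹ := rfl
    rw [h2, map_mul, map_mul, map_mul, map_inv, map_inv, mul_inv_eq_one,
      mul_inv_eq_iff_eq_mul] at h1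
    exact DFunLike.congr_fun h1 v
  have hDn : D.Normal := by
    refine ⟨fun d hd a => ?_⟩
    obtain ⟨x, rfl⟩ : ∃ x : L, (x : A) = d := ⟨⟨d, hDL hd⟩, rfl⟩
    have h1 : a * (x : A) * a⁻¹ = (VGen_c L (a : G) x : L) := rfl
    rw [h1, hmem, ← VGen_a_of]
    rw [hmem] at hd
    obtain ⟨v, hv⟩ := hd
    refine ⟨VGen_a L (a : G) v, ?_⟩
    rw [← hv, VGen_f_apply, VGen_f_apply, map_div, hcm]
  refine le_antisymm ?_ ?_
  · -- the image of `L` in `A / D` is central
    have hLt : ∀ x : L, ((x : A) : A ⧸ D) * t = t * ((x : A) : A ⧸ D) := by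
      intro x
      have h1 : t * (x : A) * t⁻¹ * (x : A)⁻¹ ∈ D := by
        have h2 : t * (x : A) * t⁻¹ * (x : A)⁻¹ = ((VGen_c L (t : G) x * x⁻¹ : L) : A) := rfl
        rw [h2, hmem, map_mul, map_inv, ← VGen_a_of]
        exact ⟨Abelianization.of x, by rw [VGen_f_apply, div_eq_mul_inv]⟩
      rw [← QuotientGroup.eq_one_iff] at h1
      have h2 : ((t * (x : A) * t⁻¹ * (x : A)⁻¹ : A) : A ⧸ D) =
          t * ((x : A) : A ⧸ D) * (t : A ⧸ D)⁻¹ * ((x : A) : A ⧸ D)⁻¹ := rfl
      rw [h2, mul_inv_eq_one, mul_inv_eq_iff_eq_mul] at h1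
      exact h1.symm
    have hLL : ∀ x y : L, ((x : A) : A ⧸ D) * (y : A) = (y : A) * ((x : A) : A ⧸ D) := by
      intro x y
      have h1 : ((x * y * x⁻¹ * y⁻¹ : L) : A) ∈ D := by
        rw [hmem, map_mul, map_mul, map_mul, map_inv, map_inv,
          mul_right_comm (Abelianization.of x), mul_inv_cancel, one_mul, mul_inv_cancel]
        exact one_mem _
      rw [← QuotientGroup.eq_one_iff] at h1
      have h2 : (((x * y * x⁻¹ * y⁻¹ : L) : A) : A ⧸ D) =
          ((x : A) : A ⧸ D) * (y : A) * ((x : A) : A ⧸ D)⁻¹ * ((y : A) : A ⧸ D)⁻¹ := rfl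
      rw [h2, mul_inv_eq_one, mul_inv_eq_iff_eq_mul] at h1
      exact h1
    have hcen : ∀ x : L, ∀ a : A, ((x : A) : A ⧸ D) * a = a * ((x : A) : A ⧸ D) := by
      intro x a
      let Z : Subgroup A :=
        { carrier := {a | ((x : A) : A ⧸ D) * a = a * ((x : A) : A ⧸ D)}
          mul_mem' := fun {a b} ha hb => by
            change ((x : A) : A ⧸ D) * ((a * b : A) : A ⧸ D) = ((a * b : A) : A ⧸ D) * _
            rw [QuotientGroup.mk_mul, ← mul_assoc,
              show ((x : A) : A ⧸ D) * a = a * ((x : A) : A ⧸ D) from ha, mul_assoc,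
              show ((x : A) : A ⧸ D) * b = b * ((x : A) : A ⧸ D) from hb, mul_assoc]
          one_mem' := by
            change ((x : A) : A ⧸ D) * ((1 : A) : A ⧸ D) = ((1 : A) : A ⧸ D) * _
            rw [QuotientGroup.mk_one, mul_one, one_mul]
          inv_mem' := fun {a} ha => by
            change ((x : A) : A ⧸ D) * ((a⁻¹ : A) : A ⧸ D) = ((a⁻¹ : A) : A ⧸ D) * _
            have ha' : ((x : A) : A ⧸ D) * a = a * ((x : A) : A ⧸ D) := ha
            rw [QuotientGroup.mk_inv, eq_inv_mul_iff_mul_eq, ← mul_assoc, ← ha',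
              mul_inv_cancel_right] }
      have h1 : L ≤ Z := fun y hy => hLL x ⟨y, hy⟩
      have h2 : t ∈ Z := hLt x
      have h3 : Z = ⊤ := by
        have h4 := Subgroup.relIndex_mul_index h1
        rw [hL] at h4
        have h5 : Z.index ∣ q := Dvd.intro_left _ h4
        rcases (Nat.dvd_prime hq).1 h5 with h6 | h6
        · exact Subgroup.index_eq_one.1 h6
        · exfalso
          rw [h6] at h4
          have h7 : L.relIndex Z = 1 := by
            have := hq.pos
            exact Nat.eq_of_mul_eq_mul_right this (by rw [h4, one_mul])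
          exact ht (Subgroup.relIndex_eq_one.1 h7 h2)
      have h4 : a ∈ Z := by rw [h3]; exact Subgroup.mem_top a
      exact h4
    have hab : ∀ r s : A ⧸ D, r * s = s * r := by
      let π : A ⧸ D →* A ⧸ L := QuotientGroup.map D L (MonoidHom.id A) hDL
      have h0 : π.ker ≤ Subgroup.center (A ⧸ D) := ?_
      · exact fun r s => (π.isMulCommutative_of_isCyclic_of_ker_le_center h0).is_comm.comm r s
      intro r hr
      obtain ⟨a, rfl⟩ := QuotientGroup.mk_surjective r
      have h1 : a ∈ L := by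
        rw [← QuotientGroup.eq_one_iff]
        exact hr
      rw [Subgroup.mem_center_iff]
      intro s
      obtain ⟨b, rfl⟩ := QuotientGroup.mk_surjective s
      exact (hcen ⟨a, h1⟩ b).symm
    rw [commutator_def, Subgroup.commutator_le]
    intro x _ y _
    rw [← QuotientGroup.eq_one_iff]
    have h8 : ((⁅x, y⁆ : A) : A ⧸ D) = ⁅(x : A ⧸ D), (y : A ⧸ D)⁆ := by
      rw [commutatorElement_def, commutatorElement_def]
      rfl
    rw [h8, commutatorElement_eq_one_iff_mul_comm]
    exact hab _ _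
  · intro d hd
    obtain ⟨x, rfl⟩ : ∃ x : L, (x : A) = d := ⟨⟨d, hDL hd⟩, rfl⟩
    rw [hmem] at hd
    obtain ⟨v, hv⟩ := hd
    obtain ⟨y, hy⟩ := QuotientGroup.mk_surjective v
    have hy' : Abelianization.of y = v := hy
    rw [← hy'] at hv
    have h1 : Abelianization.of (VGen_c L (t : G) y * y⁻¹) = Abelianization.of x := by
      rw [map_mul, map_inv, ← VGen_a_of, ← hv, VGen_f_apply, div_eq_mul_inv]
    have h2 : (VGen_c L (t : G) y * y⁻¹)⁻¹ * x ∈ commutator L := by
      rw [← QuotientGroup.eq]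
      exact h1
    have h3 : (((VGen_c L (t : G) y * y⁻¹)⁻¹ * x : L) : A) ∈ commutator A := by
      have h4 : (commutator L).map L.subtype ≤ commutator A := by
        rw [commutator_def, Subgroup.map_commutator, commutator_def]
        exact Subgroup.commutator_mono le_top le_top
      exact h4 ⟨_, h2, rfl⟩
    have h4 : ((VGen_c L (t : G) y * y⁻¹ : L) : A) ∈ commutator A := by
      have h5 : ((VGen_c L (t : G) y * y⁻¹ : L) : A) = ⁅t, (y : A)⁆ := rfl
      rw [h5, commutator_def]
      exact Subgroup.commutator_mem_commutator (Subgroup.mem_top _) (Subgroup.mem_top _)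
    have h5 := (commutator A).mul_mem h4 h3
    rwa [← Subgroup.coe_mul, mul_inv_cancel_left] at h5

private theorem VGen_index [Finite G] {q : ℕ} (hq : q.Prime) (hL : L.index = q) {t : A}
    (ht : t ∉ L) :
    (commutator A).index = q * Nat.card {v : Abelianization L // VGen_a L (t : G) v = v} := by
  have hsurj : Function.Surjective (Abelianization.of : L →* Abelianization L) :=
    QuotientGroup.mk'_surjective _
  rw [VGen_comm L hq hL ht, Subgroup.index_map_subtype, hL,
    Subgroup.index_comap_of_surjective _ hsurj, mul_comm]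
  congr 1
  have h1 := Subgroup.card_mul_index (VGen_f L (t : G)).range
  have h2 := Subgroup.card_mul_index (VGen_f L (t : G)).ker
  rw [Subgroup.index_ker, mul_comm] at h2
  have h3 : 0 < Nat.card (VGen_f L (t : G)).range := Nat.card_pos
  have h4 : (VGen_f L (t : G)).range.index = Nat.card (VGen_f L (t : G)).ker :=
    Nat.eq_of_mul_eq_mul_left h3 (h1.trans h2.symm)
  rw [h4]
  refine Nat.card_congr (Equiv.subtypeEquivRight fun v => ?_)
  rw [MonoidHom.mem_ker, VGen_f_apply, div_eq_one]

end act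

/-- the abelian quotients of `A` and `M` -/
theorem index_mod' {G : Type} [Group G] [Finite G] {A : Subgroup G} {a : ℕ} (hA : IsRes A a)
    {q : ℕ} (hq : q.Prime) (hq2 : q ≠ 2) (M : Subgroup A) [M.Characteristic] (hM : M.index = q)
    (hqM : ¬ q ∣ Nat.card M) (hG : ¬ q ∣ (commutator G).index) :
    ∃ u, (commutator A).index = q * u ∧
      (4 ∣ (commutator M).index ∨ (commutator M).index ≡ u [MOD 4]) := by
  have hAn : A.Normal := hA.normal
  obtain ⟨t, ht⟩ : ∃ t : A, t ∉ M := by
    by_contra hcon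
    push Not at hcon
    rw [(Subgroup.eq_top_iff' M).2 hcon, Subgroup.index_top] at hM
    exact hq.one_lt.ne hM
  have hidx := VGen_index M hq hM ht
  refine ⟨_, hidx, ?_⟩
  have htq : t ^ q ∈ M := by
    have h2 := M.pow_index_mem t
    rwa [hM] at h2
  have e1 : VGen_a M (t : G) ^ q = 1 := by
    rw [← map_pow]
    exact VGen_a_mem M ⟨t ^ q, htq⟩
  have hodd : Odd (Nat.card {v : Abelianization M // VGen_a M (t : G) v = v}) := by
    have h1 := hA.noIdx2.odd_index_commutator
    rw [hidx] at h1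
    exact (Nat.odd_mul.1 h1).2
  have hV : Nat.card (Abelianization M) = (commutator M).index := rfl
  rw [← hV]
  by_cases h2 : 2 ∣ Nat.card (Abelianization M)
  · exact Or.inl (four_dvd_card (VGen_a M (t : G)) hq e1 hodd h2)
  · right
    obtain ⟨g, hg⟩ := VGen_exists hA.index M hq hM hq2 hG ht
    have e2 : VGen_a M g * VGen_a M (t : G) * (VGen_a M g)⁻¹ = (VGen_a M (t : G))⁻¹ := by
      rw [← map_inv, ← map_mul, ← map_mul, eq_inv_iff_mul_eq_one, ← map_mul]
      exact VGen_a_mem M ⟨_, hg⟩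
    obtain ⟨k, m, hm, hkm⟩ := Nat.exists_eq_two_pow_mul_odd (orderOf_pos g).ne'
    have e3 : (VGen_a M g ^ m) ^ 2 ^ k = 1 := by
      rw [← pow_mul, ← map_pow, mul_comm, ← hkm, pow_orderOf_eq_one, map_one]
    have h3 : Odd (Nat.card (Abelianization M)) := by
      rw [← Nat.not_even_iff_odd, even_iff_two_dvd]
      exact h2
    have hqV : ¬ q ∣ Nat.card (Abelianization M) := by
      rw [hV]
      exact fun h => hqM (h.trans (Subgroup.index_dvd_card _))
    exact vsq_gen _ _ hq hq2 e1 (VGen_odd e2 hm) e3 h3 hqV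

theorem index_mod {G : Type} [Group G] [Finite G] {A : Subgroup G} {a : ℕ} (hA : IsRes A a)
    {q : ℕ} (hq : q.Prime) (hq2 : q ≠ 2) (M : Subgroup A) [M.Characteristic] (hM : M.index = q)
    (hqM : ¬ q ∣ Nat.card M) (hG : ¬ q ∣ (commutator G).index) :
    4 ∣ (commutator M).index ∨
      ∃ u, (commutator A).index = q * u ∧ (commutator M).index ≡ u [MOD 4] := by
  obtain ⟨u, hu, h | h⟩ := index_mod' hA hq hq2 M hM hqM hG
  · exact Or.inl h
  · exact Or.inr ⟨u, hu, h⟩

end Pool.Agent.CGSR
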