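import Pool.Agent.CGSR.Four
import Pool.Agent.CGSR.MassQ
import Pool.Agent.CGSR.VGen

/-!
# The number of classes of degree `q` of the 2-residual, the side of the soluble group
-/

set_option autoImplicit false

namespace Pool.Agent.CGSR

open Pool.Agent.CGS

theorem N_q_res {G : Type} [Group G] [Finite G] {A : Subgroup G} {a : ℕ} (hA : IsRes A a)
    {q : ℕ} (hq : q.Prime) (hq2 : q ≠ 2) (hqA : q ∣ (commutator A).index)
    (hqq : ¬ q ^ 2 ∣ Nat.card G) (hG : ¬ q ∣ (commutator G).index) :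
    N A q % 4 = 0 ∨ (N A q + (commutator A).index) % 4 = 0 := by
  have hcA : Nat.card A ∣ Nat.card G := Subgroup.card_subgroup_dvd_card A
  obtain ⟨M, hM, hMi, hMc⟩ := exists_char hq hqA fun h => hqq (h.trans hcA)
  obtain ⟨u, hu, hor⟩ := index_mod' hA hq hq2 M hMi hMc hG
  have h1 := mass_q hq M hMi hMc
  have h2 : (commutator M).index = u + q * N A q := by
    refine Nat.eq_of_mul_eq_mul_left hq.pos ?_
    rw [h1, hu]
    ring
  obtain ⟨r, hr⟩ := hq.odd_of_ne_two hq2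
  obtain ⟨x, hx⟩ : ∃ x, x = N A q := ⟨_, rfl⟩
  rw [hu, ← hx]
  rw [← hx] at h2
  have hq4 : q % 4 = 1 ∨ q % 4 = 3 := by omega
  have hmx : (q * x) % 4 = (q % 4) * (x % 4) % 4 := Nat.mul_mod q x 4
  have hmu : (q * u) % 4 = (q % 4) * (u % 4) % 4 := Nat.mul_mod q u 4
  rcases hor with h3 | h3
  · right
    rw [h2] at h3
    obtain ⟨m, hm⟩ := h3
    rcases hq4 with h4 | h4 <;> rw [h4] at hmx hmu <;> omega
  · left
    rw [h2] at h3
    have h4 : (u + q * x) % 4 = u % 4 := h3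
    rcases hq4 with h5 | h5 <;> rw [h5] at hmx <;> omega

end Pool.Agent.CGSR
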