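import Pool.Agent.CGSR.AqT
import Pool.Agent.CGSR.NqA
import Mathlib.NumberTheory.LegendreSymbol.QuadraticReciprocity

/-!
# The number of classes of degree `q` of the 2-residual of a soluble group, `q` once in the order
-/

set_option autoImplicit false

namespace Pool.Agent.CGSR

open Pool.Agent.CGS

/-- if `2` has odd order modulo the odd prime `q`, then `q` is `1` or `7` modulo `8` -/
theorem mod_eight_of_dvd {q j : ℕ} (hq : q.Prime) (hq2 : q ≠ 2) (hj : Odd j)
    (h : q ∣ 2 ^ j - 1) : q % 8 = 1 ∨ q % 8 = 7 := by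
  have : Fact q.Prime := ⟨hq⟩
  rw [← ZMod.exists_sq_eq_two_iff hq2]
  have h1 : ((2 : ZMod q)) ^ j = 1 := by
    have h2 : ((2 ^ j - 1 : ℕ) : ZMod q) = 0 := (ZMod.natCast_eq_zero_iff _ _).2 h
    rw [Nat.cast_sub Nat.one_le_two_pow, Nat.cast_pow, Nat.cast_ofNat, Nat.cast_one] at h2
    exact sub_eq_zero.1 h2
  obtain ⟨i, rfl⟩ := hj
  refine ⟨2 ^ (i + 1), ?_⟩
  calc (2 : ZMod q) = 2 * 1 := (mul_one _).symm
    _ = 2 * 2 ^ (2 * i + 1) := by rw [h1]
    _ = 2 ^ (i + 1) * 2 ^ (i + 1) := by ring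

/-- the side of the soluble group, under an element of order `q` conjugate to its inverse -/
theorem N_q_res' {G : Type} [Group G] [Finite G] {A : Subgroup G} {a : ℕ} (hA : IsRes A a)
    (hs : Group.IsSolvable G) {q : ℕ} (hq : q.Prime) (hq2 : q ≠ 2) (hqG : q ∣ Nat.card G)
    (hqq : ¬ q ^ 2 ∣ Nat.card G) (hG : ¬ q ∣ (commutator G).index)
    (hinv : ∃ g x : G, orderOf x = q ∧ g * x * g⁻¹ = x⁻¹) :
    N A q % 4 = 0 ∨ (N A q + (commutator A).index) % 4 = 0 := by
  by_cases h : q ∣ (commutator A).index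
  · exact N_q_res hA hq hq2 h hqq hG
  · exact (aq_main hA hs hq hq2 hqG hqq h).1 hinv

/-- the side of the soluble group, with no condition on `G` but one on `q` -/
theorem N_q_res_ne {G : Type} [Group G] [Finite G] {A : Subgroup G} {a : ℕ} (hA : IsRes A a)
    (hs : Group.IsSolvable G) {q : ℕ} (hq : q.Prime) (hq2 : q ≠ 2) (hqG : q ∣ Nat.card G)
    (hqq : ¬ q ^ 2 ∣ Nat.card G) (hG : ¬ q ∣ (commutator G).index)
    (h2 : ∀ j : ℕ, Odd j → j ∣ Nat.card G → ¬ q ∣ 2 ^ j - 1) :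
    N A q % 4 ≠ (commutator A).index % 4 := by
  by_cases h : q ∣ (commutator A).index
  · have h1 : Odd (commutator A).index := hA.noIdx2.odd_index_commutator
    have h3 := N_q_res hA hq hq2 h hqq hG
    obtain ⟨y, hy⟩ := h1
    rcases h3 with h3 | h3 <;> omega
  · intro h4
    obtain ⟨j, hj, hjG, hjq⟩ := (aq_main hA hs hq hq2 hqG hqq h).2 h4
    exact h2 j hj hjG hjq

end Pool.Agent.CGSR
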