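import Pool.Agent.CGSR.SimpleQ
import Pool.Agent.CGSR.NqD
import Pool.Agent.CGSR.NqE

/-!
# An almost simple group as a quotient of a subgroup of 2-power index
-/

set_option autoImplicit false

namespace Pool.Agent.CGSR

open Pool.Agent.CGS

/-- an almost simple quotient of order divisible by `q` -/
theorem not_dvd_index_of_almost {B T : Type} [Group B] [Group T] [Finite B] [Finite T]
    (K : Subgroup T) [K.Normal] [IsSimpleGroup K] (hnc : ∃ x y : K, x * y ≠ y * x) (f : B →* T)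
    (hf : Function.Surjective f) {q : ℕ} (hq : q.Prime) (hqK : q ∣ Nat.card K)
    (hqq : ¬ q ^ 2 ∣ Nat.card B) : ¬ q ∣ (commutator B).index := by
  intro h
  obtain ⟨L, hL, hLi, hLc⟩ := exists_char hq h hqq
  have hn : (L.map f).Normal := Subgroup.Normal.map inferInstance f hf
  have hn' : ((L.map f).subgroupOf K).Normal := inferInstance
  have hdvd : (L.map f).index ∣ q := by
    rw [← hLi]
    exact Subgroup.index_map_dvd L hf
  rcases hn'.eq_bot_or_eq_top with h1 | h1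
  · have h2 : (L.map f).relIndex K ∣ q :=
      (Subgroup.relIndex_dvd_index_of_normal (L.map f) K).trans hdvd
    have h3 : (L.map f).relIndex K = Nat.card K := by
      change ((L.map f).subgroupOf K).index = _
      rw [h1, Subgroup.index_bot]
    rw [h3] at h2
    have h5 : Nat.card K = q := Nat.dvd_antisymm h2 hqK
    have : Fact q.Prime := ⟨hq⟩
    have h6 : IsCyclic K := isCyclic_of_prime_card (p := q) h5
    obtain ⟨x, y, hxy⟩ := hnc
    have h7 : IsMulCommutative K := inferInstance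
    exact hxy (h7.is_comm.comm x y)
  · have h2 : K ≤ L.map f := Subgroup.subgroupOf_eq_top.1 h1
    have h3 : Nat.card (L.map f) ∣ Nat.card L := Subgroup.card_map_dvd L f
    exact hLc ((hqK.trans (Subgroup.card_dvd_of_le h2)).trans h3)

/-- the two sides -/
theorem N_almost_core {G H : Type} [Group G] [Group H] [Finite G] [Finite H]
    (e : Nonempty (MonoidAlgebra ℂ G ≃ₐ[ℂ] MonoidAlgebra ℂ H))
    {q : ℕ} (hq : q.Prime) (hq2 : q ≠ 2) (hqG : q ∣ Nat.card G) (hqq : ¬ q ^ 2 ∣ Nat.card G)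
    (M : Subgroup H) [M.Normal] {i : ℕ} (hi : M.index = 2 ^ i)
    (N₀ : Subgroup M) [N₀.Normal] (hN₀ : ¬ q ∣ Nat.card N₀) (K : Subgroup (M ⧸ N₀)) [K.Normal]
    [IsSimpleGroup K] (hnc : ∃ x y : K, x * y ≠ y * x) (hT2 : NoIdx2 (M ⧸ N₀))
    (hKq : ¬ q ∣ K.index) (hno : ∀ J : Subgroup K, J.index ≠ q) :
    ∃ (A : Subgroup G) (a : ℕ), IsRes A a ∧ ¬ q ∣ (commutator G).index ∧ ∃ w x : ℕ, Odd x ∧
      Odd (N (M ⧸ N₀) 1) ∧ N (M ⧸ N₀) 1 * w = x * N (M ⧸ N₀) q ∧ N A q % 4 = w % 4 ∧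
      (commutator A).index % 4 = x % 4 := by
  have hGH : Nat.card G = Nat.card H := card_congr e
  have hqH : q ∣ Nat.card H := by rwa [← hGH]
  have hqqH : ¬ q ^ 2 ∣ Nat.card H := by rwa [← hGH]
  obtain ⟨A, B, a, hA, hB, hAB, hMS⟩ := res_congr e
  have hBM : B ≤ M := res_le hB M hi
  have hBn := hB.normal
  have hq2' : ∀ j : ℕ, ¬ q ∣ 2 ^ j := fun j h =>
    hq2 ((Nat.prime_dvd_prime_iff_eq hq Nat.prime_two).1 (hq.dvd_of_dvd_pow h))
  -- the prime divides the order of the simple group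
  have hqM : q ∣ Nat.card M := by
    have h1 := M.card_mul_index
    rw [← h1, hi] at hqH
    exact (hq.dvd_mul.1 hqH).resolve_right (hq2' i)
  have hqT : q ∣ Nat.card (M ⧸ N₀) := by
    have h1 := N₀.card_mul_index
    rw [← h1] at hqM
    exact (hq.dvd_mul.1 hqM).resolve_left hN₀
  have hqK : q ∣ Nat.card K := by
    have h1 := K.card_mul_index
    rw [← h1] at hqT
    exact (hq.dvd_mul.1 hqT).resolve_right hKq
  have hqB : q ∣ Nat.card B := dvd_card_res hB hq hq2 hqH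
  have hcB : Nat.card B ∣ Nat.card H := Subgroup.card_subgroup_dvd_card B
  have hqqB : ¬ q ^ 2 ∣ Nat.card B := fun h => hqqH (h.trans hcB)
  -- the 2-residual maps onto the quotient
  obtain ⟨f, hfr⟩ : ∃ f : B →* M ⧸ N₀, f.range = (B.subgroupOf M).map (QuotientGroup.mk' N₀) := by
    refine ⟨(QuotientGroup.mk' N₀).comp (Subgroup.inclusion hBM), ?_⟩
    rw [MonoidHom.range_comp, Subgroup.inclusion_range]
  have hrn : f.range.Normal := by
    rw [hfr]
    exact Subgroup.Normal.map inferInstance _ (QuotientGroup.mk'_surjective N₀)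
  have hri : f.range.index ∣ 2 ^ a := by
    rw [hfr, ← hB.index]
    exact (Subgroup.index_map_dvd _ (QuotientGroup.mk'_surjective N₀)).trans
      (Subgroup.relIndex_dvd_index_of_normal B M)
  have hf : Function.Surjective f := by
    obtain ⟨j, -, hj⟩ := (Nat.dvd_prime_pow Nat.prime_two).1 hri
    rw [← MonoidHom.range_eq_top]
    exact eq_top_of_noIdx2 hT2 f.range hj
  have hkeri : f.ker.index = Nat.card (M ⧸ N₀) := by
    rw [Subgroup.index_ker, MonoidHom.range_eq_top.2 hf, Subgroup.card_top]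
  have hker : ¬ q ∣ Nat.card f.ker := by
    intro h
    apply hqqB
    rw [← f.ker.card_mul_index, hkeri, pow_two]
    exact Nat.mul_dvd_mul h hqT
  have eK : (B ⧸ f.ker) ≃* (M ⧸ N₀) := QuotientGroup.quotientKerEquivOfSurjective f hf
  have hB1 : ¬ q ∣ (commutator B).index :=
    not_dvd_index_of_almost K hnc f hf hq hqK hqqB
  have hG1 : ¬ q ∣ (commutator G).index := by
    intro h
    have h4 := N_congr e 1
    rw [N_one, N_one] at h4
    rw [h4] at h
    exact hB1 (dvd_index_res_of_dvd hq hqB hqqH h)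
  -- transport of the simple group
  obtain ⟨K', hK'⟩ : ∃ K' : Subgroup (B ⧸ f.ker), K' = K.comap (eK : (B ⧸ f.ker) →* (M ⧸ N₀)) :=
    ⟨_, rfl⟩
  have hK'n : K'.Normal := by
    rw [hK']
    infer_instance
  obtain ⟨eKK⟩ : Nonempty (K' ≃* K) := by
    subst hK'
    refine ⟨MulEquiv.ofBijective ((eK : (B ⧸ f.ker) →* (M ⧸ N₀)).subgroupComap K) ⟨?_, ?_⟩⟩
    · intro x y hxy
      have h1 : eK (x : B ⧸ f.ker) = eK (y : B ⧸ f.ker) := congrArg Subtype.val hxy
      exact Subtype.ext (eK.injective h1)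
    · exact MonoidHom.subgroupComap_surjective_of_surjective _ _ eK.surjective
  have hK's : IsSimpleGroup K' := by
    have hnt : Nontrivial K' := eKK.toEquiv.nontrivial
    exact IsSimpleGroup.isSimpleGroup_of_surjective eKK.symm.toMonoidHom eKK.symm.surjective
  have hnc' : ∃ x y : K', x * y ≠ y * x := by
    obtain ⟨x, y, hxy⟩ := hnc
    refine ⟨eKK.symm x, eKK.symm y, fun h => hxy ?_⟩
    rw [← map_mul, ← map_mul] at h
    exact eKK.symm.injective h
  have hqK' : q ∣ Nat.card K' := by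
    rw [Nat.card_congr eKK.toEquiv]
    exact hqK
  have hno' : ∀ J : Subgroup K', J.index ≠ q := by
    intro J hJ
    refine hno (J.map (eKK : K' →* K)) ?_
    rw [← hJ]
    exact Subgroup.index_map_equiv J eKK
  have hNB := N_q_mul hq hB1 f.ker hker fun ρ h =>
    scalar_of_almost hq hqqB f.ker hker K' hnc' hqK' hno' h
  rw [← N_congr_mulEquiv eK, ← N_congr_mulEquiv eK, N_one B] at hNB
  -- the congruences
  have hqo : Odd q := hq.odd_of_ne_two hq2
  have hc1 : (commutator A).index % 4 = (commutator B).index % 4 := by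
    have h4 := MS_modEq A odd_one
    have h5 := MS_modEq B odd_one
    rw [N_one] at h4 h5
    rw [hMS 1 odd_one] at h4
    exact h4.symm.trans h5
  have hcq : N A q % 4 = N B q % 4 := by
    have e1 := MS_modEq A hqo
    have e2 := MS_modEq B hqo
    rw [hMS q hqo] at e1
    exact e1.symm.trans e2
  have hT1 : Odd (N (M ⧸ N₀) 1) := by
    rw [N_one]
    exact (hB.noIdx2.of_surjective f hf).odd_index_commutator
  exact ⟨A, a, hA, hG1, N B q, (commutator B).index, (index_facts hB).1, hT1, hNB, hcq, hc1⟩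

/-- an element of order `q` is conjugate to its inverse -/
def RealQ (G : Type) [Group G] (q : ℕ) : Prop := ∃ g x : G, orderOf x = q ∧ g * x * g⁻¹ = x⁻¹

theorem N_almost {G H : Type} [Group G] [Group H] [Finite G] [Finite H]
    (e : Nonempty (MonoidAlgebra ℂ G ≃ₐ[ℂ] MonoidAlgebra ℂ H)) (hs : Group.IsSolvable G)
    {q : ℕ} (hq : q.Prime) (hq2 : q ≠ 2) (hqG : q ∣ Nat.card G) (hqq : ¬ q ^ 2 ∣ Nat.card G)
    (hQ : QHyp G q ∨ RealQ G q) (M : Subgroup H) [M.Normal] {i : ℕ} (hi : M.index = 2 ^ i)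
    (N₀ : Subgroup M) [N₀.Normal] (hN₀ : ¬ q ∣ Nat.card N₀) (K : Subgroup (M ⧸ N₀)) [K.Normal]
    [IsSimpleGroup K] (hnc : ∃ x y : K, x * y ≠ y * x) (hT2 : NoIdx2 (M ⧸ N₀))
    (hKq : ¬ q ∣ K.index) (hno : ∀ J : Subgroup K, J.index ≠ q) :
    N (M ⧸ N₀) q % 4 = 0 ∨ (N (M ⧸ N₀) q + N (M ⧸ N₀) 1) % 4 = 0 := by
  obtain ⟨A, a, hA, hG1, w, x, hxo, hzo, hNB, hcq, hc1⟩ :=
    N_almost_core e hq hq2 hqG hqq M hi N₀ hN₀ K hnc hT2 hKq hno
  have hA4 : N A q % 4 = 0 ∨ (N A q + (commutator A).index) % 4 = 0 := by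
    rcases hQ with hQ | hQ
    · exact N_q_res hA hq hq2 (dvd_index_res hA hq hq2 hs hqG hqq hQ) hqq hG1
    · exact N_q_res' hA hs hq hq2 hqG hqq hG1 hQ
  obtain ⟨y, hy⟩ : ∃ y, y = N (M ⧸ N₀) q := ⟨_, rfl⟩
  obtain ⟨z, hz⟩ : ∃ z, z = N (M ⧸ N₀) 1 := ⟨_, rfl⟩
  rw [← hy, ← hz] at hNB
  rw [← hy, ← hz]
  have hd : (z * w) % 4 = (x * y) % 4 := by rw [hNB]
  rw [Nat.mul_mod z w, Nat.mul_mod x y] at hd
  have hx4 : x % 4 = 1 ∨ x % 4 = 3 := by
    obtain ⟨r, hr⟩ := hxo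
    omega
  have hy4 : y % 4 = 0 ∨ y % 4 = 1 ∨ y % 4 = 2 ∨ y % 4 = 3 := by omega
  rcases hA4 with h | h
  · left
    have hw4 : w % 4 = 0 := by omega
    rw [hw4, mul_zero] at hd
    rcases hx4 with h1 | h1 <;> rcases hy4 with h2 | h2 | h2 | h2 <;> rw [h1, h2] at hd <;> omega
  · right
    rcases hx4 with h1 | h1
    · have hw4 : w % 4 = 3 := by omega
      rw [hw4, h1] at hd
      omega
    · have hw4 : w % 4 = 1 := by omega
      rw [hw4, h1] at hd
      omega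

theorem N_almost_ne {G H : Type} [Group G] [Group H] [Finite G] [Finite H]
    (e : Nonempty (MonoidAlgebra ℂ G ≃ₐ[ℂ] MonoidAlgebra ℂ H)) (hs : Group.IsSolvable G)
    {q : ℕ} (hq : q.Prime) (hq2 : q ≠ 2) (hqG : q ∣ Nat.card G) (hqq : ¬ q ^ 2 ∣ Nat.card G)
    (h2 : ∀ j : ℕ, Odd j → j ∣ Nat.card G → ¬ q ∣ 2 ^ j - 1)
    (M : Subgroup H) [M.Normal] {i : ℕ} (hi : M.index = 2 ^ i)
    (N₀ : Subgroup M) [N₀.Normal] (hN₀ : ¬ q ∣ Nat.card N₀) (K : Subgroup (M ⧸ N₀)) [K.Normal]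
    [IsSimpleGroup K] (hnc : ∃ x y : K, x * y ≠ y * x) (hT2 : NoIdx2 (M ⧸ N₀))
    (hKq : ¬ q ∣ K.index) (hno : ∀ J : Subgroup K, J.index ≠ q) :
    N (M ⧸ N₀) q % 4 ≠ N (M ⧸ N₀) 1 % 4 := by
  obtain ⟨A, a, hA, hG1, w, x, hxo, hzo, hNB, hcq, hc1⟩ :=
    N_almost_core e hq hq2 hqG hqq M hi N₀ hN₀ K hnc hT2 hKq hno
  have hA4 := N_q_res_ne hA hs hq hq2 hqG hqq hG1 h2
  intro hyz
  apply hA4
  rw [hcq, hc1]
  obtain ⟨y, hy⟩ : ∃ y, y = N (M ⧸ N₀) q := ⟨_, rfl⟩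
  obtain ⟨z, hz⟩ : ∃ z, z = N (M ⧸ N₀) 1 := ⟨_, rfl⟩
  rw [← hy, ← hz] at hNB hyz
  rw [← hz] at hzo
  have hd : (z * w) % 4 = (x * y) % 4 := by rw [hNB]
  rw [Nat.mul_mod z w, Nat.mul_mod x y, hyz] at hd
  have hz4 : z % 4 = 1 ∨ z % 4 = 3 := by
    obtain ⟨r, hr⟩ := hzo
    omega
  have hx4 : x % 4 = 1 ∨ x % 4 = 3 := by
    obtain ⟨r, hr⟩ := hxo
    omega
  rcases hz4 with h1 | h1 <;> rcases hx4 with h3 | h3 <;> rw [h1, h3] at hd <;> omega

end Pool.Agent.CGSR
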