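import Pool.Agent.CGSR.Frob

/-!
# The number of fixed points modulo four

`V` is a finite commutative group of order prime to the odd prime `q`, with automorphisms `t`, `c`,
`t ^ q = 1`, `c ^ m = 1`, `c t c⁻¹ = t ^ r`, `r` of odd order `m` modulo `q`.

* `frob_two`: the quotient `w` of the numbers of fixed points of `c` and of `t`, `c` is an integer,
  and if it is `2` modulo `4` then `q` divides `2 ^ m - 1`.
* `frob_mod`: if there is an automorphism `s` of 2-power order with `s c = c s`, `s t s⁻¹ = t⁻¹`,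
  then the number of fixed points of `c` is divisible by four or congruent modulo four to the
  number of common fixed points of `t` and `c`.
-/

set_option autoImplicit false

namespace Pool.Agent.CGSR

/-- `frob_card` in terms of the order of `r` -/
theorem frob_card' {W : Type*} [CommGroup W] [Finite W] (t c : MulAut W) {q m r : ℕ}
    (hq : q.Prime) (ht : t ^ q = 1) (hc : c ^ m = 1) (hct : c * t * c⁻¹ = t ^ r) (hm : 0 < m)
    (hr : orderOf (r : ZMod q) = m) (h0 : ∀ w, t w = w → w = 1) :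
    Nat.card W = Nat.card {w // c w = w} ^ m := by
  refine frob_card t c hq ht hc hct hm ?_ ?_ h0
  · rw [← ZMod.natCast_eq_natCast_iff]
    push_cast
    rw [← hr, pow_orderOf_eq_one]
  · intro j hj hjm h
    rw [← ZMod.natCast_eq_natCast_iff] at h
    push_cast at h
    exact pow_ne_one_of_lt_orderOf hj.ne' (hr ▸ hjm) h

/-- a permutation of 2-power order whose square has no fixed point -/
private theorem FrobV_perm {X : Type*} [Finite X] (σ : Equiv.Perm X) {k : ℕ}
    (hk : σ ^ 2 ^ k = 1) (h : ∀ x, σ (σ x) ≠ x) : 4 ∣ Nat.card X := by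
  classical
  have := Fintype.ofFinite X
  have h1 : σ.support = Finset.univ := by
    rw [Finset.eq_univ_iff_forall]
    intro x
    rw [Equiv.Perm.mem_support]
    intro hx
    exact h x (by rw [hx, hx])
  rw [Nat.card_eq_fintype_card, ← Finset.card_univ, ← h1, ← Equiv.Perm.sum_cycleType]
  refine Multiset.dvd_sum fun n hn => ?_
  have h2 : n ∣ 2 ^ k :=
    (Equiv.Perm.dvd_of_mem_cycleType hn).trans (orderOf_dvd_of_pow_eq_one hk)
  obtain ⟨j, -, rfl⟩ := (Nat.dvd_prime_pow Nat.prime_two).1 h2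
  have h3 := Equiv.Perm.two_le_of_mem_cycleType hn
  rcases j with _ | _ | j
  · norm_num at h3
  · exfalso
    rw [Equiv.Perm.cycleType_def, Multiset.mem_map] at hn
    obtain ⟨c, hc, hc2⟩ := hn
    have hc' : c ∈ σ.cycleFactorsFinset := hc
    rw [Equiv.Perm.mem_cycleFactorsFinset_iff] at hc'
    obtain ⟨hcyc, hcs⟩ := hc'
    have hcard : c.support.card = 2 := by simpa using hc2
    obtain ⟨x, y, hxy, rfl⟩ := Equiv.Perm.card_support_eq_two.1 hcard
    have hx : x ∈ (Equiv.swap x y).support := by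
      rw [Equiv.Perm.support_swap hxy]
      simp
    have hy : y ∈ (Equiv.swap x y).support := by
      rw [Equiv.Perm.support_swap hxy]
      simp
    have e1 := hcs x hx
    have e2 := hcs y hy
    rw [Equiv.swap_apply_left] at e1
    rw [Equiv.swap_apply_right] at e2
    exact h x (by rw [← e1, ← e2])
  · exact ⟨2 ^ j, by ring⟩

/-- the points fixed by the square of a permutation of 2-power order -/
private theorem FrobV_mod4 {X : Type*} [Finite X] (σ : Equiv.Perm X) {k : ℕ}
    (hk : σ ^ 2 ^ k = 1) : Nat.card X ≡ Nat.card {x // σ (σ x) = x} [MOD 4] := by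
  classical
  have h4 : 4 ∣ Nat.card {x // ¬ σ (σ x) = x} := by
    have hstab : ∀ x, ¬ σ (σ (σ x)) = σ x ↔ ¬ σ (σ x) = x := fun x =>
      not_congr σ.injective.eq_iff
    refine FrobV_perm (σ.subtypePerm hstab) (k := k) ?_ ?_
    · ext1 x
      apply Subtype.ext
      rw [Equiv.Perm.subtypePerm_pow]
      change (σ ^ 2 ^ k) (x : X) = x
      rw [hk]
      rfl
    · intro x hx
      exact x.2 (congrArg Subtype.val hx)
  have h5 : Nat.card X = Nat.card {x // σ (σ x) = x} + Nat.card {x // ¬ σ (σ x) = x} := by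
    rw [← Nat.card_sum]
    exact (Nat.card_congr (Equiv.sumCompl fun x => σ (σ x) = x)).symm
  rw [h5]
  obtain ⟨c, hc⟩ := h4
  rw [hc]
  simp [Nat.ModEq]

/-- restriction of an automorphism to a stable subgroup -/
private noncomputable def FrobV_res {V : Type*} [CommGroup V] [Finite V] (W : Subgroup V)
    (s : MulAut V) (h : ∀ w ∈ W, s w ∈ W) : MulAut W :=
  MulEquiv.ofBijective
    (((s : V ≃* V).toMonoidHom.comp W.subtype).codRestrict W fun w => h w w.2)
    ((Finite.injective_iff_bijective).1 fun _ _ hab =>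
      Subtype.ext (s.injective (congrArg Subtype.val hab)))

private theorem FrobV_res_apply {V : Type*} [CommGroup V] [Finite V] (W : Subgroup V)
    (s : MulAut V) (h : ∀ w ∈ W, s w ∈ W) (w : W) : ((FrobV_res W s h w : W) : V) = s w := rfl

private theorem FrobV_res_pow {V : Type*} [CommGroup V] [Finite V] (W : Subgroup V)
    (s : MulAut V) (h : ∀ w ∈ W, s w ∈ W) (n : ℕ) (w : W) :
    (((FrobV_res W s h) ^ n) w : V) = (s ^ n) (w : V) := by
  induction n generalizing w with
  | zero => rfl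
  | succ n ih =>
    rw [pow_succ, pow_succ, MulAut.mul_apply, ih]
    rfl

/-- `v ↦ (t v) / v` -/
private def FrobV_f {V : Type*} [CommGroup V] (t : MulAut V) : V →* V :=
  (t : V ≃* V).toMonoidHom / MonoidHom.id V

private theorem FrobV_f_apply {V : Type*} [CommGroup V] (t : MulAut V) (v : V) :
    FrobV_f t v = t v / v := rfl

section

variable {V : Type*} [CommGroup V] (t c : MulAut V) {q m r : ℕ}

private theorem FrobV_ct (hct : c * t * c⁻¹ = t ^ r) (v : V) : c (t v) = (t ^ r) (c v) := by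
  rw [← hct]
  simp

private theorem FrobV_t_range : ∀ w ∈ (FrobV_f t).range, t w ∈ (FrobV_f t).range := by
  rintro w ⟨v, rfl⟩
  exact ⟨t v, by rw [FrobV_f_apply, FrobV_f_apply, map_div]⟩

private theorem FrobV_c_range (hct : c * t * c⁻¹ = t ^ r) :
    ∀ w ∈ (FrobV_f t).range, c w ∈ (FrobV_f t).range := by
  rintro w ⟨v, rfl⟩
  have key : ∀ (n : ℕ) (u : V), (t ^ n) u / u ∈ (FrobV_f t).range := by
    intro n u
    induction n with
    | zero =>
      rw [pow_zero, MulAut.one_apply, div_self']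
      exact one_mem _
    | succ n ih =>
      have h1 : (t ^ (n + 1)) u / u = FrobV_f t ((t ^ n) u) * ((t ^ n) u / u) := by
        rw [FrobV_f_apply, pow_succ', MulAut.mul_apply, div_mul_div_cancel]
      rw [h1]
      exact mul_mem ⟨_, rfl⟩ ih
  rw [FrobV_f_apply, map_div, FrobV_ct t c hct]
  exact key r _

private theorem FrobV_cop (hq : q.Prime) (hm : 0 < m) (hr : orderOf (r : ZMod q) = m) :
    r.Coprime q := by
  have : Fact q.Prime := ⟨hq⟩
  rw [Nat.coprime_comm, Nat.Prime.coprime_iff_not_dvd hq]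
  intro h
  rw [← ZMod.natCast_eq_zero_iff] at h
  rw [h, orderOf_zero] at hr
  omega

private theorem FrobV_fixc (hq : q.Prime) (ht : t ^ q = 1) (hct : c * t * c⁻¹ = t ^ r)
    (hcop : r.Coprime q) {a : V} (ha : t a = a) : t (c a) = c a := by
  have h1 : (t ^ r) (c a) = c a := by rw [← FrobV_ct t c hct, ha]
  have h2 : ∀ j : ℕ, ((t ^ r) ^ j) (c a) = c a := by
    intro j
    induction j with
    | zero => rfl
    | succ j ih => rw [pow_succ, MulAut.mul_apply, h1, ih]
  obtain ⟨k, -, hk⟩ := Nat.exists_mul_mod_eq_one_of_coprime hcop hq.one_lt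
  have h3 := h2 k
  rw [← pow_mul, ← Nat.div_add_mod (r * k) q, hk, pow_add, pow_mul, ht, one_pow, pow_one,
    one_mul] at h3
  exact h3

variable [Finite V]

omit [Finite V] in
private theorem FrobV_fix (hq : q.Prime) (ht : t ^ q = 1) (hqV : ¬ q ∣ Nat.card V) :
    ∀ w ∈ (FrobV_f t).range, t w = w → w = 1 := by
  rintro w ⟨v, hv⟩ h4
  have h5 : ∀ n : ℕ, (t ^ n) v = w ^ n * v := by
    intro n
    induction n with
    | zero => rw [pow_zero, pow_zero, one_mul, MulAut.one_apply]
    | succ n ih =>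
      have h6 : t v = w * v := by
        rw [← hv, FrobV_f_apply, div_mul_cancel]
      rw [pow_succ', MulAut.mul_apply, ih, map_mul, map_pow, h4, h6, pow_succ, mul_assoc]
  have h6 : w ^ q = 1 := by
    have h7 := h5 q
    rw [ht, MulAut.one_apply] at h7
    exact (mul_eq_right.1 h7.symm)
  have h7 : orderOf w ∣ q := orderOf_dvd_of_pow_eq_one h6
  rcases (Nat.dvd_prime hq).1 h7 with h8 | h8
  · exact orderOf_eq_one_iff.1 h8
  · exfalso
    apply hqV
    rw [← h8]
    exact orderOf_dvd_natCard w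

private theorem FrobV_compl (hq : q.Prime) (ht : t ^ q = 1) (hqV : ¬ q ∣ Nat.card V) :
    Function.Bijective
      (fun x : (FrobV_f t).ker × (FrobV_f t).range => ((x.1 : V) * (x.2 : V))) := by
  refine Subgroup.isComplement'_of_card_mul_and_disjoint ?_ ?_
  · rw [Subgroup.card_eq_card_quotient_mul_card_subgroup (FrobV_f t).ker,
      Nat.card_congr (QuotientGroup.quotientKerEquivRange (FrobV_f t)).toEquiv, mul_comm]
  · rw [Subgroup.disjoint_def]
    intro x hx hx'
    refine FrobV_fix t hq ht hqV x hx' ?_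
    rw [MonoidHom.mem_ker, FrobV_f_apply, div_eq_one] at hx
    exact hx

/-- the fixed points of `c` -/
private theorem FrobV_card (hq : q.Prime) (ht : t ^ q = 1) (hct : c * t * c⁻¹ = t ^ r)
    (hcop : r.Coprime q) (hqV : ¬ q ∣ Nat.card V) :
    Nat.card {v // c v = v} = Nat.card {v // t v = v ∧ c v = v} *
      Nat.card {w : (FrobV_f t).range // c (w : V) = w} := by
  have hbij := FrobV_compl t hq ht hqV
  rw [← Nat.card_prod]
  symm
  let F : {v // t v = v ∧ c v = v} × {w : (FrobV_f t).range // c (w : V) = w} →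
      {v // c v = v} := fun x => ⟨(x.1 : V) * ((x.2 : (FrobV_f t).range) : V), by
    rw [map_mul, x.1.2.2, x.2.2]⟩
  refine Nat.card_congr (Equiv.ofBijective F ⟨?_, ?_⟩)
  · rintro ⟨⟨a, ha⟩, ⟨w, hw⟩⟩ ⟨⟨a', ha'⟩, ⟨w', hw'⟩⟩ h
    have h1 : a * (w : V) = a' * w' := congrArg Subtype.val h
    have h2 : (⟨⟨a, div_eq_one.2 ha.1⟩, w⟩ : (FrobV_f t).ker × (FrobV_f t).range) =
        ⟨⟨a', div_eq_one.2 ha'.1⟩, w'⟩ := hbij.1 h1
    rw [Prod.mk.injEq] at h2
    obtain ⟨h3, rfl⟩ := h2
    have h4 : a = a' := congrArg Subtype.val h3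
    subst h4
    rfl
  · rintro ⟨v, hv⟩
    obtain ⟨⟨a, w⟩, haw⟩ := hbij.2 v
    have haw' : (a : V) * (w : V) = v := haw
    have ha : t (a : V) = a := div_eq_one.1 a.2
    have h1 : (⟨⟨c a, div_eq_one.2 (FrobV_fixc t c hq ht hct hcop ha)⟩,
        ⟨c w, FrobV_c_range t c hct w w.2⟩⟩ : (FrobV_f t).ker × (FrobV_f t).range) = ⟨a, w⟩ := by
      apply hbij.1
      change c (a : V) * c (w : V) = a * w
      rw [← map_mul, haw', hv]
    rw [Prod.mk.injEq] at h1
    have h2 : c (a : V) = a := congrArg Subtype.val h1.1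
    have h3 : c (w : V) = w := congrArg Subtype.val h1.2
    exact ⟨⟨⟨a, ha, h2⟩, ⟨w, h3⟩⟩, Subtype.ext haw'⟩

/-- freeness on the range -/
private theorem FrobV_free (hq : q.Prime) (ht : t ^ q = 1) (hc : c ^ m = 1)
    (hct : c * t * c⁻¹ = t ^ r) (hm : 0 < m) (hr : orderOf (r : ZMod q) = m)
    (hqV : ¬ q ∣ Nat.card V) :
    Nat.card (FrobV_f t).range =
      Nat.card {w : (FrobV_f t).range // c (w : V) = w} ^ m := by
  have h1 := frob_card' (FrobV_res _ t (FrobV_t_range t)) (FrobV_res _ c (FrobV_c_range t c hct))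
    hq (MulEquiv.ext fun w => Subtype.ext (by rw [FrobV_res_pow, ht]; rfl))
    (MulEquiv.ext fun w => Subtype.ext (by rw [FrobV_res_pow, hc]; rfl))
    (by
      rw [mul_inv_eq_iff_eq_mul]
      refine MulEquiv.ext fun w => Subtype.ext ?_
      rw [MulAut.mul_apply, MulAut.mul_apply, FrobV_res_apply, FrobV_res_apply, FrobV_res_pow,
        FrobV_res_apply, FrobV_ct t c hct]) hm hr
    (fun w hw => Subtype.ext (FrobV_fix t hq ht hqV w w.2 (congrArg Subtype.val hw)))
  rw [h1]
  congr 1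
  exact Nat.card_congr (Equiv.subtypeEquivRight fun w =>
    ⟨fun h => congrArg Subtype.val h, fun h => Subtype.ext h⟩)

/-- an involution `s`: the number of fixed points of `c` in the range is a square -/
private theorem FrobV_sq (s : MulAut V) (hq : q.Prime) (hq2 : q ≠ 2) (ht : t ^ q = 1)
    (hc : c ^ m = 1) (hct : c * t * c⁻¹ = t ^ r) (hst : s * t * s⁻¹ = t⁻¹) (hsc : s * c = c * s)
    (hs : s ^ 2 = 1) (hm : Odd m) (hr : orderOf (r : ZMod q) = m) (hqV : ¬ q ∣ Nat.card V) :
    ∃ x, Nat.card {w : (FrobV_f t).range // c (w : V) = w} = x ^ 2 := by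
  have : Fact q.Prime := ⟨hq⟩
  have h1 := FrobV_free t c hq ht hc hct hm.pos hr hqV
  have h2 := FrobV_free t (c * s) (m := 2 * m) (r := (q - 1) * r) hq ht ?_ ?_
    (by have := hm.pos; omega) ?_ hqV
  · rw [h2, pow_mul] at h1
    exact ⟨_, (Nat.pow_left_injective hm.pos.ne' h1).symm⟩
  · have h3 : Commute c s := hsc.symm
    rw [h3.mul_pow, pow_mul s, hs, one_pow, mul_comm 2 m, pow_mul, hc, one_pow, one_mul]
  · have h3 : c * s * t * (c * s)⁻¹ = (t ^ r)⁻¹ := by
      rw [← hct, mul_inv_rev]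
      calc c * s * t * (s⁻¹ * c⁻¹) = c * (s * t * s⁻¹) * c⁻¹ := by group
        _ = (c * t * c⁻¹)⁻¹ := by rw [hst]; group
    rw [h3, inv_eq_iff_mul_eq_one, ← pow_add]
    have h4 : r + (q - 1) * r = q * r := by
      obtain ⟨j, rfl⟩ : ∃ j, q = j + 1 := ⟨q - 1, by have := hq.pos; omega⟩
      rw [Nat.add_sub_cancel]
      ring
    rw [h4, pow_mul, ht, one_pow]
  · have h3 : (((q - 1) * r : ℕ) : ZMod q) = -1 * (r : ZMod q) := by
      rw [Nat.cast_mul, Nat.cast_sub hq.pos, Nat.cast_one, CharP.cast_eq_zero, zero_sub]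
    have h4 : orderOf (-1 : ZMod q) = 2 := by
      rw [orderOf_neg_one, ZMod.ringChar_zmod_n, if_neg hq2]
    rw [h3, (Commute.all (-1 : ZMod q) (r : ZMod q)).orderOf_mul_eq_mul_orderOf_of_coprime, h4,
      hr]
    rw [h4, hr]
    exact Nat.coprime_two_left.2 hm

end

private theorem FrobV_one {E : Type*} [CommGroup E] [Finite E] (t : MulAut E) {q : ℕ}
    (hq : q.Prime) (ht : t ^ q = 1) (h0 : ∀ w, t w = w → w = 1) : Nat.card E ≡ 1 [MOD q] := by
  classical
  have : Fact q.Prime := ⟨hq⟩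
  have := Fintype.ofFinite E
  let g : Function.End E := fun u => t u
  have hg : ∀ n : ℕ, ∀ u : E, (g ^ n) u = (t ^ n) u := by
    intro n
    induction n with
    | zero => exact fun _ => rfl
    | succ n ih =>
      intro u
      rw [pow_succ, pow_succ, MulAut.mul_apply]
      exact ih (g u)
  have hgq : g ^ q ^ 1 = 1 := by
    funext u
    rw [pow_one, hg, ht]
    rfl
  have h1 := Equiv.Perm.card_fixedPoints_modEq hgq
  have h2 : Fintype.card g.fixedPoints = 1 := by
    rw [Fintype.card_eq_one_iff]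
    exact ⟨⟨1, map_one t⟩, fun u => Subtype.ext (h0 u.1 u.2)⟩
  rwa [h2, ← Nat.card_eq_fintype_card] at h1

/-- a commutative group of order two modulo four has one involution -/
private theorem FrobV_inv {Y : Type*} [CommGroup Y] [Finite Y] (h : Nat.card Y % 4 = 2) :
    Nat.card {y : Y // y ^ 2 = 1} = 2 := by
  have : Fact (Nat.Prime 2) := ⟨Nat.prime_two⟩
  let U : Subgroup Y := (powMonoidHom 2 : Y →* Y).ker
  have hU : ∀ v, v ∈ U ↔ v ^ 2 = 1 := fun v => MonoidHom.mem_ker
  have h1 : Nat.card {y : Y // y ^ 2 = 1} = Nat.card U :=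
    Nat.card_congr (Equiv.subtypeEquivRight fun v => (hU v).symm)
  have hp : IsPGroup 2 U := fun u => ⟨1, Subtype.ext (by
    rw [pow_one]
    exact (hU _).1 u.2)⟩
  obtain ⟨k, hk⟩ := IsPGroup.iff_card.1 hp
  have h3 : Nat.card U ∣ Nat.card Y := Subgroup.card_subgroup_dvd_card U
  rw [h1, hk]
  rcases k with _ | _ | k
  · exfalso
    obtain ⟨x, hx⟩ := exists_prime_orderOf_dvd_card' (G := Y) 2 (by omega)
    have h4 : x ∈ U := by
      rw [hU, ← hx, pow_orderOf_eq_one]
    have h5 : (⟨x, h4⟩ : U) = 1 := by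
      have h6 : Nat.card U = 1 := by rw [hk, pow_zero]
      have := (Nat.card_eq_one_iff_unique.1 h6).1
      exact Subsingleton.elim _ _
    have h6 : x = 1 := congrArg Subtype.val h5
    rw [h6, orderOf_one] at hx
    omega
  · rfl
  · exfalso
    rw [hk] at h3
    have h4 : 4 ∣ Nat.card Y := Dvd.dvd.trans ⟨2 ^ k, by ring⟩ h3
    omega

/-- the quotient of the numbers of fixed points, without further automorphism -/
theorem frob_two {V : Type*} [CommGroup V] [Finite V] (t c : MulAut V) {q m r : ℕ}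
    (hq : q.Prime) (ht : t ^ q = 1) (hc : c ^ m = 1) (hct : c * t * c⁻¹ = t ^ r) (hm : 0 < m)
    (hr : orderOf (r : ZMod q) = m) (hqV : ¬ q ∣ Nat.card V) :
    ∃ w, Nat.card {v // c v = v} = Nat.card {v // t v = v ∧ c v = v} * w ∧
      (w % 4 = 2 → q ∣ 2 ^ m - 1) := by
  refine ⟨_, FrobV_card t c hq ht hct (FrobV_cop hq hm hr) hqV, fun h => ?_⟩
  -- the subgroup of the elements of order at most two of the range
  let E : Subgroup V := (FrobV_f t).range ⊓ (powMonoidHom 2 : V →* V).ker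
  have hE : ∀ v, v ∈ E ↔ v ∈ (FrobV_f t).range ∧ v ^ 2 = 1 := fun v => Iff.rfl
  have hEt : ∀ w ∈ E, t w ∈ E := fun w hw => by
    rw [hE] at hw ⊢
    exact ⟨FrobV_t_range t w hw.1, by rw [← map_pow, hw.2, map_one]⟩
  have hEc : ∀ w ∈ E, c w ∈ E := fun w hw => by
    rw [hE] at hw ⊢
    exact ⟨FrobV_c_range t c hct w hw.1, by rw [← map_pow, hw.2, map_one]⟩
  have e1 : FrobV_res E t hEt ^ q = 1 :=
    MulEquiv.ext fun w => Subtype.ext (by rw [FrobV_res_pow, ht]; rfl)
  have e0 : ∀ w, FrobV_res E t hEt w = w → w = 1 := fun w hw =>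
    Subtype.ext (FrobV_fix t hq ht hqV w ((hE w).1 w.2).1 (congrArg Subtype.val hw))
  have h1 := frob_card' (FrobV_res E t hEt) (FrobV_res E c hEc) hq e1
    (MulEquiv.ext fun w => Subtype.ext (by rw [FrobV_res_pow, hc]; rfl))
    (by
      rw [mul_inv_eq_iff_eq_mul]
      refine MulEquiv.ext fun w => Subtype.ext ?_
      rw [MulAut.mul_apply, MulAut.mul_apply, FrobV_res_apply, FrobV_res_apply, FrobV_res_pow,
        FrobV_res_apply, FrobV_ct t c hct]) hm hr e0
  have h2 := FrobV_one (FrobV_res E t hEt) hq e1 e0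
  -- the fixed points of `c` in the range
  let Y : Subgroup V :=
    { carrier := {v | v ∈ (FrobV_f t).range ∧ c v = v}
      mul_mem' := fun {a b} ha hb => ⟨mul_mem ha.1 hb.1, by rw [map_mul, ha.2, hb.2]⟩
      one_mem' := ⟨one_mem _, map_one c⟩
      inv_mem' := fun {a} ha => ⟨inv_mem ha.1, by rw [map_inv, ha.2]⟩ }
  have h3 : Nat.card {w : (FrobV_f t).range // c (w : V) = w} = Nat.card Y :=
    Nat.card_congr
      { toFun := fun w => ⟨w.1, w.1.2, w.2⟩
        invFun := fun y => ⟨⟨y.1, y.2.1⟩, y.2.2⟩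
        left_inv := fun _ => rfl
        right_inv := fun _ => rfl }
  rw [h3] at h
  have h4 := FrobV_inv h
  have h5 : Nat.card {w : E // FrobV_res E c hEc w = w} = Nat.card {y : Y // y ^ 2 = 1} :=
    Nat.card_congr
      { toFun := fun w => ⟨⟨w.1, ((hE _).1 w.1.2).1, congrArg Subtype.val w.2⟩,
          Subtype.ext ((hE _).1 w.1.2).2⟩
        invFun := fun y => ⟨⟨y.1, (hE _).2 ⟨y.1.2.1, congrArg Subtype.val y.2⟩⟩,
          Subtype.ext y.1.2.2⟩
        left_inv := fun _ => rfl
        right_inv := fun _ => rfl }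
  rw [h1, h5, h4] at h2
  exact (Nat.modEq_iff_dvd' (Nat.one_le_two_pow)).1 h2.symm

/-- the points with a property stable under an automorphism of 2-power order -/
private theorem FrobV_pred {V : Type*} [CommGroup V] [Finite V] (s : MulAut V) {k : ℕ}
    (hs : s ^ 2 ^ k = 1) (p : V → Prop) (hp : ∀ v, p (s v) ↔ p v) :
    Nat.card {v // p v} ≡ Nat.card {v // s (s v) = v ∧ p v} [MOD 4] := by
  have hp' : ∀ v, p ((MulAut.toPerm V s) v) ↔ p v := hp
  have h1 := FrobV_mod4 ((MulAut.toPerm V s).subtypePerm hp') (k := k) (by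
    ext1 x
    apply Subtype.ext
    rw [Equiv.Perm.subtypePerm_pow]
    change ((MulAut.toPerm V s) ^ 2 ^ k) (x : V) = x
    rw [← map_pow, hs, map_one]
    rfl)
  have h2 : Nat.card {x : {v // p v} // ((MulAut.toPerm V s).subtypePerm hp')
      (((MulAut.toPerm V s).subtypePerm hp') x) = x} = Nat.card {v // s (s v) = v ∧ p v} :=
    Nat.card_congr
      { toFun := fun x => ⟨x.1.1, congrArg Subtype.val x.2, x.1.2⟩
        invFun := fun x => ⟨⟨x.1, x.2.2⟩, Subtype.ext x.2.1⟩
        left_inv := fun _ => rfl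
        right_inv := fun _ => rfl }
  rwa [h2] at h1

/-- **the number of fixed points of `c` modulo four** -/
theorem frob_mod {V : Type*} [CommGroup V] [Finite V] (s t c : MulAut V) {q m r k : ℕ}
    (hq : q.Prime) (hq2 : q ≠ 2) (ht : t ^ q = 1) (hc : c ^ m = 1) (hct : c * t * c⁻¹ = t ^ r)
    (hst : s * t * s⁻¹ = t⁻¹) (hsc : s * c = c * s) (hs : s ^ 2 ^ k = 1) (hm : Odd m)
    (hr : orderOf (r : ZMod q) = m) (hqV : ¬ q ∣ Nat.card V) :
    4 ∣ Nat.card {v // c v = v} ∨
      Nat.card {v // c v = v} ≡ Nat.card {v // t v = v ∧ c v = v} [MOD 4] := by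
  have e1 : ∀ v, s (t v) = t⁻¹ (s v) := by
    intro v
    have h3 : (s * t * s⁻¹) (s v) = t⁻¹ (s v) := by rw [hst]
    rw [← h3]
    simp
  have e2 : ∀ v, s (t⁻¹ v) = t (s v) := by
    intro v
    have h3 := e1 (t⁻¹ v)
    have h4 : t (t⁻¹ v) = v := by simp
    rw [h4] at h3
    rw [h3]
    simp
  have e3 : ∀ v, s (c v) = c (s v) := fun v => DFunLike.congr_fun hsc v
  have hcs : ∀ v, c (s v) = s v ↔ c v = v := fun v => by
    rw [← e3]
    exact s.injective.eq_iff
  have hts : ∀ v, t (s v) = s v ↔ t v = v := fun v => by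
    constructor
    · intro h
      have h1 : s (t⁻¹ v) = s v := by rw [e2, h]
      have h2 := s.injective h1
      have h3 : t (t⁻¹ v) = v := by simp
      rw [h2] at h3
      exact h3
    · intro h
      have h1 : t⁻¹ v = v := by
        nth_rewrite 1 [← h]
        simp
      rw [← e2, h1]
  have b1 := FrobV_pred s hs (fun v => c v = v) hcs
  have b2 := FrobV_pred s hs (fun v => t v = v ∧ c v = v) fun v => and_congr (hts v) (hcs v)
  -- the fixed points of the square of `s`
  let V₂ : Subgroup V :=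
    { carrier := {v | s (s v) = v}
      mul_mem' := fun {a b} ha hb => by
        change s (s (a * b)) = a * b
        rw [map_mul, map_mul, show s (s a) = a from ha, show s (s b) = b from hb]
      one_mem' := by
        change s (s 1) = 1
        rw [map_one, map_one]
      inv_mem' := fun {a} ha => by
        change s (s a⁻¹) = a⁻¹
        rw [map_inv, map_inv, show s (s a) = a from ha] }
  have ht2 : ∀ w ∈ V₂, t w ∈ V₂ := fun w hw => by
    change s (s (t w)) = t w
    rw [e1, e2, show s (s w) = w from hw]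
  have hc2 : ∀ w ∈ V₂, c w ∈ V₂ := fun w hw => by
    change s (s (c w)) = c w
    rw [e3, e3, show s (s w) = w from hw]
  have hs2 : ∀ w ∈ V₂, s w ∈ V₂ := fun w hw => by
    change s (s (s w)) = s w
    rw [show s (s w) = w from hw]
  have hq2V : ¬ q ∣ Nat.card V₂ := fun h => hqV (h.trans (Subgroup.card_subgroup_dvd_card V₂))
  have f1 : FrobV_res V₂ t ht2 ^ q = 1 :=
    MulEquiv.ext fun w => Subtype.ext (by rw [FrobV_res_pow, ht]; rfl)
  have f2 : FrobV_res V₂ c hc2 ^ m = 1 :=
    MulEquiv.ext fun w => Subtype.ext (by rw [FrobV_res_pow, hc]; rfl)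
  have f3 : FrobV_res V₂ c hc2 * FrobV_res V₂ t ht2 * (FrobV_res V₂ c hc2)⁻¹ =
      FrobV_res V₂ t ht2 ^ r := by
    rw [mul_inv_eq_iff_eq_mul]
    refine MulEquiv.ext fun w => Subtype.ext ?_
    rw [MulAut.mul_apply, MulAut.mul_apply, FrobV_res_apply, FrobV_res_apply, FrobV_res_pow,
      FrobV_res_apply, FrobV_ct t c hct]
  have f4 : FrobV_res V₂ s hs2 * FrobV_res V₂ t ht2 * (FrobV_res V₂ s hs2)⁻¹ =
      (FrobV_res V₂ t ht2)⁻¹ := by
    rw [mul_inv_eq_iff_eq_mul, eq_inv_mul_iff_mul_eq]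
    refine MulEquiv.ext fun w => Subtype.ext ?_
    change t (s (t w)) = s w
    rw [e1]
    simp
  have f5 : FrobV_res V₂ s hs2 * FrobV_res V₂ c hc2 =
      FrobV_res V₂ c hc2 * FrobV_res V₂ s hs2 :=
    MulEquiv.ext fun w => Subtype.ext (e3 w)
  have f6 : FrobV_res V₂ s hs2 ^ 2 = 1 := by
    rw [pow_two]
    exact MulEquiv.ext fun w => Subtype.ext w.2
  obtain ⟨x, hx⟩ := FrobV_sq _ _ (FrobV_res V₂ s hs2) hq hq2 f1 f2 f3 f4 f5 f6 hm hr hq2V
  have g1 := FrobV_card _ _ hq f1 f3 (FrobV_cop hq hm.pos hr) hq2V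
  rw [hx] at g1
  have g2 : Nat.card {v : V₂ // FrobV_res V₂ c hc2 v = v} =
      Nat.card {v // s (s v) = v ∧ c v = v} :=
    Nat.card_congr
      { toFun := fun v => ⟨v.1, v.1.2, congrArg Subtype.val v.2⟩
        invFun := fun v => ⟨⟨v.1, v.2.1⟩, Subtype.ext v.2.2⟩
        left_inv := fun _ => rfl
        right_inv := fun _ => rfl }
  have g3 : Nat.card {v : V₂ // FrobV_res V₂ t ht2 v = v ∧ FrobV_res V₂ c hc2 v = v} =
      Nat.card {v // s (s v) = v ∧ t v = v ∧ c v = v} :=
    Nat.card_congr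
      { toFun := fun v => ⟨v.1, v.1.2, congrArg Subtype.val v.2.1, congrArg Subtype.val v.2.2⟩
        invFun := fun v => ⟨⟨v.1, v.2.1⟩, Subtype.ext v.2.2.1, Subtype.ext v.2.2.2⟩
        left_inv := fun _ => rfl
        right_inv := fun _ => rfl }
  rw [g2, g3] at g1
  rw [g1] at b1
  rcases Nat.even_or_odd x with ⟨y, hy⟩ | ⟨y, hy⟩
  · left
    have h4 : Nat.card {v // s (s v) = v ∧ t v = v ∧ c v = v} * x ^ 2 ≡ 0 [MOD 4] := by
      rw [Nat.modEq_zero_iff_dvd, hy]
      exact Dvd.dvd.mul_left ⟨y ^ 2, by ring⟩ _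
    exact (Nat.modEq_zero_iff_dvd).1 (b1.trans h4)
  · right
    have h4 : x ^ 2 ≡ 1 [MOD 4] := by
      rw [hy]
      refine ((Nat.modEq_iff_dvd' (by nlinarith)).2 ⟨y ^ 2 + y, ?_⟩).symm
      have : (2 * y + 1) ^ 2 = 4 * (y ^ 2 + y) + 1 := by ring
      omega
    have h5 := h4.mul_left (Nat.card {v // s (s v) = v ∧ t v = v ∧ c v = v})
    rw [mul_one] at h5
    exact b1.trans (h5.trans b2.symm)

end Pool.Agent.CGSR
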