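import Pool.Agent.CGSR.HomT

/-!
# The linear characters of `T` and those of `L` fixed by `c`

Notation of `MonoT`.
-/

set_option autoImplicit false

namespace Pool.Agent.CGSR

open Matrix Pool.Agent.CGS

/-- the number of elements with image in a subset of the range -/
private theorem HomU_fiber {A B : Type} [Group A] [Group B] (R : A →* B) (P : B → Prop)
    (hP : ∀ b, P b → ∃ a, R a = b) :
    Nat.card {a // P (R a)} = Nat.card R.ker * Nat.card {b // P b} := by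
  choose s hs using hP
  rw [← Nat.card_prod]
  symm
  refine Nat.card_congr (Equiv.ofBijective
    (fun x : R.ker × {b // P b} => (⟨(x.1 : A) * s x.2.1 x.2.2, ?_⟩ : {a // P (R a)})) ⟨?_, ?_⟩)
  · rw [map_mul, MonoidHom.mem_ker.1 x.1.2, one_mul, hs]
    exact x.2.2
  · rintro ⟨k, ⟨b, hb⟩⟩ ⟨k', ⟨b', hb'⟩⟩ h
    have h1 : (k : A) * s b hb = k' * s b' hb' := congrArg Subtype.val h
    have h2 := congrArg R h1
    rw [map_mul, map_mul, MonoidHom.mem_ker.1 k.2, MonoidHom.mem_ker.1 k'.2, one_mul, one_mul,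
      hs, hs] at h2
    subst h2
    rw [Prod.mk.injEq]
    exact ⟨Subtype.ext (mul_right_cancel h1), rfl⟩
  · rintro ⟨a, ha⟩
    refine ⟨⟨⟨a * (s (R a) ha)⁻¹, ?_⟩, ⟨R a, ha⟩⟩, ?_⟩
    · rw [MonoidHom.mem_ker, map_mul, map_inv, hs, mul_inv_cancel]
    · apply Subtype.ext
      exact inv_mul_cancel_right a _

section FD

variable {K : Type} [Group K] [Finite K] {L T : Subgroup K} {t c : K} {q m r : ℕ}

/-- the restriction of the linear characters of `T` to `L` -/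
private def HomU_R (hLT : L ≤ T) : (T →* ℂˣ) →* (L →* ℂˣ) where
  toFun μ := μ.comp (Subgroup.inclusion hLT)
  map_one' := rfl
  map_mul' _ _ := rfl

/-- a linear character of `L` fixed by `c` is the restriction of a linear character of `T` -/
private theorem FD.extend (h : FD L T t c q m r) (l : L →* ℂˣ) (hl : FixC L c l) :
    ∃ μ, HomU_R h.LT μ = l := by
  have hn := h.nL
  obtain ⟨Y, hY⟩ : ∃ Y : Subgroup T, Y = L.subgroupOf T := ⟨_, rfl⟩
  have hYm : ∀ y : T, y ∈ Y ↔ (y : K) ∈ L := fun y => by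
    rw [hY, Subgroup.mem_subgroupOf]
  have hYn : Y.Normal := by
    rw [hY]
    infer_instance
  let f : Y →* L :=
    { toFun := fun y => ⟨((y : T) : K), (hYm _).1 y.2⟩
      map_one' := rfl
      map_mul' := fun _ _ => rfl }
  obtain ⟨d, ρ, hρ, v, hv0, hv⟩ := exists_eigen Y (l.comp f)
  obtain ⟨lY, hlY⟩ : ∃ lY : Y →* ℂ, lY = (Units.coeHom ℂ).comp (l.comp f) := ⟨_, rfl⟩
  have hv' : ∀ n : Y, mat ρ (n : T) *ᵥ v = lY n • v := by
    intro n
    rw [hv, hlY]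
    rfl
  have hfix : fixW Y lY = ⊤ := by
    rw [Subgroup.eq_top_iff']
    intro x
    obtain ⟨j, n, hnL, hx⟩ := h.memT x x.2
    have hx' : x = (⟨c, h.cT⟩ : T) ^ j * ⟨n, h.LT hnL⟩ := Subtype.ext hx
    rw [hx']
    refine mul_mem (pow_mem ?_ j) (le_fixW Y lY ((hYm _).2 hnL))
    intro y
    rw [hlY]
    change ((l (f _) : ℂˣ) : ℂ) = ((l (f y) : ℂˣ) : ℂ)
    congr 1
    refine hl (f y) (f _) ?_
    change ((((MulAut.conjNormal (⟨c, h.cT⟩ : T) : Y ≃* Y) y : Y) : T) : K) = _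
    rw [MulAut.conjNormal_apply]
    rfl
  have hs := scalar_of_fixed Y hρ hv0 hv' hfix
  have hmat : ∀ x : T, ∃ (a : ℂ) (j : ℕ), mat ρ x = a • mat ρ (⟨c, h.cT⟩ : T) ^ j := by
    intro x
    obtain ⟨j, n, hnL, hx⟩ := h.memT x x.2
    have hx' : x = (⟨c, h.cT⟩ : T) ^ j * ⟨n, h.LT hnL⟩ := Subtype.ext hx
    have h1 := hs ⟨⟨n, h.LT hnL⟩, (hYm _).2 hnL⟩
    refine ⟨lY ⟨⟨n, h.LT hnL⟩, (hYm _).2 hnL⟩, j, ?_⟩
    rw [hx', mat_mul, mat_pow]
    have h2 : mat ρ (⟨n, h.LT hnL⟩ : T) = lY ⟨⟨n, h.LT hnL⟩, (hYm _).2 hnL⟩ • 1 := h1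
    rw [h2, mul_smul_comm, mul_one]
  have hd : d = 1 := by
    refine deg_eq_one hρ fun g g' => ?_
    obtain ⟨a, j, ha⟩ := hmat g
    obtain ⟨b, k, hb⟩ := hmat g'
    rw [ha, hb, smul_mul_smul_comm, smul_mul_smul_comm, ← pow_add, ← pow_add, add_comm,
      mul_comm a]
  subst hd
  refine ⟨Matrix.GeneralLinearGroup.det.comp ρ, MonoidHom.ext fun n => Units.ext ?_⟩
  have h1 := hs ⟨⟨(n : K), h.LT n.2⟩, (hYm _).2 n.2⟩
  have h2 : mat ρ (⟨(n : K), h.LT n.2⟩ : T) =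
      lY ⟨⟨(n : K), h.LT n.2⟩, (hYm _).2 n.2⟩ • 1 := h1
  change (mat ρ (⟨(n : K), h.LT n.2⟩ : T)).det = ((l n : ℂˣ) : ℂ)
  rw [h2, Matrix.det_smul, Matrix.det_one, Fintype.card_fin, pow_one, mul_one, hlY]
  rfl

/-- the kernel of the restriction -/
private theorem FD.card_ker (h : FD L T t c q m r) (hq : q.Prime) :
    Nat.card (HomU_R (L := L) (T := T) h.LT).ker = m := by
  have hn := h.nL
  obtain ⟨Y, hY⟩ : ∃ Y : Subgroup T, Y = L.subgroupOf T := ⟨_, rfl⟩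
  have hYm : ∀ y : T, y ∈ Y ↔ (y : K) ∈ L := fun y => by
    rw [hY, Subgroup.mem_subgroupOf]
  have hYn : Y.Normal := by
    rw [hY]
    infer_instance
  have hgen : ∀ x : T ⧸ Y, ∃ j : ℕ, x = (((⟨c, h.cT⟩ : T) : T ⧸ Y)) ^ j := by
    intro x
    obtain ⟨x, rfl⟩ := QuotientGroup.mk_surjective x
    obtain ⟨j, n, hnL, hx⟩ := h.memT x x.2
    refine ⟨j, ?_⟩
    rw [← QuotientGroup.mk_pow]
    refine (QuotientGroup.eq.2 ?_).symm
    rw [hYm]
    change (c ^ j)⁻¹ * (x : K) ∈ L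
    rw [hx, inv_mul_cancel_left]
    exact hnL
  have hcomm : commutator (T ⧸ Y) = ⊥ := by
    rw [eq_bot_iff, commutator_def, Subgroup.commutator_le]
    intro x _ y _
    obtain ⟨j, rfl⟩ := hgen x
    obtain ⟨k, rfl⟩ := hgen y
    rw [Subgroup.mem_bot, commutatorElement_eq_one_iff_mul_comm, ← pow_add, ← pow_add, add_comm]
  have hcard : Nat.card (T ⧸ Y) = m := by
    have h1 := Subgroup.relIndex_mul_index h.LT
    rw [h.indexT hq, h.indexL hq] at h1
    rw [hY]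
    exact Nat.eq_of_mul_eq_mul_right hq.pos h1
  have h1 : Nat.card (T ⧸ Y →* ℂˣ) = m := by
    rw [card_hom, hcomm, Subgroup.index_bot, hcard]
  refine Eq.trans ?_ h1
  symm
  refine Nat.card_congr (Equiv.ofBijective
    (fun f : T ⧸ Y →* ℂˣ => (⟨f.comp (QuotientGroup.mk' Y), ?_⟩ :
      (HomU_R (L := L) (T := T) h.LT).ker)) ⟨?_, ?_⟩)
  · rw [MonoidHom.mem_ker]
    refine MonoidHom.ext fun n => ?_
    change f (((⟨(n : K), h.LT n.2⟩ : T) : T ⧸ Y)) = 1
    rw [(QuotientGroup.eq_one_iff _).2 ((hYm _).2 n.2), map_one]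
  · intro f f' hff
    refine MonoidHom.ext fun x => ?_
    obtain ⟨x, rfl⟩ := QuotientGroup.mk_surjective x
    exact DFunLike.congr_fun (congrArg Subtype.val hff) x
  · rintro ⟨μ, hμ⟩
    rw [MonoidHom.mem_ker] at hμ
    refine ⟨QuotientGroup.lift Y μ fun x hx => ?_, ?_⟩
    · exact DFunLike.congr_fun hμ (⟨(x : K), (hYm _).1 hx⟩ : L)
    · apply Subtype.ext
      refine MonoidHom.ext fun x => ?_
      rfl

omit [Finite K] in
private theorem HomU_stT [L.Normal] (hLT : L ≤ T) (μ : T →* ℂˣ) :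
    StT L T t μ ↔ FixC L t (HomU_R hLT μ) := by
  constructor
  · intro h x y hxy
    exact h ⟨(x : K), hLT x.2⟩ ⟨(y : K), hLT y.2⟩ x.2 hxy
  · intro h x y hx hxy
    have hy : (y : K) ∈ L := by
      rw [hxy]
      exact ‹L.Normal›.conj_mem _ hx t
    exact h ⟨(x : K), hx⟩ ⟨(y : K), hy⟩ hxy

omit [Finite K] in
private theorem HomU_fixc (hLT : L ≤ T) (hc : c ∈ T) (μ : T →* ℂˣ) :
    FixC L c (HomU_R hLT μ) := by
  intro x y hxy
  change μ ⟨(y : K), hLT y.2⟩ = μ ⟨(x : K), hLT x.2⟩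
  have h1 : (⟨(y : K), hLT y.2⟩ : T) = ⟨c, hc⟩ * ⟨(x : K), hLT x.2⟩ * ⟨c, hc⟩⁻¹ :=
    Subtype.ext hxy
  rw [h1, map_mul, map_mul, map_inv, mul_right_comm, mul_inv_cancel, one_mul]

/-- the number of linear characters of `T` -/
theorem FD.card_T (h : FD L T t c q m r) (hq : q.Prime) :
    (commutator T).index = m * Nat.card {l : L →* ℂˣ // FixC L c l} := by
  have h1 := HomU_fiber (HomU_R (L := L) (T := T) h.LT) (FixC L c) h.extend
  rw [h.card_ker hq] at h1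
  rw [← h1, ← card_hom]
  exact Nat.card_congr (Equiv.subtypeUnivEquiv fun μ => HomU_fixc h.LT h.cT μ).symm

/-- the number of stable linear characters of `T` -/
theorem FD.card_St (h : FD L T t c q m r) (hq : q.Prime) :
    Nat.card {μ : T →* ℂˣ // StT L T t μ} =
      m * Nat.card {l : L →* ℂˣ // FixC L t l ∧ FixC L c l} := by
  have hn := h.nL
  have h1 := HomU_fiber (HomU_R (L := L) (T := T) h.LT) (fun l => FixC L t l ∧ FixC L c l)
    fun l hl => h.extend l hl.2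
  rw [h.card_ker hq] at h1
  rw [← h1]
  exact Nat.card_congr (Equiv.subtypeEquivRight fun μ =>
    ⟨fun hμ => ⟨(HomU_stT h.LT μ).1 hμ, HomU_fixc h.LT h.cT μ⟩,
      fun hμ => (HomU_stT h.LT μ).2 hμ.1⟩)

/-- **the numbers of classes of degree `q` and one** -/
theorem FD.numbers (h : FD L T t c q m r) (hq : q.Prime) :
    N K q + (commutator K).index = m * Nat.card {l : L →* ℂˣ // FixC L c l} ∧
      (commutator K).index = m * Nat.card {l : L →* ℂˣ // FixC L t l ∧ FixC L c l} := by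
  constructor
  · rw [← h.card_stable hq, h.mono_card hq, h.card_T hq]
  · rw [← h.card_stable hq, h.card_St hq]

end FD

end Pool.Agent.CGSR
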