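import Pool.Agent.CGSR.CoreU
import Pool.Agent.CGSR.HomU
import Pool.Agent.CGSR.FrobV

/-!
# The number of classes of degree `q` of the 2-residual of a soluble group

`G` is soluble, the odd prime `q` divides `|G|` exactly once, `A` is the 2-residual of `G` and `q`
does not divide `|A : A'|`.

* If an element of order `q` of `G` is conjugate to its inverse then the number `N` of classes of
  degree `q` of `A` is `0` or `-|A : A'|` modulo four.
* If `N` is `|A : A'|` modulo four then `q` divides `2 ^ j - 1` for an odd divisor `j` of `|G|`.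
-/

set_option autoImplicit false

namespace Pool.Agent.CGSR

open Matrix Pool.Agent.CGS

section act

variable {G : Type} [Group G] {A : Subgroup G} [A.Normal] (L : Subgroup A) [L.Characteristic]

private theorem AqT_mem (g : G) (x : L) : MulAut.conjNormal g (x : A) ∈ L := by
  have h1 := (inferInstance : L.Characteristic).fixed (MulAut.conjNormal g : A ≃* A)
  have h2 : (x : A) ∈ L.comap (MulAut.conjNormal g : A ≃* A).toMonoidHom := by
    rw [h1]
    exact x.2
  exact h2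

/-- conjugation by `g` on `L` -/
private def AqT_c (g : G) : L →* L :=
  ((MulAut.conjNormal g : A ≃* A).toMonoidHom.comp L.subtype).codRestrict L (AqT_mem L g)

private theorem AqT_c_coe (g : G) (x : L) :
    ((AqT_c L g x : A) : G) = g * ((x : A) : G) * g⁻¹ := rfl

omit [A.Normal] [L.Characteristic] in
private theorem AqT_ext {x y : L} (h : ((x : A) : G) = ((y : A) : G)) : x = y :=
  Subtype.ext (Subtype.ext h)

/-- the linear characters of `L` -/
private def AqT_V {B : Type} [Group B] (L : Subgroup B) : Type := L →* ℂˣ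

private noncomputable instance {B : Type} [Group B] (L : Subgroup B) : CommGroup (AqT_V L) :=
  inferInstanceAs (CommGroup (L →* ℂˣ))

/-- the action of `G` on the linear characters of `L` -/
private noncomputable def AqT_act : G →* MulAut (AqT_V L) where
  toFun g :=
    { toFun := fun v => (MonoidHom.comp v (AqT_c L g⁻¹) : L →* ℂˣ)
      invFun := fun v => (MonoidHom.comp v (AqT_c L g) : L →* ℂˣ)
      left_inv := fun (v : L →* ℂˣ) => by
        refine MonoidHom.ext fun x => ?_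
        change v (AqT_c L g⁻¹ (AqT_c L g x)) = v x
        congr 1
        apply AqT_ext
        rw [AqT_c_coe, AqT_c_coe]
        group
      right_inv := fun (v : L →* ℂˣ) => by
        refine MonoidHom.ext fun x => ?_
        change v (AqT_c L g (AqT_c L g⁻¹ x)) = v x
        congr 1
        apply AqT_ext
        rw [AqT_c_coe, AqT_c_coe]
        group
      map_mul' := fun _ _ => rfl }
  map_one' := by
    refine MulEquiv.ext fun (v : L →* ℂˣ) => MonoidHom.ext fun x => ?_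
    change v (AqT_c L 1⁻¹ x) = v x
    congr 1
    apply AqT_ext
    rw [AqT_c_coe]
    group
  map_mul' g h := by
    refine MulEquiv.ext fun (v : L →* ℂˣ) => MonoidHom.ext fun x => ?_
    change v (AqT_c L (g * h)⁻¹ x) = v (AqT_c L h⁻¹ (AqT_c L g⁻¹ x))
    congr 1
    apply AqT_ext
    rw [AqT_c_coe, AqT_c_coe, AqT_c_coe]
    group

private theorem AqT_act_apply (g : G) (v : L →* ℂˣ) (x : L) :
    (show L →* ℂˣ from AqT_act L g v) x = v (AqT_c L g⁻¹ x) := rfl

private theorem AqT_act_mem (l : L) : AqT_act L ((l : A) : G) = 1 := by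
  refine MulEquiv.ext fun (v : L →* ℂˣ) => MonoidHom.ext fun x => ?_
  change v (AqT_c L ((l : A) : G)⁻¹ x) = v x
  have h1 : AqT_c L ((l : A) : G)⁻¹ x = l⁻¹ * x * l := by
    apply AqT_ext
    rw [AqT_c_coe, inv_inv]
    rfl
  rw [h1, map_mul, map_mul, map_inv, mul_right_comm, inv_mul_cancel, one_mul]

end act

private theorem AqT_odd {Q : Type} [Group Q] {x y : Q} (h : x * y * x⁻¹ = y⁻¹) {m : ℕ}
    (hm : Odd m) : x ^ m * y * (x ^ m)⁻¹ = y⁻¹ := by
  have h2 : x ^ 2 * y * (x ^ 2)⁻¹ = y := by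
    have e1 : x ^ 2 * y * (x ^ 2)⁻¹ = x * (x * y * x⁻¹) * x⁻¹ := by
      rw [pow_two]
      group
    have e2 : x * y⁻¹ * x⁻¹ = (x * y * x⁻¹)⁻¹ := by group
    rw [e1, h, e2, h, inv_inv]
  have h3 : Commute (x ^ 2) y := by
    rw [Commute, SemiconjBy, ← mul_inv_eq_iff_eq_mul]
    exact h2
  obtain ⟨j, rfl⟩ := hm
  have h4 : Commute ((x ^ 2) ^ j) y := h3.pow_left j
  rw [pow_succ', pow_mul]
  calc x * (x ^ 2) ^ j * y * (x * (x ^ 2) ^ j)⁻¹
      = x * ((x ^ 2) ^ j * y) * ((x ^ 2) ^ j)⁻¹ * x⁻¹ := by group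
    _ = x * (y * (x ^ 2) ^ j) * ((x ^ 2) ^ j)⁻¹ * x⁻¹ := by rw [h4.eq]
    _ = x * y * x⁻¹ := by group
    _ = y⁻¹ := h


/-- an element which commutes with `c` and inverts `t` -/
private theorem AqT_s {Q : Type} [Group Q] {q m r : ℕ} (hq : q.Prime) {t c g : Q}
    (ht : t ^ q = 1) (hct : c * t * c⁻¹ = t ^ r) (hr : orderOf (r : ZMod q) = m) (hm : 1 < m)
    (hg : g * t * g⁻¹ = t⁻¹) {b : ℕ} (hb : c⁻¹ * (g * c * g⁻¹) = t ^ b) :
    ∃ s : Q, s * c = c * s ∧ s * t * s⁻¹ = t⁻¹ := by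
  have : Fact q.Prime := ⟨hq⟩
  have hr1 : ((r : ZMod q) - 1) ≠ 0 := by
    intro h
    rw [sub_eq_zero.1 h, orderOf_one] at hr
    omega
  obtain ⟨k, hk⟩ : ∃ k : ℕ, (k : ZMod q) = b / ((r : ZMod q) - 1) :=
    ⟨_, ZMod.natCast_zmod_val _⟩
  have h1 : k + b ≡ r * k [MOD q] := by
    rw [← ZMod.natCast_eq_natCast_iff]
    push_cast
    have h2 : (k : ZMod q) * (r - 1) = b := by rw [hk, div_mul_cancel₀ _ hr1]
    rw [← h2]
    ring
  have h2 : ∀ i : ℕ, c * t ^ i = t ^ (r * i) * c := by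
    intro i
    rw [← mul_inv_eq_iff_eq_mul, ← conj_pow, hct, pow_mul]
  refine ⟨t ^ (r * k) * g, ?_, ?_⟩
  · have h3 : g * c = c * t ^ b * g := by
      rw [inv_mul_eq_iff_eq_mul, mul_inv_eq_iff_eq_mul] at hb
      exact hb
    calc t ^ (r * k) * g * c = t ^ (r * k) * c * t ^ b * g := by
          rw [mul_assoc, h3]
          simp only [mul_assoc]
      _ = c * (t ^ k * t ^ b) * g := by
          rw [← h2]
          simp only [mul_assoc]
      _ = c * (t ^ (r * k) * g) := by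
          rw [← pow_add, pow_eq_of_modEq ht h1, mul_assoc]
  · calc t ^ (r * k) * g * t * (t ^ (r * k) * g)⁻¹
        = t ^ (r * k) * (g * t * g⁻¹) * (t ^ (r * k))⁻¹ := by
          rw [_root_.mul_inv_rev]
          simp only [mul_assoc]
      _ = t⁻¹ := by
          rw [hg]
          have h3 : Commute (t ^ (r * k)) t⁻¹ :=
            (Commute.pow_left (Commute.refl t) (r * k)).inv_right
          rw [h3.eq, mul_inv_cancel_right]

section main

variable {G : Type} [Group G] [Finite G] {A : Subgroup G} [A.Normal] (L : Subgroup A)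
  [L.Characteristic]

omit [Finite G] in
private theorem AqT_fix (g : A) (v : L →* ℂˣ) :
    (AqT_act L (g : G) v = v) ↔ FixC L g v := by
  constructor
  · intro h x y hxy
    have h1 : (show L →* ℂˣ from AqT_act L (g : G) v) y = v y :=
      congrArg (fun u : AqT_V L => (show L →* ℂˣ from u) y) h
    rw [AqT_act_apply] at h1
    rw [← h1]
    congr 1
    apply AqT_ext
    rw [AqT_c_coe, hxy, Subgroup.coe_mul, Subgroup.coe_mul, InvMemClass.coe_inv]
    group
  · intro h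
    refine MonoidHom.ext fun x => ?_
    change v (AqT_c L (g : G)⁻¹ x) = v x
    refine (h _ _ ?_).symm
    apply Subtype.ext
    rw [Subgroup.coe_mul, Subgroup.coe_mul, InvMemClass.coe_inv, AqT_c_coe]
    group

omit [A.Normal] [L.Characteristic] in
private theorem AqT_card {q : ℕ} (hqL : ¬ q ∣ Nat.card L) : ¬ q ∣ Nat.card (AqT_V L) := by
  intro h
  apply hqL
  have h1 : Nat.card (AqT_V L) = (commutator L).index := card_hom L
  rw [h1] at h
  exact h.trans (Subgroup.index_dvd_card _)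

omit [A.Normal] [L.Characteristic] in
private theorem AqT_fin : Finite (AqT_V L) := by
  refine Nat.finite_of_card_ne_zero ?_
  have h1 : Nat.card (AqT_V L) = (commutator L).index := card_hom L
  rw [h1]
  exact Subgroup.index_ne_zero_of_finite

omit [Finite G] in
/-- the relations between the automorphisms -/
private theorem AqT_rel {T : Subgroup A} {t c : A} {q m r : ℕ} (h : FD L T t c q m r) :
    AqT_act L (t : G) ^ q = 1 ∧ AqT_act L (c : G) ^ m = 1 ∧
      AqT_act L (c : G) * AqT_act L (t : G) * (AqT_act L (c : G))⁻¹ =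
        AqT_act L (t : G) ^ r := by
  refine ⟨?_, ?_, ?_⟩
  · rw [← map_pow, ← Subgroup.coe_pow, h.tq, OneMemClass.coe_one, map_one]
  · rw [← map_pow]
    exact AqT_act_mem L ⟨c ^ m, (h.cm m).2 dvd_rfl⟩
  · have h1 := AqT_act_mem L ⟨_, h.ct⟩
    have h2 : (((⟨(t ^ r)⁻¹ * (c * t * c⁻¹), h.ct⟩ : L) : A) : G) =
        ((t : G) ^ r)⁻¹ * ((c : G) * t * (c : G)⁻¹) := rfl
    rw [h2, map_mul, map_inv, map_pow, map_mul, map_mul, map_inv, inv_mul_eq_one] at h1
    exact h1.symm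

/-- the number of fixed points of `c` and the numbers of classes -/
private theorem AqT_numbers {T : Subgroup A} {t c : A} {q m r : ℕ} (h : FD L T t c q m r)
    (hq : q.Prime) :
    N A q + (commutator A).index = m * Nat.card {v // AqT_act L (c : G) v = v} ∧
      (commutator A).index =
        m * Nat.card {v // AqT_act L (t : G) v = v ∧ AqT_act L (c : G) v = v} := by
  obtain ⟨h1, h2⟩ := h.numbers hq
  constructor
  · rw [h1]
    congr 1
    exact Nat.card_congr (Equiv.subtypeEquivRight fun v => (AqT_fix L c v).symm)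
  · rw [h2]
    congr 1
    exact Nat.card_congr (Equiv.subtypeEquivRight fun v =>
      and_congr (AqT_fix L t v).symm (AqT_fix L c v).symm)

end main

/-- **the number of classes of degree `q` of the 2-residual of a soluble group** -/
theorem aq_main {G : Type} [Group G] [Finite G] {A : Subgroup G} {a : ℕ} (hA : IsRes A a)
    (hs : Group.IsSolvable G) {q : ℕ} (hq : q.Prime) (hq2 : q ≠ 2) (hqG : q ∣ Nat.card G)
    (hqq : ¬ q ^ 2 ∣ Nat.card G) (hqA : ¬ q ∣ (commutator A).index) :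
    ((∃ g x : G, orderOf x = q ∧ g * x * g⁻¹ = x⁻¹) →
      N A q % 4 = 0 ∨ (N A q + (commutator A).index) % 4 = 0) ∧
    (N A q % 4 = (commutator A).index % 4 →
      ∃ j : ℕ, Odd j ∧ j ∣ Nat.card G ∧ q ∣ 2 ^ j - 1) := by
  have hAn := hA.normal
  have hq' : Fact q.Prime := ⟨hq⟩
  have hqA' : q ∣ Nat.card A := dvd_card_res hA hq hq2 hqG
  have hcA : Nat.card A ∣ Nat.card G := Subgroup.card_subgroup_dvd_card A
  have hqqA : ¬ q ^ 2 ∣ Nat.card A := fun h => hqq (h.trans hcA)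
  obtain ⟨L, M, hL, hM, hLM, hqL, hidx, hcen⟩ :=
    exists_core (K := A) inferInstance hq hqA' hqqA
  have hLn : L.Normal := inferInstance
  have hMn : M.Normal := inferInstance
  have hcard : Nat.card A = Nat.card L * (q * M.index) := by
    rw [← hidx, Subgroup.relIndex_mul_index hLM, Subgroup.card_mul_index]
  have hqMi : ¬ q ∣ M.index := by
    intro h
    apply hqqA
    rw [hcard, pow_two]
    exact Dvd.dvd.mul_left (Nat.mul_dvd_mul_left q h) _
  have hodd : Odd (commutator A).index := hA.noIdx2.odd_index_commutator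
  have hfin := AqT_fin L
  have hqV := AqT_card L hqL
  -- elements of order `q`
  have hnotL : ∀ x : A, orderOf x = q → x ∉ L := by
    intro x hx hxL
    apply hqL
    have h1 : orderOf (⟨x, hxL⟩ : L) ∣ Nat.card L := orderOf_dvd_natCard _
    rwa [Subgroup.orderOf_mk, hx] at h1
  have hpowq : ∀ x : A, orderOf x = q → x ^ q = 1 := by
    intro x hx
    rw [← hx, pow_orderOf_eq_one]
  have hinM : ∀ x : A, x ^ q = 1 → x ∈ M := by
    intro x hx
    have h1 : (x : A ⧸ M) ^ q = 1 := by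
      rw [← QuotientGroup.mk_pow, hx]
      rfl
    have h2 : orderOf (x : A ⧸ M) ∣ q := orderOf_dvd_of_pow_eq_one h1
    have h3 : orderOf (x : A ⧸ M) ∣ M.index := orderOf_dvd_natCard _
    rcases (Nat.dvd_prime hq).1 h2 with h4 | h4
    · exact (QuotientGroup.eq_one_iff x).1 (orderOf_eq_one_iff.1 h4)
    · exfalso
      rw [h4] at h3
      exact hqMi h3
  constructor
  · rintro ⟨g, x, hxo, hgx⟩
    -- the element is in `A`
    have hxA : x ∈ A := by
      have h1 : (x : G ⧸ A) ^ q = 1 := by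
        rw [← QuotientGroup.mk_pow, ← hxo, pow_orderOf_eq_one]
        rfl
      have h2 : orderOf (x : G ⧸ A) ∣ q := orderOf_dvd_of_pow_eq_one h1
      have h3 : orderOf (x : G ⧸ A) ∣ A.index := orderOf_dvd_natCard _
      rcases (Nat.dvd_prime hq).1 h2 with h4 | h4
      · exact (QuotientGroup.eq_one_iff x).1 (orderOf_eq_one_iff.1 h4)
      · exfalso
        rw [h4, hA.index] at h3
        exact hq2 ((Nat.prime_dvd_prime_iff_eq hq Nat.prime_two).1 (hq.dvd_of_dvd_pow h3))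
    obtain ⟨t, rfl⟩ : ∃ t : A, (t : G) = x := ⟨⟨x, hxA⟩, rfl⟩
    have hto : orderOf t = q := by rw [← hxo, Subgroup.orderOf_coe]
    have htq := hpowq t hto
    have htM := hinM t htq
    obtain ⟨⟨T, c, r, h⟩, hMt⟩ := exists_FD hq hqqA hqA L M hLM hqL hidx hcen htM htq
      (hnotL t hto)
    have hm := h.odd_index M hLM htM hA.noIdx2
    obtain ⟨n1, n2⟩ := AqT_numbers L h hq
    obtain ⟨r1, r2, r3⟩ := AqT_rel L h
    -- the quotient
    obtain ⟨Y, hY⟩ : ∃ Y : Subgroup G, Y = L.map A.subtype := ⟨_, rfl⟩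
    have hYn : Y.Normal := by
      rw [hY]
      infer_instance
    have hYm : ∀ y : A, (y : G) ∈ Y ↔ y ∈ L := by
      intro y
      rw [hY, Subgroup.mem_map]
      constructor
      · rintro ⟨z, hz, hzy⟩
        have h1 : z = y := Subtype.ext hzy
        rwa [h1] at hz
      · exact fun hy => ⟨y, hy, rfl⟩
    obtain ⟨κ, hκ⟩ : ∃ κ : G ⧸ Y →* MulAut (AqT_V L), ∀ u : G, κ (u : G ⧸ Y) = AqT_act L u := by
      refine ⟨QuotientGroup.lift Y (AqT_act L) ?_, fun u => rfl⟩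
      intro u hu
      rw [hY] at hu
      obtain ⟨y, hy, rfl⟩ := hu
      exact AqT_act_mem L ⟨y, hy⟩
    have q1 : ((t : G) : G ⧸ Y) ^ q = 1 := by
      rw [← QuotientGroup.mk_pow, ← Subgroup.coe_pow, htq]
      rfl
    have q2 : ((c : G) : G ⧸ Y) * ((t : G) : G ⧸ Y) * ((c : G) : G ⧸ Y)⁻¹ =
        ((t : G) : G ⧸ Y) ^ r := by
      have h1 : ((((t ^ r)⁻¹ * (c * t * c⁻¹) : A) : G) : G ⧸ Y) = 1 :=
        (QuotientGroup.eq_one_iff _).2 ((hYm _).2 h.ct)
      have h2 : (((t : G) : G ⧸ Y) ^ r)⁻¹ *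
          (((c : G) : G ⧸ Y) * ((t : G) : G ⧸ Y) * ((c : G) : G ⧸ Y)⁻¹) = 1 := h1
      exact (inv_mul_eq_one.1 h2).symm
    have q3 : (g : G ⧸ Y) * ((t : G) : G ⧸ Y) * (g : G ⧸ Y)⁻¹ = ((t : G) : G ⧸ Y)⁻¹ := by
      have h1 : ((g * (t : G) * g⁻¹ : G) : G ⧸ Y) = (((t : G)⁻¹ : G) : G ⧸ Y) := by rw [hgx]
      exact h1
    -- the conjugate of `c`
    obtain ⟨c', hc'⟩ : ∃ c' : A, c' = MulAut.conjNormal g c := ⟨_, rfl⟩
    have hc'G : (c' : G) = g * c * g⁻¹ := by
      rw [hc', MulAut.conjNormal_apply]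
    have q5 : (g : G ⧸ Y)⁻¹ * ((t : G) : G ⧸ Y) * (g : G ⧸ Y) = ((t : G) : G ⧸ Y)⁻¹ := by
      have h1 : ((t : G) : G ⧸ Y) =
          (g : G ⧸ Y) * ((t : G) : G ⧸ Y)⁻¹ * (g : G ⧸ Y)⁻¹ := by
        rw [← conj_inv, q3, inv_inv]
      calc (g : G ⧸ Y)⁻¹ * ((t : G) : G ⧸ Y) * (g : G ⧸ Y)
          = (g : G ⧸ Y)⁻¹ * ((g : G ⧸ Y) * ((t : G) : G ⧸ Y)⁻¹ * (g : G ⧸ Y)⁻¹) *
              (g : G ⧸ Y) := by rw [← h1]
        _ = ((t : G) : G ⧸ Y)⁻¹ := by group
    have q6 : ((c' : G) : G ⧸ Y) * ((t : G) : G ⧸ Y) * ((c' : G) : G ⧸ Y)⁻¹ =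
        ((t : G) : G ⧸ Y) ^ r := by
      have h1 : ((c' : G) : G ⧸ Y) = (g : G ⧸ Y) * ((c : G) : G ⧸ Y) * (g : G ⧸ Y)⁻¹ := by
        rw [hc'G]
        rfl
      calc ((c' : G) : G ⧸ Y) * ((t : G) : G ⧸ Y) * ((c' : G) : G ⧸ Y)⁻¹
          = (g : G ⧸ Y) * (((c : G) : G ⧸ Y) * ((g : G ⧸ Y)⁻¹ * ((t : G) : G ⧸ Y) * (g : G ⧸ Y)) *
              ((c : G) : G ⧸ Y)⁻¹) * (g : G ⧸ Y)⁻¹ := by rw [h1]; group
        _ = (g : G ⧸ Y) * (((c : G) : G ⧸ Y) * ((t : G) : G ⧸ Y) * ((c : G) : G ⧸ Y)⁻¹)⁻¹ *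
              (g : G ⧸ Y)⁻¹ := by rw [q5]; group
        _ = ((g : G ⧸ Y) * ((t : G) : G ⧸ Y) * (g : G ⧸ Y)⁻¹)⁻¹ ^ r := by
            rw [q2, ← inv_pow, ← conj_pow, conj_inv]
        _ = ((t : G) : G ⧸ Y) ^ r := by rw [q3, inv_inv]
    have huM : c⁻¹ * c' ∈ M := by
      refine hcen _ fun x hx => ?_
      obtain ⟨i, hi⟩ := hMt x hx
      rw [← hYm, ← QuotientGroup.eq_one_iff]
      have h1 : ((x : G) : G ⧸ Y) = ((t : G) : G ⧸ Y) ^ i := by
        have h2 : ((((t ^ i)⁻¹ * x : A) : G) : G ⧸ Y) = 1 :=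
          (QuotientGroup.eq_one_iff _).2 ((hYm _).2 hi)
        have h3 : (((t : G) : G ⧸ Y) ^ i)⁻¹ * ((x : G) : G ⧸ Y) = 1 := h2
        exact (inv_mul_eq_one.1 h3).symm
      have h2 : ((((c⁻¹ * c') * x * (c⁻¹ * c')⁻¹ * x⁻¹ : A) : G) : G ⧸ Y) =
          (((c : G) : G ⧸ Y)⁻¹ * ((c' : G) : G ⧸ Y)) * ((x : G) : G ⧸ Y) *
            (((c : G) : G ⧸ Y)⁻¹ * ((c' : G) : G ⧸ Y))⁻¹ * ((x : G) : G ⧸ Y)⁻¹ := rfl
      rw [h2, mul_inv_eq_one, h1, ← conj_pow]
      congr 1
      calc (((c : G) : G ⧸ Y)⁻¹ * ((c' : G) : G ⧸ Y)) * ((t : G) : G ⧸ Y) *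
            (((c : G) : G ⧸ Y)⁻¹ * ((c' : G) : G ⧸ Y))⁻¹
          = ((c : G) : G ⧸ Y)⁻¹ * (((c' : G) : G ⧸ Y) * ((t : G) : G ⧸ Y) *
              ((c' : G) : G ⧸ Y)⁻¹) * ((c : G) : G ⧸ Y) := by group
        _ = ((c : G) : G ⧸ Y)⁻¹ * (((c : G) : G ⧸ Y) * ((t : G) : G ⧸ Y) *
              ((c : G) : G ⧸ Y)⁻¹) * ((c : G) : G ⧸ Y) := by rw [q6, q2]
        _ = ((t : G) : G ⧸ Y) := by group
    obtain ⟨b, hb⟩ := hMt _ huM
    have q4 : ((c : G) : G ⧸ Y)⁻¹ * ((g : G ⧸ Y) * ((c : G) : G ⧸ Y) * (g : G ⧸ Y)⁻¹) =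
        ((t : G) : G ⧸ Y) ^ b := by
      have h2 : ((((t ^ b)⁻¹ * (c⁻¹ * c') : A) : G) : G ⧸ Y) = 1 :=
        (QuotientGroup.eq_one_iff _).2 ((hYm _).2 hb)
      have h3 : (((t : G) : G ⧸ Y) ^ b)⁻¹ *
          (((c : G) : G ⧸ Y)⁻¹ * ((c' : G) : G ⧸ Y)) = 1 := h2
      have h4 : ((c' : G) : G ⧸ Y) = (g : G ⧸ Y) * ((c : G) : G ⧸ Y) * (g : G ⧸ Y)⁻¹ := by
        rw [hc'G]
        rfl
      rw [← h4]
      exact (inv_mul_eq_one.1 h3).symm
    obtain ⟨s, hs1, hs2⟩ := AqT_s hq q1 q2 h.ord h.m1 q3 q4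
    -- the 2-part
    have hsf : 0 < orderOf (κ s) := by
      obtain ⟨s', rfl⟩ := QuotientGroup.mk_surjective s
      rw [hκ]
      exact orderOf_pos_iff.2 (MonoidHom.isOfFinOrder (AqT_act L) (isOfFinOrder_of_finite s'))
    obtain ⟨k, n, hn, hkn⟩ := Nat.exists_eq_two_pow_mul_odd hsf.ne'
    have e1 : (κ s ^ n) ^ 2 ^ k = 1 := by
      rw [← pow_mul, mul_comm, ← hkn, pow_orderOf_eq_one]
    have e2 : κ s * AqT_act L (c : G) = AqT_act L (c : G) * κ s := by
      rw [← hκ, ← map_mul, ← map_mul, hs1]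
    have e3 : κ s * AqT_act L (t : G) * (κ s)⁻¹ = (AqT_act L (t : G))⁻¹ := by
      rw [← hκ, ← map_inv, ← map_inv, ← map_mul, ← map_mul, hs2]
    have e4 : κ s ^ n * AqT_act L (c : G) = AqT_act L (c : G) * κ s ^ n := by
      have h1 : Commute (κ s) (AqT_act L (c : G)) := e2
      exact (h1.pow_left n).eq
    have h5 := frob_mod (κ s ^ n) (AqT_act L (t : G)) (AqT_act L (c : G)) hq hq2 r1 r2 r3
      (AqT_odd e3 hn) e4 e1 hm h.ord hqV
    rcases h5 with h5 | h5
    · right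
      rw [n1]
      obtain ⟨y, hy⟩ := h5
      rw [hy, ← mul_assoc, mul_comm M.index 4, mul_assoc]
      exact Nat.mul_mod_right 4 _
    · left
      have h6 := h5.mul_left M.index
      rw [← n1, ← n2] at h6
      have h7 : N A q + (commutator A).index ≡ 0 + (commutator A).index [MOD 4] := by
        rw [zero_add]
        exact h6
      exact Nat.ModEq.add_right_cancel' _ h7
  · intro heq
    have hqM : q ∣ Nat.card M := by
      have h1 := M.card_mul_index
      rw [hcard, ← mul_assoc] at h1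
      have h2 := Nat.eq_of_mul_eq_mul_right
        (Nat.pos_of_ne_zero Subgroup.index_ne_zero_of_finite) h1
      rw [h2]
      exact Dvd.intro_left _ rfl
    obtain ⟨⟨t, htM⟩, hto'⟩ := exists_prime_orderOf_dvd_card' (G := M) q hqM
    have hto : orderOf t = q := (Subgroup.orderOf_mk t htM).symm.trans hto'
    have htq := hpowq t hto
    obtain ⟨⟨T, c, r, h⟩, -⟩ := exists_FD hq hqqA hqA L M hLM hqL hidx hcen htM htq
      (hnotL t hto)
    have hm := h.odd_index M hLM htM hA.noIdx2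
    obtain ⟨n1, n2⟩ := AqT_numbers L h hq
    obtain ⟨r1, r2, r3⟩ := AqT_rel L h
    obtain ⟨w, hw1, hw2⟩ := frob_two (AqT_act L (t : G)) (AqT_act L (c : G)) hq r1 r2 r3 hm.pos
      h.ord hqV
    refine ⟨M.index, hm, (Subgroup.index_dvd_card M).trans hcA, hw2 ?_⟩
    rw [hw1, ← mul_assoc, ← n2] at n1
    obtain ⟨y, hy⟩ := hodd
    obtain ⟨i, hi⟩ : ∃ i, i = (commutator A).index := ⟨_, rfl⟩
    rw [← hi] at n1 heq hy
    have h6 : (N A q + i) % 4 = (i + i) % 4 := by omega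
    rw [n1] at h6
    have h7 : i * w % 4 = (i % 4) * (w % 4) % 4 := Nat.mul_mod i w 4
    have h8 : w % 4 < 4 := Nat.mod_lt _ (by norm_num)
    have h9 : i % 4 = 1 ∨ i % 4 = 3 := by omega
    obtain ⟨z, hz⟩ : ∃ z, z = w % 4 := ⟨_, rfl⟩
    rw [← hz] at h7 h8 ⊢
    rcases h9 with h9 | h9 <;> rw [h9] at h7 <;> interval_cases z <;> omega

end Pool.Agent.CGSR
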