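import Pool.Agent.CGSR.Scal

/-!
# The number of classes of degree three on the side of the group which may be insoluble

`X` has no subgroup of index two, `3` does not divide `|X : X'|`, `9` does not divide `|X|` and `X`
has an irreducible representation of degree two.  Then the number of classes of degree three is
`2 |X : X'|`.
-/

set_option autoImplicit false

namespace Pool.Agent.CGSR

open Matrix Pool.Agent.CGS

private theorem sim_twist {G : Type} [Group G] {d : ℕ} (χ : G →* ℂˣ) {ρ σ : Rep G d}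
    (h : Sim ρ σ) : Sim (twist χ ρ) (twist χ σ) := by
  obtain ⟨P, hP⟩ := h
  refine ⟨P, fun g => ?_⟩
  rw [mat_twist, mat_twist, mul_smul_comm, smul_mul_assoc, hP g]

private theorem isIrr_twist {G : Type} [Group G] {d : ℕ} (χ : G →* ℂˣ) {ρ : Rep G d}
    (h : IsIrr ρ) : IsIrr (twist χ ρ) := by
  refine ⟨h.pos, ?_⟩
  rw [eq_top_iff, ← h.span, Submodule.span_le]
  rintro _ ⟨g, rfl⟩
  have e1 : mat ρ g = ((χ g)⁻¹ : ℂˣ) • mat (twist χ ρ) g := by
    rw [mat_twist, Units.smul_def, smul_smul, ← Units.val_mul, inv_mul_cancel, Units.val_one,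
      one_smul]
  rw [e1, Units.smul_def]
  exact Submodule.smul_mem _ _ (Submodule.subset_span ⟨g, rfl⟩)

/-- the twist of a class -/
private def twC {G : Type} [Group G] {d : ℕ} (χ : G →* ℂˣ) : Cls G d → Cls G d :=
  clsMap (twist χ) (fun _ h => isIrr_twist χ h) (fun _ _ h => sim_twist χ h)

private theorem twC_mk {G : Type} [Group G] {d : ℕ} (χ : G →* ℂˣ) (ρ : Rep G d) (h : IsIrr ρ) :
    twC χ (mk ρ h) = mk (twist χ ρ) (isIrr_twist χ h) := rfl

private theorem twC_inv {G : Type} [Group G] {d : ℕ} (χ ψ : G →* ℂˣ)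
    (hχ : ∀ g, χ g * ψ g = 1) (c : Cls G d) : twC χ (twC ψ c) = c := by
  refine cls_ind (q := fun c => twC χ (twC ψ c) = c) (fun ρ h => ?_) c
  rw [twC_mk, twC_mk, mk_eq]
  have h1 : twist χ (twist ψ ρ) = ρ := by
    refine rep_ext fun g => ?_
    rw [mat_twist, mat_twist, smul_smul, ← Units.val_mul, hχ, Units.val_one, one_smul]
  rw [h1]
  exact Sim.refl ρ

private theorem twC_injective {G : Type} [Group G] {d : ℕ} (χ : G →* ℂˣ) :
    Function.Injective (twC (d := d) χ) := by
  intro c c' h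
  have h0 : ∀ g, χ⁻¹ g * χ g = 1 := fun g => inv_mul_cancel (χ g)
  rw [← twC_inv χ⁻¹ χ h0 c, ← twC_inv χ⁻¹ χ h0 c', h]

private theorem detH_sim {G : Type} [Group G] {d : ℕ} {ρ σ : Rep G d} (h : Sim ρ σ) :
    Matrix.GeneralLinearGroup.det.comp ρ = Matrix.GeneralLinearGroup.det.comp σ := by
  refine MonoidHom.ext fun g => Units.ext ?_
  exact det_sim h g

/-- the determinant of a class -/
private noncomputable def detC {G : Type} [Group G] {d : ℕ} (c : Cls G d) : G →* ℂˣ :=
  Quotient.lift (s := irrSetoid G d) (fun ρ => Matrix.GeneralLinearGroup.det.comp ρ.1)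
    (fun _ _ h => detH_sim h) c

private theorem detC_mk {G : Type} [Group G] {d : ℕ} (ρ : Rep G d) (h : IsIrr ρ) (g : G) :
    ((detC (mk ρ h) g : ℂˣ) : ℂ) = (mat ρ g).det := rfl

private theorem detC_twC {G : Type} [Group G] {d : ℕ} (χ : G →* ℂˣ) (c : Cls G d) (g : G) :
    detC (twC χ c) g = χ g ^ d * detC c g := by
  refine cls_ind (q := fun c => detC (twC χ c) g = χ g ^ d * detC c g) (fun ρ h => ?_) c
  refine Units.ext ?_
  rw [twC_mk, detC_mk, mat_twist, Matrix.det_smul, Fintype.card_fin, Units.val_mul, detC_mk,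
    Units.val_pow_eq_pow_val]

private theorem detC_ker {G : Type} [Group G] {d : ℕ} (c : Cls G d) :
    ∀ g ∈ kerC c, detC c g = 1 := by
  refine cls_ind (q := fun c => ∀ g ∈ kerC c, detC c g = 1) (fun ρ h g hg => ?_) c
  rw [kerC_mk, mem_ker_iff] at hg
  refine Units.ext ?_
  rw [detC_mk, hg, Matrix.det_one, Units.val_one]

/-- the number of classes of degree three of `X` and of `X ⧸ N₀` -/
theorem N_three_of_quotient {X : Type} [Group X] [Finite X] (hX : NoIdx2 X)
    (h3 : ¬ 3 ∣ (commutator X).index) (N₀ : Subgroup X) [N₀.Normal] (hN : ¬ 3 ∣ Nat.card N₀)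
    (h1 : N (X ⧸ N₀) 1 = 1) : N X 3 = (commutator X).index * N (X ⧸ N₀) 3 := by
  obtain ⟨e, he, -, hker, hex⟩ := exists_infl N₀ 3
  have hcard : Nat.card (X →* ℂˣ) = (commutator X).index := card_hom X
  have hfin : Finite (X →* ℂˣ) := Nat.finite_of_card_ne_zero (by
    rw [hcard]
    exact Subgroup.index_ne_zero_of_finite)
  have hcop : (Nat.card (X →* ℂˣ)).Coprime 3 := by
    rw [hcard, Nat.coprime_comm]
    exact (Nat.Prime.coprime_iff_not_dvd Nat.prime_three).2 h3
  -- characters of `X` trivial on `N₀`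
  have htriv : ∀ χ : X →* ℂˣ, (∀ n ∈ N₀, χ n = 1) → χ = 1 := by
    intro χ hχ
    have h2 : Nat.card ((X ⧸ N₀) →* ℂˣ) = 1 := by
      rw [card_hom, ← N_one, h1]
    obtain ⟨h4, -⟩ := Nat.card_eq_one_iff_unique.1 h2
    have h5 : QuotientGroup.lift N₀ χ (fun x hx => MonoidHom.mem_ker.1 (hχ x hx)) = 1 :=
      Subsingleton.elim _ _
    refine MonoidHom.ext fun x => ?_
    exact DFunLike.congr_fun h5 (x : X ⧸ N₀)
  have hle : ∀ c, N₀ ≤ kerC (e c) := by
    intro c x hx
    rw [hker, Subgroup.mem_comap, QuotientGroup.mk'_apply, (QuotientGroup.eq_one_iff x).2 hx]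
    exact one_mem _
  have hdet : ∀ c, detC (e c) = 1 := fun c => htriv _ fun n hn => detC_ker (e c) n (hle c hn)
  let F : (X →* ℂˣ) × Cls (X ⧸ N₀) 3 → Cls X 3 := fun p => twC p.1 (e p.2)
  have hF : Function.Bijective F := by
    constructor
    · rintro ⟨χ, c⟩ ⟨χ', c'⟩ h
      have h2 : twC χ (e c) = twC χ' (e c') := h
      have h4 : ∀ g, χ g ^ 3 = χ' g ^ 3 := by
        intro g
        have h5 := congrArg (fun c => detC c g) h2
        simp only [detC_twC, hdet] at h5
        exact (mul_left_injective _) h5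
      have h5 : χ = χ' := (powCoprime hcop).injective (MonoidHom.ext fun g => h4 g)
      subst h5
      have h6 := he (twC_injective χ h2)
      rw [h6]
    · intro c
      refine cls_ind (q := fun c => ∃ p, F p = c) (fun ρ hρ => ?_) c
      obtain ⟨l, hl⟩ := scalar_of hX h3 N₀ hN hρ
      obtain ⟨k, j, hk⟩ : ∃ k j, 3 * k = 1 + j * Nat.card N₀ := by
        have h2 : Nat.card N₀ % 3 = 1 ∨ Nat.card N₀ % 3 = 2 := by omega
        rcases h2 with h2 | h2
        · exact ⟨(1 + 2 * Nat.card N₀) / 3, 2, by omega⟩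
        · exact ⟨(1 + 1 * Nat.card N₀) / 3, 1, by omega⟩
      obtain ⟨μ, hμ⟩ : ∃ μ : X →* ℂˣ, μ = (detC (mk ρ hρ)) ^ k := ⟨_, rfl⟩
      have hμn : ∀ n : N₀, μ (n : X) = l n := by
        intro n
        have h2 : detC (mk ρ hρ) (n : X) = l n ^ 3 := by
          refine Units.ext ?_
          rw [detC_mk, hl n, Matrix.det_smul, Matrix.det_one, Fintype.card_fin, mul_one,
            Units.val_pow_eq_pow_val]
        have h4 : μ (n : X) = (detC (mk ρ hρ) (n : X)) ^ k := by
          rw [hμ]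
          rfl
        rw [h4, h2, ← pow_mul, hk, pow_add, pow_one, mul_comm j, pow_mul, ← map_pow,
          pow_card_eq_one', map_one, one_pow, mul_one]
      have h0 : ∀ g, μ g * μ⁻¹ g = 1 := fun g => mul_inv_cancel (μ g)
      have hker2 : N₀ ≤ kerC (twC μ⁻¹ (mk ρ hρ)) := by
        intro n hn
        rw [twC_mk, kerC_mk, mem_ker_iff, mat_twist, hl ⟨n, hn⟩, smul_smul, ← Units.val_mul,
          ← hμn ⟨n, hn⟩]
        have h2 : μ⁻¹ n * μ n = 1 := inv_mul_cancel (μ n)
        rw [h2, Units.val_one, one_smul]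
      obtain ⟨c', hc'⟩ := hex _ hker2
      refine ⟨(μ, c'), ?_⟩
      change twC μ (e c') = _
      rw [hc', twC_inv μ μ⁻¹ h0]
  have h2 := Nat.card_congr (Equiv.ofBijective F hF)
  rw [Nat.card_prod, hcard] at h2
  exact h2.symm

/-- the number of classes of degree three of a group with an irreducible representation of degree
two and without normal subgroups of index three -/
theorem N_three_eq {X : Type} [Group X] [Finite X] (hX : NoIdx2 X) (h9 : ¬ 9 ∣ Nat.card X)
    (h3 : ¬ 3 ∣ (commutator X).index) (h2 : N X 2 ≠ 0) : N X 3 = (commutator X).index * 2 := by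
  obtain ⟨c, hc⟩ := exists_selfDual hX h2
  have h60 : (kerC c).index = 60 := by
    rcases kernel_index hX c hc with h | h | h
    · exact absurd (three_dvd_of_kernel hX (kerC c) (Or.inl h)) h3
    · exact absurd (three_dvd_of_kernel hX (kerC c) (Or.inr h)) h3
    · exact h
  obtain ⟨e3, e1⟩ := sixty hX c hc h60
  rw [N_three_of_quotient hX h3 (kerC c) (fun h => h9 ?_) e1, e3]
  obtain ⟨m, hm⟩ := h
  have h4 := (kerC c).card_mul_index
  rw [h60, hm] at h4
  exact ⟨m * 20, by rw [← h4]; ring⟩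

theorem N_three_mod {X : Type} [Group X] [Finite X] (hX : NoIdx2 X) (h9 : ¬ 9 ∣ Nat.card X)
    (h3 : ¬ 3 ∣ (commutator X).index) (h2 : N X 2 ≠ 0) : N X 3 % 4 = 2 := by
  rw [N_three_eq hX h9 h3 h2]
  obtain ⟨m, hm⟩ := hX.odd_index_commutator
  rw [hm]
  omega

end Pool.Agent.CGSR
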