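import Pool.Agent.CGSR.VGen

/-!
# Soluble groups whose order is divisible by a prime exactly once

`exists_core`: such a group `K` has characteristic subgroups `L ≤ M`, where `L` has order prime to
`q`, `M / L` has order `q`, and the elements which act trivially on `M / L` are those of `M`.
-/

set_option autoImplicit false

namespace Pool.Agent.CGSR

open Pool.Agent.CGS
open scoped commutatorElement

/-- a nontrivial characteristic subgroup with commuting elements -/
private theorem CoreT_ab {K : Type} [Group K] (hs : Group.IsSolvable K) (hK : Nontrivial K) :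
    ∃ A : Subgroup K, A.Characteristic ∧ A ≠ ⊥ ∧ ∀ x ∈ A, ∀ y ∈ A, x * y = y * x := by
  classical
  obtain ⟨n, hn⟩ := hs
  have hex : ∃ m, derivedSeries K m = ⊥ := ⟨n, hn⟩
  have h1 := Nat.find_spec hex
  have h0 : Nat.find hex ≠ 0 := by
    intro h
    rw [h, derivedSeries_zero] at h1
    exact absurd h1 top_ne_bot
  obtain ⟨m, hm⟩ := Nat.exists_eq_succ_of_ne_zero h0
  have h2 : derivedSeries K m ≠ ⊥ := Nat.find_min hex (by omega)
  refine ⟨derivedSeries K m, inferInstance, h2, fun x hx y hy => ?_⟩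
  rw [hm, Nat.succ_eq_add_one, derivedSeries_succ] at h1
  have h3 : ⁅x, y⁆ ∈ (⊥ : Subgroup K) := by
    rw [← h1]
    exact Subgroup.commutator_mem_commutator hx hy
  rw [Subgroup.mem_bot, commutatorElement_eq_one_iff_mul_comm] at h3
  exact h3

/-- the case without characteristic subgroups of order prime to `q` -/
private theorem CoreT_aux {Q : Type} [Group Q] [Finite Q] (hs : Group.IsSolvable Q) {q : ℕ}
    (hq : q.Prime) (hqQ : q ∣ Nat.card Q) (hqq : ¬ q ^ 2 ∣ Nat.card Q)
    (hR : ∀ R : Subgroup Q, R.Characteristic → ¬ q ∣ Nat.card R → R = ⊥) :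
    ∃ V : Subgroup Q, V.Characteristic ∧ Nat.card V = q ∧
      ∀ g, (∀ x ∈ V, g * x * g⁻¹ = x) → g ∈ V := by
  have : Fact q.Prime := ⟨hq⟩
  have hnt : Nontrivial Q := by
    rw [← Finite.one_lt_card_iff_nontrivial]
    exact lt_of_lt_of_le hq.one_lt (Nat.le_of_dvd Nat.card_pos hqQ)
  obtain ⟨V, hV, hVb, hcomm⟩ := CoreT_ab hs hnt
  have hqV : q ∣ Nat.card V := by
    by_contra h
    exact hVb (hR V hV h)
  obtain ⟨k, hk⟩ := hqV
  have hqk : ¬ q ∣ k := by
    intro h
    apply hqq
    refine Dvd.dvd.trans ?_ (Subgroup.card_subgroup_dvd_card V)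
    rw [hk, pow_two]
    exact Nat.mul_dvd_mul_left q h
  -- the elements of order prime to `q` of `V`
  let R : Subgroup Q :=
    { carrier := {x | x ∈ V ∧ x ^ k = 1}
      mul_mem' := by
        rintro x y ⟨hx, hx'⟩ ⟨hy, hy'⟩
        refine ⟨V.mul_mem hx hy, ?_⟩
        have h1 : Commute x y := hcomm x hx y hy
        rw [h1.mul_pow, hx', hy', one_mul]
      one_mem' := ⟨V.one_mem, one_pow k⟩
      inv_mem' := by
        rintro x ⟨hx, hx'⟩
        refine ⟨V.inv_mem hx, ?_⟩
        rw [inv_pow, hx', inv_one] }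
  have hRc : R.Characteristic := by
    rw [Subgroup.characteristic_iff_le_comap]
    rintro φ x ⟨hx, hx'⟩
    refine ⟨(Subgroup.characteristic_iff_le_comap.1 hV) φ hx, ?_⟩
    change (φ x) ^ k = 1
    rw [← map_pow, hx', map_one]
  have hRb : R = ⊥ := by
    refine hR R hRc fun h => ?_
    obtain ⟨x, hx⟩ := exists_prime_orderOf_dvd_card' (G := R) q h
    have h1 : x ^ k = 1 := Subtype.ext x.2.2
    have h2 := orderOf_dvd_of_pow_eq_one h1
    rw [hx] at h2
    exact hqk h2
  have hVp : IsPGroup q V := by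
    intro x
    refine ⟨1, ?_⟩
    rw [pow_one]
    have h1 : ((x : Q) ^ q) ∈ R := by
      refine ⟨V.pow_mem x.2 q, ?_⟩
      have h2 : x ^ Nat.card V = 1 := pow_card_eq_one'
      rw [hk, pow_mul] at h2
      exact congrArg Subtype.val h2
    rw [hRb, Subgroup.mem_bot] at h1
    exact Subtype.ext h1
  have hVc : Nat.card V = q := card_of_pgroup hq hqq V hVb hVp
  refine ⟨V, hV, hVc, ?_⟩
  -- the centralizer
  obtain ⟨C, hC⟩ : ∃ C : Subgroup Q, C = Subgroup.centralizer (V : Set Q) := ⟨_, rfl⟩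
  have hCc : C.Characteristic := by
    rw [hC]
    infer_instance
  have hVC : V ≤ C := by
    rw [hC]
    intro x hx
    rw [Subgroup.mem_centralizer_iff]
    exact fun y hy => hcomm y hy x hx
  have hqC : ¬ q ^ 2 ∣ Nat.card C := fun h => hqq (h.trans (Subgroup.card_subgroup_dvd_card C))
  have hVn : V.Normal := inferInstance
  have h1 : q ∣ (commutator C).index := by
    refine dvd_index_of_central hq hqC (V.subgroupOf C) ?_ ?_
    · rw [← hVc]
      exact Nat.card_congr (Subgroup.subgroupOfEquivOfLe hVC).toEquiv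
    · intro g v hv
      rw [Subgroup.mem_subgroupOf] at hv
      have h2 : (g : Q) ∈ Subgroup.centralizer (V : Set Q) := by
        rw [← hC]
        exact g.2
      have h3 := (Subgroup.mem_centralizer_iff.1 h2) v hv
      apply Subtype.ext
      change (g : Q) * v * (g : Q)⁻¹ = v
      rw [← h3, mul_inv_cancel_right]
  obtain ⟨L', hL', hLi, hLc⟩ := exists_char hq h1 hqC
  have h2 : L'.map C.subtype = ⊥ := by
    refine hR _ inferInstance ?_
    rwa [Nat.card_congr (L'.equivMapOfInjective C.subtype C.subtype_injective).toEquiv.symm]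
  have h3 : Nat.card C = q := by
    have h4 : L' = ⊥ := (Subgroup.map_eq_bot_iff_of_injective L' C.subtype_injective).1 h2
    rw [← hLi, h4, Subgroup.index_bot]
  have h4 : V = C := by
    refine Subgroup.eq_of_le_of_card_ge hVC ?_
    rw [h3, hVc]
  intro g hg
  rw [h4, hC, Subgroup.mem_centralizer_iff]
  intro x hx
  have h5 := hg x hx
  rw [mul_inv_eq_iff_eq_mul] at h5
  exact h5.symm

theorem exists_core {K : Type} [Group K] [Finite K] (hs : Group.IsSolvable K) {q : ℕ}
    (hq : q.Prime) (hqK : q ∣ Nat.card K) (hqq : ¬ q ^ 2 ∣ Nat.card K) :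
    ∃ L M : Subgroup K, L.Characteristic ∧ M.Characteristic ∧ L ≤ M ∧ ¬ q ∣ Nat.card L ∧
      L.relIndex M = q ∧ ∀ g, (∀ x ∈ M, g * x * g⁻¹ * x⁻¹ ∈ L) → g ∈ M := by
  classical
  obtain ⟨L, ⟨hL, hqL⟩, hmax⟩ := Set.exists_max_image
    {L : Subgroup K | L.Characteristic ∧ ¬ q ∣ Nat.card L} (fun L => Nat.card L)
    (Set.toFinite _) ⟨⊥, inferInstance, by
      rw [Subgroup.card_bot]
      exact hq.one_lt.ne' ∘ Nat.dvd_one.1⟩
  have hc := Subgroup.card_mul_index L
  have hQ : Nat.card (K ⧸ L) = L.index := rfl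
  have hqQ : q ∣ Nat.card (K ⧸ L) := by
    rw [hQ]
    rw [← hc] at hqK
    exact (hq.dvd_mul.1 hqK).resolve_left hqL
  have hqqQ : ¬ q ^ 2 ∣ Nat.card (K ⧸ L) := by
    intro h
    apply hqq
    rw [← hc]
    exact Dvd.dvd.mul_left h _
  have hcomap : ∀ R : Subgroup (K ⧸ L),
      Nat.card (R.comap (QuotientGroup.mk' L)) = Nat.card L * Nat.card R := by
    intro R
    have h1 := Subgroup.card_mul_index (R.comap (QuotientGroup.mk' L))
    rw [Subgroup.index_comap_of_surjective _ (QuotientGroup.mk'_surjective L)] at h1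
    have h2 := Subgroup.card_mul_index R
    rw [hQ] at h2
    have h3 : 0 < R.index := Nat.pos_of_ne_zero Subgroup.index_ne_zero_of_finite
    apply Nat.eq_of_mul_eq_mul_right h3
    rw [h1, mul_assoc, h2, hc]
  obtain ⟨V, hV, hVc, hVg⟩ := CoreT_aux (Q := K ⧸ L) inferInstance hq hqQ hqqQ (by
    intro R hR hqR
    have h1 := hmax (R.comap (QuotientGroup.mk' L))
      ⟨Subgroup.Characteristic.comap_quotient_mk (H := L) hR, by
      rw [hcomap]
      intro h
      rcases hq.dvd_mul.1 h with h | h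
      · exact hqL h
      · exact hqR h⟩
    change Nat.card (R.comap (QuotientGroup.mk' L)) ≤ Nat.card L at h1
    rw [hcomap] at h1
    have h2 : Nat.card R ≤ 1 := by
      have h3 : 0 < Nat.card L := Nat.card_pos
      exact Nat.le_of_mul_le_mul_left (by rwa [mul_one]) h3
    exact Subgroup.card_eq_one.1 (le_antisymm h2 Nat.card_pos))
  have hLM : L ≤ V.comap (QuotientGroup.mk' L) := by
    intro x hx
    rw [Subgroup.mem_comap, QuotientGroup.mk'_apply, (QuotientGroup.eq_one_iff x).2 hx]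
    exact one_mem V
  refine ⟨L, V.comap (QuotientGroup.mk' L), hL,
    Subgroup.Characteristic.comap_quotient_mk (H := L) hV, hLM, hqL, ?_, ?_⟩
  · have h1 := Subgroup.card_mul_index (L.subgroupOf (V.comap (QuotientGroup.mk' L)))
    rw [Nat.card_congr (Subgroup.subgroupOfEquivOfLe hLM).toEquiv, hcomap, hVc] at h1
    exact Nat.eq_of_mul_eq_mul_left Nat.card_pos h1
  · intro g hg
    rw [Subgroup.mem_comap]
    refine hVg _ fun x hx => ?_
    obtain ⟨x, rfl⟩ := QuotientGroup.mk_surjective x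
    have h1 := hg x hx
    rw [← QuotientGroup.eq_one_iff] at h1
    have h2 : (g : K ⧸ L) * x * (g : K ⧸ L)⁻¹ * (x : K ⧸ L)⁻¹ = 1 := h1
    exact mul_inv_eq_one.1 h2

end Pool.Agent.CGSR
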