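import Pool.Agent.CGSR.RepT

/-!
# Irreducible representations of degree `q` of a group with a Frobenius quotient of order `q m`

`FD L T t c q m r`: `L` is a normal subgroup of order prime to `q` of the group `K`, `K / L` is the
product of the group of order `q` generated by `t` and of the cyclic group `T / L` of order `m > 1`
generated by `c`, which acts faithfully on it.  The classes of degree `q` of `K` are in bijection
with the linear characters of `T` whose restriction to `L` is not fixed by `t` (`mono_card`).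
-/

set_option autoImplicit false

namespace Pool.Agent.CGSR

open Matrix Pool.Agent.CGS

/-- the quotient by `L` is a Frobenius group of order `q m` with complement `T / L` -/
structure FD {K : Type} [Group K] (L T : Subgroup K) (t c : K) (q m r : ℕ) : Prop where
  nL : L.Normal
  qL : ¬ q ∣ Nat.card L
  tq : t ^ q = 1
  tT : t ∉ T
  LT : L ≤ T
  cT : c ∈ T
  memT : ∀ x ∈ T, ∃ j : ℕ, ∃ n ∈ L, x = c ^ j * n
  cm : ∀ j : ℕ, c ^ j ∈ L ↔ m ∣ j
  ct : (t ^ r)⁻¹ * (c * t * c⁻¹) ∈ L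
  gen : ∀ g : K, ∃ i : ℕ, ∃ x ∈ T, g = t ^ i * x
  ord : orderOf (r : ZMod q) = m
  m1 : 1 < m

/-- a power of `t` in a subgroup which does not contain `t` -/
theorem pow_mem_iff {Q : Type} [Group Q] {q : ℕ} (hq : q.Prime) {t : Q} (ht : t ^ q = 1)
    {S : Subgroup Q} (hS : t ∉ S) (i : ℕ) : t ^ i ∈ S ↔ q ∣ i := by
  constructor
  · intro h
    by_contra hqi
    apply hS
    obtain ⟨k, -, hk⟩ := Nat.exists_mul_mod_eq_one_of_coprime
      (((Nat.Prime.coprime_iff_not_dvd hq).2 hqi).symm) hq.one_lt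
    have h1 := S.pow_mem h k
    rwa [← pow_mul, ← Nat.div_add_mod (i * k) q, hk, pow_add, pow_mul, ht, one_pow, pow_one,
      one_mul] at h1
  · rintro ⟨j, rfl⟩
    rw [pow_mul, ht, one_pow]
    exact one_mem S

theorem pow_eq_of_modEq {Q : Type} [Group Q] {q : ℕ} {t : Q} (ht : t ^ q = 1) {a b : ℕ}
    (h : a ≡ b [MOD q]) : t ^ a = t ^ b := by
  rw [← Nat.div_add_mod a q, ← Nat.div_add_mod b q, pow_add, pow_add, pow_mul, pow_mul, ht,
    one_pow, one_pow, h]

private theorem MonoT_conj {Q : Type} [Group Q] {t c : Q} {r : ℕ} (hct : c * t * c⁻¹ = t ^ r)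
    (i : ℕ) : c * t ^ i = t ^ (r * i) * c := by
  rw [← mul_inv_eq_iff_eq_mul, ← conj_pow, hct, pow_mul]

/-- a conjugate of `c` in a subgroup which contains `t⁻ᵇ c` -/
theorem exists_conj_mem {Q : Type} [Group Q] {q m r : ℕ} (hq : q.Prime) {t c : Q}
    (ht : t ^ q = 1) (hct : c * t * c⁻¹ = t ^ r) (hr : orderOf (r : ZMod q) = m) (hm : 1 < m)
    {S : Subgroup Q} {b : ℕ} (hb : (t ^ b)⁻¹ * c ∈ S) : ∃ i, (t ^ i)⁻¹ * c * t ^ i ∈ S := by
  have : Fact q.Prime := ⟨hq⟩
  have hr1 : (1 - (r : ZMod q)) ≠ 0 := by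
    intro h
    rw [← sub_eq_zero.1 h, orderOf_one] at hr
    omega
  obtain ⟨i, hi⟩ : ∃ i : ℕ, (i : ZMod q) = b / (1 - (r : ZMod q)) :=
    ⟨_, ZMod.natCast_zmod_val _⟩
  have h1 : b + r * i ≡ i [MOD q] := by
    rw [← ZMod.natCast_eq_natCast_iff]
    push_cast
    have h2 : (i : ZMod q) * (1 - r) = b := by rw [hi, div_mul_cancel₀ _ hr1]
    rw [← h2]
    ring
  refine ⟨i, ?_⟩
  have h2 : (t ^ i)⁻¹ * c * t ^ i = (t ^ b)⁻¹ * c := by
    rw [mul_assoc, MonoT_conj hct, inv_mul_eq_iff_eq_mul, ← pow_eq_of_modEq ht h1, pow_add]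
    have h3 : t ^ b * t ^ (r * i) = t ^ (r * i) * t ^ b := by
      rw [← pow_add, ← pow_add, add_comm]
    rw [h3]
    group
  rw [h2]
  exact hb

/-- only one conjugate of a subgroup by powers of `t` contains `c` -/
theorem dvd_of_conj_mem {Q : Type} [Group Q] {q m r : ℕ} (hq : q.Prime) {t c : Q}
    (ht : t ^ q = 1) (hct : c * t * c⁻¹ = t ^ r) (hr : orderOf (r : ZMod q) = m) (hm : 1 < m)
    {S : Subgroup Q} (hS : t ∉ S) (hc : c ∈ S) {i : ℕ} (hi : (t ^ i)⁻¹ * c * t ^ i ∈ S) :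
    q ∣ i := by
  have : Fact q.Prime := ⟨hq⟩
  have h1 : (t ^ i)⁻¹ * t ^ (r * i) ∈ S := by
    rw [mul_assoc, MonoT_conj hct, ← mul_assoc] at hi
    have h2 := S.mul_mem hi (S.inv_mem hc)
    rwa [mul_inv_cancel_right] at h2
  have h2 : (t ^ i)⁻¹ * t ^ (r * i) = t ^ ((q - 1) * i + r * i) := by
    rw [inv_mul_eq_iff_eq_mul, ← pow_add]
    apply pow_eq_of_modEq ht
    have h3 : i + ((q - 1) * i + r * i) = q * i + r * i := by
      obtain ⟨j, hj⟩ : ∃ j, q = j + 1 := ⟨q - 1, by have := hq.pos; omega⟩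
      rw [hj, Nat.add_sub_cancel]
      ring
    rw [h3]
    simp [Nat.ModEq]
  rw [h2, pow_mem_iff hq ht hS, ← ZMod.natCast_eq_zero_iff] at h1
  rw [Nat.cast_add, Nat.cast_mul, Nat.cast_mul, Nat.cast_sub hq.pos, Nat.cast_one,
    CharP.cast_eq_zero, ← add_mul, zero_sub, neg_add_eq_sub] at h1
  rcases mul_eq_zero.1 h1 with h3 | h3
  · exfalso
    rw [sub_eq_zero.1 h3, orderOf_one] at hr
    omega
  · exact (ZMod.natCast_eq_zero_iff _ _).1 h3

section FD

variable {K : Type} [Group K] {L T : Subgroup K} {t c : K} {q m r : ℕ}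

theorem FD.tL (h : FD L T t c q m r) : t ∉ L := fun h1 => h.tT (h.LT h1)

/-- the index of `T` -/
theorem FD.indexT (h : FD L T t c q m r) (hq : q.Prime) : T.index = q := by
  have hmem := pow_mem_iff hq h.tq h.tT
  have hf : Function.Bijective (fun i : Fin q => ((t ^ (i : ℕ) : K) : K ⧸ T)) := by
    constructor
    · intro i j hij
      have h1 : (t ^ (i : ℕ))⁻¹ * t ^ (j : ℕ) ∈ T := QuotientGroup.eq.1 hij
      have h2 : (t ^ (i : ℕ))⁻¹ * t ^ (j : ℕ) = t ^ ((q - i) + j : ℕ) := by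
        rw [inv_mul_eq_iff_eq_mul, ← pow_add]
        apply pow_eq_of_modEq h.tq
        have h3 : (i : ℕ) + ((q - i) + j) = q + j := by have := i.2; omega
        rw [h3]
        simp [Nat.ModEq]
      rw [h2, hmem] at h1
      apply Fin.ext
      obtain ⟨a, ha⟩ := h1
      have hi := i.2
      have hj := j.2
      have h4 : a = 1 := by
        by_contra hne
        rcases Nat.lt_or_gt_of_ne hne with h5 | h5
        · have h6 : a = 0 := by omega
          rw [h6] at ha
          omega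
        · have h6 : q * 2 ≤ q * a := Nat.mul_le_mul_left q h5
          omega
      rw [h4] at ha
      omega
    · intro x
      obtain ⟨g, rfl⟩ := QuotientGroup.mk_surjective x
      obtain ⟨i, x, hx, rfl⟩ := h.gen g
      refine ⟨⟨i % q, Nat.mod_lt _ hq.pos⟩, ?_⟩
      have h1 : t ^ (i % q) = t ^ i := pow_eq_of_modEq h.tq (Nat.mod_modEq i q)
      change ((t ^ (i % q) : K) : K ⧸ T) = _
      rw [h1, QuotientGroup.eq, inv_mul_cancel_left]
      exact hx
  have h1 := Nat.card_congr (Equiv.ofBijective _ hf)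
  rw [Nat.card_fin] at h1
  exact h1.symm

/-- the index of `L` -/
theorem FD.indexL (h : FD L T t c q m r) (hq : q.Prime) : L.index = m * q := by
  have hn := h.nL
  rw [← Subgroup.relIndex_mul_index h.LT, h.indexT hq]
  congr 1
  have hm := h.m1
  -- the quotient `T / L`
  have hf : Function.Bijective
      (fun i : Fin m => (((⟨c, h.cT⟩ : T) ^ (i : ℕ) : T) : T ⧸ L.subgroupOf T)) := by
    have key : ∀ a b : ℕ, a ≤ b → ((((⟨c, h.cT⟩ : T) ^ a : T) : T ⧸ L.subgroupOf T) =
        (((⟨c, h.cT⟩ : T) ^ b : T) : T ⧸ L.subgroupOf T) ↔ m ∣ b - a) := by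
      intro a b hab
      rw [QuotientGroup.eq, Subgroup.mem_subgroupOf, ← h.cm]
      have h1 : (((⟨c, h.cT⟩ : T) ^ a)⁻¹ * (⟨c, h.cT⟩ : T) ^ b : T) =
          ((⟨c, h.cT⟩ : T) ^ (b - a) : T) := by
        rw [inv_mul_eq_iff_eq_mul, ← pow_add, Nat.add_sub_cancel' hab]
      rw [h1]
      rfl
    constructor
    · intro i j hij
      apply Fin.ext
      have hi := i.2
      have hj := j.2
      rcases le_total (i : ℕ) j with h1 | h1
      · have h2 := (key _ _ h1).1 hij
        have h3 := Nat.eq_zero_of_dvd_of_lt h2 (by omega)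
        omega
      · have h2 := (key _ _ h1).1 hij.symm
        have h3 := Nat.eq_zero_of_dvd_of_lt h2 (by omega)
        omega
    · intro x
      obtain ⟨g, rfl⟩ := QuotientGroup.mk_surjective x
      obtain ⟨j, n, hn, hjn⟩ := h.memT g g.2
      refine ⟨⟨j % m, Nat.mod_lt _ (by omega)⟩, ?_⟩
      change (((⟨c, h.cT⟩ : T) ^ (j % m) : T) : T ⧸ L.subgroupOf T) = _
      rw [(key _ _ (Nat.mod_le j m)).2 ⟨j / m, ?_⟩]
      · rw [QuotientGroup.eq, Subgroup.mem_subgroupOf]
        have h1 : ((((⟨c, h.cT⟩ : T) ^ j)⁻¹ * g : T) : K) = (c ^ j)⁻¹ * (g : K) := rfl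
        rw [h1, hjn, inv_mul_cancel_left]
        exact hn
      · have := Nat.div_add_mod j m
        omega
  have h1 := Nat.card_congr (Equiv.ofBijective _ hf)
  rw [Nat.card_fin] at h1
  exact h1.symm

end FD

end Pool.Agent.CGSR
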