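import Pool.Agent.CGSR.CoreT
import Pool.Agent.CGSR.MonoT

/-!
# The complement and the generators

From the subgroups `L ≤ M` of `exists_core` and an element `t` of order `q` of `M` to the data `FD`
of `MonoT`.
-/

set_option autoImplicit false

namespace Pool.Agent.CGSR

open Pool.Agent.CGS
open scoped commutatorElement

theorem exists_FD {K : Type} [Group K] [Finite K] {q : ℕ} (hq : q.Prime)
    (hqq : ¬ q ^ 2 ∣ Nat.card K) (hqK : ¬ q ∣ (commutator K).index) (L M : Subgroup K)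
    [L.Normal] [M.Normal] (hLM : L ≤ M) (hqL : ¬ q ∣ Nat.card L) (hidx : L.relIndex M = q)
    (hcen : ∀ g, (∀ x ∈ M, g * x * g⁻¹ * x⁻¹ ∈ L) → g ∈ M) {t : K} (htM : t ∈ M)
    (htq : t ^ q = 1) (htL : t ∉ L) :
    (∃ (T : Subgroup K) (c : K) (r : ℕ), FD L T t c q M.index r) ∧
      ∀ x ∈ M, ∃ i : ℕ, (t ^ i)⁻¹ * x ∈ L := by
  have hq' : Fact q.Prime := ⟨hq⟩
  -- the subgroup of order `q` of the quotient
  obtain ⟨V, hV⟩ : ∃ V : Subgroup (K ⧸ L), V = M.map (QuotientGroup.mk' L) := ⟨_, rfl⟩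
  have hVn : V.Normal := by
    rw [hV]
    exact Subgroup.Normal.map inferInstance _ (QuotientGroup.mk'_surjective L)
  have hVm : ∀ g : K, (g : K ⧸ L) ∈ V ↔ g ∈ M := by
    intro g
    rw [hV]
    constructor
    · rintro ⟨y, hy, hyg⟩
      have h1 : y⁻¹ * g ∈ L := QuotientGroup.eq.1 hyg
      have h2 := M.mul_mem hy (hLM h1)
      rwa [mul_inv_cancel_left] at h2
    · exact fun h => ⟨g, h, rfl⟩
  have hVi : V.index = M.index := by
    rw [hV]
    exact Subgroup.index_map_eq _ (QuotientGroup.mk'_surjective L) (by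
      rw [QuotientGroup.ker_mk']
      exact hLM)
  have hVc : Nat.card V = q := by
    have h1 := Subgroup.card_mul_index V
    have h2 := Subgroup.relIndex_mul_index hLM
    rw [hVi] at h1
    have h3 : Nat.card (K ⧸ L) = L.index := rfl
    rw [h3, ← h2, hidx] at h1
    exact Nat.eq_of_mul_eq_mul_right (Nat.pos_of_ne_zero Subgroup.index_ne_zero_of_finite) h1
  have htV : (t : K ⧸ L) ∈ V := (hVm t).2 htM
  have ht1 : (t : K ⧸ L) ≠ 1 := fun h => htL ((QuotientGroup.eq_one_iff t).1 h)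
  have htqQ : (t : K ⧸ L) ^ q = 1 := by
    rw [← QuotientGroup.mk_pow, htq]
    rfl
  have hVt : ∀ x ∈ V, ∃ i : ℕ, x = (t : K ⧸ L) ^ i := by
    intro x hx
    have h1 : (⟨(t : K ⧸ L), htV⟩ : V) ≠ 1 := fun h => ht1 (congrArg Subtype.val h)
    obtain ⟨i, hi⟩ := mem_powers_of_prime_card hVc h1 (g' := ⟨x, hx⟩)
    exact ⟨i, (congrArg Subtype.val (show (⟨(t : K ⧸ L), htV⟩ : V) ^ i = ⟨x, hx⟩ from hi)).symm⟩
  -- the complement
  have hcop : Nat.Coprime (Nat.card V) V.index := by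
    rw [hVc, Nat.Prime.coprime_iff_not_dvd hq]
    intro h1
    apply hqq
    have h2 := Subgroup.card_mul_index L
    rw [← Subgroup.relIndex_mul_index hLM, hidx, ← hVi] at h2
    rw [← h2, pow_two]
    exact Dvd.dvd.mul_left (Nat.mul_dvd_mul_left q h1) _
  obtain ⟨T₀, hT₀⟩ := Subgroup.exists_right_complement'_of_coprime hcop
  have hT₀c : Nat.card T₀ = M.index := by
    rw [← hVi]
    exact hT₀.symm.index_eq_card.symm
  -- the action on the subgroup of order `q`
  obtain ⟨κ, hκ⟩ : ∃ κ : K ⧸ L →* MulAut V, κ = MulAut.conjNormal := ⟨_, rfl⟩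
  have hκa : ∀ (g : K ⧸ L) (v : V), ((κ g v : V) : K ⧸ L) = g * v * g⁻¹ := by
    intro g v
    rw [hκ]
    rfl
  have hκ1 : ∀ g : K ⧸ L, κ g = 1 ↔ g ∈ V := by
    intro g
    obtain ⟨g, rfl⟩ := QuotientGroup.mk_surjective g
    constructor
    · intro h
      rw [hVm]
      refine hcen g fun x hx => ?_
      rw [← QuotientGroup.eq_one_iff]
      have h1 := hκa (g : K ⧸ L) ⟨(x : K ⧸ L), (hVm x).2 hx⟩
      rw [h, MulAut.one_apply] at h1
      change (g : K ⧸ L) * x * (g : K ⧸ L)⁻¹ * (x : K ⧸ L)⁻¹ = 1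
      rw [mul_inv_eq_one]
      exact h1.symm
    · intro h
      obtain ⟨i, hi⟩ := hVt _ h
      refine MulEquiv.ext fun v => Subtype.ext ?_
      rw [hκa, MulAut.one_apply]
      obtain ⟨j, hj⟩ := hVt _ v.2
      rw [hi, hj, ← pow_add, add_comm, pow_add, mul_inv_cancel_right]
  have hdis : ∀ x : K ⧸ L, x ∈ V → x ∈ T₀ → x = 1 := fun x h1 h2 =>
    (Subgroup.disjoint_def.1 hT₀.disjoint) h1 h2
  -- the complement is cyclic
  have hcyc : IsCyclic T₀ := by
    have hcycV : IsCyclic V := isCyclic_of_prime_card (p := q) hVc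
    have h1 : IsCyclic (MulAut V) := by
      have h2 : IsCyclic (ZMod (Nat.card V))ˣ := by
        rw [hVc]
        infer_instance
      exact isCyclic_of_surjective (IsCyclic.mulAutMulEquiv V).symm
        (IsCyclic.mulAutMulEquiv V).symm.surjective
    refine isCyclic_of_injective (κ.comp T₀.subtype) ?_
    rw [injective_iff_map_eq_one]
    intro x hx
    exact Subtype.ext (hdis _ ((hκ1 _).1 hx) x.2)
  obtain ⟨⟨c', hc'⟩, hgen⟩ := hcyc.exists_generator
  obtain ⟨c, rfl⟩ := QuotientGroup.mk_surjective c'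
  have hpow : ∀ x ∈ T₀, ∃ j : ℕ, x = (c : K ⧸ L) ^ j := by
    intro x hx
    have h1 := hgen ⟨x, hx⟩
    rw [← mem_powers_iff_mem_zpowers] at h1
    obtain ⟨j, hj⟩ := h1
    exact ⟨j, (congrArg Subtype.val (show (⟨(c : K ⧸ L), hc'⟩ : T₀) ^ j = ⟨x, hx⟩ from
      hj)).symm⟩
  have hord : orderOf (c : K ⧸ L) = M.index := by
    have h1 := orderOf_eq_card_of_forall_mem_zpowers hgen
    rw [hT₀c] at h1
    rw [← h1]
    exact (Subgroup.orderOf_mk (c : K ⧸ L) hc').symm
  -- the relation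
  obtain ⟨r, hr⟩ := hVt _ (hVn.conj_mem _ htV (c : K ⧸ L))
  have hTm : ∀ g : K, g ∈ T₀.comap (QuotientGroup.mk' L) ↔ (g : K ⧸ L) ∈ T₀ := fun g => Iff.rfl
  have hconj : ∀ j : ℕ, (c : K ⧸ L) ^ j * t * ((c : K ⧸ L) ^ j)⁻¹ = (t : K ⧸ L) ^ (r ^ j) := by
    intro j
    induction j with
    | zero => rw [pow_zero, pow_zero, pow_one, one_mul, inv_one, mul_one]
    | succ j ih =>
      have h1 : (c : K ⧸ L) ^ (j + 1) * t * ((c : K ⧸ L) ^ (j + 1))⁻¹ =
          (c : K ⧸ L) * ((c : K ⧸ L) ^ j * t * ((c : K ⧸ L) ^ j)⁻¹) * (c : K ⧸ L)⁻¹ := by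
        rw [pow_succ', mul_inv_rev]
        simp only [mul_assoc]
      rw [h1, ih, ← conj_pow, hr, ← pow_mul, pow_succ']
  refine ⟨⟨T₀.comap (QuotientGroup.mk' L), c, r, ?_⟩, fun x hx => ?_⟩
  swap
  · obtain ⟨i, hi⟩ := hVt _ ((hVm x).2 hx)
    refine ⟨i, ?_⟩
    rw [← QuotientGroup.eq, QuotientGroup.mk_pow]
    exact hi.symm
  refine
    { nL := inferInstance
      qL := hqL
      tq := htq
      tT := fun h => ht1 (hdis _ htV ((hTm t).1 h))
      LT := fun x hx => by
        rw [hTm, (QuotientGroup.eq_one_iff x).2 hx]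
        exact one_mem _
      cT := (hTm c).2 hc'
      memT := fun x hx => ?_
      cm := fun j => ?_
      ct := ?_
      gen := fun g => ?_
      ord := ?_
      m1 := ?_ }
  · obtain ⟨j, hj⟩ := hpow _ ((hTm x).1 hx)
    refine ⟨j, (c ^ j)⁻¹ * x, ?_, by rw [mul_inv_cancel_left]⟩
    rw [← QuotientGroup.eq, QuotientGroup.mk_pow]
    exact hj.symm
  · rw [← QuotientGroup.eq_one_iff, QuotientGroup.mk_pow, ← hord]
    exact orderOf_dvd_iff_pow_eq_one.symm
  · rw [← QuotientGroup.eq]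
    exact hr.symm
  · obtain ⟨⟨v, x⟩, hvx⟩ := hT₀.2 (g : K ⧸ L)
    have h1 : (v : K ⧸ L) * (x : K ⧸ L) = g := hvx
    obtain ⟨i, hi⟩ := hVt _ v.2
    refine ⟨i, (t ^ i)⁻¹ * g, ?_, by rw [mul_inv_cancel_left]⟩
    rw [hTm]
    change ((t : K ⧸ L) ^ i)⁻¹ * (g : K ⧸ L) ∈ T₀
    rw [← hi, ← h1, inv_mul_cancel_left]
    exact x.2
  · have key : ∀ j : ℕ, (r : ZMod q) ^ j = 1 ↔ M.index ∣ j := by
      intro j
      rw [← hord, orderOf_dvd_iff_pow_eq_one, ← Nat.cast_pow, ← Nat.cast_one,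
        ZMod.natCast_eq_natCast_iff]
      have hot : orderOf (t : K ⧸ L) = q := orderOf_eq_prime htqQ ht1
      constructor
      · intro h
        apply hdis _ _ (T₀.pow_mem hc' j)
        rw [← hκ1]
        refine MulEquiv.ext fun v => Subtype.ext ?_
        rw [hκa, MulAut.one_apply]
        obtain ⟨i, hi⟩ := hVt _ v.2
        rw [hi, ← conj_pow, hconj, ← pow_mul]
        apply pow_eq_of_modEq htqQ
        simpa using h.mul_right i
      · intro h
        have h1 := hconj j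
        rw [h, one_mul, inv_one, mul_one] at h1
        have h2 : (t : K ⧸ L) ^ 1 = (t : K ⧸ L) ^ (r ^ j) := by rw [pow_one]; exact h1
        rw [pow_eq_pow_iff_modEq, hot] at h2
        exact h2.symm
    exact Nat.dvd_antisymm (orderOf_dvd_of_pow_eq_one ((key _).2 dvd_rfl))
      ((key _).1 (pow_orderOf_eq_one _))
  · by_contra h
    have h1 : M.index = 1 := by
      have h2 : M.index ≠ 0 := Subgroup.index_ne_zero_of_finite
      omega
    apply hqK
    have h2 : L.index = q := by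
      rw [← Subgroup.relIndex_mul_index hLM, hidx, h1, mul_one]
    have h5 : IsCyclic (K ⧸ L) := isCyclic_of_prime_card (p := q) h2
    have h6 : commutator K ≤ L := by
      have h7 : IsMulCommutative (K ⧸ L) := inferInstance
      rw [commutator_def, Subgroup.commutator_le]
      intro x _ y _
      rw [← QuotientGroup.eq_one_iff]
      have h8 : ((⁅x, y⁆ : K) : K ⧸ L) = ⁅(x : K ⧸ L), (y : K ⧸ L)⁆ := by
        rw [commutatorElement_def, commutatorElement_def]
        rfl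
      rw [h8, commutatorElement_eq_one_iff_mul_comm]
      exact h7.is_comm.comm _ _
    rw [← h2]
    exact Subgroup.index_dvd_of_le h6

/-- the index of `M` is odd if there are no subgroups of index two -/
theorem FD.odd_index {K : Type} [Group K] [Finite K] {L T : Subgroup K} {t c : K} {q r : ℕ}
    (M : Subgroup K) [M.Normal] (hLM : L ≤ M) (htM : t ∈ M) (h : FD L T t c q M.index r)
    (hK : NoIdx2 K) : Odd M.index := by
  have hgen : ∀ x : K ⧸ M, ∃ j : ℕ, x = (c : K ⧸ M) ^ j := by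
    intro x
    obtain ⟨x, rfl⟩ := QuotientGroup.mk_surjective x
    obtain ⟨i, y, hy, rfl⟩ := h.gen x
    obtain ⟨j, n, hn, rfl⟩ := h.memT y hy
    refine ⟨j, ?_⟩
    have h1 : ((t : K) : K ⧸ M) = 1 := (QuotientGroup.eq_one_iff t).2 htM
    have h2 : ((n : K) : K ⧸ M) = 1 := (QuotientGroup.eq_one_iff n).2 (hLM hn)
    rw [QuotientGroup.mk_mul, QuotientGroup.mk_mul, QuotientGroup.mk_pow, QuotientGroup.mk_pow,
      h1, h2, one_pow, one_mul, mul_one]
  have hcomm : commutator (K ⧸ M) = ⊥ := by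
    rw [eq_bot_iff, commutator_def, Subgroup.commutator_le]
    intro x _ y _
    obtain ⟨j, rfl⟩ := hgen x
    obtain ⟨k, rfl⟩ := hgen y
    rw [Subgroup.mem_bot, commutatorElement_eq_one_iff_mul_comm, ← pow_add, ← pow_add, add_comm]
  have h1 := (hK.quotient M).odd_index_commutator
  rw [hcomm, Subgroup.index_bot] at h1
  exact h1

end Pool.Agent.CGSR
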