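import Pool.Agent.CGSR.DegDvd

/-!
# Weights of normal subgroups
-/

set_option autoImplicit false

namespace Pool.Agent.CGSR

open Matrix Pool.Agent.CGS

private theorem exists_min {V : Type} [AddCommGroup V] [Module ℂ V] [FiniteDimensional ℂ V]
    (P : Submodule ℂ V → Prop) (hP : ∃ W, P W ∧ W ≠ ⊥) :
    ∃ W, P W ∧ W ≠ ⊥ ∧ ∀ W', P W' → W' ≤ W → W' = ⊥ ∨ W' = W := by
  classical
  have hex : ∃ n, ∃ W, (P W ∧ W ≠ ⊥) ∧ Module.finrank ℂ W = n := by
    obtain ⟨W, hW⟩ := hP
    exact ⟨_, W, hW, rfl⟩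
  obtain ⟨W, ⟨h1, h2⟩, h3⟩ := Nat.find_spec hex
  refine ⟨W, h1, h2, fun W' hW' hle => ?_⟩
  by_cases hb : W' = ⊥
  · exact Or.inl hb
  · right
    have h4 : Nat.find hex ≤ Module.finrank ℂ W' := Nat.find_min' hex ⟨W', ⟨hW', hb⟩, rfl⟩
    exact Submodule.eq_of_le_of_finrank_le hle (by rw [h3]; exact h4)

theorem mulVec_mat {X : Type} [Group X] {d : ℕ} (ρ : Rep X d) (v : Fin d → ℂ) (g g' : X) :
    mat ρ g *ᵥ (mat ρ g' *ᵥ v) = mat ρ (g * g') *ᵥ v := by
  rw [Matrix.mulVec_mulVec, mat_mul]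

/-- a minimal stable subspace of the restriction -/
private theorem exists_minimal {X : Type} [Group X] (N₀ : Subgroup X) {d : ℕ} (ρ : Rep X d)
    (hd : 0 < d) : ∃ W : Submodule ℂ (Fin d → ℂ), Stable (res N₀ ρ) W ∧ W ≠ ⊥ ∧
      ∀ W', Stable (res N₀ ρ) W' → W' ≤ W → W' = ⊥ ∨ W' = W := by
  have hnt : (⊤ : Submodule ℂ (Fin d → ℂ)) ≠ ⊥ := by
    intro h0
    have h1 := congrArg (fun W : Submodule ℂ (Fin d → ℂ) => Module.finrank ℂ W) h0
    simp only [finrank_top, Module.finrank_fin_fun, finrank_bot] at h1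
    omega
  exact exists_min (fun W => Stable (res N₀ ρ) W) ⟨⊤, fun _ _ _ => Submodule.mem_top, hnt⟩

/-- a common eigenvector of a commutative subgroup -/
theorem eigen_comm {X : Type} [Group X] (M : Subgroup X) (hM : ∀ a ∈ M, ∀ b ∈ M, a * b = b * a)
    {d : ℕ} (ρ : Rep X d) (hd : 0 < d) :
    ∃ v : Fin d → ℂ, v ≠ 0 ∧ ∀ n : M, ∃ c : ℂ, mat ρ (n : X) *ᵥ v = c • v := by
  obtain ⟨W, hW, hW0, hmin⟩ := exists_minimal M ρ hd
  obtain ⟨v, hv, hv0⟩ := Submodule.exists_mem_ne_zero_of_ne_bot hW0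
  refine ⟨v, hv0, fun n => ?_⟩
  have hnt : Nontrivial W := ⟨⟨⟨v, hv⟩, 0, fun h => hv0 (congrArg Subtype.val h)⟩⟩
  obtain ⟨c, hc⟩ := Module.End.exists_eigenvalue ((mat ρ (n : X)).mulVecLin.restrict (hW n))
  obtain ⟨u, hu⟩ := hc.exists_hasEigenvector
  have hu1 : mat ρ (n : X) *ᵥ (u : Fin d → ℂ) = c • (u : Fin d → ℂ) :=
    congrArg Subtype.val hu.apply_eq_smul
  have hu0 : (u : Fin d → ℂ) ≠ 0 := fun h => hu.2 (Subtype.ext h)
  let W' : Submodule ℂ (Fin d → ℂ) :=
    { carrier := {w | w ∈ W ∧ mat ρ (n : X) *ᵥ w = c • w}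
      add_mem' := by
        rintro a b ⟨ha, ha'⟩ ⟨hb, hb'⟩
        exact ⟨W.add_mem ha hb, by rw [Matrix.mulVec_add, ha', hb', smul_add]⟩
      zero_mem' := ⟨W.zero_mem, by rw [Matrix.mulVec_zero, smul_zero]⟩
      smul_mem' := by
        rintro a b ⟨hb, hb'⟩
        exact ⟨W.smul_mem a hb, by rw [Matrix.mulVec_smul, hb', smul_comm]⟩ }
  have hW' : Stable (res M ρ) W' := by
    rintro m w ⟨hw, hw'⟩
    refine ⟨hW m w hw, ?_⟩
    rw [mat_res, mulVec_mat, hM _ n.2 _ m.2, ← mulVec_mat, hw', Matrix.mulVec_smul]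
  have huW : (u : Fin d → ℂ) ∈ W' := ⟨u.2, hu1⟩
  rcases hmin W' hW' (fun w hw => hw.1) with h1 | h1
  · exfalso
    rw [h1, Submodule.mem_bot] at huW
    exact hu0 huW
  · have h2 : v ∈ W' := by
      rw [h1]
      exact hv
    exact ⟨c, h2.2⟩

/-- a common eigenvector of a normal subgroup of order prime to the degree, the degree is prime -/
theorem eigen_prime {X : Type} [Group X] [Finite X] (N₀ : Subgroup X) [N₀.Normal] {q : ℕ}
    (hq : q.Prime) (hN : ¬ q ∣ Nat.card N₀) {ρ : Rep X q} (h : IsIrr ρ) :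
    ∃ v : Fin q → ℂ, v ≠ 0 ∧ ∀ n : N₀, ∃ c : ℂ, mat ρ (n : X) *ᵥ v = c • v := by
  have hirr := ((isIrr_iff ρ).1 h).2
  obtain ⟨W, hW, hW0, hmin⟩ := exists_minimal N₀ ρ hq.pos
  -- the translates
  let e : X → ((Fin q → ℂ) ≃ₗ[ℂ] (Fin q → ℂ)) := fun g =>
    LinearEquiv.ofLinearMap (mat ρ g).mulVecLin (mat ρ g⁻¹).mulVecLin
      (by rw [← Matrix.mulVecLin_mul, mat_mul_inv, Matrix.mulVecLin_one])
      (by rw [← Matrix.mulVecLin_mul, mat_inv_mul, Matrix.mulVecLin_one])
  obtain ⟨T, hT⟩ : ∃ T : X → Submodule ℂ (Fin q → ℂ),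
      ∀ g, T g = W.map (e g : (Fin q → ℂ) →ₗ[ℂ] (Fin q → ℂ)) := ⟨_, fun _ => rfl⟩
  have hmem : ∀ g w, w ∈ T g ↔ ∃ w' ∈ W, mat ρ g *ᵥ w' = w := by
    intro g w
    rw [hT, Submodule.mem_map]
    rfl
  have hfin : ∀ g, Module.finrank ℂ (T g) = Module.finrank ℂ W := by
    intro g
    rw [hT]
    exact LinearEquiv.finrank_map_eq (e g) W
  have hTs : ∀ g, Stable (res N₀ ρ) (T g) := by
    intro g y w hw
    obtain ⟨w', hw', rfl⟩ := (hmem g w).1 hw
    have h1 : g⁻¹ * (y : X) * g ∈ N₀ := by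
      have := ‹N₀.Normal›.conj_mem (y : X) y.2 g⁻¹
      simpa using this
    refine (hmem g _).2 ⟨_, hW ⟨_, h1⟩ w' hw', ?_⟩
    rw [mat_res, mat_res, mulVec_mat, mulVec_mat]
    congr 2
    group
  have htop : (⨆ g, T g) = ⊤ := by
    have hst : Stable ρ (⨆ g, T g) := by
      intro g w hw
      induction hw using Submodule.iSup_induction' with
      | mem i x hx =>
        obtain ⟨w', hw', rfl⟩ := (hmem i x).1 hx
        rw [mulVec_mat]
        exact Submodule.mem_iSup_of_mem (g * i) ((hmem _ _).2 ⟨w', hw', rfl⟩)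
      | zero =>
        rw [Matrix.mulVec_zero]
        exact Submodule.zero_mem _
      | add x y _ _ hx hy =>
        rw [Matrix.mulVec_add]
        exact Submodule.add_mem _ hx hy
    rcases hirr _ hst with h0 | h0
    · exfalso
      apply hW0
      rw [eq_bot_iff]
      intro w hw
      have h1 : w ∈ ⨆ g, T g := Submodule.mem_iSup_of_mem 1
        ((hmem 1 w).2 ⟨w, hw, by rw [mat_one, Matrix.one_mulVec]⟩)
      rwa [h0] at h1
    · exact h0
  -- the dimension of `W` divides `q`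
  have key : ∀ k : ℕ, ∀ U : Submodule ℂ (Fin q → ℂ), Stable (res N₀ ρ) U →
      Module.finrank ℂ W ∣ Module.finrank ℂ U → Module.finrank ℂ U + k = q →
      Module.finrank ℂ W ∣ q := by
    intro k
    induction k using Nat.strong_induction_on with
    | _ k ih =>
      intro U hU hdvd hk
      by_cases hUt : U = ⊤
      · rw [hUt, finrank_top, Module.finrank_fin_fun] at hdvd
        exact hdvd
      · obtain ⟨g, hg⟩ : ∃ g, ¬ T g ≤ U := by
          by_contra hcon
          push Not at hcon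
          exact hUt (top_le_iff.1 (htop ▸ iSup_le hcon))
        let W' : Submodule ℂ (Fin q → ℂ) :=
          { carrier := {w | w ∈ W ∧ mat ρ g *ᵥ w ∈ U}
            add_mem' := by
              rintro a b ⟨ha, ha'⟩ ⟨hb, hb'⟩
              exact ⟨W.add_mem ha hb, by rw [Matrix.mulVec_add]; exact U.add_mem ha' hb'⟩
            zero_mem' := ⟨W.zero_mem, by rw [Matrix.mulVec_zero]; exact U.zero_mem⟩
            smul_mem' := by
              rintro a b ⟨hb, hb'⟩
              exact ⟨W.smul_mem a hb, by rw [Matrix.mulVec_smul]; exact U.smul_mem a hb'⟩ }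
        have hW' : Stable (res N₀ ρ) W' := by
          rintro m w ⟨hw, hw'⟩
          refine ⟨hW m w hw, ?_⟩
          have h1 : g * (m : X) * g⁻¹ ∈ N₀ := ‹N₀.Normal›.conj_mem (m : X) m.2 g
          have h2 := hU ⟨_, h1⟩ _ hw'
          rw [mat_res, mulVec_mat] at h2
          rw [mat_res, mulVec_mat]
          convert h2 using 3
          simp
        have hinf : T g ⊓ U = ⊥ := by
          rcases hmin W' hW' (fun w hw => hw.1) with h1 | h1
          · rw [eq_bot_iff]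
            rintro w ⟨hw, hwU⟩
            obtain ⟨w', hw', rfl⟩ := (hmem g w).1 hw
            have h2 : w' ∈ W' := ⟨hw', hwU⟩
            rw [h1, Submodule.mem_bot] at h2
            rw [h2, Matrix.mulVec_zero]
            exact Submodule.zero_mem _
          · exfalso
            apply hg
            intro w hw
            obtain ⟨w', hw', rfl⟩ := (hmem g w).1 hw
            rw [← h1] at hw'
            exact hw'.2
        have hdim := Submodule.finrank_sup_add_finrank_inf_eq (T g) U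
        rw [hinf, finrank_bot, hfin, add_zero] at hdim
        have hle := Submodule.finrank_le (T g ⊔ U)
        rw [Module.finrank_fin_fun] at hle
        have hpos : Module.finrank ℂ W ≠ 0 := fun h0 => hW0 (Submodule.finrank_eq_zero.1 h0)
        refine ih (q - Module.finrank ℂ (T g ⊔ U : Submodule ℂ (Fin q → ℂ))) ?_ (T g ⊔ U) ?_ ?_ ?_
        · omega
        · intro m w hw
          obtain ⟨w1, h1, w2, h2, rfl⟩ := Submodule.mem_sup.1 hw
          rw [Matrix.mulVec_add]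
          exact Submodule.add_mem_sup (hTs g m w1 h1) (hU m w2 h2)
        · rw [hdim]
          exact Nat.dvd_add (dvd_refl _) hdvd
        · omega
  have hdvd := key q ⊥ (fun m w hw => by
    rw [Submodule.mem_bot] at hw ⊢
    rw [hw, Matrix.mulVec_zero]) (by rw [finrank_bot]; exact dvd_zero _)
    (by rw [finrank_bot, zero_add])
  rcases (Nat.dvd_prime hq).1 hdvd with h1 | h1
  · obtain ⟨v, hv0, hv⟩ := finrank_eq_one_iff'.1 h1
    refine ⟨v, fun h2 => hv0 (Subtype.ext h2), fun n => ?_⟩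
    obtain ⟨c, hc⟩ := hv ⟨mat (res N₀ ρ) n *ᵥ (v : Fin q → ℂ), hW n v v.2⟩
    exact ⟨c, (congrArg Subtype.val hc).symm⟩
  · exfalso
    have htop : W = ⊤ := Submodule.eq_top_of_finrank_eq (by
      rw [h1, Module.finrank_fin_fun])
    have h4 : IsIrr (res N₀ ρ) := by
      rw [isIrr_iff]
      refine ⟨hq.pos, fun W' hW' => ?_⟩
      rcases hmin W' hW' (by rw [htop]; exact le_top) with h5 | h5
      · exact Or.inl h5
      · exact Or.inr (by rw [h5, htop])
    exact hN (deg_dvd h4)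

end Pool.Agent.CGSR
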