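import Pool.Agent.CGSR.Res
import Pool.Agent.CGSR.GT

/-!
# The congruence modulo four

`A`, `B` are the 2-residuals of `G`, `H`.  The numbers `|A : A'|` and `|B : B'|` are congruent
modulo four.
-/

set_option autoImplicit false

namespace Pool.Agent.CGSR

open Pool.Agent.CGS

/-- the hypothesis on `q` on the soluble side -/
def QHyp (G : Type) [Group G] (q : ℕ) : Prop :=
  (∀ p : ℕ, p.Prime → p ∣ Nat.card G → p ∣ q - 1 → p = 2) ∨
    ∃ M : Subgroup G, M.Normal ∧ ∃ i : ℕ, M.index = 2 ^ i * q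

theorem dvd_card_res {G : Type} [Group G] {A : Subgroup G} {a : ℕ} (hA : IsRes A a)
    {q : ℕ} (hq : q.Prime) (hq2 : q ≠ 2) (h : q ∣ Nat.card G) : q ∣ Nat.card A := by
  have h1 := A.card_mul_index
  rw [← h1, hA.index] at h
  rcases hq.dvd_mul.1 h with h2 | h2
  · exact h2
  · exact absurd ((Nat.prime_dvd_prime_iff_eq hq Nat.prime_two).1 (hq.dvd_of_dvd_pow h2)) hq2

theorem dvd_index_res {G : Type} [Group G] [Finite G] {A : Subgroup G} {a : ℕ} (hA : IsRes A a)
    {q : ℕ} (hq : q.Prime) (hq2 : q ≠ 2) (hs : Group.IsSolvable G) (hqG : q ∣ Nat.card G)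
    (hqq : ¬ q ^ 2 ∣ Nat.card G) (h : QHyp G q) : q ∣ (commutator A).index := by
  have hcd : Nat.card A ∣ Nat.card G := Subgroup.card_subgroup_dvd_card A
  have hsA : Group.IsSolvable A := inferInstance
  rcases h with h | ⟨M, hM, i, hi⟩
  · exact dvd_index_of_solvable hq hsA hA.noIdx2 (dvd_card_res hA hq hq2 hqG)
      (fun h1 => hqq (h1.trans hcd)) fun p hp hpd => h p hp (hpd.trans hcd)
  · have h1 : M.relIndex A ∣ 2 ^ i * q := by
      rw [← hi]
      exact Subgroup.relIndex_dvd_index_of_normal M A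
    have h2 : q ∣ M.relIndex A := by
      have h3 : (M ⊓ A).relIndex A * A.index = (M ⊓ A).index :=
        Subgroup.relIndex_mul_index inf_le_right
      rw [Subgroup.inf_relIndex_right, hA.index] at h3
      have h4 : q ∣ M.relIndex A * 2 ^ a := by
        rw [h3]
        refine Dvd.dvd.trans ?_ (Subgroup.index_dvd_of_le (inf_le_left : M ⊓ A ≤ M))
        rw [hi]
        exact Dvd.intro_left _ rfl
      rcases hq.dvd_mul.1 h4 with h5 | h5
      · exact h5
      · exact absurd ((Nat.prime_dvd_prime_iff_eq hq Nat.prime_two).1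
          (hq.dvd_of_dvd_pow h5)) hq2
    obtain ⟨t, ht⟩ := h2
    have h3 : t ∣ 2 ^ i := by
      rw [ht, mul_comm] at h1
      exact Nat.dvd_of_mul_dvd_mul_right hq.pos h1
    obtain ⟨j, -, hj⟩ := (Nat.dvd_prime_pow Nat.prime_two).1 h3
    have h4 : (M.subgroupOf A).index = 2 ^ j * q := by
      change M.relIndex A = _
      rw [ht, hj, mul_comm]
    exact dvd_index_of_normal hq hsA hA.noIdx2 (M.subgroupOf A) h4

/-- the conclusion -/
theorem exists_of_dvd {H : Type} [Group H] [Finite H] {B : Subgroup H} {a : ℕ} (hB : IsRes B a)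
    {q : ℕ} (hq : q.Prime) (hqq : ¬ q ^ 2 ∣ Nat.card H) (h : q ∣ (commutator B).index) :
    ∃ L : Subgroup H, L.Normal ∧ (∃ i : ℕ, L.index = 2 ^ i * q) ∧ ¬ q ∣ Nat.card L := by
  have hBn := hB.normal
  obtain ⟨L, hL, hLi, hLc⟩ := exists_char hq h
    (fun h1 => hqq (h1.trans (Subgroup.card_subgroup_dvd_card B)))
  refine ⟨L.map B.subtype, inferInstance, ⟨a, ?_⟩, ?_⟩
  · rw [Subgroup.index_map_subtype, hLi, hB.index, mul_comm]
  · rwa [Nat.card_congr (L.equivMapOfInjective B.subtype B.subtype_injective).toEquiv.symm]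

/-- the order of the abelian quotient is odd, divides the order, and it is `q` times a number prime
to `q` if `q` divides it -/
theorem index_facts {H : Type} [Group H] [Finite H] {B : Subgroup H} {a : ℕ} (hB : IsRes B a) :
    Odd (commutator B).index ∧ (commutator B).index ∣ Nat.card H := by
  refine ⟨hB.noIdx2.odd_index_commutator, ?_⟩
  exact (Subgroup.index_dvd_card _).trans (Subgroup.card_subgroup_dvd_card B)

theorem main_four {G H : Type} [Group G] [Group H] [Finite G] [Finite H]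
    (e : Nonempty (MonoidAlgebra ℂ G ≃ₐ[ℂ] MonoidAlgebra ℂ H)) (hs : Group.IsSolvable G)
    {q : ℕ} (hq : q.Prime) (hq2 : q ≠ 2) (hqG : q ∣ Nat.card G) (hqq : ¬ q ^ 2 ∣ Nat.card G)
    (hQ : QHyp G q)
    (hmod : ∀ u v : ℕ, u ∣ Nat.card G → v ∣ Nat.card G → Odd u → Odd v → ¬ q ∣ u → ¬ q ∣ v →
      ¬ q * u ≡ v [MOD 4]) :
    ∃ L : Subgroup H, L.Normal ∧ (∃ i : ℕ, L.index = 2 ^ i * q) ∧ ¬ q ∣ Nat.card L := by
  have hGH : Nat.card G = Nat.card H := card_congr e
  obtain ⟨A, B, a, hA, hB, hAB, hMS⟩ := res_congr e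
  have h1 := dvd_index_res hA hq hq2 hs hqG hqq hQ
  refine exists_of_dvd hB hq (by rwa [← hGH]) ?_
  by_contra h2
  obtain ⟨u, hu⟩ := h1
  obtain ⟨hAo, hAd⟩ := index_facts hA
  obtain ⟨hBo, hBd⟩ := index_facts hB
  refine hmod u (commutator B).index ?_ ?_ ?_ hBo ?_ h2 ?_
  · exact (Dvd.intro_left q hu.symm).trans hAd
  · rw [hGH]
    exact hBd
  · rw [hu] at hAo
    exact (Nat.odd_mul.1 hAo).2
  · intro h3
    apply hqq
    refine Dvd.dvd.trans ?_ hAd
    rw [hu, pow_two]
    exact Nat.mul_dvd_mul_left q h3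
  · rw [← hu]
    have h4 := MS_modEq A odd_one
    have h5 := MS_modEq B odd_one
    rw [N_one] at h4 h5
    rw [hMS 1 odd_one] at h4
    exact h4.symm.trans h5

end Pool.Agent.CGSR
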