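import Mathlib

/-!
# The fixed points of a complement of a Frobenius group

`W` is a finite commutative group with automorphisms `t`, `c`, where `t ^ q = 1`, `t` has no
nontrivial fixed points, `c ^ m = 1`, `c t c⁻¹ = t ^ r` and `r` has order `m` modulo the prime `q`.
Then `|W| = |{w | c w = w}| ^ m`: the map `(v_i) ↦ ∏ t ^ i v_i` is a bijection from the `m`-tuples
of fixed points of `c` onto `W`, since its values on the conjugates are given by a Vandermonde
matrix with the nodes `t ^ (r ^ j)`.
-/

set_option autoImplicit false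

namespace Pool.Agent.CGSR

open Polynomial

private theorem Frob_prod {ι R W : Type*} [CommRing R] [AddCommGroup W] [Module R W]
    (s : Finset ι) (f : ι → R) (h : ∀ i ∈ s, ∀ w : W, f i • w = 0 → w = 0) :
    ∀ w : W, (∏ i ∈ s, f i) • w = 0 → w = 0 := by
  classical
  induction s using Finset.induction_on with
  | empty =>
    intro w hw
    rwa [Finset.prod_empty, one_smul] at hw
  | insert a s ha ih =>
    intro w hw
    rw [Finset.prod_insert ha, mul_smul] at hw
    exact ih (fun i hi => h i (Finset.mem_insert_of_mem hi)) w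
      (h a (Finset.mem_insert_self a s) _ hw)

/-- a Vandermonde system over a module -/
private theorem Frob_vand {R W : Type*} [CommRing R] [AddCommGroup W] [Module R W] {m : ℕ}
    (x : Fin m → R) (hx : ∀ i j, i ≠ j → ∀ w : W, (x j - x i) • w = 0 → w = 0)
    (v : Fin m → W) (hv : ∀ j, ∑ i : Fin m, x j ^ (i : ℕ) • v i = 0) : v = 0 := by
  have hdet : ∀ w : W, (Matrix.vandermonde x).det • w = 0 → w = 0 := by
    rw [Matrix.det_vandermonde]
    refine Frob_prod _ _ fun i _ => Frob_prod _ _ fun j hj => hx i j ?_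
    rw [Finset.mem_Ioi] at hj
    exact hj.ne
  funext k
  apply hdet
  have h1 : ∀ i : Fin m, ∑ j, (Matrix.vandermonde x).adjugate k j * x j ^ (i : ℕ) =
      if k = i then (Matrix.vandermonde x).det else 0 := by
    intro i
    have h2 := congrFun (congrFun (Matrix.adjugate_mul (Matrix.vandermonde x)) k) i
    rw [Matrix.mul_apply, Matrix.smul_apply, Matrix.one_apply, smul_eq_mul, mul_ite, mul_one,
      mul_zero] at h2
    exact h2
  have h3 : ∑ j, (Matrix.vandermonde x).adjugate k j • ∑ i : Fin m, x j ^ (i : ℕ) • v i = 0 :=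
    Finset.sum_eq_zero fun j _ => by rw [hv j, smul_zero]
  simp only [Finset.smul_sum, smul_smul] at h3
  rw [Finset.sum_comm] at h3
  simp only [← Finset.sum_smul, h1, ite_smul, zero_smul] at h3
  rwa [Finset.sum_ite_eq, if_pos (Finset.mem_univ k)] at h3

section add

variable {W : Type*} [AddCommGroup W] (T C : Module.End ℤ W) {q m r : ℕ}

private theorem Frob_inj (hq : q.Prime) (hT : T ^ q = 1) {a b : ℕ} (hab : ¬ a ≡ b [MOD q])
    {w : W} (h : (T ^ a) w = (T ^ b) w) : T w = w := by
  have hqn : ¬ q ∣ a + (q - 1) * b := by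
    intro h1
    apply hab
    have h2 : a + (q - 1) * b + b = a + q * b := by
      obtain ⟨c, rfl⟩ : ∃ c, q = c + 1 := ⟨q - 1, by have := hq.pos; omega⟩
      rw [Nat.add_sub_cancel]
      ring
    have h3 : a ≡ a + q * b [MOD q] := by simp [Nat.ModEq]
    refine h3.trans ?_
    rw [← h2]
    have h4 : a + (q - 1) * b ≡ 0 [MOD q] := (Nat.modEq_zero_iff_dvd).2 h1
    simpa using h4.add_right b
  have h1 : (T ^ (a + (q - 1) * b)) w = w := by
    rw [add_comm, pow_add, Module.End.mul_apply, h, ← Module.End.mul_apply, ← pow_add]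
    have h2 : (q - 1) * b + b = q * b := by
      obtain ⟨c, rfl⟩ : ∃ c, q = c + 1 := ⟨q - 1, by have := hq.pos; omega⟩
      rw [Nat.add_sub_cancel]
      ring
    rw [h2, pow_mul, hT, one_pow, Module.End.one_apply]
  obtain ⟨k, -, hk⟩ := Nat.exists_mul_mod_eq_one_of_coprime
    (((Nat.Prime.coprime_iff_not_dvd hq).2 hqn).symm) hq.one_lt
  have h2 : ∀ j : ℕ, ((T ^ (a + (q - 1) * b)) ^ j) w = w := by
    intro j
    induction j with
    | zero => rw [pow_zero, Module.End.one_apply]
    | succ j ih => rw [pow_succ, Module.End.mul_apply, h1, ih]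
  have h3 := h2 k
  rw [← pow_mul, ← Nat.div_add_mod ((a + (q - 1) * b) * k) q, hk, pow_add, pow_mul, hT, one_pow,
    pow_one, one_mul] at h3
  exact h3

private theorem Frob_comm (hCT : C * T = T ^ r * C) (k : ℕ) :
    C * T ^ k = T ^ (r * k) * C := by
  induction k with
  | zero => rw [mul_zero, pow_zero, mul_one, one_mul]
  | succ k ih =>
    rw [pow_succ, ← mul_assoc, ih, mul_assoc, hCT, ← mul_assoc, ← pow_add, Nat.mul_succ]

private theorem Frob_comm' (hCT : C * T = T ^ r * C) (k j : ℕ) :
    C ^ j * T ^ k = T ^ (r ^ j * k) * C ^ j := by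
  induction j with
  | zero => rw [pow_zero, pow_zero, one_mul, one_mul, mul_one]
  | succ j ih =>
    rw [pow_succ', mul_assoc, ih, ← mul_assoc, Frob_comm T C hCT, mul_assoc, pow_succ']
    congr 2
    ring

private theorem Frob_ne (hq : q.Prime) (hm : 0 < m) (hrm : r ^ m ≡ 1 [MOD q])
    (hr : ∀ j, 0 < j → j < m → ¬ r ^ j ≡ 1 [MOD q]) {i j : ℕ} (hij : i < j) (hj : j < m) :
    ¬ r ^ i ≡ r ^ j [MOD q] := by
  intro h
  apply hr (j - i) (by omega) (by omega)
  have hcop : Nat.Coprime q (r ^ i) := by
    apply Nat.Coprime.pow_right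
    rw [Nat.Prime.coprime_iff_not_dvd hq]
    intro h1
    have h2 : q ∣ r ^ m := h1.trans (dvd_pow_self r hm.ne')
    have h3 : r ^ m ≡ 0 [MOD q] := (Nat.modEq_zero_iff_dvd).2 h2
    have h4 := (Nat.modEq_zero_iff_dvd).1 (hrm.symm.trans h3)
    exact hq.one_lt.ne' (Nat.dvd_one.1 h4)
  have h1 : r ^ i * r ^ (j - i) ≡ r ^ i * 1 [MOD q] := by
    rw [← pow_add, show i + (j - i) = j by omega, mul_one]
    exact h.symm
  exact Nat.ModEq.cancel_left_of_coprime hcop h1

variable [Finite W]

private theorem Frob_add (hq : q.Prime) (hT : T ^ q = 1) (hC : C ^ m = 1)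
    (hCT : C * T = T ^ r * C) (hm : 0 < m) (hrm : r ^ m ≡ 1 [MOD q])
    (hr : ∀ j, 0 < j → j < m → ¬ r ^ j ≡ 1 [MOD q]) (h0 : ∀ w, T w = w → w = 0) :
    Nat.card W = Nat.card {w // C w = w} ^ m := by
  let _ : Module ℤ[X] W := Module.compHom W (Polynomial.aeval T : ℤ[X] →ₐ[ℤ] _).toRingHom
  have hX : ∀ (k : ℕ) (w : W), (X ^ k : ℤ[X]) • w = (T ^ k) w := by
    intro k w
    change (Polynomial.aeval T (X ^ k : ℤ[X])) w = _
    rw [map_pow, Polynomial.aeval_X]
  -- the injectivity of the Vandermonde system
  have key : ∀ v : Fin m → W, (∀ j : Fin m, ∑ i : Fin m, (T ^ (r ^ (j : ℕ) * i)) (v i) = 0) →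
      v = 0 := by
    intro v hv
    refine Frob_vand (fun j : Fin m => (X ^ (r ^ (j : ℕ)) : ℤ[X])) ?_ v ?_
    · intro i j hij w hw
      rw [sub_smul, hX, hX, sub_eq_zero] at hw
      apply h0
      have hij' : (i : ℕ) ≠ j := fun h => hij (Fin.ext h)
      rcases Nat.lt_or_gt_of_ne hij' with h1 | h1
      · exact Frob_inj T hq hT (fun h => Frob_ne hq hm hrm hr h1 j.2 h.symm) hw
      · exact Frob_inj T hq hT (Frob_ne hq hm hrm hr h1 i.2) hw
    · intro j
      rw [← hv j]
      refine Finset.sum_congr rfl fun i _ => ?_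
      rw [← pow_mul, hX]
  -- the map
  let F : (Fin m → {w // C w = w}) → W := fun v => ∑ i : Fin m, (T ^ (i : ℕ)) (v i : W)
  have hfix : ∀ (j : ℕ) (w : W), C w = w → (C ^ j) w = w := by
    intro j w hw
    induction j with
    | zero => rw [pow_zero, Module.End.one_apply]
    | succ j ih => rw [pow_succ, Module.End.mul_apply, hw, ih]
  have hmodT : ∀ a b : ℕ, a ≡ b [MOD q] → T ^ a = T ^ b := by
    intro a b hab
    rw [← Nat.div_add_mod a q, ← Nat.div_add_mod b q, pow_add, pow_add, pow_mul, pow_mul, hT,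
      one_pow, one_pow, hab]
  have hF : Function.Bijective F := by
    constructor
    · intro v v' h
      have h1 : (fun i : Fin m => (v i : W) - (v' i : W)) = 0 := by
        apply key
        intro j
        have h2 : ∑ i : Fin m, (T ^ (i : ℕ)) ((v i : W) - (v' i : W)) = 0 := by
          simp only [map_sub, Finset.sum_sub_distrib]
          exact sub_eq_zero.2 h
        have h3 := congrArg (C ^ (j : ℕ)) h2
        rw [map_sum, map_zero] at h3
        rw [← h3]
        refine Finset.sum_congr rfl fun i _ => ?_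
        rw [← Module.End.mul_apply, Frob_comm' T C hCT, Module.End.mul_apply,
          hfix _ _ (by rw [map_sub, (v i).2, (v' i).2])]
      funext i
      exact Subtype.ext (sub_eq_zero.1 (congrFun h1 i))
    · intro w
      let Φ : (Fin m → W) → (Fin m → W) := fun v j => ∑ i : Fin m, (T ^ (r ^ (j : ℕ) * i)) (v i)
      have hΦ : Function.Surjective Φ := by
        refine Finite.surjective_of_injective fun v v' h => ?_
        have h1 : (fun i => v i - v' i) = 0 := by
          apply key
          intro j
          simp only [map_sub, Finset.sum_sub_distrib]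
          exact sub_eq_zero.2 (congrFun h j)
        funext i
        exact sub_eq_zero.1 (congrFun h1 i)
      obtain ⟨v, hv⟩ := hΦ fun j => (C ^ (j : ℕ)) w
      have hv' : ∀ j : ℕ, ∑ i : Fin m, (T ^ (r ^ j * i)) (v i) = (C ^ j) w := by
        intro j
        have h1 := congrFun hv ⟨j % m, Nat.mod_lt j hm⟩
        have h2 : (C ^ (j % m)) w = (C ^ j) w := by
          nth_rewrite 2 [← Nat.div_add_mod j m]
          rw [pow_add, pow_mul, hC, one_pow, one_mul]
        rw [← h2, ← h1]
        refine Finset.sum_congr rfl fun i _ => ?_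
        have h3 : T ^ (r ^ j * i) = T ^ (r ^ (j % m) * i) := by
          apply hmodT
          refine Nat.ModEq.mul_right _ ?_
          nth_rewrite 1 [← Nat.div_add_mod j m]
          rw [pow_add, pow_mul]
          simpa using ((hrm.pow (j / m)).mul_right (r ^ (j % m)))
        rw [h3]
      have hfx : (fun i => C (v i) - v i) = 0 := by
        apply key
        intro j
        simp only [map_sub, Finset.sum_sub_distrib]
        rw [hv' j, sub_eq_zero]
        -- apply the automorphism to the previous relation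
        have h1 := congrArg C (hv' (j + (m - 1)))
        rw [map_sum, ← Module.End.mul_apply, ← pow_succ',
          show (j : ℕ) + (m - 1) + 1 = j + m by omega, pow_add C, hC, mul_one] at h1
        rw [← h1]
        refine Finset.sum_congr rfl fun i _ => ?_
        symm
        rw [← Module.End.mul_apply, Frob_comm T C hCT, Module.End.mul_apply]
        have h2 : T ^ (r * (r ^ ((j : ℕ) + (m - 1)) * i)) = T ^ (r ^ (j : ℕ) * i) := by
          apply hmodT
          rw [← mul_assoc, ← pow_succ', show (j : ℕ) + (m - 1) + 1 = j + m by omega, pow_add]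
          refine Nat.ModEq.mul_right _ ?_
          simpa using (hrm.mul_left (r ^ (j : ℕ)))
        rw [h2]
      refine ⟨fun i => ⟨v i, sub_eq_zero.1 (congrFun hfx i)⟩, ?_⟩
      have h1 := hv' 0
      simp only [pow_zero, one_mul, Module.End.one_apply] at h1
      exact h1
  rw [← Nat.card_congr (Equiv.ofBijective F hF), Nat.card_fun, Nat.card_fin]

end add

/-- automorphisms as endomorphisms of the additive group -/
private def Frob_E (W : Type*) [CommGroup W] : MulAut W →* Module.End ℤ (Additive W) where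
  toFun t := (MonoidHom.toAdditive (t : W ≃* W).toMonoidHom).toIntLinearMap
  map_one' := rfl
  map_mul' _ _ := rfl

/-- **the fixed points of a complement**: `|W| = |{w | c w = w}| ^ m` -/
theorem frob_card {W : Type*} [CommGroup W] [Finite W] (t c : MulAut W) {q m r : ℕ}
    (hq : q.Prime) (ht : t ^ q = 1) (hc : c ^ m = 1) (hct : c * t * c⁻¹ = t ^ r) (hm : 0 < m)
    (hrm : r ^ m ≡ 1 [MOD q]) (hr : ∀ j, 0 < j → j < m → ¬ r ^ j ≡ 1 [MOD q])
    (h0 : ∀ w, t w = w → w = 1) : Nat.card W = Nat.card {w // c w = w} ^ m := by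
  have h1 : Frob_E W c * Frob_E W t = Frob_E W t ^ r * Frob_E W c := by
    rw [← map_mul, ← map_pow, ← map_mul, ← hct, inv_mul_cancel_right]
  exact Frob_add (W := Additive W) (Frob_E W t) (Frob_E W c) hq (by rw [← map_pow, ht, map_one])
    (by rw [← map_pow, hc, map_one]) h1 hm hrm hr h0

end Pool.Agent.CGSR
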