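import Pool.Agent.CGS.Deg
import Pool.Agent.CGS.Lin

/-!
# Facts on simple groups, and the number of classes of a degree read off the group algebra
-/

set_option autoImplicit false

namespace Pool.Agent.CGSR

open Matrix Pool.Agent.CGS

/-- a simple group whose order is divisible by the prime `q` and without subgroups of index `q` has
no proper subgroups of index at most `q` -/
theorem simple_hJ {K : Type} [Group K] [Finite K] [IsSimpleGroup K]
    (_hnc : ∃ x y : K, x * y ≠ y * x) {q : ℕ} (hq : q.Prime) (hqK : q ∣ Nat.card K)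
    (hno : ∀ J : Subgroup K, J.index ≠ q) : ∀ J : Subgroup K, J.index ≤ q → J = ⊤ := by
  intro J hJ
  rcases Subgroup.Normal.eq_bot_or_eq_top J.normalCore_normal with h | h
  · exfalso
    have h1 : q ∣ Nat.card (Equiv.Perm (K ⧸ J)) := by
      have h2 : Nat.card K = J.normalCore.index := by rw [h, Subgroup.index_bot]
      rw [h2, Subgroup.normalCore_eq_ker, Subgroup.index_ker] at hqK
      exact hqK.trans (Subgroup.card_subgroup_dvd_card _)
    rw [Nat.card_perm] at h1
    have h3 : q ≤ J.index := (Nat.Prime.dvd_factorial hq).1 h1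
    exact hno J (le_antisymm hJ h3)
  · rw [eq_top_iff, ← h]
    exact J.normalCore_le

/-- a nonabelian simple group has one class of degree one -/
theorem simple_N_one {K : Type} [Group K] [Finite K] [IsSimpleGroup K]
    (hnc : ∃ x y : K, x * y ≠ y * x) : N K 1 = 1 := by
  rw [N_one]
  have hn : (commutator K).Normal := inferInstance
  rcases Subgroup.Normal.eq_bot_or_eq_top hn with h | h
  · exfalso
    obtain ⟨x, y, hxy⟩ := hnc
    have h1 : x * y * x⁻¹ * y⁻¹ ∈ commutator K :=
      Subgroup.commutator_mem_commutator (Subgroup.mem_top x) (Subgroup.mem_top y)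
    rw [h, Subgroup.mem_bot] at h1
    apply hxy
    have h2 : x * y * x⁻¹ = y := mul_inv_eq_one.1 h1
    exact mul_inv_eq_iff_eq_mul.1 h2
  · rw [h, Subgroup.index_top]

/-- the number of classes of degree `d` is the number of factors `M_d(ℂ)` in any decomposition of
the group algebra into full matrix algebras -/
theorem N_eq_card {K : Type} [Group K] [Finite K] {n : ℕ} (δ : Fin n → ℕ) (hδ : ∀ i, 0 < δ i)
    (h : Nonempty (MonoidAlgebra ℂ K ≃ₐ[ℂ] (∀ i, Matrix (Fin (δ i)) (Fin (δ i)) ℂ))) (d : ℕ) :
    N K d = Nat.card {i // δ i = d} := by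
  obtain ⟨e⟩ := h
  unfold N
  rcases Nat.eq_zero_or_pos d with rfl | hd
  · have h1 : IsEmpty (Cls K 0) :=
      ⟨fun c => cls_ind (q := fun _ => False) (fun _ h => absurd h.pos (lt_irrefl 0)) c⟩
    have h2 : IsEmpty {i // δ i = 0} := ⟨fun i => (hδ i.1).ne' i.2⟩
    rw [Nat.card_of_isEmpty, Nat.card_of_isEmpty]
  · obtain ⟨e1⟩ := aCls_monoidAlgebra K hd
    obtain ⟨e2⟩ := aCls_congr e d
    obtain ⟨e3⟩ := aCls_pi δ hδ hd
    exact Nat.card_congr (e1.symm.trans (e2.trans e3))

end Pool.Agent.CGSR
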