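import Pool.Agent.CGSR.MonoR

/-!
# The linear characters of `K`, `T` and `L`

Notation of `MonoT`.  The number of linear characters of `T` is `m` times the number of linear
characters of `L` fixed by `c`; the number of linear characters of `K` is the number of stable
linear characters of `T`, which is `m` times the number of linear characters of `L` fixed by `t` and
by `c`.
-/

set_option autoImplicit false

namespace Pool.Agent.CGSR

open Matrix Pool.Agent.CGS

/-- the transfer of a linear character with equal values on conjugate elements -/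
theorem transfer_eq_pow_index {K A : Type} [Group K] [CommGroup A] (T : Subgroup K)
    [T.FiniteIndex] (φ : T →* A)
    (hst : ∀ (x y : T) (g : K), (y : K) = g⁻¹ * x * g → φ y = φ x) (x : T) :
    MonoidHom.transfer φ (x : K) = φ x ^ T.index := by
  classical
  let _ := T.fintypeQuotientOfFiniteIndex
  rw [MonoidHom.transfer_eq_prod_quotient_orbitRel_zpowers_quot,
    Subgroup.index_eq_sum_minimalPeriod T (x : K), ← Finset.prod_pow_eq_pow_sum]
  refine Finset.prod_congr rfl fun o _ => ?_
  rw [← map_pow]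
  exact hst (x ^ _) _ o.out.out rfl

/-- the linear characters of `L` fixed by conjugation with `g` -/
def FixC {K : Type} [Group K] (L : Subgroup K) (g : K) (l : L →* ℂˣ) : Prop :=
  ∀ x y : L, (y : K) = g * x * g⁻¹ → l y = l x

section FD

variable {K : Type} [Group K] [Finite K] {L T : Subgroup K} {t c : K} {q m r : ℕ}

omit [Finite K] in
private theorem HomT_pow [L.Normal] (hLT : L ≤ T) {μ : T →* ℂˣ} (hμ : StT L T t μ) (i : ℕ) :
    StT L T (t ^ i) μ := by
  rw [stT_iff hLT] at hμ ⊢
  exact pow_mem hμ i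

omit [Finite K] in
/-- a stable linear character of `T` has equal values on conjugate elements -/
private theorem FD.stable [L.Normal] (h : FD L T t c q m r) (hq : q.Prime) {μ : T →* ℂˣ}
    (hμ : StT L T t μ) (x y : T) (g : K) (hxy : (y : K) = g⁻¹ * x * g) : μ y = μ x := by
  obtain ⟨i, z, hz, rfl⟩ := h.gen g
  -- reduction to the powers of `t`
  obtain ⟨y', hy'⟩ : ∃ y' : T, y' = ⟨z, hz⟩ * y * ⟨z, hz⟩⁻¹ := ⟨_, rfl⟩
  have h1 : μ y' = μ y := by
    rw [hy', map_mul, map_mul, map_inv, mul_right_comm, mul_inv_cancel, one_mul]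
  have h2 : (y' : K) = (t ^ i)⁻¹ * x * t ^ i := by
    rw [hy']
    change z * (y : K) * z⁻¹ = _
    rw [hxy]
    group
  rw [← h1]
  by_cases hi : q ∣ i
  · obtain ⟨j, rfl⟩ := hi
    rw [pow_mul, h.tq, one_pow, inv_one, one_mul, mul_one] at h2
    rw [Subtype.ext h2]
  · -- the element is in `L`
    have hxL : (x : K) ∈ L := by
      obtain ⟨j, n, hn, hx⟩ := h.memT x x.2
      have h3 : m ∣ j := by
        have hq' : Fact q.Prime := ⟨hq⟩
        have ct : (c : K ⧸ L) * (t : K ⧸ L) * (c : K ⧸ L)⁻¹ = (t : K ⧸ L) ^ r := by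
          have h4 : ((t ^ r : K) : K ⧸ L) = ((c * t * c⁻¹ : K) : K ⧸ L) := QuotientGroup.eq.2 h.ct
          exact h4.symm
        have tqQ : (t : K ⧸ L) ^ q = 1 := by
          rw [← QuotientGroup.mk_pow, h.tq]
          rfl
        have hcj : ∀ j k : ℕ, (c : K ⧸ L) ^ j * (t : K ⧸ L) ^ k =
            (t : K ⧸ L) ^ (r ^ j * k) * (c : K ⧸ L) ^ j := by
          have hc1 : ∀ k : ℕ, (c : K ⧸ L) * (t : K ⧸ L) ^ k =
              (t : K ⧸ L) ^ (r * k) * (c : K ⧸ L) := by
            intro k
            rw [← mul_inv_eq_iff_eq_mul, ← conj_pow, ct, pow_mul]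
          intro j
          induction j with
          | zero => intro k; rw [pow_zero, pow_zero, one_mul, one_mul, mul_one]
          | succ j ih =>
            intro k
            rw [pow_succ', mul_assoc, ih, ← mul_assoc, hc1, mul_assoc, pow_succ' r, mul_assoc r]
        have hmapT : ∀ u : K, ((u : K ⧸ L) ∈ T.map (QuotientGroup.mk' L)) ↔ u ∈ T := by
          intro u
          constructor
          · rintro ⟨w, hw, hwu⟩
            have h5 : w⁻¹ * u ∈ L := QuotientGroup.eq.1 hwu
            have h6 := T.mul_mem hw (h.LT h5)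
            rwa [mul_inv_cancel_left] at h6
          · exact fun hu => ⟨u, hu, rfl⟩
        have hbar : (x : K ⧸ L) = (c : K ⧸ L) ^ j := by
          rw [hx, ← QuotientGroup.mk_pow]
          refine (QuotientGroup.eq.2 ?_).symm
          rw [inv_mul_cancel_left]
          exact hn
        have h4 : ((t : K ⧸ L) ^ i)⁻¹ * (t : K ⧸ L) ^ (r ^ j * i) ∈
            T.map (QuotientGroup.mk' L) := by
          have h5 : ((y' : K) : K ⧸ L) ∈ T.map (QuotientGroup.mk' L) := (hmapT _).2 y'.2
          have h6 : ((y' : K) : K ⧸ L) =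
              ((t : K ⧸ L) ^ i)⁻¹ * (t : K ⧸ L) ^ (r ^ j * i) * (c : K ⧸ L) ^ j := by
            rw [h2]
            change ((t : K ⧸ L) ^ i)⁻¹ * ((x : K) : K ⧸ L) * (t : K ⧸ L) ^ i = _
            rw [hbar, mul_assoc, hcj, ← mul_assoc]
          rw [h6] at h5
          have h7 : (c : K ⧸ L) ^ j ∈ T.map (QuotientGroup.mk' L) := by
            rw [← QuotientGroup.mk_pow]
            exact (hmapT _).2 (T.pow_mem h.cT j)
          have h8 := mul_mem h5 (inv_mem h7)
          rwa [mul_inv_cancel_right] at h8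
        have h5 : ((t : K ⧸ L) ^ i)⁻¹ * (t : K ⧸ L) ^ (r ^ j * i) =
            (t : K ⧸ L) ^ ((q - 1) * i + r ^ j * i) := by
          rw [inv_mul_eq_iff_eq_mul, ← pow_add]
          apply pow_eq_of_modEq tqQ
          have h6 : i + ((q - 1) * i + r ^ j * i) = q * i + r ^ j * i := by
            obtain ⟨a, ha⟩ : ∃ a, q = a + 1 := ⟨q - 1, by have := hq.pos; omega⟩
            rw [ha, Nat.add_sub_cancel]
            ring
          rw [h6]
          simp [Nat.ModEq]
        rw [h5, pow_mem_iff hq tqQ (fun h6 => h.tT ((hmapT _).1 h6)),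
          ← ZMod.natCast_eq_zero_iff] at h4
        rw [Nat.cast_add, Nat.cast_mul, Nat.cast_mul, Nat.cast_sub hq.pos, Nat.cast_one,
          CharP.cast_eq_zero, ← add_mul, zero_sub, neg_add_eq_sub, Nat.cast_pow] at h4
        rcases mul_eq_zero.1 h4 with h6 | h6
        · rw [← h.ord]
          exact orderOf_dvd_of_pow_eq_one (sub_eq_zero.1 h6)
        · exact absurd ((ZMod.natCast_eq_zero_iff _ _).1 h6) hi
      rw [hx]
      exact L.mul_mem ((h.cm j).2 h3) hn
    have h3 : (y' : K) ∈ L := by
      rw [h2]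
      have h4 := ‹L.Normal›.conj_mem (x : K) hxL (t ^ i)⁻¹
      rwa [inv_inv] at h4
    refine (HomT_pow h.LT hμ i y' x h3 ?_).symm
    rw [h2]
    group

/-- **the linear characters of `K` are the stable linear characters of `T`** -/
theorem FD.card_stable (h : FD L T t c q m r) (hq : q.Prime) :
    Nat.card {μ : T →* ℂˣ // StT L T t μ} = (commutator K).index := by
  have hn := h.nL
  have hq' : Fact q.Prime := ⟨hq⟩
  rw [← card_hom K]
  symm
  have hcopT : (Nat.card T).Coprime q := by
    have h1 : Nat.card T = Nat.card L * m := by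
      have h2 := Subgroup.card_mul_index L
      have h3 := Subgroup.card_mul_index T
      rw [h.indexT hq] at h3
      rw [h.indexL hq, ← h3, ← mul_assoc] at h2
      exact (Nat.eq_of_mul_eq_mul_right hq.pos h2).symm
    rw [h1]
    refine Nat.Coprime.mul_left ?_ ?_
    · rw [Nat.coprime_comm, Nat.Prime.coprime_iff_not_dvd hq]
      exact h.qL
    · rw [Nat.coprime_comm, Nat.Prime.coprime_iff_not_dvd hq]
      intro h2
      have h4 : orderOf (r : ZMod q) ∣ q - 1 := by
        apply orderOf_dvd_of_pow_eq_one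
        apply ZMod.pow_card_sub_one_eq_one
        intro h5
        have h6 := h.ord
        have h7 := h.m1
        rw [h5, orderOf_zero] at h6
        omega
      rw [h.ord] at h4
      have h5 := Nat.le_of_dvd (by have := hq.one_lt; omega) (h2.trans h4)
      have := hq.pos
      omega
  refine Nat.card_congr (Equiv.ofBijective
    (fun χ : K →* ℂˣ => (⟨χ.comp T.subtype, ?_⟩ : {μ : T →* ℂˣ // StT L T t μ})) ⟨?_, ?_⟩)
  · intro x y _ hy
    change χ (y : K) = χ (x : K)
    rw [hy, map_mul, map_mul, map_inv, mul_right_comm, mul_inv_cancel, one_mul]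
  · intro χ χ' hχ
    have h0 : ∀ x ∈ T, χ x = χ' x := fun x hx =>
      DFunLike.congr_fun (congrArg Subtype.val hχ) (⟨x, hx⟩ : T)
    -- the quotient of the two characters
    have h1 : (χ * χ'⁻¹) t = 1 := by
      have h2 : (χ * χ'⁻¹) ((t ^ r)⁻¹ * (c * t * c⁻¹)) = 1 := by
        have h3 := h0 _ (h.LT h.ct)
        rw [MonoidHom.mul_apply, MonoidHom.inv_apply, h3, mul_inv_cancel]
      rw [map_mul, map_inv, map_mul, map_mul, map_inv, mul_right_comm ((χ * χ'⁻¹) c),
        mul_inv_cancel, one_mul, map_pow, inv_mul_eq_one] at h2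
      have h3 : (χ * χ'⁻¹) t ^ q = 1 := by rw [← map_pow, h.tq, map_one]
      by_contra hne
      have h4 := orderOf_eq_prime h3 hne
      have h5 : (χ * χ'⁻¹) t ^ r = (χ * χ'⁻¹) t ^ 1 := by rw [h2, pow_one]
      have h6 := pow_eq_pow_iff_modEq.1 h5
      rw [h4, ← ZMod.natCast_eq_natCast_iff, Nat.cast_one] at h6
      have h7 := h.ord
      have h8 := h.m1
      rw [h6, orderOf_one] at h7
      omega
    have h2 : χ t = χ' t := by
      rw [MonoidHom.mul_apply, MonoidHom.inv_apply, mul_inv_eq_one] at h1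
      exact h1
    refine MonoidHom.ext fun g => ?_
    obtain ⟨i, x, hx, rfl⟩ := h.gen g
    rw [map_mul, map_mul, map_pow, map_pow, h2, h0 x hx]
  · rintro ⟨μ, hμ⟩
    obtain ⟨k, hk⟩ : ∃ k, ∀ x : T, (μ x ^ q) ^ k = μ x := by
      rcases Nat.lt_or_ge 1 (Nat.card T) with h1 | h1
      · obtain ⟨k, -, hk⟩ := Nat.exists_mul_mod_eq_one_of_coprime hcopT.symm h1
        refine ⟨k, fun x => ?_⟩
        rw [← pow_mul, ← Nat.div_add_mod (q * k) (Nat.card T), hk, pow_add, pow_mul, ← map_pow,
          pow_card_eq_one', map_one, one_pow, pow_one, one_mul]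
      · refine ⟨1, fun x => ?_⟩
        have h2 : Nat.card T = 1 := le_antisymm h1 Nat.card_pos
        have h3 : x = 1 := by
          have := (Nat.card_eq_one_iff_unique.1 h2).1
          exact Subsingleton.elim _ _
        rw [h3, map_one, one_pow, one_pow]
    refine ⟨(MonoidHom.transfer μ) ^ k, Subtype.ext (MonoidHom.ext fun x => ?_)⟩
    change (MonoidHom.transfer μ (x : K)) ^ k = μ x
    rw [transfer_eq_pow_index T μ (fun x y g => h.stable hq hμ x y g) x, h.indexT hq, hk]

end FD

end Pool.Agent.CGSR
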