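import Pool.Agent.CGS.ResB
import Pool.Agent.CGS.Ops

/-!
# The 2-residual of a finite group as a subgroup

`exists_res`: the smallest normal subgroup of 2-power index.  `res_congr`: for two groups with
isomorphic complex group algebras the 2-residuals have the same order and the same masses.
-/

set_option autoImplicit false

namespace Pool.Agent.CGSR

open Pool.Agent.CGS

theorem noIdx2_of_equiv {A B : Type} [Group A] [Group B] (e : A ≃* B) (h : NoIdx2 A) :
    NoIdx2 B :=
  h.of_surjective e.toMonoidHom e.surjective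

theorem MS_equiv {A B : Type} [Group A] [Group B] (e : A ≃* B) (d : ℕ) : MS A d = MS B d := by
  unfold MS
  rw [Nat.card_congr e.toEquiv]
  exact Finset.sum_congr rfl fun i _ => by rw [N_congr_mulEquiv e]

theorem noIdx2_map {A B : Type} [Group A] [Group B] (f : A →* B) (Z : Subgroup A)
    (h : NoIdx2 Z) : NoIdx2 (Z.map f) := by
  refine h.of_surjective (f.subgroupMap Z) (f.subgroupMap_surjective Z)

theorem le_of_noIdx2 {G : Type} [Group G] (Y : Subgroup G) (hY : Y.index = 2) (Z : Subgroup G)
    (hZ : NoIdx2 Z) : Z ≤ Y := by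
  have hn : Y.Normal := Subgroup.normal_of_index_eq_two hY
  have h1 : Y.relIndex Z ∣ 2 := by
    rw [← hY]
    exact Subgroup.relIndex_dvd_index_of_normal Y Z
  rcases (Nat.dvd_prime Nat.prime_two).1 h1 with h2 | h2
  · exact Subgroup.relIndex_eq_one.1 h2
  · exact absurd h2 (hZ (Y.subgroupOf Z))

/-- the 2-residual -/
structure IsRes {G : Type} [Group G] (R : Subgroup G) (a : ℕ) : Prop where
  normal : R.Normal
  noIdx2 : NoIdx2 R
  index : R.index = 2 ^ a
  max : ∀ Z : Subgroup G, NoIdx2 Z → Z ≤ R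
  mass : ∀ e, Odd e → MS G e = 2 ^ a * MS R e

theorem exists_res (n : ℕ) : ∀ (G : Type) [Group G] [Finite G], Nat.card G = n →
    ∃ (R : Subgroup G) (a : ℕ), IsRes R a := by
  induction n using Nat.strong_induction_on with
  | _ n ih =>
    intro G _ _ hG
    by_cases hN : NoIdx2 G
    · refine ⟨⊤, 0, ⟨inferInstance, noIdx2_of_equiv Subgroup.topEquiv.symm hN, ?_, ?_, ?_⟩⟩
      · rw [Subgroup.index_top, pow_zero]
      · intro Z _
        exact le_top
      · intro e _
        rw [pow_zero, one_mul]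
        exact MS_equiv Subgroup.topEquiv.symm e
    · unfold NoIdx2 at hN
      push Not at hN
      obtain ⟨Y, hY⟩ := hN
      have hc : Nat.card Y * 2 = Nat.card G := by
        rw [← hY]
        exact Y.card_mul_index
      have hpos : 0 < Nat.card Y := Nat.card_pos
      obtain ⟨R, a, hR⟩ := ih (Nat.card Y) (by omega) Y rfl
      have hmax : ∀ Z : Subgroup G, NoIdx2 Z → Z ≤ R.map Y.subtype := by
        intro Z hZ
        have hle : Z ≤ Y := le_of_noIdx2 Y hY Z hZ
        have h1 : NoIdx2 (Z.subgroupOf Y) :=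
          noIdx2_of_equiv (Subgroup.subgroupOfEquivOfLe hle).symm hZ
        have h2 := Subgroup.map_mono (f := Y.subtype) (hR.max _ h1)
        rwa [Subgroup.subgroupOf_map_subtype, inf_eq_left.2 hle] at h2
      have hno : NoIdx2 (R.map Y.subtype) := noIdx2_map Y.subtype R hR.noIdx2
      refine ⟨R.map Y.subtype, a + 1, ⟨⟨fun x hx g => ?_⟩, hno, ?_, hmax, ?_⟩⟩
      · have h1 : NoIdx2 ((R.map Y.subtype).map (MulAut.conj g).toMonoidHom) :=
          noIdx2_map _ _ hno
        exact hmax _ h1 ⟨x, hx, rfl⟩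
      · rw [Subgroup.index_map_subtype, hR.index, hY, pow_succ]
      · intro e he
        have e1 : R ≃* R.map Y.subtype := R.equivMapOfInjective Y.subtype Y.subtype_injective
        rw [MS_index_two Y hY he, hR.mass e he, MS_equiv e1, pow_succ]
        ring

theorem odd_MS_one {C : Type} [Group C] [Finite C] (hC : NoIdx2 C) : Odd (MS C 1) := by
  have h1 : MS C 1 ≡ N C 1 [MOD 4] := MS_modEq C odd_one
  rw [N_one] at h1
  have h2 := hC.odd_index_commutator
  have h3 : MS C 1 ≡ (commutator C).index [MOD 2] := h1.of_dvd (by norm_num)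
  rw [Nat.odd_iff] at h2 ⊢
  exact (show MS C 1 % 2 = (commutator C).index % 2 from h3).trans h2

theorem pow_odd_unique {a b x y : ℕ} (hx : Odd x) (hy : Odd y)
    (h : 2 ^ a * x = 2 ^ b * y) : a = b := by
  have key : ∀ {a b x y : ℕ}, Odd x → 2 ^ a * x = 2 ^ b * y → ¬ a < b := by
    intro a b x y hx h hab
    obtain ⟨c, rfl⟩ := Nat.exists_eq_add_of_lt hab
    have h1 : x = 2 * (2 ^ c * y) := by
      refine Nat.eq_of_mul_eq_mul_left (Nat.two_pow_pos a) ?_
      rw [h, pow_succ, pow_add]
      ring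
    exact (Nat.not_even_iff_odd.2 hx) (even_iff_two_dvd.2 ⟨_, h1⟩)
  rcases lt_trichotomy a b with h1 | h1 | h1
  · exact absurd h1 (key hx h)
  · exact h1
  · exact absurd h1 (key hy h.symm)

/-- the 2-residuals of two groups with isomorphic complex group algebras -/
theorem res_congr {G H : Type} [Group G] [Group H] [Finite G] [Finite H]
    (e : Nonempty (MonoidAlgebra ℂ G ≃ₐ[ℂ] MonoidAlgebra ℂ H)) :
    ∃ (A : Subgroup G) (B : Subgroup H) (a : ℕ), IsRes A a ∧ IsRes B a ∧
      Nat.card A = Nat.card B ∧ ∀ d, Odd d → MS A d = MS B d := by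
  have hcard : Nat.card G = Nat.card H := card_congr e
  have hMS : ∀ d, MS G d = MS H d := by
    intro d
    unfold MS
    rw [hcard]
    exact Finset.sum_congr rfl fun i _ => by rw [N_congr e]
  obtain ⟨A, a, hA⟩ := exists_res _ G rfl
  obtain ⟨B, b, hB⟩ := exists_res _ H rfl
  have hab : a = b := by
    refine pow_odd_unique (odd_MS_one hA.noIdx2) (odd_MS_one hB.noIdx2) ?_
    rw [← hA.mass 1 odd_one, ← hB.mass 1 odd_one, hMS 1]
  subst hab
  refine ⟨A, B, a, hA, hB, ?_, fun d hd => ?_⟩
  · have h1 := A.card_mul_index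
    have h2 := B.card_mul_index
    rw [hA.index] at h1
    rw [hB.index] at h2
    exact Nat.eq_of_mul_eq_mul_right (Nat.two_pow_pos a) (by rw [h1, h2, hcard])
  · refine Nat.eq_of_mul_eq_mul_left (Nat.two_pow_pos a) ?_
    rw [← hA.mass d hd, ← hB.mass d hd, hMS d]

end Pool.Agent.CGSR
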