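import Pool.Agent.CGS.VZ
import Pool.Agent.CGS.Cliff
import Pool.Agent.CGSR.Res

/-!
# Masses

* `mass_two`: if `Y` has index two in `G` and no irreducible representations of degree two then
  `2 * N Y 1 = N G 1 + 4 * N G 2`.
* `MS_mod_sixteen`: `MS B 1 ≡ N B 1 + 4 * N B 2` modulo 16.
-/

set_option autoImplicit false

namespace Pool.Agent.CGSR

open Matrix Pool.Agent.CGS

private theorem alg_ind {H : Type} [Group H] {p : MonoidAlgebra ℂ H → Prop}
    (h1 : ∀ g, p (MonoidAlgebra.of ℂ H g)) (h2 : ∀ a b, p a → p b → p (a + b))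
    (h3 : ∀ (c : ℂ) a, p a → p (c • a)) (a : MonoidAlgebra ℂ H) : p a := by
  refine MonoidAlgebra.induction_linear a ?_ h2 ?_
  · have h4 := h3 0 _ (h1 1)
    rwa [zero_smul] at h4
  · intro g c
    have h4 := h3 c _ (h1 g)
    rwa [MonoidAlgebra.of_apply, MonoidAlgebra.smul_single, smul_eq_mul, mul_one] at h4

theorem mass_two {G : Type} [Group G] [Finite G] (Y : Subgroup G) (hY : Y.index = 2)
    (hN : N Y 2 = 0) : 2 * N Y 1 = N G 1 + 4 * N G 2 := by
  classical
  have hn : Y.Normal := Subgroup.normal_of_index_eq_two hY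
  have hno : ∀ τ : Rep Y 2, ¬ IsIrr τ := by
    intro τ hτ
    have hfin : Finite (Cls Y 2) := finite_cls Y 2
    have hne : Nonempty (Cls Y 2) := ⟨mk τ hτ⟩
    have := Nat.card_pos (α := Cls Y 2)
    unfold N at hN
    omega
  obtain ⟨z, hz, cz⟩ := exists_z_exact Y (e := 1) one_pos
  have hcomm : ∀ s : G, MonoidAlgebra.of ℂ G s * inc Y z = inc Y z * MonoidAlgebra.of ℂ G s := by
    refine z_conj_normal Y (fun d => if d = 1 then 1 else 0) fun d τ hτ => ?_
    rw [hz d τ hτ]
    by_cases h : d = 1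
    · rw [if_pos h, if_pos h, one_smul]
    · rw [if_neg h, if_neg h, zero_smul]
  have key : ∀ (d : ℕ) (ρ : Rep G d), IsIrr ρ → ∃ d' : ℕ,
      lift ρ (inc Y z) = (if d' = 1 then 1 else 0) ∧ (d = d' ∨ d = 2 * d') ∧ d' ≠ 2 := by
    intro d ρ h
    obtain ⟨d', τ, T, hτ, hT, hTx, hcase⟩ := exists_sub Y hY h
    refine ⟨d', ?_, hcase, ?_⟩
    · obtain ⟨k, hk⟩ := schur h (lift ρ (inc Y z)) (fun g => by
        rw [← lift_of, ← map_mul, ← map_mul, hcomm])
      have h1 : ∀ a : MonoidAlgebra ℂ Y, lift ρ (inc Y a) * T = T * lift τ a := by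
        intro a
        refine alg_ind (p := fun a => lift ρ (inc Y a) * T = T * lift τ a) ?_ ?_ ?_ a
        · intro y
          rw [inc_of, lift_of, lift_of]
          exact hTx y
        · intro a b ha hb
          rw [map_add, map_add, map_add, Matrix.add_mul, Matrix.mul_add, ha, hb]
        · intro c a ha
          rw [map_smul, map_smul, map_smul, Matrix.smul_mul, Matrix.mul_smul, ha]
      have h2 := h1 z
      rw [hk, hz d' τ hτ, Matrix.smul_mul, Matrix.one_mul] at h2
      by_cases hd : d' = 1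
      · rw [if_pos hd, Matrix.mul_one] at h2
        rw [if_pos hd, hk]
        have h4 : (k - 1) • T = 0 := by rw [sub_smul, one_smul, h2, sub_self]
        rw [sub_eq_zero.1 ((smul_eq_zero.1 h4).resolve_right hT), one_smul]
      · rw [if_neg hd, Matrix.mul_zero] at h2
        rw [if_neg hd, hk, (smul_eq_zero.1 h2).resolve_right hT, zero_smul]
    · rintro rfl
      exact hno τ hτ
  have hform := coeff_formula (inc Y z) (fun d _ => d = 1 ∨ d = 2)
    (by
      intro d ρ h hq
      obtain ⟨d', h1, h2, h3⟩ := key d ρ h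
      have hd : d = 1 ∨ d = 2 := hq
      rw [h1, if_pos]
      omega)
    (by
      intro d ρ h hq
      obtain ⟨d', h1, h2, h3⟩ := key d ρ h
      have hd : ¬ (d = 1 ∨ d = 2) := hq
      rw [h1, if_neg]
      omega)
  have hcard : Nat.card G = 2 * Nat.card Y := by
    rw [← Y.card_mul_index, hY, mul_comm]
  have hterm : ∀ d : ℕ, (d : ℂ) ^ 2 * (Nat.card {_c : Cls G d // d = 1 ∨ d = 2} : ℂ) =
      (if d = 1 then (N G 1 : ℂ) else 0) + (if d = 2 then 4 * (N G 2 : ℂ) else 0) := by
    intro d
    by_cases h1 : d = 1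
    · subst h1
      rw [if_pos rfl, if_neg (by omega), add_zero, Nat.cast_one, one_pow, one_mul]
      unfold N
      congr 1
      exact Nat.card_congr (Equiv.subtypeUnivEquiv fun c => Or.inl rfl)
    · by_cases h2 : d = 2
      · subst h2
        rw [if_neg h1, if_pos rfl, zero_add]
        unfold N
        have h3 : Nat.card {_c : Cls G 2 // 2 = 1 ∨ 2 = 2} = Nat.card (Cls G 2) :=
          Nat.card_congr (Equiv.subtypeUnivEquiv fun c => Or.inr rfl)
        rw [h3]
        push_cast
        ring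
      · rw [if_neg h1, if_neg h2, add_zero]
        have h4 : IsEmpty {_c : Cls G d // d = 1 ∨ d = 2} :=
          ⟨fun c => by
            rcases c.2 with h | h
            · exact h1 h
            · exact h2 h⟩
        rw [Nat.card_of_isEmpty, Nat.cast_zero, mul_zero]
  have hpos : 0 < Nat.card Y := Nat.card_pos
  have hc : (if 1 ∈ Finset.range (Nat.card G + 1) then (N G 1 : ℂ) else 0) = (N G 1 : ℂ) :=
    if_pos (by rw [Finset.mem_range]; omega)
  have hc2 : (if 2 ∈ Finset.range (Nat.card G + 1) then 4 * (N G 2 : ℂ) else 0) =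
      4 * (N G 2 : ℂ) :=
    if_pos (by rw [Finset.mem_range]; omega)
  rw [coeff_inc, hcard, Finset.sum_congr rfl fun d _ => hterm d, Finset.sum_add_distrib,
    Finset.sum_ite_eq', Finset.sum_ite_eq', ← hcard, hc, hc2, hcard] at hform
  have hfin : (2 : ℂ) * (N Y 1 : ℂ) = (N G 1 : ℂ) + 4 * (N G 2 : ℂ) := by
    push_cast at hform cz
    linear_combination hform - 2 * cz
  exact_mod_cast hfin

theorem MS_mod_sixteen (B : Type) [Group B] [Finite B] :
    MS B 1 ≡ N B 1 + 4 * N B 2 [MOD 16] := by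
  classical
  rw [← ZMod.natCast_eq_natCast_iff]
  unfold MS
  rw [Nat.cast_sum]
  have h16 : (16 : ZMod 16) = 0 := rfl
  have h1 : ∀ d ∈ (Finset.range (Nat.card B + 1)).filter
      (fun d => d / 2 ^ d.factorization 2 = 1), ((d ^ 2 * N B d : ℕ) : ZMod 16) =
        (if d = 1 then ((N B 1 : ℕ) : ZMod 16) else 0) +
        (if d = 2 then ((4 * N B 2 : ℕ) : ZMod 16) else 0) := by
    intro d hd
    rw [Finset.mem_filter] at hd
    have hpow : d = 2 ^ d.factorization 2 := by
      have h2 := Nat.ordProj_mul_ordCompl_eq_self d 2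
      rw [hd.2, mul_one] at h2
      exact h2.symm
    obtain ⟨k, hk⟩ : ∃ k, d.factorization 2 = k := ⟨_, rfl⟩
    rw [hk] at hpow
    rcases k with _ | _ | k
    · have h3 : d = 1 := by rw [hpow]; rfl
      rw [if_pos h3, if_neg (by omega), h3, one_pow, one_mul, add_zero]
    · have h3 : d = 2 := by rw [hpow]; rfl
      rw [if_neg (by omega), if_pos h3, h3, zero_add]
      norm_num
    · have h3 : d = 4 * 2 ^ k := by
        rw [hpow, pow_succ, pow_succ]
        ring
      have h4 : 0 < 2 ^ k := Nat.two_pow_pos k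
      rw [if_neg (by omega), if_neg (by omega), h3]
      push_cast
      have h5 : ((4 : ZMod 16) * 2 ^ k) ^ 2 = 16 * (2 ^ k) ^ 2 := by ring
      rw [h5, h16, zero_mul, zero_mul, add_zero]
  rw [Finset.sum_congr rfl h1, Finset.sum_add_distrib, Finset.sum_ite_eq', Finset.sum_ite_eq']
  have hB : 0 < Nat.card B := Nat.card_pos
  have e1 : (1 : ℕ) / 2 ^ (Nat.factorization 1) 2 = 1 := by simp
  have e2 : (2 : ℕ) / 2 ^ (Nat.factorization 2) 2 = 1 := by
    rw [Nat.Prime.factorization_self Nat.prime_two]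
    norm_num
  have m1 : (1 : ℕ) ∈ (Finset.range (Nat.card B + 1)).filter
      (fun d => d / 2 ^ d.factorization 2 = 1) := by
    rw [Finset.mem_filter, Finset.mem_range]
    exact ⟨by omega, e1⟩
  rw [if_pos m1]
  split_ifs with m2
  · push_cast
    rfl
  · have h2 : N B 2 = 0 := by
      rw [Finset.mem_filter, Finset.mem_range, not_and_or] at m2
      rcases m2 with m2 | m2
      · exact N_eq_zero B (by omega)
      · exact absurd e2 m2
    rw [h2]
    push_cast
    ring

end Pool.Agent.CGSR
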