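import Pool.Agent.CGSR.MonoT
import Pool.Agent.CGS.Lin

/-!
# The classes of degree `q` and the linear characters of `T`

Notation of `MonoT`.  Every irreducible representation of degree `q` of `K` has exactly one
one-dimensional subspace stable under `T`; the corresponding linear character of `T` is not stable,
that is, its restriction to `L` is not fixed by `t`; it determines the representation, and every
linear character of `T` which is not stable occurs.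
-/

set_option autoImplicit false

namespace Pool.Agent.CGSR

open Matrix Pool.Agent.CGS

/-- vectors with pairwise different weights are independent -/
theorem indep_of_weights {X : Type} [Group X] (N₀ : Subgroup X) {d : ℕ} (ρ : Rep X d)
    {ι : Type} (v : ι → (Fin d → ℂ)) (l : ι → (N₀ →* ℂ)) (hl : Function.Injective l)
    (hv0 : ∀ i, v i ≠ 0) (hv : ∀ i, ∀ n : N₀, mat ρ (n : X) *ᵥ v i = l i n • v i) :
    LinearIndependent ℂ v := by
  rw [linearIndependent_iff']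
  intro s g hg i hi
  have hchar : LinearIndependent ℂ (fun i : ι => ((l i : N₀ →* ℂ) : N₀ → ℂ)) :=
    (linearIndependent_monoidHom N₀ ℂ).comp _ hl
  obtain ⟨a, ha⟩ : ∃ a, v i a ≠ 0 := by
    by_contra hcon
    push Not at hcon
    exact hv0 i (funext hcon)
  have h1 : ∑ j ∈ s, (g j * v j a) • ((l j : N₀ →* ℂ) : N₀ → ℂ) = 0 := by
    funext n
    have h2 := congrArg (fun w => (mat ρ (n : X) *ᵥ w) a) hg
    simp only [Matrix.mulVec_zero, Pi.zero_apply] at h2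
    rw [Matrix.mulVec_sum, Finset.sum_apply] at h2
    rw [Finset.sum_apply, Pi.zero_apply, ← h2]
    refine Finset.sum_congr rfl fun j _ => ?_
    rw [Matrix.mulVec_smul, hv, Pi.smul_apply, Pi.smul_apply, Pi.smul_apply, smul_eq_mul,
      smul_eq_mul, smul_eq_mul]
    ring
  have h2 := (linearIndependent_iff'.1 hchar) s _ h1 i hi
  exact (mul_eq_zero.1 h2).resolve_right ha

theorem mulVec_ne_zero {X : Type} [Group X] {d : ℕ} (ρ : Rep X d) (g : X) {w : Fin d → ℂ}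
    (hw : w ≠ 0) : mat ρ g *ᵥ w ≠ 0 := by
  intro h0
  apply hw
  have h1 := congrArg (fun u => mat ρ g⁻¹ *ᵥ u) h0
  simp only [Matrix.mulVec_zero] at h1
  rwa [mulVec_mat, inv_mul_cancel, mat_one, Matrix.one_mulVec] at h1

/-- the translate of a linear character -/
def shiftW {X : Type} [Group X] (N₀ : Subgroup X) [N₀.Normal] (l : N₀ →* ℂ) (g : X) : N₀ →* ℂ :=
  l.comp (MulAut.conjNormal g⁻¹ : N₀ ≃* N₀).toMonoidHom

theorem shiftW_apply {X : Type} [Group X] (N₀ : Subgroup X) [N₀.Normal] (l : N₀ →* ℂ) (g : X)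
    (n : N₀) : shiftW N₀ l g n = l ((MulAut.conjNormal g⁻¹ : N₀ ≃* N₀) n) := rfl

theorem shiftW_eq_iff {X : Type} [Group X] (N₀ : Subgroup X) [N₀.Normal] (l : N₀ →* ℂ)
    (g g' : X) : shiftW N₀ l g = shiftW N₀ l g' ↔ g⁻¹ * g' ∈ fixW N₀ l := by
  have hinv : ∀ (x : X) (n : N₀), (MulAut.conjNormal x⁻¹ : N₀ ≃* N₀)
      ((MulAut.conjNormal x : N₀ ≃* N₀) n) = n := by
    intro x n
    rw [← MulAut.mul_apply, ← map_mul, inv_mul_cancel, map_one]
    rfl
  have hinv' : ∀ (x : X) (n : N₀), (MulAut.conjNormal x : N₀ ≃* N₀)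
      ((MulAut.conjNormal x⁻¹ : N₀ ≃* N₀) n) = n := by
    intro x n
    rw [← MulAut.mul_apply, ← map_mul, mul_inv_cancel, map_one]
    rfl
  constructor
  · intro h n
    have h1 := DFunLike.congr_fun h ((MulAut.conjNormal g' : N₀ ≃* N₀) n)
    rw [shiftW_apply, shiftW_apply, hinv] at h1
    rw [map_mul]
    exact h1
  · intro h
    refine MonoidHom.ext fun n => ?_
    have h1 := h ((MulAut.conjNormal g'⁻¹ : N₀ ≃* N₀) n)
    rw [map_mul, MulAut.mul_apply, hinv'] at h1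
    exact h1

theorem mem_fixW_shift {X : Type} [Group X] (N₀ : Subgroup X) [N₀.Normal] (l : N₀ →* ℂ)
    (g x : X) : x ∈ fixW N₀ (shiftW N₀ l g) ↔ g⁻¹ * x * g ∈ fixW N₀ l := by
  have hinv' : ∀ (x : X) (n : N₀), (MulAut.conjNormal x : N₀ ≃* N₀)
      ((MulAut.conjNormal x⁻¹ : N₀ ≃* N₀) n) = n := by
    intro x n
    rw [← MulAut.mul_apply, ← map_mul, mul_inv_cancel, map_one]
    rfl
  constructor
  · intro h n
    have h1 := h ((MulAut.conjNormal g : N₀ ≃* N₀) n)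
    rw [shiftW_apply, shiftW_apply, ← MulAut.mul_apply, ← MulAut.mul_apply, ← MulAut.mul_apply,
      ← map_mul, ← map_mul, ← map_mul, inv_mul_cancel, map_one] at h1
    exact h1
  · intro h n
    have h1 := h ((MulAut.conjNormal g⁻¹ : N₀ ≃* N₀) n)
    rw [← MulAut.mul_apply, ← map_mul, mul_assoc, mul_inv_cancel, mul_one, map_mul,
      MulAut.mul_apply] at h1
    exact h1

section FD

variable {K : Type} [Group K] [Finite K] {L T : Subgroup K} {t c : K} {q m r : ℕ}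

/-- `t` fixes no weight of an irreducible representation of degree `q` -/
theorem FD.not_fix [L.Normal] (h : FD L T t c q m r) (hq : q.Prime) {ρ : Rep K q}
    (hρ : IsIrr ρ) {v : Fin q → ℂ} (hv0 : v ≠ 0) {l : L →* ℂ}
    (hl : ∀ n : L, mat ρ (n : K) *ᵥ v = l n • v) : t ∉ fixW L l := by
  intro ht
  have : Fact q.Prime := ⟨hq⟩
  -- the weight space
  let W : Submodule ℂ (Fin q → ℂ) :=
    { carrier := {w | ∀ n : L, mat ρ (n : K) *ᵥ w = l n • w}
      add_mem' := by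
        intro a b ha hb n
        rw [Matrix.mulVec_add, ha n, hb n, smul_add]
      zero_mem' := by
        intro n
        rw [Matrix.mulVec_zero, smul_zero]
      smul_mem' := by
        intro a b hb n
        rw [Matrix.mulVec_smul, hb n, smul_comm] }
  have hW : ∀ w ∈ W, mat ρ t *ᵥ w ∈ W := by
    intro w hw n
    have h10 := weight_shift L ρ hw t n
    have h11 : t⁻¹ ∈ fixW L l := inv_mem ht
    rw [h11 n] at h10
    exact h10
  have hvW : v ∈ W := hl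
  have hnt : Nontrivial W := ⟨⟨⟨v, hvW⟩, 0, fun h => hv0 (congrArg Subtype.val h)⟩⟩
  obtain ⟨a, ha⟩ := Module.End.exists_eigenvalue ((mat ρ t).mulVecLin.restrict hW)
  obtain ⟨u, hu⟩ := ha.exists_hasEigenvector
  have hu1 : mat ρ t *ᵥ (u : Fin q → ℂ) = a • (u : Fin q → ℂ) :=
    congrArg Subtype.val hu.apply_eq_smul
  have hu0 : (u : Fin q → ℂ) ≠ 0 := fun h => hu.2 (Subtype.ext h)
  -- the stabilizer of the line
  let S : Subgroup K :=
    { carrier := {g | ∃ a : ℂ, mat ρ g *ᵥ (u : Fin q → ℂ) = a • (u : Fin q → ℂ)}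
      mul_mem' := by
        rintro x y ⟨a, ha⟩ ⟨b, hb⟩
        exact ⟨b * a, by rw [← mulVec_mat, hb, Matrix.mulVec_smul, ha, smul_smul]⟩
      one_mem' := ⟨1, by rw [mat_one, Matrix.one_mulVec, one_smul]⟩
      inv_mem' := by
        rintro x ⟨a, ha⟩
        have ha0 : a ≠ 0 := by
          rintro rfl
          rw [zero_smul] at ha
          exact mulVec_ne_zero ρ x hu0 ha
        refine ⟨a⁻¹, ?_⟩
        have h1 := congrArg (fun w => mat ρ x⁻¹ *ᵥ w) ha
        simp only [Matrix.mulVec_smul] at h1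
        rw [mulVec_mat, inv_mul_cancel, mat_one, Matrix.one_mulVec] at h1
        rw [h1, smul_smul, inv_mul_cancel₀ ha0, one_smul]
        rw [← h1] }
  have hLS : L ≤ S := fun n hn => ⟨l ⟨n, hn⟩, u.2 ⟨n, hn⟩⟩
  have htS : t ∈ S := ⟨a, hu1⟩
  have h1 : q ≤ S.index := deg_le_index S hρ hu0 fun y => y.2
  have h2 : q ∣ L.relIndex S := by
    have h3 : ((⟨t, htS⟩ : S) : S ⧸ L.subgroupOf S) ≠ 1 := by
      intro h4
      rw [QuotientGroup.eq_one_iff, Subgroup.mem_subgroupOf] at h4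
      exact h.tL h4
    have h4 : ((⟨t, htS⟩ : S) : S ⧸ L.subgroupOf S) ^ q = 1 := by
      rw [← QuotientGroup.mk_pow]
      have h5 : (⟨t, htS⟩ : S) ^ q = 1 := Subtype.ext h.tq
      rw [h5]
      rfl
    have h5 := orderOf_eq_prime h4 h3
    have h6 : orderOf ((⟨t, htS⟩ : S) : S ⧸ L.subgroupOf S) ∣ Nat.card (S ⧸ L.subgroupOf S) :=
      orderOf_dvd_natCard _
    rwa [h5] at h6
  have h3 := Subgroup.relIndex_mul_index hLS
  rw [h.indexL hq] at h3
  have hmq : m < q := by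
    have h4 : orderOf (r : ZMod q) ∣ q - 1 := by
      apply orderOf_dvd_of_pow_eq_one
      apply ZMod.pow_card_sub_one_eq_one
      intro h5
      have h6 := h.ord
      have h7 := h.m1
      rw [h5, orderOf_zero] at h6
      omega
    rw [h.ord] at h4
    have h5 := Nat.le_of_dvd (by have := hq.one_lt; omega) h4
    have := hq.pos
    omega
  obtain ⟨j, hj⟩ := h2
  rw [hj] at h3
  have h4 : q * (j * S.index) = q * m := by rw [← mul_assoc, h3, mul_comm]
  have h5 := Nat.eq_of_mul_eq_mul_left hq.pos h4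
  have h6 : 0 < j := by
    rcases Nat.eq_zero_or_pos j with h7 | h7
    · rw [h7, zero_mul] at h5
      have := h.m1
      omega
    · exact h7
  have h7 : S.index ≤ j * S.index := Nat.le_mul_of_pos_left _ h6
  omega

omit [Finite K] in
/-- the translates by the powers of `t` of a weight vector -/
theorem FD.indep [L.Normal] (h : FD L T t c q m r) (hq : q.Prime) {d : ℕ} (ρ : Rep K d)
    {v : Fin d → ℂ} (hv0 : v ≠ 0) {l : L →* ℂ} (hl : ∀ n : L, mat ρ (n : K) *ᵥ v = l n • v)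
    (ht : t ∉ fixW L l) :
    Function.Injective (fun i : Fin q => shiftW L l (t ^ (i : ℕ))) ∧
      LinearIndependent ℂ (fun i : Fin q => mat ρ (t ^ (i : ℕ)) *ᵥ v) := by
  have hinj : Function.Injective (fun i : Fin q => shiftW L l (t ^ (i : ℕ))) := by
    have key : ∀ i j : Fin q, (i : ℕ) ≤ j →
        shiftW L l (t ^ (i : ℕ)) = shiftW L l (t ^ (j : ℕ)) → i = j := by
      intro i j hij h1
      rw [shiftW_eq_iff] at h1
      have h2 : (t ^ (i : ℕ))⁻¹ * t ^ (j : ℕ) = t ^ ((j : ℕ) - i) := by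
        rw [inv_mul_eq_iff_eq_mul, ← pow_add, Nat.add_sub_cancel' hij]
      rw [h2, pow_mem_iff hq h.tq ht] at h1
      have h3 := Nat.eq_zero_of_dvd_of_lt h1 (by have := j.2; omega)
      exact Fin.ext (by omega)
    intro i j hij
    rcases le_total (i : ℕ) j with h1 | h1
    · exact key i j h1 hij
    · exact (key j i h1 hij.symm).symm
  exact ⟨hinj, indep_of_weights L ρ _ _ hinj (fun i => mulVec_ne_zero ρ _ hv0)
    fun i n => weight_shift L ρ hl _ n⟩

omit [Finite K] in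
/-- all weights are translates of one of them -/
theorem FD.weights [L.Normal] (h : FD L T t c q m r) (hq : q.Prime) (ρ : Rep K q)
    {v : Fin q → ℂ} (hv0 : v ≠ 0) {l : L →* ℂ} (hl : ∀ n : L, mat ρ (n : K) *ᵥ v = l n • v)
    (ht : t ∉ fixW L l) {v' : Fin q → ℂ} (hv0' : v' ≠ 0) {l' : L →* ℂ}
    (hl' : ∀ n : L, mat ρ (n : K) *ᵥ v' = l' n • v') :
    ∃ i : Fin q, l' = shiftW L l (t ^ (i : ℕ)) := by
  obtain ⟨hinj, -⟩ := h.indep hq ρ hv0 hl ht
  obtain ⟨hfin, hcard⟩ := wts_card L ρ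
  have hF : Finite (Wts L ρ) := hfin
  let F : Fin q → Wts L ρ := fun i => ⟨shiftW L l (t ^ (i : ℕ)), mat ρ (t ^ (i : ℕ)) *ᵥ v,
    mulVec_ne_zero ρ _ hv0, fun n => weight_shift L ρ hl _ n⟩
  have hFi : Function.Injective F := fun i j hij => hinj (congrArg Subtype.val hij)
  have hFs : Function.Surjective F := by
    have h1 : Nat.card (Wts L ρ) ≤ Nat.card (Fin q) := by
      rw [Nat.card_fin, Nat.card_coe_set_eq]
      exact hcard
    exact (Function.Injective.bijective_of_nat_card_le hFi h1).2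
  obtain ⟨i, hi⟩ := hFs ⟨l', v', hv0', hl'⟩
  exact ⟨i, (congrArg Subtype.val hi).symm⟩

omit [Finite K] in
/-- the weight spaces have dimension one -/
theorem FD.mult [L.Normal] (h : FD L T t c q m r) (hq : q.Prime) (ρ : Rep K q)
    {v : Fin q → ℂ} (hv0 : v ≠ 0) {l : L →* ℂ} (hl : ∀ n : L, mat ρ (n : K) *ᵥ v = l n • v)
    (ht : t ∉ fixW L l) {u : Fin q → ℂ} (hu : ∀ n : L, mat ρ (n : K) *ᵥ u = l n • u) :
    ∃ a : ℂ, u = a • v := by
  obtain ⟨hinj, hind⟩ := h.indep hq ρ hv0 hl ht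
  have : NeZero q := ⟨hq.ne_zero⟩
  let b := basisOfLinearIndependentOfCardEqFinrank hind (by
    rw [Fintype.card_fin, Module.finrank_fin_fun])
  have hb : ∀ i, b i = mat ρ (t ^ (i : ℕ)) *ᵥ v := fun i => by
    rw [coe_basisOfLinearIndependentOfCardEqFinrank]
  have hbn : ∀ i, ∀ n : L, mat ρ (n : K) *ᵥ b i = shiftW L l (t ^ (i : ℕ)) n • b i := by
    intro i n
    rw [hb]
    exact weight_shift L ρ hl _ n
  have hz : ∀ i : Fin q, i ≠ 0 → b.repr u i = 0 := by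
    intro i hi
    by_contra hne
    have h1 : shiftW L l (t ^ (i : ℕ)) = l := by
      refine MonoidHom.ext fun n => ?_
      have h2 : ∑ j, (b.repr u j * (shiftW L l (t ^ (j : ℕ)) n - l n)) • b j = 0 := by
        have h3 := hu n
        rw [← sub_eq_zero] at h3
        nth_rewrite 1 [← b.sum_repr u] at h3
        nth_rewrite 2 [← b.sum_repr u] at h3
        rw [Matrix.mulVec_sum, Finset.smul_sum, ← Finset.sum_sub_distrib] at h3
        rw [← h3]
        refine Finset.sum_congr rfl fun j _ => ?_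
        rw [Matrix.mulVec_smul, hbn, mul_sub, sub_smul, smul_smul, smul_smul, mul_comm (l n)]
      have h3 := (Fintype.linearIndependent_iff.1 b.linearIndependent) _ h2 i
      exact sub_eq_zero.1 ((mul_eq_zero.1 h3).resolve_left hne)
    have h2 : shiftW L l (t ^ ((0 : Fin q) : ℕ)) = l := by
      refine MonoidHom.ext fun n => ?_
      rw [Fin.val_zero, pow_zero, shiftW_apply, inv_one, map_one]
      rfl
    exact hi (hinj (h1.trans h2.symm))
  refine ⟨b.repr u 0, ?_⟩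
  have h1 := b.sum_repr u
  rw [Fintype.sum_eq_single (0 : Fin q) fun i hi => by rw [hz i hi, zero_smul], hb,
    Fin.val_zero, pow_zero, mat_one, Matrix.one_mulVec] at h1
  exact h1.symm

omit [Finite K] in
/-- membership in a subgroup which contains `L` can be tested in the quotient -/
private theorem MonoR_mem [L.Normal] {S : Subgroup K} (hLS : L ≤ S) (x : K) :
    ((x : K ⧸ L) ∈ S.map (QuotientGroup.mk' L)) ↔ x ∈ S := by
  constructor
  · rintro ⟨y, hy, hyx⟩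
    have h1 : y⁻¹ * x ∈ L := QuotientGroup.eq.1 hyx
    have h2 := S.mul_mem hy (hLS h1)
    rwa [mul_inv_cancel_left] at h2
  · exact fun h => ⟨x, h, rfl⟩

omit [Finite K] in
private theorem FD.ctQ [L.Normal] (h : FD L T t c q m r) :
    (c : K ⧸ L) * (t : K ⧸ L) * (c : K ⧸ L)⁻¹ = (t : K ⧸ L) ^ r := by
  have h1 : ((t ^ r : K) : K ⧸ L) = ((c * t * c⁻¹ : K) : K ⧸ L) := QuotientGroup.eq.2 h.ct
  exact h1.symm

omit [Finite K] in
private theorem FD.tqQ [L.Normal] (h : FD L T t c q m r) : (t : K ⧸ L) ^ q = 1 := by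
  rw [← QuotientGroup.mk_pow, h.tq]
  rfl

/-- the linear characters of `T` whose restriction to `L` is fixed by `t` -/
def StT (L T : Subgroup K) (t : K) (μ : T →* ℂˣ) : Prop :=
  ∀ x y : T, (x : K) ∈ L → (y : K) = t * x * t⁻¹ → μ y = μ x

/-- the restriction to `L` -/
def resL (hLT : L ≤ T) (μ : T →* ℂˣ) : L →* ℂ :=
  (Units.coeHom ℂ).comp (μ.comp (Subgroup.inclusion hLT))

omit [Finite K] in
theorem resL_apply (hLT : L ≤ T) (μ : T →* ℂˣ) (n : L) :
    resL hLT μ n = ((μ ⟨(n : K), hLT n.2⟩ : ℂˣ) : ℂ) := rfl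

omit [Finite K] in
theorem stT_iff [L.Normal] (hLT : L ≤ T) (μ : T →* ℂˣ) :
    StT L T t μ ↔ t ∈ fixW L (resL hLT μ) := by
  constructor
  · intro h n
    rw [resL_apply, resL_apply]
    exact congrArg Units.val (h ⟨(n : K), hLT n.2⟩ ⟨_, _⟩ n.2 (MulAut.conjNormal_apply t n))
  · intro h x y hx hy
    refine Units.ext ?_
    have h1 := h ⟨(x : K), hx⟩
    rw [resL_apply, resL_apply] at h1
    have h2 : y = ⟨((MulAut.conjNormal t : L ≃* L) ⟨(x : K), hx⟩ : L), hLT (Subtype.mem _)⟩ :=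
      Subtype.ext (hy.trans (MulAut.conjNormal_apply t (⟨(x : K), hx⟩ : L)).symm)
    rw [h2]
    exact h1

omit [Finite K] in
/-- an element of `T` fixes the restriction to `L` of a linear character of `T` -/
theorem mem_fixW_resL [L.Normal] (hLT : L ≤ T) (μ : T →* ℂˣ) {x : K} (hx : x ∈ T) :
    x ∈ fixW L (resL hLT μ) := by
  intro n
  rw [resL_apply, resL_apply]
  congr 1
  have h1 : (⟨((MulAut.conjNormal x : L ≃* L) n : L), hLT (Subtype.mem _)⟩ : T) =
      ⟨x, hx⟩ * ⟨(n : K), hLT n.2⟩ * ⟨x, hx⟩⁻¹ := Subtype.ext (MulAut.conjNormal_apply x n)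
  rw [h1, map_mul, map_mul, map_inv, mul_right_comm, mul_inv_cancel, one_mul]

/-- existence of an eigenvector of `T` -/
theorem FD.exists_mu [L.Normal] (h : FD L T t c q m r) (hq : q.Prime) {ρ : Rep K q}
    (hρ : IsIrr ρ) : ∃ μ : T →* ℂˣ, ¬ StT L T t μ ∧ ∃ v : Fin q → ℂ, v ≠ 0 ∧
      ∀ x : T, mat ρ (x : K) *ᵥ v = ((μ x : ℂˣ) : ℂ) • v := by
  obtain ⟨v₁, hv₁, hv₁'⟩ := eigen_prime L hq h.qL hρ
  obtain ⟨l₁, hl₁⟩ := exists_weight L ρ hv₁ hv₁'
  have ht₁ := h.not_fix hq hρ hv₁ hl₁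
  have hLf : L ≤ fixW L l₁ := le_fixW L l₁
  obtain ⟨b, hb⟩ := h.weights hq ρ hv₁ hl₁ ht₁ (mulVec_ne_zero ρ c hv₁)
    (l' := shiftW L l₁ c) fun n => weight_shift L ρ hl₁ c n
  have hb2 : (t ^ (b : ℕ))⁻¹ * c ∈ fixW L l₁ := by
    have h1 := (shiftW_eq_iff L l₁ c (t ^ (b : ℕ))).1 hb
    have h2 := inv_mem h1
    rwa [_root_.mul_inv_rev, inv_inv] at h2
  obtain ⟨i, hi⟩ := exists_conj_mem hq h.tqQ h.ctQ h.ord h.m1
    (S := (fixW L l₁).map (QuotientGroup.mk' L)) (b := b) ((MonoR_mem hLf _).2 hb2)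
  have hi2 : (t ^ i)⁻¹ * c * t ^ i ∈ fixW L l₁ := (MonoR_mem hLf _).1 hi
  -- the weight fixed by `c`
  obtain ⟨v₀, hv₀⟩ : ∃ v₀, v₀ = mat ρ (t ^ i) *ᵥ v₁ := ⟨_, rfl⟩
  obtain ⟨l₀, hl₀⟩ : ∃ l₀, l₀ = shiftW L l₁ (t ^ i) := ⟨_, rfl⟩
  have hv₀0 : v₀ ≠ 0 := by
    rw [hv₀]
    exact mulVec_ne_zero ρ _ hv₁
  have hw₀ : ∀ n : L, mat ρ (n : K) *ᵥ v₀ = l₀ n • v₀ := by
    rw [hv₀, hl₀]
    exact weight_shift L ρ hl₁ _
  have hc₀ : c ∈ fixW L l₀ := by
    rw [hl₀, mem_fixW_shift]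
    exact hi2
  have ht₀ := h.not_fix hq hρ hv₀0 hw₀
  have hcw : ∀ n : L, mat ρ (n : K) *ᵥ (mat ρ c *ᵥ v₀) = l₀ n • (mat ρ c *ᵥ v₀) := by
    intro n
    have h1 := weight_shift L ρ hw₀ c n
    rwa [(inv_mem hc₀ : c⁻¹ ∈ fixW L l₀) n] at h1
  obtain ⟨a, ha⟩ := h.mult hq ρ hv₀0 hw₀ ht₀ hcw
  have hT : ∀ x : T, ∃ e : ℂ, mat ρ (x : K) *ᵥ v₀ = e • v₀ := by
    intro x
    obtain ⟨j, n, hn, hx⟩ := h.memT x x.2
    have h1 : ∀ j : ℕ, mat ρ (c ^ j) *ᵥ v₀ = a ^ j • v₀ := by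
      intro j
      induction j with
      | zero => rw [pow_zero, pow_zero, mat_one, Matrix.one_mulVec, one_smul]
      | succ j ih =>
        rw [pow_succ, ← mulVec_mat, ha, Matrix.mulVec_smul, ih, smul_smul, pow_succ, mul_comm]
    refine ⟨l₀ ⟨n, hn⟩ * a ^ j, ?_⟩
    rw [hx, ← mulVec_mat]
    have h2 := hw₀ ⟨n, hn⟩
    rw [show ((⟨n, hn⟩ : L) : K) = n from rfl] at h2
    rw [h2, Matrix.mulVec_smul, h1, smul_smul]
  obtain ⟨lT, hlT⟩ := exists_weight T ρ hv₀0 hT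
  refine ⟨lT.toHomUnits, ?_, v₀, hv₀0, fun x => by rw [MonoidHom.coe_toHomUnits]; exact hlT x⟩
  rw [stT_iff h.LT]
  have h1 : resL h.LT lT.toHomUnits = l₀ := by
    refine MonoidHom.ext fun n => ?_
    rw [resL_apply, MonoidHom.coe_toHomUnits]
    have h2 : mat ρ (n : K) *ᵥ v₀ = lT ⟨(n : K), h.LT n.2⟩ • v₀ := hlT ⟨(n : K), h.LT n.2⟩
    have h4 : (l₀ n - lT ⟨(n : K), h.LT n.2⟩) • v₀ = 0 := by
      rw [sub_smul, ← hw₀ n, ← h2, sub_self]
    exact (sub_eq_zero.1 ((smul_eq_zero.1 h4).resolve_right hv₀0)).symm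
  rw [h1]
  exact ht₀

/-- uniqueness of the linear character of `T` -/
theorem FD.mu_unique [L.Normal] (h : FD L T t c q m r) (hq : q.Prime) {ρ : Rep K q}
    (hρ : IsIrr ρ) {μ μ' : T →* ℂˣ} {v v' : Fin q → ℂ} (hv0 : v ≠ 0)
    (hv : ∀ x : T, mat ρ (x : K) *ᵥ v = ((μ x : ℂˣ) : ℂ) • v) (hv0' : v' ≠ 0)
    (hv' : ∀ x : T, mat ρ (x : K) *ᵥ v' = ((μ' x : ℂˣ) : ℂ) • v') : μ = μ' := by
  have hw : ∀ n : L, mat ρ (n : K) *ᵥ v = resL h.LT μ n • v := fun n => hv ⟨n, h.LT n.2⟩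
  have hw' : ∀ n : L, mat ρ (n : K) *ᵥ v' = resL h.LT μ' n • v' := fun n => hv' ⟨n, h.LT n.2⟩
  have ht := h.not_fix hq hρ hv0 hw
  obtain ⟨i, hi⟩ := h.weights hq ρ hv0 hw ht hv0' hw'
  have hc : c ∈ fixW L (resL h.LT μ) := mem_fixW_resL h.LT μ h.cT
  have hc' : c ∈ fixW L (resL h.LT μ') := mem_fixW_resL h.LT μ' h.cT
  rw [hi, mem_fixW_shift] at hc'
  have hLf := le_fixW L (resL h.LT μ)
  have h1 := dvd_of_conj_mem hq h.tqQ h.ctQ h.ord h.m1
    (S := (fixW L (resL h.LT μ)).map (QuotientGroup.mk' L))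
    (fun h2 => ht ((MonoR_mem hLf _).1 h2)) ((MonoR_mem hLf _).2 hc) (i := i)
    ((MonoR_mem hLf _).2 hc')
  have h2 := Nat.eq_zero_of_dvd_of_lt h1 i.2
  have h3 : resL h.LT μ' = resL h.LT μ := by
    rw [hi, h2]
    refine MonoidHom.ext fun n => ?_
    rw [pow_zero, shiftW_apply, inv_one, map_one]
    rfl
  rw [h3] at hw'
  obtain ⟨a, ha⟩ := h.mult hq ρ hv0 hw ht hw'
  refine MonoidHom.ext fun x => Units.ext ?_
  have h4 : (((μ x : ℂˣ) : ℂ) - ((μ' x : ℂˣ) : ℂ)) • v' = 0 := by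
    rw [sub_smul, ← hv' x, ha, Matrix.mulVec_smul, hv x, smul_comm, sub_self]
  exact sub_eq_zero.1 ((smul_eq_zero.1 h4).resolve_right hv0')

omit [Finite K] in
/-- the linear character of `T` determines the representation -/
theorem FD.sim_of_mu [L.Normal] (h : FD L T t c q m r) (hq : q.Prime) {ρ σ : Rep K q}
    {μ : T →* ℂˣ} (hμ : ¬ StT L T t μ) {v v' : Fin q → ℂ} (hv0 : v ≠ 0)
    (hv : ∀ x : T, mat ρ (x : K) *ᵥ v = ((μ x : ℂˣ) : ℂ) • v) (hv0' : v' ≠ 0)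
    (hv' : ∀ x : T, mat σ (x : K) *ᵥ v' = ((μ x : ℂˣ) : ℂ) • v') : Sim ρ σ := by
  have hw : ∀ n : L, mat ρ (n : K) *ᵥ v = resL h.LT μ n • v := fun n => hv ⟨n, h.LT n.2⟩
  have hw' : ∀ n : L, mat σ (n : K) *ᵥ v' = resL h.LT μ n • v' := fun n => hv' ⟨n, h.LT n.2⟩
  rw [stT_iff h.LT] at hμ
  have : NeZero q := ⟨hq.ne_zero⟩
  obtain ⟨-, hind⟩ := h.indep hq ρ hv0 hw hμ
  obtain ⟨-, hind'⟩ := h.indep hq σ hv0' hw' hμ
  let b := basisOfLinearIndependentOfCardEqFinrank hind (by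
    rw [Fintype.card_fin, Module.finrank_fin_fun])
  let b' := basisOfLinearIndependentOfCardEqFinrank hind' (by
    rw [Fintype.card_fin, Module.finrank_fin_fun])
  have hb : ∀ i, b i = mat ρ (t ^ (i : ℕ)) *ᵥ v := fun i => by
    rw [coe_basisOfLinearIndependentOfCardEqFinrank]
  have hb' : ∀ i, b' i = mat σ (t ^ (i : ℕ)) *ᵥ v' := fun i => by
    rw [coe_basisOfLinearIndependentOfCardEqFinrank]
  let P : (Fin q → ℂ) ≃ₗ[ℂ] (Fin q → ℂ) := b.equiv b' (Equiv.refl _)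
  have hP : ∀ i, P (b i) = b' i := fun i => by
    rw [Module.Basis.equiv_apply, Equiv.refl_apply]
  have key : ∀ (g : K) (w : Fin q → ℂ), P (mat ρ g *ᵥ w) = mat σ g *ᵥ P w := by
    intro g w
    have h1 : P.toLinearMap.comp (mat ρ g).mulVecLin = (mat σ g).mulVecLin.comp P.toLinearMap := by
      refine b.ext fun i => ?_
      change P (mat ρ g *ᵥ b i) = mat σ g *ᵥ P (b i)
      rw [hP]
      obtain ⟨k, x, hx, hgx⟩ := h.gen (g * t ^ (i : ℕ))
      have h2 : t ^ k = t ^ (k % q) := pow_eq_of_modEq h.tq (Nat.mod_modEq k q).symm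
      rw [h2] at hgx
      have h3 : mat ρ g *ᵥ b i = ((μ ⟨x, hx⟩ : ℂˣ) : ℂ) • b ⟨k % q, Nat.mod_lt _ hq.pos⟩ := by
        rw [hb, hb, mulVec_mat, hgx, ← mulVec_mat, hv ⟨x, hx⟩, Matrix.mulVec_smul]
      have h4 : mat σ g *ᵥ b' i = ((μ ⟨x, hx⟩ : ℂˣ) : ℂ) • b' ⟨k % q, Nat.mod_lt _ hq.pos⟩ := by
        rw [hb', hb', mulVec_mat, hgx, ← mulVec_mat, hv' ⟨x, hx⟩, Matrix.mulVec_smul]
      rw [h3, h4, map_smul, hP]
    exact LinearMap.congr_fun h1 w
  have e1 : LinearMap.toMatrix' P.toLinearMap * LinearMap.toMatrix' P.symm.toLinearMap = 1 := by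
    rw [← LinearMap.toMatrix'_comp, ← LinearMap.toMatrix'_id]
    congr 1
    exact LinearMap.ext fun w => P.apply_symm_apply w
  have e2 : LinearMap.toMatrix' P.symm.toLinearMap * LinearMap.toMatrix' P.toLinearMap = 1 := by
    rw [← LinearMap.toMatrix'_comp, ← LinearMap.toMatrix'_id]
    congr 1
    exact LinearMap.ext fun w => P.symm_apply_apply w
  refine ⟨⟨_, _, e1, e2⟩, fun g => ?_⟩
  change LinearMap.toMatrix' P.toLinearMap * mat ρ g = mat σ g * LinearMap.toMatrix' P.toLinearMap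
  apply Matrix.toLin'.injective
  refine LinearMap.ext fun w => ?_
  rw [Matrix.toLin'_mul, Matrix.toLin'_mul, Matrix.toLin'_toMatrix', LinearMap.comp_apply,
    LinearMap.comp_apply, Matrix.toLin'_apply, Matrix.toLin'_apply]
  exact key g w

/-- every linear character of `T` which is not stable occurs -/
theorem FD.exists_rho [L.Normal] (h : FD L T t c q m r) (hq : q.Prime) {μ : T →* ℂˣ}
    (hμ : ¬ StT L T t μ) : ∃ ρ : Rep K q, IsIrr ρ ∧ ∃ v : Fin q → ℂ, v ≠ 0 ∧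
      ∀ x : T, mat ρ (x : K) *ᵥ v = ((μ x : ℂˣ) : ℂ) • v := by
  obtain ⟨d, ρ, hρ, v, hv0, hv⟩ := exists_eigen T μ
  have hw : ∀ n : L, mat ρ (n : K) *ᵥ v = resL h.LT μ n • v := fun n => hv ⟨n, h.LT n.2⟩
  rw [stT_iff h.LT] at hμ
  obtain ⟨-, hind⟩ := h.indep hq ρ hv0 hw hμ
  have h1 := hind.fintype_card_le_finrank
  rw [Fintype.card_fin, Module.finrank_fin_fun] at h1
  have h2 := deg_le_index T hρ hv0 fun y => ⟨_, hv y⟩
  rw [h.indexT hq] at h2
  obtain rfl := le_antisymm h2 h1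
  exact ⟨ρ, hρ, v, hv0, hv⟩

/-- **the classes of degree `q`** -/
theorem FD.mono_card (h : FD L T t c q m r) (hq : q.Prime) :
    N K q + Nat.card {μ : T →* ℂˣ // StT L T t μ} = (commutator T).index := by
  classical
  have hn := h.nL
  have hex : ∀ x : Cls K q, ∃ ρ, ∃ hρ : IsIrr ρ, CGS.mk ρ hρ = x := by
    intro x
    refine cls_ind (q := fun x => ∃ ρ, ∃ hρ : IsIrr ρ, CGS.mk ρ hρ = x) (fun ρ hρ => ?_) x
    exact ⟨ρ, hρ, rfl⟩
  choose R hR hRx using hex
  choose F hF1 w hw0 hw using fun x => h.exists_mu hq (hR x)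
  have hbij : Function.Bijective
      (fun x => (⟨F x, hF1 x⟩ : {μ : T →* ℂˣ // ¬ StT L T t μ})) := by
    constructor
    · intro x y hxy
      have h1 : F x = F y := congrArg Subtype.val hxy
      rw [← hRx x, ← hRx y, mk_eq]
      exact h.sim_of_mu hq (hF1 x) (hw0 x) (hw x) (hw0 y) (by rw [h1]; exact hw y)
    · rintro ⟨μ, hμ⟩
      obtain ⟨ρ, hρ, v, hv0, hv⟩ := h.exists_rho hq hμ
      refine ⟨CGS.mk ρ hρ, Subtype.ext ?_⟩
      have h1 : Sim (R (CGS.mk ρ hρ)) ρ := by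
        rw [← mk_eq (h := hR _) (h' := hρ), hRx]
      obtain ⟨P, hP⟩ := h1
      refine h.mu_unique hq hρ (v := (P : Matrix (Fin q) (Fin q) ℂ) *ᵥ w (CGS.mk ρ hρ))
        ?_ ?_ hv0 hv
      · intro h2
        apply hw0 (CGS.mk ρ hρ)
        have h3 := congrArg
          (fun u => ((P⁻¹ : GL (Fin q) ℂ) : Matrix (Fin q) (Fin q) ℂ) *ᵥ u) h2
        simp only [Matrix.mulVec_zero] at h3
        rwa [Matrix.mulVec_mulVec, ← Units.val_mul, inv_mul_cancel, Units.val_one,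
          Matrix.one_mulVec] at h3
      · intro x
        rw [Matrix.mulVec_mulVec, ← hP, ← Matrix.mulVec_mulVec, hw, Matrix.mulVec_smul]
  have h1 : N K q = Nat.card {μ : T →* ℂˣ // ¬ StT L T t μ} :=
    Nat.card_congr (Equiv.ofBijective _ hbij)
  have hfin : Finite (T →* ℂˣ) := Nat.finite_of_card_ne_zero (by
    rw [card_hom]
    exact Subgroup.index_ne_zero_of_finite)
  rw [h1, ← card_hom, add_comm, ← Nat.card_sum]
  exact Nat.card_congr (Equiv.sumCompl fun μ => StT L T t μ)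

end FD

end Pool.Agent.CGSR
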