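import Pool.Agent.CGSR.Sixty

/-!
# A normal subgroup of order prime to three acts by scalars in degree three

`X` has no subgroups of index two and no normal subgroups of index three.
-/

set_option autoImplicit false

namespace Pool.Agent.CGSR

open Matrix Pool.Agent.CGS
open scoped commutatorElement

theorem no_index_three {X : Type} [Group X] [Finite X] (hX : NoIdx2 X)
    (h3 : ¬ 3 ∣ (commutator X).index) (S : Subgroup X) : S.index ≠ 3 := by
  intro hS
  have h1 : 3 ∣ S.normalCore.index := by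
    rw [← hS]
    exact Subgroup.index_dvd_of_le S.normalCore_le
  have h2 : S.normalCore.index ∣ 6 := by
    rw [Subgroup.normalCore_eq_ker, Subgroup.index_ker]
    have h3 : Nat.card (Equiv.Perm (X ⧸ S)) = 6 := by
      have h4 : Nat.card (X ⧸ S) = 3 := hS
      rw [Nat.card_perm, h4]
      rfl
    rw [← h3]
    exact Subgroup.card_subgroup_dvd_card _
  obtain ⟨c, hc⟩ := h1
  have h5 : c ∣ 2 := by
    rw [hc] at h2
    have h6 : 3 * c ∣ 3 * 2 := h2
    exact (Nat.mul_dvd_mul_iff_left (by norm_num)).1 h6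
  rcases (Nat.dvd_prime Nat.prime_two).1 h5 with rfl | rfl
  · apply h3
    rw [mul_one] at hc
    rw [← hc]
    exact Subgroup.index_dvd_of_le (commutator_le_of_prime Nat.prime_three _ hc)
  · have h6 : Nat.card (X ⧸ S.normalCore) = 6 := hc
    have : Fact (Nat.Prime 3) := ⟨Nat.prime_three⟩
    obtain ⟨C, hC⟩ := Sylow.exists_subgroup_card_pow_prime (G := X ⧸ S.normalCore) 3 (n := 1)
      (by rw [h6]; norm_num)
    rw [pow_one] at hC
    refine hX.quotient S.normalCore C ?_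
    have h7 := C.card_mul_index
    rw [hC, h6] at h7
    omega

private theorem exists_min {V : Type} [AddCommGroup V] [Module ℂ V] [FiniteDimensional ℂ V]
    (P : Submodule ℂ V → Prop) (hP : ∃ W, P W ∧ W ≠ ⊥) :
    ∃ W, P W ∧ W ≠ ⊥ ∧ ∀ W', P W' → W' ≤ W → W' = ⊥ ∨ W' = W := by
  classical
  have hex : ∃ n, ∃ W, (P W ∧ W ≠ ⊥) ∧ Module.finrank ℂ W = n := by
    obtain ⟨W, hW⟩ := hP
    exact ⟨_, W, hW, rfl⟩
  obtain ⟨W, ⟨h1, h2⟩, h3⟩ := Nat.find_spec hex
  refine ⟨W, h1, h2, fun W' hW' hle => ?_⟩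
  by_cases hb : W' = ⊥
  · exact Or.inl hb
  · right
    have h4 : Nat.find hex ≤ Module.finrank ℂ W' := Nat.find_min' hex ⟨W', ⟨hW', hb⟩, rfl⟩
    exact Submodule.eq_of_le_of_finrank_le hle (by rw [h3]; exact h4)

/-- a common eigenvector of the normal subgroup -/
private theorem eigen {X : Type} [Group X] [Finite X] (N₀ : Subgroup X) [N₀.Normal]
    (hN : ¬ 3 ∣ Nat.card N₀) {ρ : Rep X 3} (h : IsIrr ρ) :
    ∃ v : Fin 3 → ℂ, v ≠ 0 ∧ ∀ n : N₀, ∃ c : ℂ, mat ρ (n : X) *ᵥ v = c • v := by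
  have hirr := ((isIrr_iff ρ).1 h).2
  have hmm : ∀ v : Fin 3 → ℂ, ∀ g g' : X, mat ρ g *ᵥ (mat ρ g' *ᵥ v) = mat ρ (g * g') *ᵥ v := by
    intro v g g'
    rw [Matrix.mulVec_mulVec, mat_mul]
  let P : Submodule ℂ (Fin 3 → ℂ) → Prop := fun W => Stable (res N₀ ρ) W
  have hnt : (⊤ : Submodule ℂ (Fin 3 → ℂ)) ≠ ⊥ := by
    intro h0
    have h1 := congrArg (fun W : Submodule ℂ (Fin 3 → ℂ) => Module.finrank ℂ W) h0
    simp only [finrank_top, Module.finrank_fin_fun, finrank_bot] at h1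
    omega
  obtain ⟨W, hW, hW0, hmin⟩ := exists_min P ⟨⊤, fun _ _ _ => Submodule.mem_top, hnt⟩
  -- the translates
  let e : X → ((Fin 3 → ℂ) ≃ₗ[ℂ] (Fin 3 → ℂ)) := fun g =>
    LinearEquiv.ofLinearMap (mat ρ g).mulVecLin (mat ρ g⁻¹).mulVecLin
      (by rw [← Matrix.mulVecLin_mul, mat_mul_inv, Matrix.mulVecLin_one])
      (by rw [← Matrix.mulVecLin_mul, mat_inv_mul, Matrix.mulVecLin_one])
  have hmem : ∀ g w, w ∈ W.map (e g : (Fin 3 → ℂ) →ₗ[ℂ] (Fin 3 → ℂ)) ↔
      ∃ w' ∈ W, mat ρ g *ᵥ w' = w := by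
    intro g w
    rw [Submodule.mem_map]
    rfl
  have hfin : ∀ g, Module.finrank ℂ (W.map (e g : (Fin 3 → ℂ) →ₗ[ℂ] (Fin 3 → ℂ))) =
      Module.finrank ℂ W := fun g => LinearEquiv.finrank_map_eq (e g) W
  have hPs : ∀ g, P (W.map (e g : (Fin 3 → ℂ) →ₗ[ℂ] (Fin 3 → ℂ))) := by
    intro g y w hw
    obtain ⟨w', hw', rfl⟩ := (hmem g w).1 hw
    have h1 : g⁻¹ * (y : X) * g ∈ N₀ := by
      have := ‹N₀.Normal›.conj_mem (y : X) y.2 g⁻¹
      simpa using this
    refine (hmem g _).2 ⟨_, hW ⟨_, h1⟩ w' hw', ?_⟩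
    rw [mat_res, mat_res, hmm, hmm]
    congr 2
    group
  have hle3 : Module.finrank ℂ W ≤ 3 := by
    have h1 := Submodule.finrank_le W
    rwa [Module.finrank_fin_fun] at h1
  have hpos : Module.finrank ℂ W ≠ 0 := fun h0 => hW0 (Submodule.finrank_eq_zero.1 h0)
  have hcase : Module.finrank ℂ W = 1 ∨ Module.finrank ℂ W = 2 ∨ Module.finrank ℂ W = 3 := by
    omega
  rcases hcase with h1 | h2 | h3
  · obtain ⟨v, hv0, hv⟩ := finrank_eq_one_iff'.1 h1
    refine ⟨v, fun h2 => hv0 (Subtype.ext h2), fun n => ?_⟩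
    obtain ⟨c, hc⟩ := hv ⟨mat (res N₀ ρ) n *ᵥ (v : Fin 3 → ℂ), hW n v v.2⟩
    exact ⟨c, (congrArg Subtype.val hc).symm⟩
  · exfalso
    have hst : Stable ρ W := by
      have key : ∀ g, W ≤ W.map (e g : (Fin 3 → ℂ) →ₗ[ℂ] (Fin 3 → ℂ)) := by
        intro g
        have hPi : P (W ⊓ W.map (e g : (Fin 3 → ℂ) →ₗ[ℂ] (Fin 3 → ℂ))) := by
          intro y w hw
          exact ⟨hW y w hw.1, hPs g y w hw.2⟩
        rcases hmin _ hPi inf_le_left with h0 | h0
        · exfalso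
          have hdim := Submodule.finrank_sup_add_finrank_inf_eq W
            (W.map (e g : (Fin 3 → ℂ) →ₗ[ℂ] (Fin 3 → ℂ)))
          rw [h0, finrank_bot, hfin, h2] at hdim
          have h4 := Submodule.finrank_le
            (W ⊔ W.map (e g : (Fin 3 → ℂ) →ₗ[ℂ] (Fin 3 → ℂ)))
          rw [Module.finrank_fin_fun] at h4
          omega
        · exact inf_eq_left.1 h0
      intro g w hw
      obtain ⟨w', hw', h4⟩ := (hmem g⁻¹ w).1 (key g⁻¹ hw)
      rw [← h4, hmm, mul_inv_cancel, mat_one, Matrix.one_mulVec]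
      exact hw'
    rcases hirr W hst with h4 | h4
    · exact hW0 h4
    · rw [h4, finrank_top, Module.finrank_fin_fun] at h2
      omega
  · exfalso
    have htop : W = ⊤ := Submodule.eq_top_of_finrank_eq (by
      rw [h3, Module.finrank_fin_fun])
    have h4 : IsIrr (res N₀ ρ) := by
      rw [isIrr_iff]
      refine ⟨by norm_num, fun W' hW' => ?_⟩
      rcases hmin W' hW' (by rw [htop]; exact le_top) with h5 | h5
      · exact Or.inl h5
      · exact Or.inr (by rw [h5, htop])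
    exact hN (deg_dvd h4)

/-- the weights of a subgroup -/
private def Wt {X : Type} [Group X] (N₀ : Subgroup X) (ρ : Rep X 3) : Set (N₀ →* ℂ) :=
  {l | ∃ v : Fin 3 → ℂ, v ≠ 0 ∧ ∀ n : N₀, mat ρ (n : X) *ᵥ v = l n • v}

private theorem wt_indep {X : Type} [Group X] (N₀ : Subgroup X) (ρ : Rep X 3)
    (v : Wt N₀ ρ → (Fin 3 → ℂ)) (hv0 : ∀ l, v l ≠ 0)
    (hv : ∀ l, ∀ n : N₀, mat ρ (n : X) *ᵥ v l = (l : N₀ →* ℂ) n • v l) :
    LinearIndependent ℂ v := by
  rw [linearIndependent_iff']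
  intro s g hg i hi
  have hchar : LinearIndependent ℂ (fun l : Wt N₀ ρ => ((l : N₀ →* ℂ) : N₀ → ℂ)) :=
    (linearIndependent_monoidHom N₀ ℂ).comp _ Subtype.val_injective
  obtain ⟨a, ha⟩ : ∃ a, v i a ≠ 0 := by
    by_contra hcon
    push Not at hcon
    exact hv0 i (funext hcon)
  have h1 : ∑ l ∈ s, (g l * v l a) • ((l : N₀ →* ℂ) : N₀ → ℂ) = 0 := by
    funext n
    have h2 := congrArg (fun w => (mat ρ (n : X) *ᵥ w) a) hg
    simp only [Matrix.mulVec_zero, Pi.zero_apply] at h2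
    rw [Matrix.mulVec_sum, Finset.sum_apply] at h2
    rw [Finset.sum_apply, Pi.zero_apply, ← h2]
    refine Finset.sum_congr rfl fun l _ => ?_
    rw [Matrix.mulVec_smul, hv, Pi.smul_apply, Pi.smul_apply, Pi.smul_apply, smul_eq_mul,
      smul_eq_mul, smul_eq_mul]
    ring
  have h2 := (linearIndependent_iff'.1 hchar) s _ h1 i hi
  exact (mul_eq_zero.1 h2).resolve_right ha

private theorem wt_card {X : Type} [Group X] (N₀ : Subgroup X) (ρ : Rep X 3) :
    (Wt N₀ ρ).Finite ∧ (Wt N₀ ρ).ncard ≤ 3 := by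
  choose v hv0 hv using fun l : Wt N₀ ρ => l.2
  have h1 := wt_indep N₀ ρ v hv0 hv
  have h2 : Finite (Wt N₀ ρ) := h1.finite
  have h3 : Fintype (Wt N₀ ρ) := Fintype.ofFinite _
  have h4 := h1.fintype_card_le_finrank
  rw [Module.finrank_fin_fun] at h4
  refine ⟨Set.toFinite _, ?_⟩
  rwa [← Nat.card_coe_set_eq, Nat.card_eq_fintype_card]

/-- a normal subgroup of order prime to three acts by scalars -/
theorem scalar_of {X : Type} [Group X] [Finite X] (hX : NoIdx2 X)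
    (h3 : ¬ 3 ∣ (commutator X).index) (N₀ : Subgroup X) [N₀.Normal] (hN : ¬ 3 ∣ Nat.card N₀)
    {ρ : Rep X 3} (h : IsIrr ρ) :
    ∃ l : N₀ →* ℂˣ, ∀ n : N₀, mat ρ (n : X) = (l n : ℂ) • (1 : Matrix (Fin 3) (Fin 3) ℂ) := by
  have hmm : ∀ v : Fin 3 → ℂ, ∀ g g' : X, mat ρ g *ᵥ (mat ρ g' *ᵥ v) = mat ρ (g * g') *ᵥ v := by
    intro v g g'
    rw [Matrix.mulVec_mulVec, mat_mul]
  obtain ⟨v, hv0, hv⟩ := eigen N₀ hN h
  choose c hc using hv
  have hinj : ∀ a b : ℂ, a • v = b • v → a = b := by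
    intro a b hab
    have h1 : (a - b) • v = 0 := by rw [sub_smul, hab, sub_self]
    exact sub_eq_zero.1 ((smul_eq_zero.1 h1).resolve_right hv0)
  let l : N₀ →* ℂ :=
    { toFun := c
      map_one' := hinj _ _ (by rw [← hc, OneMemClass.coe_one, mat_one, Matrix.one_mulVec,
        one_smul])
      map_mul' := fun a b => hinj _ _ (by
        rw [← hc, Subgroup.coe_mul, ← hmm, hc, Matrix.mulVec_smul, hc, smul_smul, mul_comm]) }
  have hl : ∀ n : N₀, mat ρ (n : X) *ᵥ v = l n • v := hc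
  letI act : MulAction X (N₀ →* ℂ) :=
    { smul := fun g m => m.comp (MulAut.conjNormal g⁻¹ : N₀ ≃* N₀).toMonoidHom
      one_smul := fun m => by
        refine MonoidHom.ext fun n => ?_
        change m ((MulAut.conjNormal (1 : X)⁻¹ : N₀ ≃* N₀) n) = m n
        rw [inv_one, map_one]
        rfl
      mul_smul := fun g g' m => by
        refine MonoidHom.ext fun n => ?_
        change m ((MulAut.conjNormal (g * g')⁻¹ : N₀ ≃* N₀) n) =
          m ((MulAut.conjNormal g'⁻¹ : N₀ ≃* N₀) ((MulAut.conjNormal g⁻¹ : N₀ ≃* N₀) n))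
        rw [_root_.mul_inv_rev, map_mul]
        rfl }
  have hact : ∀ (g : X) (m : N₀ →* ℂ) (n : N₀),
      (g • m) n = m ((MulAut.conjNormal g⁻¹ : N₀ ≃* N₀) n) := fun g m n => rfl
  have hconj : ∀ (g : X) (n : N₀), (((MulAut.conjNormal g⁻¹ : N₀ ≃* N₀) n : N₀) : X) =
      g⁻¹ * n * g := by
    intro g n
    rw [MulAut.conjNormal_apply, inv_inv]
  have hshift : ∀ (g : X) (m : N₀ →* ℂ) (w : Fin 3 → ℂ),
      (∀ n : N₀, mat ρ (n : X) *ᵥ w = m n • w) →
      ∀ n : N₀, mat ρ (n : X) *ᵥ (mat ρ g *ᵥ w) = (g • m) n • (mat ρ g *ᵥ w) := by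
    intro g m w hw n
    have h1 := hw ((MulAut.conjNormal g⁻¹ : N₀ ≃* N₀) n)
    rw [hconj] at h1
    rw [hact, ← Matrix.mulVec_smul, ← h1, hmm, hmm]
    congr 2
    group
  have hne : ∀ (g : X) (w : Fin 3 → ℂ), w ≠ 0 → mat ρ g *ᵥ w ≠ 0 := by
    intro g w hw h0
    apply hw
    have h1 := congrArg (fun u => mat ρ g⁻¹ *ᵥ u) h0
    simp only [Matrix.mulVec_zero] at h1
    rwa [hmm, inv_mul_cancel, mat_one, Matrix.one_mulVec] at h1
  have horb : MulAction.orbit X l ⊆ Wt N₀ ρ := by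
    rintro m ⟨g, rfl⟩
    exact ⟨mat ρ g *ᵥ v, hne g v hv0, hshift g l v hl⟩
  obtain ⟨hf, hcard⟩ := wt_card N₀ ρ
  have h4 : (MulAction.stabilizer X l).index ≤ 3 := by
    rw [MulAction.index_stabilizer]
    exact (Set.ncard_le_ncard horb hf).trans hcard
  have h5 : (MulAction.stabilizer X l).index ≠ 0 := Subgroup.index_ne_zero_of_finite
  have h6 := no_index_three hX h3 (MulAction.stabilizer X l)
  have h7 : (MulAction.stabilizer X l).index ≠ 2 := hX _
  have h8 : (MulAction.stabilizer X l).index = 1 := by omega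
  have h9 : ∀ g : X, g • l = l := by
    intro g
    have h10 : g ∈ MulAction.stabilizer X l := by
      rw [Subgroup.index_eq_one.1 h8]
      exact Subgroup.mem_top g
    exact h10
  -- the weight space is everything
  let W : Submodule ℂ (Fin 3 → ℂ) :=
    { carrier := {w | ∀ n : N₀, mat ρ (n : X) *ᵥ w = l n • w}
      add_mem' := by
        intro a b ha hb n
        rw [Matrix.mulVec_add, ha n, hb n, smul_add]
      zero_mem' := by
        intro n
        rw [Matrix.mulVec_zero, smul_zero]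
      smul_mem' := by
        intro a b hb n
        rw [Matrix.mulVec_smul, hb n, smul_comm] }
  have hW : Stable ρ W := by
    intro g w hw n
    have h10 := hshift g l w hw n
    rwa [h9 g] at h10
  have hWtop : W = ⊤ := by
    rcases ((isIrr_iff ρ).1 h).2 W hW with h10 | h10
    · exfalso
      have h11 : v ∈ W := hl
      rw [h10, Submodule.mem_bot] at h11
      exact hv0 h11
    · exact h10
  refine ⟨l.toHomUnits, fun n => ?_⟩
  apply Matrix.toLin'.injective
  refine LinearMap.ext fun w => ?_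
  rw [Matrix.toLin'_apply, Matrix.toLin'_apply, Matrix.smul_mulVec, Matrix.one_mulVec]
  have h11 : w ∈ W := by
    rw [hWtop]
    exact Submodule.mem_top
  exact h11 n

end Pool.Agent.CGSR
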