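import Pool.Agent.CGSR.WtQ
import Pool.Agent.CGSR.Scal

/-!
# The number of classes of prime degree, a normal subgroup of order prime to the degree

`N₀` is a normal subgroup of `X` of order prime to `q`, the quotient `X ⧸ N₀` is perfect and has no
proper subgroups of index at most `q`.  If `q` does not divide `|X : X'|`, then the number of
classes of degree `q` of `X` is `|X : X'|` times that of `X ⧸ N₀`.
-/

set_option autoImplicit false

namespace Pool.Agent.CGSR

open Matrix Pool.Agent.CGS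

private theorem NqB_sim_twist {G : Type} [Group G] {d : ℕ} (χ : G →* ℂˣ) {ρ σ : Rep G d}
    (h : Sim ρ σ) : Sim (twist χ ρ) (twist χ σ) := by
  obtain ⟨P, hP⟩ := h
  refine ⟨P, fun g => ?_⟩
  rw [mat_twist, mat_twist, mul_smul_comm, smul_mul_assoc, hP g]

private theorem NqB_isIrr_twist {G : Type} [Group G] {d : ℕ} (χ : G →* ℂˣ) {ρ : Rep G d}
    (h : IsIrr ρ) : IsIrr (twist χ ρ) := by
  refine ⟨h.pos, ?_⟩
  rw [eq_top_iff, ← h.span, Submodule.span_le]
  rintro _ ⟨g, rfl⟩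
  have e1 : mat ρ g = ((χ g)⁻¹ : ℂˣ) • mat (twist χ ρ) g := by
    rw [mat_twist, Units.smul_def, smul_smul, ← Units.val_mul, inv_mul_cancel, Units.val_one,
      one_smul]
  rw [e1, Units.smul_def]
  exact Submodule.smul_mem _ _ (Submodule.subset_span ⟨g, rfl⟩)

/-- the twist of a class -/
private def NqB_twC {G : Type} [Group G] {d : ℕ} (χ : G →* ℂˣ) : Cls G d → Cls G d :=
  clsMap (twist χ) (fun _ h => NqB_isIrr_twist χ h) (fun _ _ h => NqB_sim_twist χ h)

private theorem NqB_twC_mk {G : Type} [Group G] {d : ℕ} (χ : G →* ℂˣ) (ρ : Rep G d) (h : IsIrr ρ) :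
    NqB_twC χ (mk ρ h) = mk (twist χ ρ) (NqB_isIrr_twist χ h) := rfl

private theorem NqB_twC_inv {G : Type} [Group G] {d : ℕ} (χ ψ : G →* ℂˣ)
    (hχ : ∀ g, χ g * ψ g = 1) (c : Cls G d) : NqB_twC χ (NqB_twC ψ c) = c := by
  refine cls_ind (q := fun c => NqB_twC χ (NqB_twC ψ c) = c) (fun ρ h => ?_) c
  rw [NqB_twC_mk, NqB_twC_mk, mk_eq]
  have h1 : twist χ (twist ψ ρ) = ρ := by
    refine rep_ext fun g => ?_
    rw [mat_twist, mat_twist, smul_smul, ← Units.val_mul, hχ, Units.val_one, one_smul]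
  rw [h1]
  exact Sim.refl ρ

private theorem NqB_twC_injective {G : Type} [Group G] {d : ℕ} (χ : G →* ℂˣ) :
    Function.Injective (NqB_twC (d := d) χ) := by
  intro c c' h
  have h0 : ∀ g, χ⁻¹ g * χ g = 1 := fun g => inv_mul_cancel (χ g)
  rw [← NqB_twC_inv χ⁻¹ χ h0 c, ← NqB_twC_inv χ⁻¹ χ h0 c', h]

private theorem NqB_detH_sim {G : Type} [Group G] {d : ℕ} {ρ σ : Rep G d} (h : Sim ρ σ) :
    Matrix.GeneralLinearGroup.det.comp ρ = Matrix.GeneralLinearGroup.det.comp σ := by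
  refine MonoidHom.ext fun g => Units.ext ?_
  exact det_sim h g

/-- the determinant of a class -/
private noncomputable def NqB_detC {G : Type} [Group G] {d : ℕ} (c : Cls G d) : G →* ℂˣ :=
  Quotient.lift (s := irrSetoid G d) (fun ρ => Matrix.GeneralLinearGroup.det.comp ρ.1)
    (fun _ _ h => NqB_detH_sim h) c

private theorem NqB_detC_mk {G : Type} [Group G] {d : ℕ} (ρ : Rep G d) (h : IsIrr ρ) (g : G) :
    ((NqB_detC (mk ρ h) g : ℂˣ) : ℂ) = (mat ρ g).det := rfl

private theorem NqB_detC_twC {G : Type} [Group G] {d : ℕ} (χ : G →* ℂˣ) (c : Cls G d) (g : G) :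
    NqB_detC (NqB_twC χ c) g = χ g ^ d * NqB_detC c g := by
  refine cls_ind (q := fun c => NqB_detC (NqB_twC χ c) g = χ g ^ d * NqB_detC c g) (fun ρ h => ?_) c
  refine Units.ext ?_
  rw [NqB_twC_mk, NqB_detC_mk, mat_twist, Matrix.det_smul, Fintype.card_fin, Units.val_mul,
    NqB_detC_mk, Units.val_pow_eq_pow_val]

private theorem NqB_detC_ker {G : Type} [Group G] {d : ℕ} (c : Cls G d) :
    ∀ g ∈ kerC c, NqB_detC c g = 1 := by
  refine cls_ind (q := fun c => ∀ g ∈ kerC c, NqB_detC c g = 1) (fun ρ h g hg => ?_) c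
  rw [kerC_mk, mem_ker_iff] at hg
  refine Units.ext ?_
  rw [NqB_detC_mk, hg, Matrix.det_one, Units.val_one]

/-- a normal subgroup of order prime to `q` acts by scalars in degree `q`, if the quotient has no
proper subgroups of index at most `q` -/
theorem scalar_of_prime {X : Type} [Group X] [Finite X] {q : ℕ} (hq : q.Prime)
    (N₀ : Subgroup X) [N₀.Normal] (hN : ¬ q ∣ Nat.card N₀)
    (hJ : ∀ J : Subgroup (X ⧸ N₀), J.index ≤ q → J = ⊤) {ρ : Rep X q} (h : IsIrr ρ) :
    ∃ l : N₀ →* ℂˣ, ∀ n : N₀, mat ρ (n : X) = ((l n : ℂˣ) : ℂ) •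
      (1 : Matrix (Fin q) (Fin q) ℂ) := by
  obtain ⟨v, hv0, hv⟩ := eigen_prime N₀ hq hN h
  obtain ⟨l, hl⟩ := exists_weight N₀ ρ hv0 hv
  have hle := index_fixW_le N₀ ρ hv0 hl
  have hsub := le_fixW N₀ l
  have hker : (QuotientGroup.mk' N₀).ker ≤ fixW N₀ l := by
    rw [QuotientGroup.ker_mk']
    exact hsub
  have hidx : ((fixW N₀ l).map (QuotientGroup.mk' N₀)).index = (fixW N₀ l).index :=
    Subgroup.index_map_eq _ (QuotientGroup.mk'_surjective N₀) hker
  have htop := hJ ((fixW N₀ l).map (QuotientGroup.mk' N₀)) (by rw [hidx]; exact hle)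
  have hfix : fixW N₀ l = ⊤ := by
    rw [htop, Subgroup.index_top] at hidx
    exact Subgroup.index_eq_one.1 hidx.symm
  refine ⟨l.toHomUnits, fun n => ?_⟩
  rw [MonoidHom.coe_toHomUnits]
  exact scalar_of_fixed N₀ h hv0 hl hfix n

/-- the number of classes of degree `q` of `X` and of `X ⧸ N₀` -/
theorem N_q_of_quotient {X : Type} [Group X] [Finite X] {q : ℕ} (hq : q.Prime)
    (h3 : ¬ q ∣ (commutator X).index) (N₀ : Subgroup X) [N₀.Normal] (hN : ¬ q ∣ Nat.card N₀)
    (h1 : N (X ⧸ N₀) 1 = 1) (hJ : ∀ J : Subgroup (X ⧸ N₀), J.index ≤ q → J = ⊤) :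
    N X q = (commutator X).index * N (X ⧸ N₀) q := by
  obtain ⟨e, he, -, hker, hex⟩ := exists_infl N₀ q
  have hcard : Nat.card (X →* ℂˣ) = (commutator X).index := card_hom X
  have hfin : Finite (X →* ℂˣ) := Nat.finite_of_card_ne_zero (by
    rw [hcard]
    exact Subgroup.index_ne_zero_of_finite)
  have hcop : (Nat.card (X →* ℂˣ)).Coprime q := by
    rw [hcard, Nat.coprime_comm]
    exact (Nat.Prime.coprime_iff_not_dvd hq).2 h3
  -- characters of `X` trivial on `N₀`
  have htriv : ∀ χ : X →* ℂˣ, (∀ n ∈ N₀, χ n = 1) → χ = 1 := by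
    intro χ hχ
    have h2 : Nat.card ((X ⧸ N₀) →* ℂˣ) = 1 := by
      rw [card_hom, ← N_one, h1]
    obtain ⟨h4, -⟩ := Nat.card_eq_one_iff_unique.1 h2
    have h5 : QuotientGroup.lift N₀ χ (fun x hx => MonoidHom.mem_ker.1 (hχ x hx)) = 1 :=
      Subsingleton.elim _ _
    refine MonoidHom.ext fun x => ?_
    exact DFunLike.congr_fun h5 (x : X ⧸ N₀)
  have hle : ∀ c, N₀ ≤ kerC (e c) := by
    intro c x hx
    rw [hker, Subgroup.mem_comap, QuotientGroup.mk'_apply, (QuotientGroup.eq_one_iff x).2 hx]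
    exact one_mem _
  have hdet : ∀ c, NqB_detC (e c) = 1 := fun c =>
    htriv _ fun n hn => NqB_detC_ker (e c) n (hle c hn)
  let F : (X →* ℂˣ) × Cls (X ⧸ N₀) q → Cls X q := fun p => NqB_twC p.1 (e p.2)
  have hF : Function.Bijective F := by
    constructor
    · rintro ⟨χ, c⟩ ⟨χ', c'⟩ h
      have h2 : NqB_twC χ (e c) = NqB_twC χ' (e c') := h
      have h4 : ∀ g, χ g ^ q = χ' g ^ q := by
        intro g
        have h5 := congrArg (fun c => NqB_detC c g) h2
        simp only [NqB_detC_twC, hdet] at h5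
        exact (mul_left_injective _) h5
      have h5 : χ = χ' := (powCoprime hcop).injective (MonoidHom.ext fun g => h4 g)
      subst h5
      have h6 := he (NqB_twC_injective χ h2)
      rw [h6]
    · intro c
      refine cls_ind (q := fun c => ∃ p, F p = c) (fun ρ hρ => ?_) c
      obtain ⟨l, hl⟩ := scalar_of_prime hq N₀ hN hJ hρ
      obtain ⟨k, j, hk⟩ : ∃ k j, q * k = 1 + j * Nat.card N₀ := by
        have hcop2 : q.Coprime (Nat.card N₀) := (Nat.Prime.coprime_iff_not_dvd hq).2 hN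
        rcases Nat.lt_or_ge 1 (Nat.card N₀) with h | h
        · obtain ⟨m, -, hm⟩ := Nat.exists_mul_mod_eq_one_of_coprime hcop2 h
          refine ⟨m, q * m / Nat.card N₀, ?_⟩
          have h2 := Nat.div_add_mod (q * m) (Nat.card N₀)
          rw [hm, mul_comm (Nat.card N₀)] at h2
          omega
        · have h2 : Nat.card N₀ = 1 := le_antisymm h Nat.card_pos
          have h4 := hq.one_lt
          exact ⟨1, q - 1, by rw [h2]; omega⟩
      obtain ⟨μ, hμ⟩ : ∃ μ : X →* ℂˣ, μ = (NqB_detC (mk ρ hρ)) ^ k := ⟨_, rfl⟩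
      have hμn : ∀ n : N₀, μ (n : X) = l n := by
        intro n
        have h2 : NqB_detC (mk ρ hρ) (n : X) = l n ^ q := by
          refine Units.ext ?_
          rw [NqB_detC_mk, hl n, Matrix.det_smul, Matrix.det_one, Fintype.card_fin, mul_one,
            Units.val_pow_eq_pow_val]
        have h4 : μ (n : X) = (NqB_detC (mk ρ hρ) (n : X)) ^ k := by
          rw [hμ]
          rfl
        rw [h4, h2, ← pow_mul, hk, pow_add, pow_one, mul_comm j, pow_mul, ← map_pow,
          pow_card_eq_one', map_one, one_pow, mul_one]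
      have h0 : ∀ g, μ g * μ⁻¹ g = 1 := fun g => mul_inv_cancel (μ g)
      have hker2 : N₀ ≤ kerC (NqB_twC μ⁻¹ (mk ρ hρ)) := by
        intro n hn
        rw [NqB_twC_mk, kerC_mk, mem_ker_iff, mat_twist, hl ⟨n, hn⟩, smul_smul,
          ← Units.val_mul, ← hμn ⟨n, hn⟩]
        have h2 : μ⁻¹ n * μ n = 1 := inv_mul_cancel (μ n)
        rw [h2, Units.val_one, one_smul]
      obtain ⟨c', hc'⟩ := hex _ hker2
      refine ⟨(μ, c'), ?_⟩
      change NqB_twC μ (e c') = _
      rw [hc', NqB_twC_inv μ μ⁻¹ h0]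
  have h2 := Nat.card_congr (Equiv.ofBijective F hF)
  rw [Nat.card_prod, hcard] at h2
  exact h2.symm

end Pool.Agent.CGSR
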