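import Pool.Agent.CGSR.EigOr
import Pool.Agent.CGSR.NqB
import Pool.Agent.CGSR.HJ

/-!
# Characters of prime degree and almost simple quotients

`N₀` is a normal subgroup of `X` of order prime to `q` and `K` is a normal subgroup of `X ⧸ N₀`
which is simple, nonabelian, of index prime to `q` and without subgroups of index `q`.  Then `N₀`
acts by scalars in every irreducible representation of degree `q`, and the numbers of classes of
degree `q` and `1` of `X` and of `X ⧸ N₀` are proportional.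
-/

set_option autoImplicit false

namespace Pool.Agent.CGSR

open Matrix Pool.Agent.CGS
open scoped commutatorElement

/-- the stabilizer of a vector -/
private def NqC_st {X : Type} [Group X] {d : ℕ} (ρ : Rep X d) (v : Fin d → ℂ) : Subgroup X where
  carrier := {c | mat ρ c *ᵥ v = v}
  mul_mem' := by
    intro a b ha hb
    change mat ρ (a * b) *ᵥ v = v
    rw [← mulVec_mat, hb, ha]
  one_mem' := by
    change mat ρ 1 *ᵥ v = v
    rw [mat_one, Matrix.one_mulVec]
  inv_mem' := by
    intro a ha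
    change mat ρ a⁻¹ *ᵥ v = v
    nth_rewrite 1 [← show mat ρ a *ᵥ v = v from ha]
    rw [mulVec_mat, inv_mul_cancel, mat_one, Matrix.one_mulVec]

/-- if a normal subgroup `P` has a common eigenvector then its commutator subgroup is in the
kernel -/
private theorem NqC_comm_le {X : Type} [Group X] (P : Subgroup X) [P.Normal] {d : ℕ}
    {ρ : Rep X d} (h : IsIrr ρ)
    (hv : ∃ v : Fin d → ℂ, v ≠ 0 ∧ ∀ n : P, ∃ c : ℂ, mat ρ (n : X) *ᵥ v = c • v) :
    ⁅P, P⁆ ≤ ρ.ker := by
  obtain ⟨v, hv0, hv⟩ := hv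
  have hirr := ((isIrr_iff ρ).1 h).2
  let W : Submodule ℂ (Fin d → ℂ) :=
    { carrier := {w | ∀ c ∈ ⁅P, P⁆, mat ρ c *ᵥ w = w}
      add_mem' := by
        intro a b ha hb c hc
        rw [Matrix.mulVec_add, ha c hc, hb c hc]
      zero_mem' := by
        intro c _
        rw [Matrix.mulVec_zero]
      smul_mem' := by
        intro a b hb c hc
        rw [Matrix.mulVec_smul, hb c hc] }
  have hst : Stable ρ W := by
    intro g w hw c hc
    rw [mulVec_mat]
    have h1 : c * g = g * (g⁻¹ * c * g) := by group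
    have h2 : g⁻¹ * c * g ∈ ⁅P, P⁆ := by
      have := (inferInstance : (⁅P, P⁆ : Subgroup X).Normal).conj_mem c hc g⁻¹
      simpa using this
    rw [h1, ← mulVec_mat, hw _ h2]
  have hvW : v ∈ W := by
    have h1 : ⁅P, P⁆ ≤ NqC_st ρ v := by
      rw [Subgroup.commutator_le]
      intro a ha b hb
      obtain ⟨ca, hca⟩ := hv ⟨a, ha⟩
      obtain ⟨cb, hcb⟩ := hv ⟨b, hb⟩
      change mat ρ a *ᵥ v = ca • v at hca
      change mat ρ b *ᵥ v = cb • v at hcb
      have e1 : mat ρ (a * b) *ᵥ v = mat ρ (b * a) *ᵥ v := by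
        rw [← mulVec_mat, ← mulVec_mat, hca, hcb, Matrix.mulVec_smul, Matrix.mulVec_smul, hca,
          hcb, smul_smul, smul_smul, mul_comm]
      obtain ⟨cu, hcu⟩ := hv ⟨a⁻¹ * b⁻¹, P.mul_mem (P.inv_mem ha) (P.inv_mem hb)⟩
      change mat ρ (a⁻¹ * b⁻¹) *ᵥ v = cu • v at hcu
      have e2 : mat ρ (b * a) *ᵥ (mat ρ (a⁻¹ * b⁻¹) *ᵥ v) = v := by
        rw [mulVec_mat]
        have e3 : b * a * (a⁻¹ * b⁻¹) = 1 := by group
        rw [e3, mat_one, Matrix.one_mulVec]
      have e4 : ⁅a, b⁆ = a * b * (a⁻¹ * b⁻¹) := by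
        rw [commutatorElement_def]
        group
      change mat ρ ⁅a, b⁆ *ᵥ v = v
      rw [e4, ← mulVec_mat, hcu, Matrix.mulVec_smul, e1, ← Matrix.mulVec_smul, ← hcu, e2]
    intro c hc
    exact h1 hc
  rcases hirr W hst with h0 | h0
  · exfalso
    rw [h0, Submodule.mem_bot] at hvW
    exact hv0 hvW
  · intro c hc
    rw [mem_ker_iff]
    refine Matrix.ext_of_mulVec_single fun i => ?_
    have h1 : (Pi.single i 1 : Fin d → ℂ) ∈ W := by
      rw [h0]
      exact Submodule.mem_top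
    rw [h1 c hc, Matrix.one_mulVec]

/-- the restriction to the preimage of `K` is irreducible -/
private theorem NqC_irr {X : Type} [Group X] [Finite X] {q : ℕ} (hq : q.Prime)
    (hqq : ¬ q ^ 2 ∣ Nat.card X) (P : Subgroup X) [P.Normal]
    (hP : q ∣ Nat.card (⁅P, P⁆ : Subgroup X)) {ρ : Rep X q} (h : IsIrr ρ) : IsIrr (res P ρ) := by
  rcases eigen_or_irr P hq h with h1 | h1
  · exfalso
    have h2 := NqC_comm_le P h h1
    obtain ⟨e, -, -, -, hex⟩ := exists_infl ⁅P, P⁆ q
    obtain ⟨c', -⟩ := hex (mk ρ h) (by rw [kerC_mk]; exact h2)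
    have h3 : q ∣ Nat.card (X ⧸ ⁅P, P⁆) :=
      cls_ind (q := fun _ => q ∣ Nat.card (X ⧸ ⁅P, P⁆)) (fun σ hσ => deg_dvd hσ) c'
    apply hqq
    rw [Subgroup.card_eq_card_quotient_mul_card_subgroup ⁅P, P⁆, pow_two]
    exact Nat.mul_dvd_mul h3 hP
  · exact h1

/-- `N₀` acts by scalars -/
theorem scalar_of_almost {X : Type} [Group X] [Finite X] {q : ℕ} (hq : q.Prime)
    (hqq : ¬ q ^ 2 ∣ Nat.card X) (N₀ : Subgroup X) [N₀.Normal] (hN : ¬ q ∣ Nat.card N₀)
    (K : Subgroup (X ⧸ N₀)) [K.Normal] [IsSimpleGroup K] (hnc : ∃ x y : K, x * y ≠ y * x)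
    (hqK : q ∣ Nat.card K) (hno : ∀ J : Subgroup K, J.index ≠ q) {ρ : Rep X q} (h : IsIrr ρ) :
    ∃ l : N₀ →* ℂˣ, ∀ n : N₀, mat ρ (n : X) = ((l n : ℂˣ) : ℂ) •
      (1 : Matrix (Fin q) (Fin q) ℂ) := by
  obtain ⟨P, hP⟩ : ∃ P, P = K.comap (QuotientGroup.mk' N₀) := ⟨_, rfl⟩
  have hPn : P.Normal := by
    rw [hP]
    infer_instance
  have hNP : N₀ ≤ P := by
    intro x hx
    rw [hP, Subgroup.mem_comap, QuotientGroup.mk'_apply, (QuotientGroup.eq_one_iff x).2 hx]
    exact K.one_mem
  obtain ⟨f, hf, hfk⟩ : ∃ f : P →* K, Function.Surjective f ∧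
      ∀ x : P, (f x : X ⧸ N₀) = ((x : X) : X ⧸ N₀) := by
    subst hP
    refine ⟨(QuotientGroup.mk' N₀).subgroupComap K,
      MonoidHom.subgroupComap_surjective_of_surjective _ _ (QuotientGroup.mk'_surjective N₀),
      fun x => rfl⟩
  -- the simple group is perfect
  have hK : commutator K = ⊤ := by
    have h1 := simple_N_one hnc
    rw [N_one, Subgroup.index_eq_one] at h1
    exact h1
  have hcard : q ∣ Nat.card (⁅P, P⁆ : Subgroup X) := by
    have h1 : (commutator P).map f = ⊤ := by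
      rw [commutator_def, Subgroup.map_commutator, Subgroup.map_top_of_surjective f hf,
        ← commutator_def, hK]
    have h2 : Nat.card ((commutator P).map f) ∣ Nat.card (commutator P) :=
      Subgroup.card_map_dvd _ f
    rw [h1, Subgroup.card_top] at h2
    have h3 : (commutator P).map P.subtype = ⁅P, P⁆ := by
      rw [commutator_def, Subgroup.map_commutator, ← MonoidHom.range_eq_map,
        Subgroup.range_subtype]
    have h4 : Nat.card ((commutator P).map P.subtype) = Nat.card (commutator P) :=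
      Nat.card_congr ((commutator P).equivMapOfInjective P.subtype
        P.subtype_injective).toEquiv.symm
    rw [h3] at h4
    rw [h4]
    exact hqK.trans h2
  have hirr := NqC_irr hq hqq P hcard h
  -- the kernel of the projection to the simple group
  have hker : ¬ q ∣ Nat.card f.ker := by
    intro h1
    apply hqq
    have h2 : Nat.card P ∣ Nat.card X := Subgroup.card_subgroup_dvd_card P
    refine Dvd.dvd.trans ?_ h2
    have h3 : f.ker.index = Nat.card K := by
      rw [Subgroup.index_ker, MonoidHom.range_eq_top.2 hf, Subgroup.card_top]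
    rw [← f.ker.card_mul_index, h3, pow_two]
    exact Nat.mul_dvd_mul h1 hqK
  have eK : (P ⧸ f.ker) ≃* K := QuotientGroup.quotientKerEquivOfSurjective f hf
  have hJ : ∀ J : Subgroup (P ⧸ f.ker), J.index ≤ q → J = ⊤ := by
    intro J hJ
    have h0 : (J.map (eK : (P ⧸ f.ker) →* K)).index = J.index := Subgroup.index_map_equiv J eK
    have h1 := simple_hJ hnc hq hqK hno (J.map (eK : (P ⧸ f.ker) →* K)) (by rw [h0]; exact hJ)
    rw [← Subgroup.index_eq_one] at h1 ⊢
    rwa [h0] at h1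
  obtain ⟨l, hl⟩ := scalar_of_prime hq f.ker hker hJ hirr
  have hmem : ∀ n : N₀, (⟨(n : X), hNP n.2⟩ : P) ∈ f.ker := by
    intro n
    rw [MonoidHom.mem_ker]
    refine Subtype.ext ?_
    rw [hfk]
    exact (QuotientGroup.eq_one_iff (n : X)).2 n.2
  refine ⟨l.comp ((Subgroup.inclusion hNP).codRestrict f.ker hmem), fun n => ?_⟩
  exact hl ⟨⟨(n : X), hNP n.2⟩, hmem n⟩

end Pool.Agent.CGSR
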