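import Pool.Agent.CGSR.Four
import Pool.Agent.CGSR.Par
import Pool.Agent.CGSR.Mass

/-!
# The congruence modulo sixteen

`A`, `B` are the 2-residuals of `G`, `H`.  If they have no irreducible representations of degree
two then `|A : A'|` and `|B : B'|` are congruent modulo sixteen, and equal if `4` does not divide
`|G : G'|`.
-/

set_option autoImplicit false

namespace Pool.Agent.CGSR

open Pool.Agent.CGS

theorem four_dvd_index (n : ℕ) : ∀ (T : Type) [Group T] [Finite T], Nat.card T = 2 ^ (n + 2) →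
    4 ∣ (commutator T).index := by
  induction n with
  | zero =>
    intro T _ _ hT
    have : Fact (Nat.Prime 2) := ⟨Nat.prime_two⟩
    have h1 : IsMulCommutative T := IsPGroup.isMulCommutative_of_card_eq_prime_sq (p := 2) hT
    have h2 : commutator T = ⊥ := by
      rw [commutator_def, Subgroup.commutator_eq_bot_iff_le_centralizer]
      intro x _
      rw [Subgroup.mem_centralizer_iff]
      intro y _
      exact h1.is_comm.comm y x
    rw [h2, Subgroup.index_bot, hT]
    norm_num
  | succ n ih =>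
    intro T _ _ hT
    have : Fact (Nat.Prime 2) := ⟨Nat.prime_two⟩
    have hp : IsPGroup 2 T := IsPGroup.of_card hT
    have hnt : Nontrivial T := by
      rw [← Finite.one_lt_card_iff_nontrivial, hT]
      exact Nat.one_lt_two_pow (by omega)
    have hc : Nontrivial (Subgroup.center T) := hp.center_nontrivial
    have hcp : IsPGroup 2 (Subgroup.center T) := hp.to_subgroup _
    have h2 : 2 ∣ Nat.card (Subgroup.center T) := by
      obtain ⟨k, hk⟩ := IsPGroup.iff_card.1 hcp
      have h3 : 1 < Nat.card (Subgroup.center T) := Finite.one_lt_card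
      rw [hk] at h3 ⊢
      refine dvd_pow_self 2 ?_
      rintro rfl
      exact absurd h3 (by norm_num)
    obtain ⟨z, hz⟩ := exists_prime_orderOf_dvd_card' (G := Subgroup.center T) 2 h2
    have hz' : orderOf (z : T) = 2 := by rw [Subgroup.orderOf_coe, hz]
    have hcen : ∀ g : T, g * (z : T) = (z : T) * g := Subgroup.mem_center_iff.1 z.2
    have hn : (Subgroup.zpowers (z : T)).Normal := by
      refine ⟨fun x hx g => ?_⟩
      obtain ⟨k, rfl⟩ := hx
      have h3 : Commute g ((z : T) ^ k) := Commute.zpow_right (hcen g) k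
      have h4 : g * (z : T) ^ k * g⁻¹ = (z : T) ^ k := by
        rw [h3.eq, mul_assoc, mul_inv_cancel, mul_one]
      change g * (z : T) ^ k * g⁻¹ ∈ _
      rw [h4]
      exact ⟨k, rfl⟩
    have hcard : Nat.card (Subgroup.zpowers (z : T)) = 2 := by
      rw [Nat.card_zpowers, hz']
    have h5 : Nat.card (T ⧸ Subgroup.zpowers (z : T)) = 2 ^ (n + 2) := by
      have h6 := Subgroup.card_eq_card_quotient_mul_card_subgroup (Subgroup.zpowers (z : T))
      rw [hcard, hT] at h6
      have h7 : 2 ^ (n + 1 + 2) = 2 ^ (n + 2) * 2 := by ring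
      rw [h7] at h6
      exact (Nat.eq_of_mul_eq_mul_right (by norm_num) h6).symm
    exact (ih _ h5).trans (index_commutator_dvd (QuotientGroup.mk' _)
      (QuotientGroup.mk'_surjective _))

theorem le_one_of_not_four {G : Type} [Group G] [Finite G] {A : Subgroup G} {a : ℕ}
    (hA : IsRes A a) (h4 : ¬ 4 ∣ (commutator G).index) : a = 0 ∨ a = 1 := by
  by_contra hcon
  obtain ⟨n, rfl⟩ : ∃ n, a = n + 2 := ⟨a - 2, by omega⟩
  have hAn := hA.normal
  apply h4
  have h1 : Nat.card (G ⧸ A) = 2 ^ (n + 2) := hA.index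
  exact (four_dvd_index n _ h1).trans (index_commutator_dvd (QuotientGroup.mk' A)
    (QuotientGroup.mk'_surjective A))

theorem N_one_res {G H : Type} [Group G] [Group H] [Finite G] [Finite H] {A : Subgroup G}
    {B : Subgroup H} {a : ℕ} (hA : IsRes A a) (hB : IsRes B a) (ha : a = 0 ∨ a = 1)
    (h1 : N G 1 = N H 1) (h2 : N G 2 = N H 2) (hA2 : N A 2 = 0) (hB2 : N B 2 = 0) :
    N A 1 = N B 1 := by
  rcases ha with rfl | rfl
  · have key : ∀ (X : Type) [Group X] (C : Subgroup X), C.index = 2 ^ 0 → N C 1 = N X 1 := by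
      intro X _ C hC
      rw [pow_zero, Subgroup.index_eq_one] at hC
      subst hC
      exact N_congr_mulEquiv Subgroup.topEquiv.symm 1
    rw [key G A hA.index, key H B hB.index, h1]
  · have e1 := mass_two A (by rw [hA.index, pow_one]) hA2
    have e2 := mass_two B (by rw [hB.index, pow_one]) hB2
    omega

/-- the last step of the proof: no irreducible representations of degree two -/
theorem dvd_of_zero {G H : Type} [Group G] [Group H] [Finite G] [Finite H]
    (e : Nonempty (MonoidAlgebra ℂ G ≃ₐ[ℂ] MonoidAlgebra ℂ H))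
    {q : ℕ} (hqq : ¬ q ^ 2 ∣ Nat.card G) {A : Subgroup G} {B : Subgroup H} {a : ℕ}
    (hA : IsRes A a) (hB : IsRes B a) (hMS : ∀ d, Odd d → MS A d = MS B d)
    (h1 : q ∣ (commutator A).index) (hzero : N A 2 = 0 ∧ N B 2 = 0)
    (hmod : ¬ 4 ∣ (commutator G).index ∨ ∀ u v : ℕ, u ∣ Nat.card G → v ∣ Nat.card G → Odd u →
      Odd v → ¬ q ∣ u → ¬ q ∣ v → ¬ q * u ≡ v [MOD 16]) : q ∣ (commutator B).index := by
  have hGH : Nat.card G = Nat.card H := card_congr e
  by_contra h2
  rcases hmod with h4 | hmod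
  · have h5 := N_one_res hA hB (le_one_of_not_four hA h4) (N_congr e 1) (N_congr e 2)
      hzero.1 hzero.2
    rw [N_one, N_one] at h5
    rw [h5] at h1
    exact h2 h1
  · obtain ⟨u, hu⟩ := h1
    obtain ⟨hAo, hAd⟩ := index_facts hA
    obtain ⟨hBo, hBd⟩ := index_facts hB
    refine hmod u (commutator B).index ?_ ?_ ?_ hBo ?_ h2 ?_
    · exact (Dvd.intro_left q hu.symm).trans hAd
    · rw [hGH]
      exact hBd
    · rw [hu] at hAo
      exact (Nat.odd_mul.1 hAo).2
    · intro h3
      apply hqq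
      refine Dvd.dvd.trans ?_ hAd
      rw [hu, pow_two]
      exact Nat.mul_dvd_mul_left q h3
    · rw [← hu]
      have h4 := MS_mod_sixteen A
      have h5 := MS_mod_sixteen B
      rw [hzero.1, mul_zero, add_zero, N_one] at h4
      rw [hzero.2, mul_zero, add_zero, N_one] at h5
      rw [hMS 1 odd_one] at h4
      exact h4.symm.trans h5

theorem main_sixteen {G H : Type} [Group G] [Group H] [Finite G] [Finite H]
    (e : Nonempty (MonoidAlgebra ℂ G ≃ₐ[ℂ] MonoidAlgebra ℂ H)) (hs : Group.IsSolvable G)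
    {q : ℕ} (hq : q.Prime) (hq2 : q ≠ 2) (hqG : q ∣ Nat.card G) (hqq : ¬ q ^ 2 ∣ Nat.card G)
    (hQ : QHyp G q) (hcase : ¬ 3 ∣ Nat.card G ∨ (q = 3 ∧ ¬ 5 ∣ Nat.card G))
    (hmod : ¬ 4 ∣ (commutator G).index ∨ ∀ u v : ℕ, u ∣ Nat.card G → v ∣ Nat.card G → Odd u →
      Odd v → ¬ q ∣ u → ¬ q ∣ v → ¬ q * u ≡ v [MOD 16]) :
    ∃ L : Subgroup H, L.Normal ∧ (∃ i : ℕ, L.index = 2 ^ i * q) ∧ ¬ q ∣ Nat.card L := by
  have hGH : Nat.card G = Nat.card H := card_congr e
  obtain ⟨A, B, a, hA, hB, hAB, hMS⟩ := res_congr e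
  have h1 := dvd_index_res hA hq hq2 hs hqG hqq hQ
  refine exists_of_dvd hB hq (by rwa [← hGH]) ?_
  by_contra h2
  have hcA : Nat.card A ∣ Nat.card G := Subgroup.card_subgroup_dvd_card A
  have hcB : Nat.card B ∣ Nat.card G := by rw [← hAB]; exact hcA
  have hzero : N A 2 = 0 ∧ N B 2 = 0 := by
    rcases hcase with h3 | ⟨rfl, h5⟩
    · exact ⟨N_two_of_three hA.noIdx2 fun h => h3 (h.trans hcA),
        N_two_of_three hB.noIdx2 fun h => h3 (h.trans hcB)⟩
    · refine ⟨?_, ?_⟩
      · by_contra hne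
        have h6 := odd_N_three_of_N_two hA.noIdx2 (fun h => hqq (h.trans hcA))
          (fun h => h5 (h.trans hcA)) hne
        have h7 : Odd (N B 3) := by
          have e1 := MS_modEq A (e := 3) (by decide)
          have e2 := MS_modEq B (e := 3) (by decide)
          rw [hMS 3 (by decide)] at e1
          have e3 : N A 3 ≡ N B 3 [MOD 4] := e1.symm.trans e2
          have e4 : N A 3 ≡ N B 3 [MOD 2] := e3.of_dvd (by norm_num)
          rw [Nat.odd_iff] at h6 ⊢
          exact (show N A 3 % 2 = N B 3 % 2 from e4).symm.trans h6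
        exact h2 (three_dvd_of_N_three hB.noIdx2 h7)
      · by_contra hne
        exact h2 (three_dvd_of_N_two hB.noIdx2 (fun h => h5 (h.trans hcB)) hne)
  exact h2 (dvd_of_zero e hqq hA hB hMS h1 hzero hmod)

end Pool.Agent.CGSR
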