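import Pool.Agent.CGSR.AGlue
import Pool.Agent.CGSR.BFive
import Pool.Agent.CGSR.Sixteen

/-!
# The prime three exactly once
-/

set_option autoImplicit false

namespace Pool.Agent.CGSR

open Pool.Agent.CGS

theorem main_three {G H : Type} [Group G] [Group H] [Finite G] [Finite H]
    (e : Nonempty (MonoidAlgebra ℂ G ≃ₐ[ℂ] MonoidAlgebra ℂ H)) (hs : Group.IsSolvable G)
    (h3 : 3 ∣ Nat.card G) (h9 : ¬ 3 ^ 2 ∣ Nat.card G)
    (hmod : ¬ 4 ∣ (commutator G).index ∨ ∀ u v : ℕ, u ∣ Nat.card G → v ∣ Nat.card G → Odd u →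
      Odd v → ¬ 3 ∣ u → ¬ 3 ∣ v → ¬ 3 * u ≡ v [MOD 16]) :
    ∃ L : Subgroup H, L.Normal ∧ (∃ i : ℕ, L.index = 2 ^ i * 3) ∧ ¬ 3 ∣ Nat.card L := by
  have hGH : Nat.card G = Nat.card H := card_congr e
  have h9' : ¬ 9 ∣ Nat.card G := h9
  have h9H : ¬ 9 ∣ Nat.card H := by rwa [← hGH]
  by_cases hG : 3 ∣ (commutator G).index
  · -- a normal subgroup of index three
    have h4 := N_congr e 1
    rw [N_one, N_one] at h4
    rw [h4] at hG
    obtain ⟨L, hL, hLi, hLc⟩ := exists_char Nat.prime_three hG h9H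
    exact ⟨L, inferInstance, ⟨0, by rw [hLi, pow_zero, one_mul]⟩, hLc⟩
  obtain ⟨A, B, a, hA, hB, hAB, hMS⟩ := res_congr e
  have hQ : QHyp G 3 := Or.inl fun p hp _ hd => by
    have h4 : p ∣ 2 := hd
    exact (Nat.prime_dvd_prime_iff_eq hp Nat.prime_two).1 h4
  have h1 := dvd_index_res hA Nat.prime_three (by norm_num) hs h3 h9 hQ
  refine exists_of_dvd hB Nat.prime_three h9H ?_
  by_contra h2
  have hcA : Nat.card A ∣ Nat.card G := Subgroup.card_subgroup_dvd_card A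
  have hcB : Nat.card B ∣ Nat.card H := Subgroup.card_subgroup_dvd_card B
  have h9A : ¬ 9 ∣ Nat.card A := fun h => h9' (h.trans hcA)
  have h9B : ¬ 9 ∣ Nat.card B := fun h => h9H (h.trans hcB)
  have hmod4 : N A 3 % 4 = N B 3 % 4 := by
    have e1 := MS_modEq A (e := 3) (by decide)
    have e2 := MS_modEq B (e := 3) (by decide)
    rw [hMS 3 (by decide)] at e1
    exact e1.symm.trans e2
  have hA3 := N_three_res hA hs h3 h9' hG
  have hsA : Group.IsSolvable A := inferInstance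
  have hB2 : N B 2 = 0 := by
    by_contra hne
    have h4 := N_three_mod hB.noIdx2 h9B h2 hne
    omega
  have hA2 : N A 2 = 0 := by
    by_contra hne
    have h6 := odd_N_three_of_kernels hA.noIdx2 h9A
      (fun c hc => kernel_index_of_solvable hsA hA.noIdx2 c hc) hne
    refine h2 (three_dvd_of_N_three hB.noIdx2 ?_)
    rw [Nat.odd_iff] at h6 ⊢
    omega
  exact h2 (dvd_of_zero e h9 hA hB hMS h1 ⟨hA2, hB2⟩ hmod)

end Pool.Agent.CGSR
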