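import Pool.Agent.CGSR.Sixteen
import Pool.Agent.CGSR.Three

/-!
# One theorem for the two cases
-/

set_option autoImplicit false

namespace Pool.Agent.CGSR

open Pool.Agent.CGS

theorem main_once {G H : Type} [Group G] [Group H] [Finite G] [Finite H]
    (e : Nonempty (MonoidAlgebra ℂ G ≃ₐ[ℂ] MonoidAlgebra ℂ H)) (hs : Group.IsSolvable G)
    {q : ℕ} (hq : q.Prime) (hq2 : q ≠ 2) (hqG : q ∣ Nat.card G) (hqq : ¬ q ^ 2 ∣ Nat.card G)
    (hQ : QHyp G q) (hcase : ¬ 3 ∣ Nat.card G ∨ q = 3)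
    (hmod : ¬ 4 ∣ (commutator G).index ∨ ∀ u v : ℕ, u ∣ Nat.card G → v ∣ Nat.card G → Odd u →
      Odd v → ¬ q ∣ u → ¬ q ∣ v → ¬ q * u ≡ v [MOD 16]) :
    ∃ L : Subgroup H, L.Normal ∧ (∃ i : ℕ, L.index = 2 ^ i * q) ∧ ¬ q ∣ Nat.card L := by
  rcases hcase with h | h
  · exact main_sixteen e hs hq hq2 hqG hqq hQ (Or.inl h) hmod
  · subst h
    exact main_three e hs hqG hqq hmod

end Pool.Agent.CGSR
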