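import Pool.Agent.CGSR.Four

/-!
# One prime divisor congruent to three modulo four
-/

set_option autoImplicit false

namespace Pool.Agent.CGSR

open Pool.Agent.CGS

/-- a number all of whose prime divisors are `1` modulo `4` is `1` modulo `4` -/
theorem mod_four_of_primes (n : ℕ) (hn : n ≠ 0) (h : ∀ p : ℕ, p.Prime → p ∣ n → p % 4 = 1) :
    n % 4 = 1 := by
  induction n using Nat.strong_induction_on with
  | _ n ih =>
    by_cases h1 : n = 1
    · rw [h1]
    · obtain ⟨p, hp, m, rfl⟩ := Nat.exists_prime_and_dvd h1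
      have hm : m ≠ 0 := by
        rintro rfl
        exact hn (mul_zero p)
      have h2 := ih m (by
        have h3 : 1 < p := hp.one_lt
        have h4 : 0 < m := Nat.pos_of_ne_zero hm
        nlinarith) hm fun r hr hd => h r hr (hd.mul_left p)
      have h3 := h p hp (Dvd.intro m rfl)
      rw [Nat.mul_mod, h3, h2]

theorem main_one {G H : Type} [Group G] [Group H] [Finite G] [Finite H]
    (e : Nonempty (MonoidAlgebra ℂ G ≃ₐ[ℂ] MonoidAlgebra ℂ H)) (hs : Group.IsSolvable G)
    {q : ℕ} (hq : q.Prime) (hq3 : q % 4 = 3) (hqG : q ∣ Nat.card G)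
    (hqq : ¬ q ^ 2 ∣ Nat.card G)
    (hpr : ∀ p : ℕ, p.Prime → p ∣ Nat.card G → p = 2 ∨ p = q ∨ p % 4 = 1) (hQ : QHyp G q) :
    ∃ L : Subgroup H, L.Normal ∧ (∃ i : ℕ, L.index = 2 ^ i * q) ∧ ¬ q ∣ Nat.card L := by
  have hq2 : q ≠ 2 := by
    rintro rfl
    omega
  have key : ∀ u : ℕ, u ∣ Nat.card G → Odd u → ¬ q ∣ u → u % 4 = 1 := by
    intro u hu ho hqu
    refine mod_four_of_primes u (fun h => ?_) fun p hp hpu => ?_
    · rw [h] at hu
      exact Nat.card_pos.ne' (zero_dvd_iff.1 hu)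
    · rcases hpr p hp (hpu.trans hu) with h | h | h
      · exfalso
        rw [h] at hpu
        exact (Nat.not_even_iff_odd.2 ho) (even_iff_two_dvd.2 hpu)
      · rw [h] at hpu
        exact absurd hpu hqu
      · exact h
  refine main_four e hs hq hq2 hqG hqq hQ fun u v hu hv ou ov qu qv hmod => ?_
  have h1 := key u hu ou qu
  have h2 := key v hv ov qv
  have h3 : (q * u) % 4 = v % 4 := hmod
  rw [Nat.mul_mod, h1, h2, hq3] at h3
  omega

end Pool.Agent.CGSR
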