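import Pool.Agent.CGSR.EigQ

/-!
# The number of weights of a normal subgroup, the action of the group on the weights
-/

set_option autoImplicit false

namespace Pool.Agent.CGSR

open Matrix Pool.Agent.CGS

/-- the weights of a subgroup -/
def Wts {X : Type} [Group X] (N₀ : Subgroup X) {d : ℕ} (ρ : Rep X d) : Set (N₀ →* ℂ) :=
  {l | ∃ v : Fin d → ℂ, v ≠ 0 ∧ ∀ n : N₀, mat ρ (n : X) *ᵥ v = l n • v}

private theorem wts_indep {X : Type} [Group X] (N₀ : Subgroup X) {d : ℕ} (ρ : Rep X d)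
    (v : Wts N₀ ρ → (Fin d → ℂ)) (hv0 : ∀ l, v l ≠ 0)
    (hv : ∀ l, ∀ n : N₀, mat ρ (n : X) *ᵥ v l = (l : N₀ →* ℂ) n • v l) :
    LinearIndependent ℂ v := by
  rw [linearIndependent_iff']
  intro s g hg i hi
  have hchar : LinearIndependent ℂ (fun l : Wts N₀ ρ => ((l : N₀ →* ℂ) : N₀ → ℂ)) :=
    (linearIndependent_monoidHom N₀ ℂ).comp _ Subtype.val_injective
  obtain ⟨a, ha⟩ : ∃ a, v i a ≠ 0 := by
    by_contra hcon
    push Not at hcon
    exact hv0 i (funext hcon)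
  have h1 : ∑ l ∈ s, (g l * v l a) • ((l : N₀ →* ℂ) : N₀ → ℂ) = 0 := by
    funext n
    have h2 := congrArg (fun w => (mat ρ (n : X) *ᵥ w) a) hg
    simp only [Matrix.mulVec_zero, Pi.zero_apply] at h2
    rw [Matrix.mulVec_sum, Finset.sum_apply] at h2
    rw [Finset.sum_apply, Pi.zero_apply, ← h2]
    refine Finset.sum_congr rfl fun l _ => ?_
    rw [Matrix.mulVec_smul, hv, Pi.smul_apply, Pi.smul_apply, Pi.smul_apply, smul_eq_mul,
      smul_eq_mul, smul_eq_mul]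
    ring
  have h2 := (linearIndependent_iff'.1 hchar) s _ h1 i hi
  exact (mul_eq_zero.1 h2).resolve_right ha

theorem wts_card {X : Type} [Group X] (N₀ : Subgroup X) {d : ℕ} (ρ : Rep X d) :
    (Wts N₀ ρ).Finite ∧ (Wts N₀ ρ).ncard ≤ d := by
  choose v hv0 hv using fun l : Wts N₀ ρ => l.2
  have h1 := wts_indep N₀ ρ v hv0 hv
  have h2 : Finite (Wts N₀ ρ) := h1.finite
  have h3 : Fintype (Wts N₀ ρ) := Fintype.ofFinite _
  have h4 := h1.fintype_card_le_finrank
  rw [Module.finrank_fin_fun] at h4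
  refine ⟨Set.toFinite _, ?_⟩
  rwa [← Nat.card_coe_set_eq, Nat.card_eq_fintype_card]

/-- the subgroup fixing a linear character of a normal subgroup -/
def fixW {X : Type} [Group X] (N₀ : Subgroup X) [N₀.Normal] (l : N₀ →* ℂ) : Subgroup X where
  carrier := {g | ∀ n : N₀, l ((MulAut.conjNormal g : N₀ ≃* N₀) n) = l n}
  mul_mem' := by
    intro a b ha hb n
    rw [map_mul]
    exact (ha _).trans (hb n)
  one_mem' := by
    intro n
    rw [map_one]
    rfl
  inv_mem' := by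
    intro a ha n
    have h1 := ha ((MulAut.conjNormal a⁻¹ : N₀ ≃* N₀) n)
    have h2 : (MulAut.conjNormal a : N₀ ≃* N₀) ((MulAut.conjNormal a⁻¹ : N₀ ≃* N₀) n) = n := by
      rw [← MulAut.mul_apply, ← map_mul, mul_inv_cancel, map_one]
      rfl
    rw [h2] at h1
    exact h1.symm

theorem le_fixW {X : Type} [Group X] (N₀ : Subgroup X) [N₀.Normal] (l : N₀ →* ℂ) :
    N₀ ≤ fixW N₀ l := by
  intro g hg n
  have h1 : (MulAut.conjNormal g : N₀ ≃* N₀) n = ⟨g, hg⟩ * n * ⟨g, hg⟩⁻¹ := by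
    apply Subtype.ext
    rw [MulAut.conjNormal_apply]
    rfl
  have h2 : l ⟨g, hg⟩ * l (⟨g, hg⟩⁻¹) = 1 := by
    rw [← map_mul, mul_inv_cancel, map_one]
  rw [h1, map_mul, map_mul, mul_right_comm, h2, one_mul]

/-- an eigenvector gives a weight -/
theorem exists_weight {X : Type} [Group X] (N₀ : Subgroup X) {d : ℕ} (ρ : Rep X d)
    {v : Fin d → ℂ} (hv0 : v ≠ 0) (hv : ∀ n : N₀, ∃ c : ℂ, mat ρ (n : X) *ᵥ v = c • v) :
    ∃ l : N₀ →* ℂ, ∀ n : N₀, mat ρ (n : X) *ᵥ v = l n • v := by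
  choose c hc using hv
  have hinj : ∀ a b : ℂ, a • v = b • v → a = b := by
    intro a b hab
    have h1 : (a - b) • v = 0 := by rw [sub_smul, hab, sub_self]
    exact sub_eq_zero.1 ((smul_eq_zero.1 h1).resolve_right hv0)
  exact ⟨
    { toFun := c
      map_one' := hinj _ _ (by rw [← hc, OneMemClass.coe_one, mat_one, Matrix.one_mulVec,
        one_smul])
      map_mul' := fun a b => hinj _ _ (by
        rw [← hc, Subgroup.coe_mul, ← mulVec_mat, hc, Matrix.mulVec_smul, hc, smul_smul,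
          mul_comm]) }, hc⟩

/-- the translate of a weight vector -/
theorem weight_shift {X : Type} [Group X] (N₀ : Subgroup X) [N₀.Normal] {d : ℕ} (ρ : Rep X d)
    {v : Fin d → ℂ} {l : N₀ →* ℂ} (hl : ∀ n : N₀, mat ρ (n : X) *ᵥ v = l n • v) (g : X)
    (n : N₀) : mat ρ (n : X) *ᵥ (mat ρ g *ᵥ v) =
      l ((MulAut.conjNormal g⁻¹ : N₀ ≃* N₀) n) • (mat ρ g *ᵥ v) := by
  have h1 := hl ((MulAut.conjNormal g⁻¹ : N₀ ≃* N₀) n)
  rw [MulAut.conjNormal_apply, inv_inv] at h1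
  rw [← Matrix.mulVec_smul, ← h1, mulVec_mat, mulVec_mat]
  congr 2
  group

/-- the index of the stabilizer of a weight is at most the degree -/
theorem index_fixW_le {X : Type} [Group X] [Finite X] (N₀ : Subgroup X) [N₀.Normal] {d : ℕ}
    (ρ : Rep X d) {v : Fin d → ℂ} (hv0 : v ≠ 0) {l : N₀ →* ℂ}
    (hl : ∀ n : N₀, mat ρ (n : X) *ᵥ v = l n • v) : (fixW N₀ l).index ≤ d := by
  obtain ⟨hf, hcard⟩ := wts_card N₀ ρ
  have hne : ∀ (g : X) (w : Fin d → ℂ), w ≠ 0 → mat ρ g *ᵥ w ≠ 0 := by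
    intro g w hw h0
    apply hw
    have h1 := congrArg (fun u => mat ρ g⁻¹ *ᵥ u) h0
    simp only [Matrix.mulVec_zero] at h1
    rwa [mulVec_mat, inv_mul_cancel, mat_one, Matrix.one_mulVec] at h1
  -- the map from the cosets
  let F : X → Wts N₀ ρ := fun g =>
    ⟨l.comp (MulAut.conjNormal g⁻¹ : N₀ ≃* N₀).toMonoidHom,
      mat ρ g *ᵥ v, hne g v hv0, fun n => weight_shift N₀ ρ hl g n⟩
  have hF : ∀ g g' : X, F g = F g' → g⁻¹ * g' ∈ fixW N₀ l := by
    intro g g' h n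
    have h1 := congrArg (fun w : Wts N₀ ρ =>
      (w : N₀ →* ℂ) ((MulAut.conjNormal g' : N₀ ≃* N₀) n)) h
    have h2 : l ((MulAut.conjNormal g⁻¹ : N₀ ≃* N₀) ((MulAut.conjNormal g' : N₀ ≃* N₀) n)) =
        l ((MulAut.conjNormal g'⁻¹ : N₀ ≃* N₀) ((MulAut.conjNormal g' : N₀ ≃* N₀) n)) := h1
    have h3 : (MulAut.conjNormal g'⁻¹ : N₀ ≃* N₀) ((MulAut.conjNormal g' : N₀ ≃* N₀) n) = n := by
      rw [← MulAut.mul_apply, ← map_mul, inv_mul_cancel, map_one]
      rfl
    rw [h3] at h2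
    rw [map_mul]
    exact h2
  have hfin : Finite (Wts N₀ ρ) := hf
  have h1 : Nat.card (X ⧸ fixW N₀ l) ≤ Nat.card (Wts N₀ ρ) := by
    refine Nat.card_le_card_of_injective (fun x : X ⧸ fixW N₀ l => F x.out) ?_
    intro x y hxy
    have h2 := hF _ _ hxy
    have h3 := QuotientGroup.eq.2 h2
    rwa [QuotientGroup.out_eq', QuotientGroup.out_eq'] at h3
  have h2 : (fixW N₀ l).index = Nat.card (X ⧸ fixW N₀ l) := rfl
  rw [h2]
  refine h1.trans ?_
  rwa [Nat.card_coe_set_eq]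

/-- a weight fixed by the group: the subgroup acts by scalars -/
theorem scalar_of_fixed {X : Type} [Group X] (N₀ : Subgroup X) [N₀.Normal] {d : ℕ}
    {ρ : Rep X d} (h : IsIrr ρ) {v : Fin d → ℂ} (hv0 : v ≠ 0) {l : N₀ →* ℂ}
    (hl : ∀ n : N₀, mat ρ (n : X) *ᵥ v = l n • v) (hfix : fixW N₀ l = ⊤) (n : N₀) :
    mat ρ (n : X) = l n • (1 : Matrix (Fin d) (Fin d) ℂ) := by
  let W : Submodule ℂ (Fin d → ℂ) :=
    { carrier := {w | ∀ n : N₀, mat ρ (n : X) *ᵥ w = l n • w}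
      add_mem' := by
        intro a b ha hb n
        rw [Matrix.mulVec_add, ha n, hb n, smul_add]
      zero_mem' := by
        intro n
        rw [Matrix.mulVec_zero, smul_zero]
      smul_mem' := by
        intro a b hb n
        rw [Matrix.mulVec_smul, hb n, smul_comm] }
  have hW : Stable ρ W := by
    intro g w hw n
    have h10 := weight_shift N₀ ρ hw g n
    have h11 : g⁻¹ ∈ fixW N₀ l := by
      rw [hfix]
      exact Subgroup.mem_top _
    rw [h11 n] at h10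
    exact h10
  have hWtop : W = ⊤ := by
    rcases ((isIrr_iff ρ).1 h).2 W hW with h10 | h10
    · exfalso
      have h11 : v ∈ W := hl
      rw [h10, Submodule.mem_bot] at h11
      exact hv0 h11
    · exact h10
  apply Matrix.toLin'.injective
  refine LinearMap.ext fun w => ?_
  rw [Matrix.toLin'_apply, Matrix.toLin'_apply, Matrix.smul_mulVec, Matrix.one_mulVec]
  have h11 : w ∈ W := by
    rw [hWtop]
    exact Submodule.mem_top
  exact h11 n

end Pool.Agent.CGSR
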