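import Pool.Agent.CGS.VOrth
import Pool.Agent.CGSR.WtQ

/-!
# Eigenvectors of subgroups in irreducible representations

* `deg_le_index`: if a subgroup has an eigenvector then the degree is at most its index.
* `exists_eigen`: every linear character of a subgroup occurs in an irreducible representation.
* `deg_eq_one`: an irreducible representation with commuting matrices has degree one.
-/

set_option autoImplicit false

namespace Pool.Agent.CGSR

open Matrix Pool.Agent.CGS

/-- an irreducible representation all of whose matrices commute has degree one -/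
theorem deg_eq_one {X : Type} [Group X] {d : ℕ} {ρ : Rep X d} (h : IsIrr ρ)
    (hc : ∀ g g' : X, mat ρ g * mat ρ g' = mat ρ g' * mat ρ g) : d = 1 := by
  have h1 : ∀ g : X, ∃ c : ℂ, mat ρ g = c • 1 := fun g => schur h _ fun s => hc g s
  have h2 : Submodule.span ℂ (Set.range (mat ρ)) ≤
      Submodule.span ℂ {(1 : Matrix (Fin d) (Fin d) ℂ)} := by
    rw [Submodule.span_le]
    rintro _ ⟨g, rfl⟩
    obtain ⟨c, hc'⟩ := h1 g
    rw [hc']
    exact Submodule.smul_mem _ _ (Submodule.subset_span rfl)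
  rw [h.span] at h2
  have h3 := Submodule.finrank_mono h2
  rw [finrank_top, Module.finrank_matrix, Fintype.card_fin, Module.finrank_self, mul_one] at h3
  have h4 : Module.finrank ℂ (Submodule.span ℂ {(1 : Matrix (Fin d) (Fin d) ℂ)}) ≤ 1 := by
    have h5 := finrank_span_le_card (R := ℂ) ({(1 : Matrix (Fin d) (Fin d) ℂ)} : Set _)
    simpa using h5
  have h5 := h.pos
  have h6 : d * d ≤ 1 := h3.trans h4
  nlinarith

/-- the degree is at most the index of a subgroup which has an eigenvector -/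
theorem deg_le_index {X : Type} [Group X] [Finite X] (Y : Subgroup X) {d : ℕ} {ρ : Rep X d}
    (h : IsIrr ρ) {v : Fin d → ℂ} (hv0 : v ≠ 0)
    (hv : ∀ y : Y, ∃ a : ℂ, mat ρ (y : X) *ᵥ v = a • v) : d ≤ Y.index := by
  let w : X ⧸ Y → (Fin d → ℂ) := fun x => mat ρ x.out *ᵥ v
  have hst : Stable ρ (Submodule.span ℂ (Set.range w)) := by
    intro g u hu
    induction hu using Submodule.span_induction with
    | mem y hy =>
      obtain ⟨x, rfl⟩ := hy
      have h2 : ((g * x.out : X) : X ⧸ Y).out⁻¹ * (g * x.out) ∈ Y := by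
        rw [← QuotientGroup.eq, QuotientGroup.out_eq']
      obtain ⟨a, ha⟩ := hv ⟨_, h2⟩
      have h3 : mat ρ g *ᵥ w x = a • w ((g * x.out : X) : X ⧸ Y) := by
        change mat ρ g *ᵥ (mat ρ x.out *ᵥ v) = _ • (mat ρ _ *ᵥ v)
        rw [← Matrix.mulVec_smul, ← ha, mulVec_mat, mulVec_mat, mul_inv_cancel_left]
      rw [h3]
      exact Submodule.smul_mem _ _ (Submodule.subset_span ⟨_, rfl⟩)
    | zero =>
      rw [Matrix.mulVec_zero]
      exact Submodule.zero_mem _
    | add x y _ _ hx hy =>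
      rw [Matrix.mulVec_add]
      exact Submodule.add_mem _ hx hy
    | smul c x _ hx =>
      rw [Matrix.mulVec_smul]
      exact Submodule.smul_mem _ c hx
  have htop : Submodule.span ℂ (Set.range w) = ⊤ := by
    rcases ((isIrr_iff ρ).1 h).2 _ hst with h2 | h2
    · exfalso
      have h3 : w ((1 : X) : X ⧸ Y) ∈ Submodule.span ℂ (Set.range w) :=
        Submodule.subset_span ⟨_, rfl⟩
      rw [h2, Submodule.mem_bot] at h3
      apply hv0
      have h4 := congrArg (fun u => mat ρ (((1 : X) : X ⧸ Y).out)⁻¹ *ᵥ u) h3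
      simp only [Matrix.mulVec_zero, w] at h4
      rwa [mulVec_mat, inv_mul_cancel, mat_one, Matrix.one_mulVec] at h4
    · exact h2
  have hfin : Fintype (X ⧸ Y) := Fintype.ofFinite _
  have h2 := finrank_range_le_card (R := ℂ) w
  rw [Set.finrank, htop, finrank_top, Module.finrank_fin_fun] at h2
  rwa [← Nat.card_eq_fintype_card] at h2

/-- every linear character of a subgroup occurs in an irreducible representation -/
theorem exists_eigen {X : Type} [Group X] [Finite X] (Y : Subgroup X) (μ : Y →* ℂˣ) :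
    ∃ (d : ℕ) (ρ : Rep X d), IsIrr ρ ∧ ∃ v : Fin d → ℂ, v ≠ 0 ∧
      ∀ y : Y, mat ρ (y : X) *ᵥ v = ((μ y : ℂˣ) : ℂ) • v := by
  classical
  by_contra hcon
  have hfY : Fintype Y := Fintype.ofFinite Y
  have hfin : Finite (AC X) := finite_AC X
  have hfA : Fintype (AC X) := Fintype.ofFinite (AC X)
  -- the projection vanishes
  have hP : ∀ (d : ℕ) (ρ : Rep X d), IsIrr ρ →
      ∑ y : Y, (((μ y)⁻¹ : ℂˣ) : ℂ) • mat ρ (y : X) = 0 := by
    intro d ρ hρ
    obtain ⟨P, hP⟩ : ∃ P, P = ∑ y : Y, (((μ y)⁻¹ : ℂˣ) : ℂ) • mat ρ (y : X) := ⟨_, rfl⟩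
    have h1 : ∀ y : Y, mat ρ (y : X) * P = ((μ y : ℂˣ) : ℂ) • P := by
      intro y
      rw [hP, Finset.mul_sum, Finset.smul_sum]
      refine Fintype.sum_equiv (Equiv.mulLeft y) _ _ fun z => ?_
      rw [Equiv.coe_mulLeft, Matrix.mul_smul, ← mat_mul, smul_smul, Subgroup.coe_mul, map_mul,
        mul_inv, ← Units.val_mul, mul_inv_cancel_left]
    rw [← hP]
    apply Matrix.toLin'.injective
    refine LinearMap.ext fun w => ?_
    rw [Matrix.toLin'_apply, map_zero, LinearMap.zero_apply]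
    by_contra hne
    exact hcon ⟨d, ρ, hρ, P *ᵥ w, hne, fun y => by
      rw [Matrix.mulVec_mulVec, h1, Matrix.smul_mulVec]⟩
  have h1 : ∀ c : AC X, ∑ y : Y, (((μ y)⁻¹ : ℂˣ) : ℂ) * chiA c (y : X) = 0 := by
    rintro ⟨d, c⟩
    refine cls_ind (q := fun c => ∑ y : Y, (((μ y)⁻¹ : ℂˣ) : ℂ) *
      chiA (⟨d, c⟩ : AC X) (y : X) = 0) (fun ρ hρ => ?_) c
    have h2 := congrArg Matrix.trace (hP d ρ hρ)
    rw [Matrix.trace_sum, Matrix.trace_zero] at h2
    rw [← h2]
    refine Finset.sum_congr rfl fun y _ => ?_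
    rw [Matrix.trace_smul, smul_eq_mul]
    rfl
  have h2 : ∑ c : AC X, (∑ y : Y, (((μ y)⁻¹ : ℂˣ) : ℂ) * chiA c (y : X)) * (c.1 : ℂ) = 0 :=
    Finset.sum_eq_zero fun c _ => by rw [h1 c, zero_mul]
  simp only [Finset.sum_mul] at h2
  rw [Finset.sum_comm] at h2
  have h3 : ∀ y : Y, y ≠ 1 →
      ∑ c : AC X, (((μ y)⁻¹ : ℂˣ) : ℂ) * chiA c (y : X) * (c.1 : ℂ) = 0 := by
    intro y hy
    have h4 := regular_orth X (y : X) fun h => hy (Subtype.ext h)
    rw [finsum_eq_sum_of_fintype] at h4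
    simp only [mul_assoc]
    rw [← Finset.mul_sum, h4, mul_zero]
  rw [Fintype.sum_eq_single (1 : Y) h3] at h2
  have h4 := second_orth X 1 1
  rw [finsum_eq_sum_of_fintype, if_pos (IsConj.refl 1)] at h4
  have h5 : ∑ c : AC X, (((μ 1)⁻¹ : ℂˣ) : ℂ) * chiA c ((1 : Y) : X) * (c.1 : ℂ) =
      (Nat.card (Subgroup.centralizer {(1 : X)}) : ℂ) := by
    rw [← h4]
    refine Finset.sum_congr rfl fun c _ => ?_
    rw [map_one, inv_one, Units.val_one, one_mul, OneMemClass.coe_one]
    congr 1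
    obtain ⟨d, c⟩ := c
    refine (cls_ind (q := fun c => chiA (⟨d, c⟩ : AC X) (1 : X)⁻¹ = (d : ℂ))
      (fun ρ hρ => ?_) c).symm
    change chi (mk ρ hρ) (1 : X)⁻¹ = (d : ℂ)
    rw [chi_mk, inv_one, mat_one, Matrix.trace_one, Fintype.card_fin]
  rw [h5] at h2
  have h6 : Nat.card (Subgroup.centralizer {(1 : X)}) ≠ 0 := Nat.card_pos.ne'
  exact h6 (by exact_mod_cast h2)

end Pool.Agent.CGSR
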