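import Pool.Agent.CGSR.NqA
import Pool.Agent.CGSR.NqB
import Pool.Agent.CGSR.HJ

/-!
# A simple group of order divisible by `q` as a quotient of a subgroup of 2-power index
-/

set_option autoImplicit false

namespace Pool.Agent.CGSR

open Pool.Agent.CGS

/-- a group without subgroups of index two has no normal subgroups of 2-power index -/
theorem eq_top_of_noIdx2 {X : Type} [Group X] [Finite X] (hX : NoIdx2 X) (M : Subgroup X)
    [M.Normal] {i : ℕ} (hi : M.index = 2 ^ i) : M = ⊤ := by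
  rw [← Subgroup.index_eq_one]
  by_contra h
  obtain ⟨j, rfl⟩ : ∃ j, i = j + 1 := by
    rcases i with _ | j
    · exact absurd hi h
    · exact ⟨j, rfl⟩
  have : Fact (Nat.Prime 2) := ⟨Nat.prime_two⟩
  have h1 : 2 ^ j ∣ Nat.card (X ⧸ M) := by
    change 2 ^ j ∣ M.index
    rw [hi]
    exact pow_dvd_pow 2 (Nat.le_succ j)
  obtain ⟨S, hS⟩ := Sylow.exists_subgroup_card_pow_prime 2 h1
  have h2 : S.index = 2 := by
    have h3 := S.card_mul_index
    rw [hS] at h3
    have h4 : Nat.card (X ⧸ M) = 2 ^ j * 2 := by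
      change M.index = _
      rw [hi, pow_succ]
    rw [h4] at h3
    exact Nat.eq_of_mul_eq_mul_left (Nat.two_pow_pos j) h3
  apply hX (S.comap (QuotientGroup.mk' M))
  rw [Subgroup.index_comap_of_surjective _ (QuotientGroup.mk'_surjective M), h2]

theorem res_le {H : Type} [Group H] [Finite H] {B : Subgroup H} {b : ℕ} (hB : IsRes B b)
    (M : Subgroup H) [M.Normal] {i : ℕ} (hi : M.index = 2 ^ i) : B ≤ M := by
  have h1 : M.relIndex B ∣ 2 ^ i := by
    rw [← hi]
    exact Subgroup.relIndex_dvd_index_of_normal M B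
  obtain ⟨j, -, hj⟩ := (Nat.dvd_prime_pow Nat.prime_two).1 h1
  have h2 : M.subgroupOf B = ⊤ := eq_top_of_noIdx2 hB.noIdx2 (M.subgroupOf B) hj
  exact Subgroup.subgroupOf_eq_top.1 h2

/-- the abelian quotient of a subgroup and of the group -/
theorem dvd_index_res_of_dvd {H : Type} [Group H] [Finite H] {B : Subgroup H}
    {q : ℕ} (hq : q.Prime) (hqB : q ∣ Nat.card B)
    (hqq : ¬ q ^ 2 ∣ Nat.card H) (h : q ∣ (commutator H).index) :
    q ∣ (commutator B).index := by
  obtain ⟨L, hL, hLi, hLc⟩ := exists_char hq h hqq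
  have h1 : L.relIndex B ∣ q := by
    rw [← hLi]
    exact Subgroup.relIndex_dvd_index_of_normal L B
  rcases (Nat.dvd_prime hq).1 h1 with h2 | h2
  · have h3 : B ≤ L := Subgroup.relIndex_eq_one.1 h2
    exact absurd (hqB.trans (Subgroup.card_dvd_of_le h3)) hLc
  · have h3 : (L.subgroupOf B).index = q := h2
    have h4 := commutator_le_of_prime hq (L.subgroupOf B) h3
    rw [← h3]
    exact Subgroup.index_dvd_of_le h4

/-- a simple nonabelian quotient of order divisible by `q` -/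
theorem not_dvd_index_of_simple {B K : Type} [Group B] [Group K] [Finite B] [Finite K]
    [IsSimpleGroup K] (hnc : ∃ x y : K, x * y ≠ y * x) (f : B →* K)
    (hf : Function.Surjective f) {q : ℕ} (hq : q.Prime) (hqK : q ∣ Nat.card K)
    (hqq : ¬ q ^ 2 ∣ Nat.card B) : ¬ q ∣ (commutator B).index := by
  intro h
  obtain ⟨L, hL, hLi, hLc⟩ := exists_char hq h hqq
  have hn : (L.map f).Normal := Subgroup.Normal.map inferInstance f hf
  rcases hn.eq_bot_or_eq_top with h1 | h1
  · have h2 : L ≤ f.ker := (Subgroup.map_eq_bot_iff L).1 h1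
    have h3 : f.ker.index ∣ q := by
      rw [← hLi]
      exact Subgroup.index_dvd_of_le h2
    have h4 : f.ker.index = Nat.card K := by
      rw [Subgroup.index_ker, MonoidHom.range_eq_top.2 hf, Subgroup.card_top]
    rw [h4] at h3
    have h5 : Nat.card K = q := Nat.dvd_antisymm h3 hqK
    have : Fact q.Prime := ⟨hq⟩
    have h6 : IsCyclic K := isCyclic_of_prime_card (p := q) h5
    obtain ⟨x, y, hxy⟩ := hnc
    have h7 : IsMulCommutative K := inferInstance
    exact hxy (h7.is_comm.comm x y)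
  · have h2 : Nat.card (L.map f) ∣ Nat.card L := Subgroup.card_map_dvd L f
    rw [h1, Subgroup.card_top] at h2
    exact hLc (hqK.trans h2)

theorem N_simple {G H : Type} [Group G] [Group H] [Finite G] [Finite H]
    (e : Nonempty (MonoidAlgebra ℂ G ≃ₐ[ℂ] MonoidAlgebra ℂ H)) (hs : Group.IsSolvable G)
    {q : ℕ} (hq : q.Prime) (hq2 : q ≠ 2) (hqG : q ∣ Nat.card G) (hqq : ¬ q ^ 2 ∣ Nat.card G)
    (hQ : QHyp G q) (M : Subgroup H) [M.Normal] {i : ℕ} (hi : M.index = 2 ^ i)
    (N₀ : Subgroup M) [N₀.Normal] (hN₀ : ¬ q ∣ Nat.card N₀) [IsSimpleGroup (M ⧸ N₀)]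
    (hnc : ∃ x y : M ⧸ N₀, x * y ≠ y * x) (hno : ∀ J : Subgroup (M ⧸ N₀), J.index ≠ q) :
    N (M ⧸ N₀) q % 4 = 0 ∨ N (M ⧸ N₀) q % 4 = 3 := by
  have hGH : Nat.card G = Nat.card H := card_congr e
  have hqH : q ∣ Nat.card H := by rwa [← hGH]
  have hqqH : ¬ q ^ 2 ∣ Nat.card H := by rwa [← hGH]
  obtain ⟨A, B, a, hA, hB, hAB, hMS⟩ := res_congr e
  have hBM : B ≤ M := res_le hB M hi
  have hBn := hB.normal
  have hq2' : ∀ j : ℕ, ¬ q ∣ 2 ^ j := fun j h =>
    hq2 ((Nat.prime_dvd_prime_iff_eq hq Nat.prime_two).1 (hq.dvd_of_dvd_pow h))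
  -- the prime divides the order of the quotient
  have hqM : q ∣ Nat.card M := by
    have h1 := M.card_mul_index
    rw [← h1, hi] at hqH
    exact (hq.dvd_mul.1 hqH).resolve_right (hq2' i)
  have hqK : q ∣ Nat.card (M ⧸ N₀) := by
    have h1 := N₀.card_mul_index
    rw [← h1] at hqM
    exact (hq.dvd_mul.1 hqM).resolve_left hN₀
  have hqB : q ∣ Nat.card B := dvd_card_res hB hq hq2 hqH
  have hcB : Nat.card B ∣ Nat.card H := Subgroup.card_subgroup_dvd_card B
  have hqqB : ¬ q ^ 2 ∣ Nat.card B := fun h => hqqH (h.trans hcB)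
  -- the 2-residual maps onto the quotient
  obtain ⟨f, hfr⟩ : ∃ f : B →* M ⧸ N₀, f.range = (B.subgroupOf M).map (QuotientGroup.mk' N₀) := by
    refine ⟨(QuotientGroup.mk' N₀).comp (Subgroup.inclusion hBM), ?_⟩
    rw [MonoidHom.range_comp, Subgroup.inclusion_range]
  have hrn : f.range.Normal := by
    rw [hfr]
    exact Subgroup.Normal.map inferInstance _ (QuotientGroup.mk'_surjective N₀)
  have hf : Function.Surjective f := by
    rw [← MonoidHom.range_eq_top]
    rcases hrn.eq_bot_or_eq_top with h1 | h1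
    · exfalso
      rw [hfr, Subgroup.map_eq_bot_iff, QuotientGroup.ker_mk'] at h1
      have h2 : N₀.index ∣ (B.subgroupOf M).index := Subgroup.index_dvd_of_le h1
      have h3 : (B.subgroupOf M).index ∣ B.index := Subgroup.relIndex_dvd_index_of_normal B M
      rw [hB.index] at h3
      exact hq2' a ((hqK.trans h2).trans h3)
    · exact h1
  have hkeri : f.ker.index = Nat.card (M ⧸ N₀) := by
    rw [Subgroup.index_ker, MonoidHom.range_eq_top.2 hf, Subgroup.card_top]
  have hker : ¬ q ∣ Nat.card f.ker := by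
    intro h
    apply hqqB
    rw [← f.ker.card_mul_index, hkeri, pow_two]
    exact Nat.mul_dvd_mul h hqK
  have eK : (B ⧸ f.ker) ≃* (M ⧸ N₀) := QuotientGroup.quotientKerEquivOfSurjective f hf
  have hB1 : ¬ q ∣ (commutator B).index := not_dvd_index_of_simple hnc f hf hq hqK hqqB
  have hG1 : ¬ q ∣ (commutator G).index := by
    intro h
    have h4 := N_congr e 1
    rw [N_one, N_one] at h4
    rw [h4] at h
    exact hB1 (dvd_index_res_of_dvd hq hqB hqqH h)
  have hJ : ∀ J : Subgroup (B ⧸ f.ker), J.index ≤ q → J = ⊤ := by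
    intro J hJ
    have h0 : (J.map (eK : (B ⧸ f.ker) →* (M ⧸ N₀))).index = J.index :=
      Subgroup.index_map_equiv J eK
    have h1 := simple_hJ hnc hq hqK hno (J.map (eK : (B ⧸ f.ker) →* (M ⧸ N₀)))
      (by rw [h0]; exact hJ)
    rw [← Subgroup.index_eq_one] at h1 ⊢
    rwa [h0] at h1
  have hN1 : N (B ⧸ f.ker) 1 = 1 := by
    rw [← N_congr_mulEquiv eK]
    exact simple_N_one hnc
  have hNB := N_q_of_quotient hq hB1 f.ker hker hN1 hJ
  rw [← N_congr_mulEquiv eK] at hNB
  -- the congruences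
  have hqo : Odd q := hq.odd_of_ne_two hq2
  have hc1 : (commutator A).index % 4 = (commutator B).index % 4 := by
    have h4 := MS_modEq A odd_one
    have h5 := MS_modEq B odd_one
    rw [N_one] at h4 h5
    rw [hMS 1 odd_one] at h4
    exact h4.symm.trans h5
  have hcq : N A q % 4 = N B q % 4 := by
    have e1 := MS_modEq A hqo
    have e2 := MS_modEq B hqo
    rw [hMS q hqo] at e1
    exact e1.symm.trans e2
  have hqA := dvd_index_res hA hq hq2 hs hqG hqq hQ
  have hA4 := N_q_res hA hq hq2 hqA hqq hG1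
  have hBo := (index_facts hB).1
  rw [hNB] at hcq
  obtain ⟨x, hx⟩ : ∃ x, x = (commutator B).index := ⟨_, rfl⟩
  obtain ⟨y, hy⟩ : ∃ y, y = N (M ⧸ N₀) q := ⟨_, rfl⟩
  rw [← hx, ← hy] at hcq
  rw [← hx] at hc1 hBo
  rw [← hy]
  have hxy : x * y % 4 = (x % 4) * (y % 4) % 4 := Nat.mul_mod x y 4
  have hx4 : x % 4 = 1 ∨ x % 4 = 3 := by
    obtain ⟨r, hr⟩ := hBo
    omega
  have hy4 : y % 4 = 0 ∨ y % 4 = 1 ∨ y % 4 = 2 ∨ y % 4 = 3 := by omega
  rcases hA4 with h | h <;> rcases hx4 with h1 | h1 <;> rcases hy4 with h2 | h2 | h2 | h2 <;>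
    rw [h1, h2] at hxy <;> omega

end Pool.Agent.CGSR
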