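import Pool.Agent.CGSR.DegDvd
import Pool.Agent.CGSR.Par

/-!
# Quotients of order sixty

A finite group `K` of order 60 without subgroups of index two which has a faithful self-dual
irreducible representation of degree three has exactly two classes of degree three and it is
perfect.
-/

set_option autoImplicit false

namespace Pool.Agent.CGSR

open Matrix Pool.Agent.CGS
open scoped commutatorElement

private theorem nontriv {K : Type} [Group K] {ρ : Rep K 3} (h : IsIrr ρ) : Nontrivial K := by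
  by_contra hK
  rw [not_nontrivial_iff_subsingleton] at hK
  have h1 : ∀ A ∈ Submodule.span ℂ (Set.range (mat ρ)), A 0 1 = 0 := by
    intro A hA
    induction hA using Submodule.span_induction with
    | mem x hx =>
      obtain ⟨g, rfl⟩ := hx
      rw [Subsingleton.elim g 1, mat_one]
      simp
    | zero => rfl
    | add x y _ _ hx hy => rw [Matrix.add_apply, hx, hy, add_zero]
    | smul c x _ hx => rw [Matrix.smul_apply, hx, smul_zero]
  have h2 := h1 (Matrix.of fun _ _ => 1) (by rw [h.span]; exact Submodule.mem_top)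
  simp at h2

private def Ar (a b c d e : ℕ) : Prop :=
    a ^ 2 + b ^ 2 + c ^ 2 + d ^ 2 + e ^ 2 = 60 →
    (0 < a ∧ 0 < b ∧ 0 < c ∧ 0 < d ∧ 0 < e) →
    (a = 1 ∨ b = 1 ∨ c = 1 ∨ d = 1 ∨ e = 1) → (a = 3 ∨ b = 3 ∨ c = 3 ∨ d = 3 ∨ e = 3) →
    (if a = 1 then 1 else 0) + (if b = 1 then 1 else 0) + (if c = 1 then 1 else 0) +
      (if d = 1 then 1 else 0) + (if e = 1 then 1 else 0) = 1

private instance (a b c d e : ℕ) : Decidable (Ar a b c d e) := by
  unfold Ar
  infer_instance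

private theorem arith60' : ∀ a b c d e : Fin 8, Ar a b c d e := by
  decide +kernel

private theorem arith60 (a : ℕ) (ha : a < 8) (b : ℕ) (hb : b < 8) (c : ℕ) (hc : c < 8) (d : ℕ)
    (hd : d < 8) (e : ℕ) (he : e < 8) : Ar a b c d e :=
  arith60' ⟨a, ha⟩ ⟨b, hb⟩ ⟨c, hc⟩ ⟨d, hd⟩ ⟨e, he⟩

private theorem N_one_of_card_60 {K : Type} [Group K] [Finite K] (h60 : Nat.card K = 60)
    (h5 : Nat.card (ConjClasses K) = 5) (h3 : 0 < N K 3) : N K 1 = 1 := by
  classical
  obtain ⟨n, δ, hδ, hsum, hn, -, h⟩ := exists_degrees K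
  have hn5 : n = 5 := by rw [hn, h5]
  subst hn5
  obtain ⟨e3⟩ := h 3 (by norm_num)
  obtain ⟨e1⟩ := h 1 (by norm_num)
  have h8 : ∀ i, δ i < 8 := by
    intro i
    have h2 : δ i ^ 2 ≤ ∑ i, δ i ^ 2 :=
      Finset.single_le_sum (f := fun i => δ i ^ 2) (fun _ _ => Nat.zero_le _) (Finset.mem_univ i)
    rw [hsum, h60] at h2
    by_contra hcon
    push Not at hcon
    have h3 : 8 ^ 2 ≤ δ i ^ 2 := Nat.pow_le_pow_left hcon 2
    omega
  have hN1 : N K 1 ≠ 0 := by
    rw [N_one]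
    exact Subgroup.index_ne_zero_of_finite
  have hone : ∃ i, δ i = 1 := by
    have h1 : Nonempty (Cls K 1) := (Nat.card_ne_zero.1 hN1).1
    obtain ⟨i, hi⟩ := e1 h1.some
    exact ⟨i, hi⟩
  have hthree : ∃ i, δ i = 3 := by
    have h1 : Nonempty (Cls K 3) := (Nat.card_ne_zero.1 h3.ne').1
    obtain ⟨i, hi⟩ := e3 h1.some
    exact ⟨i, hi⟩
  rw [h60, Fin.sum_univ_five] at hsum
  have hone' : δ 0 = 1 ∨ δ 1 = 1 ∨ δ 2 = 1 ∨ δ 3 = 1 ∨ δ 4 = 1 := by
    obtain ⟨i, hi⟩ := hone
    fin_cases i <;> simp_all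
  have hthree' : δ 0 = 3 ∨ δ 1 = 3 ∨ δ 2 = 3 ∨ δ 3 = 3 ∨ δ 4 = 3 := by
    obtain ⟨i, hi⟩ := hthree
    fin_cases i <;> simp_all
  have key := arith60 (δ 0) (h8 0) (δ 1) (h8 1) (δ 2) (h8 2) (δ 3) (h8 3) (δ 4) (h8 4) hsum
    ⟨hδ 0, hδ 1, hδ 2, hδ 3, hδ 4⟩ hone' hthree'
  unfold N
  rw [Nat.card_congr e1, Nat.card_eq_fintype_card, Fintype.card_subtype, Finset.card_filter,
    Fin.sum_univ_five]
  exact key

private theorem sixty_aux {K : Type} [Group K] [Finite K] (hK : NoIdx2 K) (c : Cls K 3)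
    (hker : kerC c = ⊥) (hsd : Has SelfDual c) (h60 : Nat.card K = 60) :
    N K 3 = 2 ∧ N K 1 = 1 := by
  have hN : 0 < N K 3 := by
    have := finite_cls K 3
    have : Nonempty (Cls K 3) := ⟨c⟩
    exact Nat.card_pos
  revert hker hsd
  refine cls_ind (q := fun c => kerC c = ⊥ → Has SelfDual c →
    N K 3 = 2 ∧ N K 1 = 1) (fun ρ h hker hsd => ?_) c
  rw [kerC_mk] at hker
  rw [has_mk (fun _ _ => SelfDual.of_sim)] at hsd
  obtain ⟨P, hP, hPs, hinv, hdet⟩ := orthogonal_of_selfDual hK (by decide : Odd 3) h hsd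
  obtain ⟨Ω, i1, i2, ⟨pa⟩⟩ := exists_poleAction h hker P hP hPs hinv hdet
  have := nontriv h
  rcases pole_classification pa with h12 | h24 | ⟨_, a, b, c, ha, hb, hc, hall⟩
  · omega
  · omega
  obtain ⟨hord, hst⟩ := order_of_60 pa a b c ha hb hc hall
  obtain ⟨n2, n3, n5⟩ := count_of_60 pa h60 a b c ha hb hc hall
  have hcen := centralizer_of_60 pa hord hst
  have hcc : Nat.card (ConjClasses K) = 5 :=
    card_conjClasses_of_60 h60 hord n2 n3 n5 (fun g => (hcen g).1) (fun g => (hcen g).2.1)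
      (fun g => (hcen g).2.2)
  exact ⟨N_three_of_card_60 h60 hcc hN, N_one_of_card_60 h60 hcc hN⟩

/-- the quotient of order sixty -/
theorem sixty {X : Type} [Group X] [Finite X] (hX : NoIdx2 X) (c : Cls X 3)
    (hc : Has SelfDual c) (h60 : (kerC c).index = 60) :
    N (X ⧸ kerC c) 3 = 2 ∧ N (X ⧸ kerC c) 1 = 1 := by
  obtain ⟨c', hker, hsd⟩ := exists_faithful c
  exact sixty_aux (hX.quotient (kerC c)) c' hker (hsd hc) h60

/-- a self-dual class of degree three of a soluble group has a kernel of index 12 or 24 -/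
theorem kernel_index_of_solvable {X : Type} [Group X] [Finite X] (hs : Group.IsSolvable X)
    (hX : NoIdx2 X) (c : Cls X 3) (hc : Has SelfDual c) :
    (kerC c).index = 12 ∨ (kerC c).index = 24 := by
  rcases kernel_index hX c hc with h | h | h
  · exact Or.inl h
  · exact Or.inr h
  · exfalso
    obtain ⟨-, h1⟩ := sixty hX c hc h
    rw [N_one, Subgroup.index_eq_one] at h1
    have hs' : Group.IsSolvable (X ⧸ kerC c) := inferInstance
    have hnt : Nontrivial (X ⧸ kerC c) := by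
      rw [← Finite.one_lt_card_iff_nontrivial]
      have h2 : Nat.card (X ⧸ kerC c) = 60 := h
      omega
    exact (Group.IsSolvable.commutator_lt_top_of_nontrivial (X ⧸ kerC c)).ne h1

end Pool.Agent.CGSR
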